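import Pool.Agent.Lib.MP_5d4057_al.WR.Defs

/-! Passing to a subgroup of finite index. -/

set_option autoImplicit false

namespace Pool.Agent.Lib.MP_5d4057_al.WR

open Matrix MeasureTheory Filter Topology Pool.Agent.Lib.MP_5d4057_al
  Pool.Agent.Lib.MP_5d4057_al.Hyb Pool.Agent.Lib.MP_5d4057_al.HM Pool.Agent.Lib.MP_5d4057_al.NU
  Pool.Agent.Lib.MP_5d4057_al.IN.D

open scoped ComplexOrder MatrixOrder Matrix.Norms.L2Operator ENNReal

variable {n : ℕ}

private theorem cj_add' (g : SUGroup n) (A B : Mat (n + 1)) : cj g (A + B) = cj g A + cj g B := by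
  simp only [cj, Matrix.mul_add, Matrix.add_mul]

private theorem cj_sub' (g : SUGroup n) (A B : Mat (n + 1)) : cj g (A - B) = cj g A - cj g B := by
  simp only [cj, Matrix.mul_sub, Matrix.sub_mul]

private theorem cj_smul' (g : SUGroup n) (c : ℂ) (A : Mat (n + 1)) : cj g (c • A) = c • cj g A := by
  simp only [cj, Matrix.mul_smul, Matrix.smul_mul]

private theorem cj_sum' {ι : Type*} (s : Finset ι) (g : SUGroup n) (A : ι → Mat (n + 1)) :
    cj g (∑ i ∈ s, A i) = ∑ i ∈ s, cj g (A i) := by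
  simp only [cj, Matrix.mul_sum, Matrix.sum_mul]

private theorem cj_mul' (g h : SUGroup n) (A : Mat (n + 1)) : cj (g * h) A = cj g (cj h A) := by
  simp only [cj, _root_.mul_inv_rev, toMatrix_mul, Matrix.mul_assoc]

/-- If the cocycle is the coboundary of `B'` on a subgroup of finite index, `κ'(x) = κ x - (B' - cj x B')`
is constant on the left cosets `x Γ'`; `B = B' + (mean of κ' over Γ / Γ')`. -/
theorem cob_of_fi {Γ Γ' : Subgroup (SUGroup n)} (hle : Γ' ≤ Γ) (hfi : Γ'.relIndex Γ ≠ 0)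
    {κ : Γ → Mat (n + 1)} (hκ : Cocy Γ κ) {B' : Mat (n + 1)} (htr : B'.trace = 0)
    (h : ∀ (x : SUGroup n) (hx : x ∈ Γ'), κ ⟨x, hle hx⟩ = B' - cj x B') :
    ∃ B : Mat (n + 1), B.trace = 0 ∧ ∀ x : Γ, κ x = B - cj (x : SUGroup n) B := by
  classical
  have hfi' : (Γ'.subgroupOf Γ).FiniteIndex := ⟨hfi⟩
  set K : Γ → Mat (n + 1) := fun x => κ x - (B' - cj (x : SUGroup n) B') with hK
  have hmul : ∀ x y : Γ, K (x * y) = K x + cj (x : SUGroup n) (K y) := by
    intro x y
    simp only [hK, hκ.mul, cj_sub', Subgroup.coe_mul, cj_mul']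
    abel
  have hinv : ∀ x y : Γ, (y : SUGroup n) ∈ Γ' → K (x * y) = K x := by
    intro x y hy
    have hy0 : K y = 0 := by
      simp only [hK]
      have := h y hy
      rw [show (⟨(y : SUGroup n), hle hy⟩ : Γ) = y from rfl] at this
      rw [this, sub_self]
    rw [hmul, hy0]
    simp [cj]
  let Q := Γ ⧸ (Γ'.subgroupOf Γ)
  have : Fintype Q := Fintype.ofFinite Q
  let KQ : Q → Mat (n + 1) := Quotient.lift K (by
    intro a b hab
    have hab' : a⁻¹ * b ∈ Γ'.subgroupOf Γ := QuotientGroup.leftRel_apply.1 hab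
    have := hinv a (a⁻¹ * b) (Subgroup.mem_subgroupOf.1 hab')
    rw [mul_inv_cancel_left] at this
    exact this.symm)
  have hKQ : ∀ a : Γ, KQ (QuotientGroup.mk a) = K a := fun a => rfl
  have hne : ((Fintype.card Q : ℕ) : ℂ) ≠ 0 := by
    have : Nonempty Q := ⟨QuotientGroup.mk 1⟩
    exact_mod_cast Fintype.card_ne_zero
  have hKtr : ∀ x : Γ, (K x).trace = 0 := by
    intro x
    simp only [hK, Matrix.trace_sub, hκ.tr, htr, zero_sub, sub_neg_eq_add, zero_add, cj]
    rw [Matrix.trace_mul_comm, ← Matrix.mul_assoc, ← toMatrix_mul, inv_mul_cancel,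
      toMatrix_one, Matrix.one_mul, htr]
  set M : Mat (n + 1) := ((Fintype.card Q : ℕ) : ℂ)⁻¹ • ∑ c : Q, KQ c with hM
  have hMy : ∀ y : Γ, M = K y + cj (y : SUGroup n) M := by
    intro y
    have hsum : ∑ c : Q, KQ c = ∑ c : Q, KQ (y • c) :=
      (Equiv.sum_comp (MulAction.toPerm y : Equiv.Perm Q) KQ).symm
    have hy : ∀ c : Q, KQ (y • c) = K y + cj (y : SUGroup n) (KQ c) := by
      intro c
      induction c using QuotientGroup.induction_on with
      | H a => exact hmul y a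
    rw [hM, cj_smul', cj_sum']
    conv_lhs => rw [hsum]
    simp only [hy, Finset.sum_add_distrib, Finset.sum_const, Finset.card_univ, smul_add]
    rw [← Nat.cast_smul_eq_nsmul ℂ, smul_smul, inv_mul_cancel₀ hne, one_smul]
  refine ⟨B' + M, ?_, ?_⟩
  · rw [Matrix.trace_add, htr, hM, Matrix.trace_smul, Matrix.trace_sum, zero_add]
    have : ∀ c : Q, (KQ c).trace = 0 := by
      intro c
      induction c using QuotientGroup.induction_on with
      | H a => exact hKtr a
    simp [this]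
  · intro x
    have h1 := hMy x
    have h2 : K x = M - cj (x : SUGroup n) M := by rw [eq_sub_iff_add_eq]; exact h1.symm
    have h3 : κ x = K x + (B' - cj (x : SUGroup n) B') := by simp [hK]
    rw [h3, h2, cj_add']
    abel

theorem Cocy.sub {Γ Γ' : Subgroup (SUGroup n)} (hle : Γ' ≤ Γ) {κ : Γ → Mat (n + 1)}
    (hκ : Cocy Γ κ) : Cocy Γ' fun x => κ ⟨x, hle x.2⟩ where
  mul x y := hκ.mul ⟨x, hle x.2⟩ ⟨y, hle y.2⟩
  tr _ := hκ.tr _

end Pool.Agent.Lib.MP_5d4057_al.WR
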