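import Pool.Agent.Lib.MP_5d4057_al.WR.Main
import Pool.Agent.Lib.MP_5d4057_al.WR.Red
import Pool.Agent.Lib.MP_5d4057_al.NU.ThmL

/-! THEOREM (III): `H¹(Γ, sl (n + 1)) = 0` for lattices of `SU(n,1)`, `n ≥ 5`. -/

set_option autoImplicit false

namespace Pool.Agent.Lib.MP_5d4057_al.WR

open Matrix MeasureTheory Filter Topology Pool.Agent.Lib.MP_5d4057_al
  Pool.Agent.Lib.MP_5d4057_al.Hyb Pool.Agent.Lib.MP_5d4057_al.HM Pool.Agent.Lib.MP_5d4057_al.NU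
  Pool.Agent.Lib.MP_5d4057_al.IN.D

open scoped ComplexOrder MatrixOrder Matrix.Norms.L2Operator ENNReal

variable {n : ℕ}

theorem h1_sl (hn : 5 ≤ n) {Γ : Subgroup (SUGroup n)} (hL : IsLattice Γ) (hf : FGG Γ)
    (κ : Γ → Mat (n + 1)) (hκ : ∀ x y : Γ, κ (x * y) = κ x +
      (x : SUGroup n).toMatrix * κ y * ((x : SUGroup n)⁻¹).toMatrix)
    (htr : ∀ x : Γ, (κ x).trace = 0) :
    ∃ B : Mat (n + 1), B.trace = 0 ∧ ∀ x : Γ, κ x =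
      B - (x : SUGroup n).toMatrix * B * ((x : SUGroup n)⁻¹).toMatrix := by
  obtain ⟨χ, hχ⟩ := exists_lat hL
  obtain ⟨Γ', hle, hfi, _, hTor⟩ := exists_tor hf
  obtain ⟨χ', hχ'⟩ := hχ.finite_index hle hfi
  have hT := tf_of_tor hχ'.disc hTor
  have hc : Cocy Γ κ := ⟨hκ, htr⟩
  obtain ⟨B', htr', h⟩ := h1_tf hn hχ' hT hTor (hc.sub hle)
  exact cob_of_fi hle hfi hc htr' fun x hx => h ⟨x, hx⟩

end Pool.Agent.Lib.MP_5d4057_al.WR
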