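import Pool.Agent.Lib.MP_5d4057_al.IN.DDef

/-! The algebra of the vanishing theorem of Weil: the quadratic form of Matsushima and Murakami on
`Hom(p, sl(n + 1))` is positive definite for `n ≥ 2`. -/

set_option autoImplicit false

namespace Pool.Agent.Lib.MP_5d4057_al.WR

open Matrix Pool.Agent.Lib.MP_5d4057_al Pool.Agent.Lib.MP_5d4057_al.Hyb
  Pool.Agent.Lib.MP_5d4057_al.HM Pool.Agent.Lib.MP_5d4057_al.IN.D

variable {n : ℕ}

/-- The commutator. -/
def cm {m : ℕ} (A B : Mat m) : Mat m := A * B - B * A

/-- The matrix unit in the last column. -/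
def eu (i : Fin n) : Mat (n + 1) := Matrix.single i.castSucc (Fin.last n) 1

/-- The matrix unit in the last row. -/
def ed (i : Fin n) : Mat (n + 1) := Matrix.single (Fin.last n) i.castSucc 1

theorem cm_eu (i : Fin n) (M : Mat (n + 1)) (k l : Fin (n + 1)) :
    cm (eu i) M k l = (if k = i.castSucc then M (Fin.last n) l else 0) -
      (if l = Fin.last n then M k i.castSucc else 0) := by
  rw [cm, eu, Matrix.sub_apply]
  congr 1
  · split_ifs with h
    · rw [h, Matrix.single_mul_apply_same, one_mul]
    · rw [Matrix.single_mul_apply_of_ne]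
      exact h
  · split_ifs with h
    · rw [h, Matrix.mul_single_apply_same, mul_one]
    · rw [Matrix.mul_single_apply_of_ne]
      exact h

theorem cm_ed (i : Fin n) (M : Mat (n + 1)) (k l : Fin (n + 1)) :
    cm (ed i) M k l = (if k = Fin.last n then M i.castSucc l else 0) -
      (if l = i.castSucc then M k (Fin.last n) else 0) := by
  rw [cm, ed, Matrix.sub_apply]
  congr 1
  · split_ifs with h
    · rw [h, Matrix.single_mul_apply_same, one_mul]
    · rw [Matrix.single_mul_apply_of_ne]
      exact h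
  · split_ifs with h
    · rw [h, Matrix.mul_single_apply_same, mul_one]
    · rw [Matrix.mul_single_apply_of_ne]
      exact h

theorem exists_ne_ix (hn : 2 ≤ n) (j : Fin n) : ∃ i : Fin n, i ≠ j := by
  have : Nontrivial (Fin n) := Fin.nontrivial_iff_two_le.2 hn
  exact exists_ne j

/-- If the upper left block of a trace free matrix is scalar with the value of the last entry, it
vanishes. -/
theorem blk_zero {M : Mat (n + 1)} (htr : M.trace = 0)
    (h : ∀ k i : Fin n, M k.castSucc i.castSucc = if k = i then M (Fin.last n) (Fin.last n) else 0) :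
    M (Fin.last n) (Fin.last n) = 0 ∧ ∀ k i : Fin n, M k.castSucc i.castSucc = 0 := by
  have h1 : M (Fin.last n) (Fin.last n) = 0 := by
    rw [Matrix.trace, Fin.sum_univ_castSucc] at htr
    simp only [Matrix.diag_apply, h, if_true, Finset.sum_const, Finset.card_univ,
      Fintype.card_fin, nsmul_eq_mul] at htr
    have h2 : ((n : ℂ) + 1) * M (Fin.last n) (Fin.last n) = 0 := by linear_combination htr
    rcases mul_eq_zero.1 h2 with h3 | h3
    · exact absurd h3 (by exact_mod_cast Nat.succ_ne_zero n)
    · exact h3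
  refine ⟨h1, fun k i => ?_⟩
  rw [h, h1, ite_self]

/-- The complex form of the algebraic vanishing. -/
theorem core_zero (hn : 2 ≤ n) {α β : Fin n → Mat (n + 1)} (hα : ∀ i, (α i).trace = 0)
    (hβ : ∀ i, (β i).trace = 0) (h1 : ∀ i j, cm (eu i) (α j) = cm (eu j) (α i))
    (h2 : ∀ i j, cm (ed i) (β j) = cm (ed j) (β i))
    (h3 : ∀ i j, cm (eu i) (β j) = cm (ed j) (α i))
    (h4 : ∑ i, (cm (eu i) (β i) + cm (ed i) (α i)) = 0) :
    (∀ i, α i = 0) ∧ ∀ i, β i = 0 := by
  have hne : ∀ k : Fin n, k.castSucc ≠ Fin.last n := fun k => (Fin.castSucc_lt_last k).ne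
  have hne' : ∀ k : Fin n, Fin.last n ≠ k.castSucc := fun k => (Fin.castSucc_lt_last k).ne'
  have hcs : ∀ k l : Fin n, k.castSucc = l.castSucc ↔ k = l := fun k l =>
    (Fin.castSucc_injective n).eq_iff
  -- the rows of `α` and the columns of `β`
  have a1 : ∀ j l : Fin n, α j (Fin.last n) l.castSucc = 0 := by
    intro j l
    obtain ⟨i, hij⟩ := exists_ne_ix hn j
    have e := congrFun (congrFun (h1 i j) i.castSucc) l.castSucc
    rw [cm_eu, cm_eu] at e
    simpa [hne l, hcs, hij] using e
  have b1 : ∀ j k : Fin n, β j k.castSucc (Fin.last n) = 0 := by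
    intro j k
    obtain ⟨i, hij⟩ := exists_ne_ix hn j
    have e := congrFun (congrFun (h2 i j) k.castSucc) i.castSucc
    rw [cm_ed, cm_ed] at e
    simpa [hne k, hcs, hij] using e
  -- the blocks
  have b2 : ∀ j k i : Fin n, β j k.castSucc i.castSucc =
      if k = i then β j (Fin.last n) (Fin.last n) else 0 := by
    intro j k i
    have e := congrFun (congrFun (h3 i j) k.castSucc) (Fin.last n)
    rw [cm_eu, cm_ed] at e
    simp only [hcs, if_true, hne k, hne' j, if_false, sub_zero] at e
    exact (sub_eq_zero.1 e).symm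
  have a2 : ∀ i j l : Fin n, α i j.castSucc l.castSucc =
      if j = l then α i (Fin.last n) (Fin.last n) else 0 := by
    intro i j l
    have e := congrFun (congrFun (h3 i j) (Fin.last n)) l.castSucc
    rw [cm_eu, cm_ed] at e
    simp only [hcs, if_true, hne l, hne' i, if_false, sub_zero] at e
    rw [eq_comm, sub_eq_zero] at e
    rw [e]
    by_cases hjl : j = l
    · simp [hjl]
    · simp [hjl, Ne.symm hjl]
  have a3 := fun i => blk_zero (hα i) (a2 i)
  have b3 := fun j => blk_zero (hβ j) (b2 j)
  -- the remaining entries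
  have ab : ∀ i j k l : Fin n, (if k = i then β j (Fin.last n) l.castSucc else 0) =
      -(if l = j then α i k.castSucc (Fin.last n) else 0) := by
    intro i j k l
    have e := congrFun (congrFun (h3 i j) k.castSucc) l.castSucc
    rw [cm_eu, cm_ed] at e
    simp only [hcs, hne l, hne k, if_false, sub_zero, zero_sub] at e
    exact e
  have hn0 : 0 < n := by omega
  obtain ⟨c, hc⟩ : ∃ c : ℂ, c = β ⟨0, hn0⟩ (Fin.last n) (⟨0, hn0⟩ : Fin n).castSucc := ⟨_, rfl⟩
  have a4 : ∀ i k : Fin n, α i k.castSucc (Fin.last n) = if k = i then -c else 0 := by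
    intro i k
    by_cases hk : k = i
    · have e := ab i ⟨0, hn0⟩ k ⟨0, hn0⟩
      rw [if_pos hk, if_pos rfl, ← hc] at e
      rw [if_pos hk, e, neg_neg]
    · have e := ab i ⟨0, hn0⟩ k ⟨0, hn0⟩
      rw [if_neg hk, if_pos rfl] at e
      rw [if_neg hk]
      exact neg_eq_zero.1 e.symm
  have b4 : ∀ j l : Fin n, β j (Fin.last n) l.castSucc = if l = j then c else 0 := by
    intro j l
    have e := ab ⟨0, hn0⟩ j ⟨0, hn0⟩ l
    rw [if_pos rfl, a4 ⟨0, hn0⟩ ⟨0, hn0⟩, if_pos rfl] at e
    rw [e]
    by_cases hl : l = j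
    · simp [hl]
    · simp [hl]
  have hc0 : c = 0 := by
    have e := congrFun (congrFun h4 (Fin.last n)) (Fin.last n)
    rw [Matrix.sum_apply] at e
    simp only [Matrix.add_apply, cm_eu, cm_ed, hne', if_false, if_true, zero_sub, sub_zero, a4, b4,
      Finset.sum_const, Finset.card_univ, Fintype.card_fin, Matrix.zero_apply, nsmul_eq_mul] at e
    have h5 : (n : ℂ) * c = 0 := by linear_combination (-1 / 2 : ℂ) * e
    rcases mul_eq_zero.1 h5 with h6 | h6
    · exact absurd h6 (by exact_mod_cast hn0.ne')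
    · exact h6
  refine ⟨fun i => ?_, fun j => ?_⟩
  · ext k l
    refine Fin.lastCases ?_ (fun k => ?_) k
    · refine Fin.lastCases ?_ (fun l => ?_) l
      · exact (a3 i).1
      · exact a1 i l
    · refine Fin.lastCases ?_ (fun l => ?_) l
      · rw [a4, hc0, neg_zero, ite_self]
        rfl
      · exact (a3 i).2 k l
  · ext k l
    refine Fin.lastCases ?_ (fun k => ?_) k
    · refine Fin.lastCases ?_ (fun l => ?_) l
      · exact (b3 j).1
      · rw [b4, hc0, ite_self]
        rfl
    · refine Fin.lastCases ?_ (fun l => ?_) l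
      · exact b1 j k
      · exact (b3 j).2 k l

theorem cm_add_left {m : ℕ} (A B C : Mat m) : cm (A + B) C = cm A C + cm B C := by
  simp only [cm, add_mul, mul_add]
  abel

theorem cm_add_right {m : ℕ} (A B C : Mat m) : cm A (B + C) = cm A B + cm A C := by
  simp only [cm, add_mul, mul_add]
  abel

theorem cm_smul_left {m : ℕ} (c : ℂ) (A B : Mat m) : cm (c • A) B = c • cm A B := by
  simp only [cm, smul_mul_assoc, mul_smul_comm, smul_sub]

theorem cm_smul_right {m : ℕ} (c : ℂ) (A B : Mat m) : cm A (c • B) = c • cm A B := by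
  simp only [cm, smul_mul_assoc, mul_smul_comm, smul_sub]

theorem cm_sub_left {m : ℕ} (A B C : Mat m) : cm (A - B) C = cm A C - cm B C := by
  simp only [cm, sub_mul, mul_sub]
  abel

theorem cm_sub_right {m : ℕ} (A B C : Mat m) : cm A (B - C) = cm A B - cm A C := by
  simp only [cm, sub_mul, mul_sub]
  abel

/-- The coefficient of `X_a`. -/
noncomputable def xc (a : Ix n) : ℂ := if a.2 then Complex.I else 1

theorem vec_pi_single (j : Fin n) (c : ℂ) :
    HM.vec (Pi.single j c : Fin n → ℂ) = Pi.single j.castSucc c := by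
  ext k
  refine Fin.lastCases ?_ (fun k => ?_) k
  · rw [Kak.vec_last, Pi.single_eq_of_ne (Fin.castSucc_lt_last j).ne']
  · rw [Kak.vec_castSucc]
    by_cases h : k = j
    · subst h
      rw [Pi.single_eq_same, Pi.single_eq_same]
    · rw [Pi.single_eq_of_ne h, Pi.single_eq_of_ne fun e => h (Fin.castSucc_injective n e)]

theorem Xa_eq (a : Ix n) : Xa a = xc a • eu a.1 + star (xc a) • ed a.1 := by
  rw [Xa, xmat, xi, vec_pi_single]
  change vecMulVec (Pi.single a.1.castSucc (xc a)) (base n) +
    vecMulVec (base n) (star (Pi.single a.1.castSucc (xc a))) = _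
  rw [eu, ed, Matrix.smul_single, Matrix.smul_single, smul_eq_mul, smul_eq_mul, mul_one, mul_one]
  congr 1
  · ext k l
    rw [vecMulVec_apply, base, Matrix.single_apply]
    by_cases hk : a.1.castSucc = k
    · by_cases hl : Fin.last n = l
      · subst hk hl
        simp
      · subst hk
        rw [Pi.single_eq_of_ne (Ne.symm hl), mul_zero, if_neg fun h => hl h.2]
    · rw [Pi.single_eq_of_ne (Ne.symm hk), zero_mul, if_neg fun h => hk h.1]
  · ext k l
    rw [vecMulVec_apply, base, Matrix.single_apply, Pi.star_apply]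
    by_cases hk : Fin.last n = k
    · by_cases hl : a.1.castSucc = l
      · subst hk hl
        simp
      · subst hk
        rw [Pi.single_eq_of_ne (Ne.symm hl), star_zero, mul_zero, if_neg fun h => hl h.2]
    · rw [Pi.single_eq_of_ne (Ne.symm hk), zero_mul, if_neg fun h => hk h.1]

theorem Xa_false (i : Fin n) : Xa (i, false) = eu i + ed i := by
  rw [Xa_eq]
  simp [xc]

theorem Xa_true (i : Fin n) : Xa (i, true) = Complex.I • eu i - Complex.I • ed i := by
  rw [Xa_eq]
  simp [xc, sub_eq_add_neg]

theorem two_eu (i : Fin n) :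
    (2 : ℂ) • eu i = Xa (i, false) - Complex.I • Xa (i, true) := by
  rw [Xa_false, Xa_true, smul_sub, smul_smul, smul_smul, Complex.I_mul_I]
  module

theorem two_ed (i : Fin n) :
    (2 : ℂ) • ed i = Xa (i, false) + Complex.I • Xa (i, true) := by
  rw [Xa_false, Xa_true, smul_sub, smul_smul, smul_smul, Complex.I_mul_I]
  module

/-- The algebraic vanishing: the quadratic form of Matsushima and Murakami is positive definite. -/
theorem alg_zero (hn : 2 ≤ n) {η : Ix n → Mat (n + 1)} (htr : ∀ a, (η a).trace = 0)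
    (h1 : ∀ a b, cm (Xa a) (η b) = cm (Xa b) (η a)) (h2 : ∑ a, cm (Xa a) (η a) = 0) :
    ∀ a, η a = 0 := by
  obtain ⟨α, hα⟩ : ∃ α : Fin n → Mat (n + 1), α = fun i =>
    η (i, false) - Complex.I • η (i, true) := ⟨_, rfl⟩
  obtain ⟨β, hβ⟩ : ∃ β : Fin n → Mat (n + 1), β = fun i =>
    η (i, false) + Complex.I • η (i, true) := ⟨_, rfl⟩
  have two : ∀ {A B : Mat (n + 1)}, (2 : ℂ) • A = (2 : ℂ) • B → A = B := fun {A B} h =>
    smul_right_injective _ (two_ne_zero (α := ℂ)) h
  have key := core_zero hn (α := α) (β := β)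
    (fun i => by rw [hα]; simp only [trace_sub, trace_smul, htr, smul_zero, sub_zero])
    (fun i => by rw [hβ]; simp only [trace_add, trace_smul, htr, smul_zero, add_zero])
    (fun i j => two (by
      rw [← cm_smul_left, ← cm_smul_left, two_eu, two_eu, hα]
      simp only [cm_sub_left, cm_sub_right, cm_smul_left, cm_smul_right]
      rw [h1 (i, false) (j, false), h1 (i, false) (j, true), h1 (i, true) (j, false),
        h1 (i, true) (j, true)]
      module))
    (fun i j => two (by
      rw [← cm_smul_left, ← cm_smul_left, two_ed, two_ed, hβ]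
      simp only [cm_add_left, cm_add_right, cm_smul_left, cm_smul_right]
      rw [h1 (i, false) (j, false), h1 (i, false) (j, true), h1 (i, true) (j, false),
        h1 (i, true) (j, true)]
      module))
    (fun i j => two (by
      rw [← cm_smul_left, ← cm_smul_left, two_eu, two_ed, hα, hβ]
      simp only [cm_add_left, cm_sub_left, cm_add_right, cm_sub_right, cm_smul_left, cm_smul_right]
      rw [h1 (i, false) (j, false), h1 (i, false) (j, true), h1 (i, true) (j, false),
        h1 (i, true) (j, true)]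
      module))
    (two (by
      rw [smul_zero, Finset.smul_sum]
      have e : ∀ i : Fin n, (2 : ℂ) • (cm (eu i) (β i) + cm (ed i) (α i)) =
          (2 : ℂ) • (cm (Xa (i, false)) (η (i, false)) + cm (Xa (i, true)) (η (i, true))) := by
        intro i
        rw [smul_add, ← cm_smul_left, ← cm_smul_left, two_eu, two_ed, hα, hβ]
        simp only [cm_add_left, cm_sub_left, cm_add_right, cm_sub_right, cm_smul_left,
          cm_smul_right, smul_smul, Complex.I_mul_I]
        match_scalars <;> ring_nf <;> simp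
      rw [Finset.sum_congr rfl fun i _ => e i, ← Finset.smul_sum]
      have e2 : ∑ i : Fin n, (cm (Xa (i, false)) (η (i, false)) + cm (Xa (i, true)) (η (i, true))) =
          ∑ a : Ix n, cm (Xa a) (η a) := by
        rw [Fintype.sum_prod_type]
        refine Finset.sum_congr rfl fun i _ => ?_
        rw [Fintype.sum_bool]
        exact add_comm _ _
      rw [e2, h2, smul_zero]))
  have hf : ∀ i, η (i, false) = 0 := fun i => two (by
    have e1 : η (i, false) - Complex.I • η (i, true) = 0 := by
      have e := key.1 i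
      rw [hα] at e
      exact e
    have e2 : η (i, false) + Complex.I • η (i, true) = 0 := by
      have e := key.2 i
      rw [hβ] at e
      exact e
    calc (2 : ℂ) • η (i, false) = (η (i, false) - Complex.I • η (i, true)) +
        (η (i, false) + Complex.I • η (i, true)) := by module
      _ = (2 : ℂ) • 0 := by rw [e1, e2, add_zero, smul_zero])
  have ht : ∀ i, η (i, true) = 0 := fun i => by
    have e2 := key.2 i
    rw [hβ] at e2
    simp only [hf i, zero_add] at e2
    rcases smul_eq_zero.1 e2 with h | h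
    · exact absurd h Complex.I_ne_zero
    · exact h
  rintro ⟨i, b⟩
  cases b
  · exact hf i
  · exact ht i

/-- A trace free matrix which commutes with all `X_a` is zero. -/
theorem cent_zero {T : Mat (n + 1)} (htr : T.trace = 0) (hn : 1 ≤ n)
    (h : ∀ a : Ix n, cm (Xa a) T = 0) : T = 0 := by
  have two : ∀ {A B : Mat (n + 1)}, (2 : ℂ) • A = (2 : ℂ) • B → A = B := fun {A B} h =>
    smul_right_injective _ (two_ne_zero (α := ℂ)) h
  have h1 : ∀ i : Fin n, cm (eu i) T = 0 := fun i => two (by
    rw [← cm_smul_left, two_eu, cm_sub_left, cm_smul_left, h, h]; simp)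
  have h2 : ∀ i : Fin n, cm (ed i) T = 0 := fun i => two (by
    rw [← cm_smul_left, two_ed, cm_add_left, cm_smul_left, h, h]; simp)
  have hne : ∀ k : Fin n, k.castSucc ≠ Fin.last n := fun k => (Fin.castSucc_lt_last k).ne
  have hne' : ∀ k : Fin n, Fin.last n ≠ k.castSucc := fun k => (Fin.castSucc_lt_last k).ne'
  have hcs : ∀ k l : Fin n, k.castSucc = l.castSucc ↔ k = l := fun k l =>
    (Fin.castSucc_injective n).eq_iff
  have a1 : ∀ l : Fin n, T (Fin.last n) l.castSucc = 0 := by
    intro l
    have e := congrFun (congrFun (h1 l) l.castSucc) l.castSucc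
    rw [cm_eu] at e
    simpa [hne l] using e
  have b1 : ∀ k : Fin n, T k.castSucc (Fin.last n) = 0 := by
    intro k
    have e := congrFun (congrFun (h2 k) k.castSucc) k.castSucc
    rw [cm_ed] at e
    simpa [hne k] using e
  have b2 : ∀ k i : Fin n, T k.castSucc i.castSucc =
      if k = i then T (Fin.last n) (Fin.last n) else 0 := by
    intro k i
    have e := congrFun (congrFun (h1 i) k.castSucc) (Fin.last n)
    rw [cm_eu] at e
    simp only [hcs, if_true, Matrix.zero_apply] at e
    exact (sub_eq_zero.1 e).symm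
  have _ := hn
  have b3 := blk_zero htr b2
  ext k l
  refine Fin.lastCases ?_ (fun k => ?_) k
  · refine Fin.lastCases ?_ (fun l => ?_) l
    · exact b3.1
    · exact a1 l
  · refine Fin.lastCases ?_ (fun l => ?_) l
    · exact b1 k
    · exact b3.2 k l

/-- The real scalar product. -/
def ip {m : ℕ} (A B : Mat m) : ℝ := ((A * Bᴴ).trace).re

theorem ip_add_left {m : ℕ} (A B C : Mat m) : ip (A + B) C = ip A C + ip B C := by
  simp [ip, add_mul]

theorem ip_sub_left {m : ℕ} (A B C : Mat m) : ip (A - B) C = ip A C - ip B C := by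
  simp [ip, sub_mul]

theorem ip_comm {m : ℕ} (A B : Mat m) : ip A B = ip B A := by
  unfold ip
  have h : (B * Aᴴ).trace = star (A * Bᴴ).trace := by
    rw [← Matrix.trace_conjTranspose, conjTranspose_mul, conjTranspose_conjTranspose]
  rw [h]
  simp

theorem ip_add_right {m : ℕ} (A B C : Mat m) : ip A (B + C) = ip A B + ip A C := by
  rw [ip_comm, ip_add_left, ip_comm B, ip_comm C]

theorem ip_sub_right {m : ℕ} (A B C : Mat m) : ip A (B - C) = ip A B - ip A C := by
  rw [ip_comm, ip_sub_left, ip_comm B, ip_comm C]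

theorem ip_sum_left {m : ℕ} {ι : Type} (s : Finset ι) (A : ι → Mat m) (B : Mat m) :
    ip (∑ i ∈ s, A i) B = ∑ i ∈ s, ip (A i) B := by
  simp [ip, Finset.sum_mul, Matrix.trace_sum]

theorem ip_sum_right {m : ℕ} {ι : Type} (s : Finset ι) (A : ι → Mat m) (B : Mat m) :
    ip B (∑ i ∈ s, A i) = ∑ i ∈ s, ip B (A i) := by
  rw [ip_comm, ip_sum_left]
  exact Finset.sum_congr rfl fun i _ => ip_comm _ _

theorem ip_self {m : ℕ} (A : Mat m) : ip A A = ∑ i, ∑ j, ‖A i j‖ ^ 2 := by
  unfold ip
  rw [Matrix.trace, Complex.re_sum]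
  refine Finset.sum_congr rfl fun i _ => ?_
  rw [Matrix.diag_apply, Matrix.mul_apply, Complex.re_sum]
  refine Finset.sum_congr rfl fun j _ => ?_
  rw [Matrix.conjTranspose_apply, Complex.star_def, Complex.mul_conj, Complex.ofReal_re,
    Complex.normSq_eq_norm_sq]

theorem ip_self_nonneg {m : ℕ} (A : Mat m) : 0 ≤ ip A A := by
  rw [ip_self]
  positivity

theorem ip_self_zero {m : ℕ} {A : Mat m} (h : ip A A = 0) : A = 0 := by
  rw [ip_self, Finset.sum_eq_zero_iff_of_nonneg fun i _ => by positivity] at h
  ext i j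
  have h1 := h i (Finset.mem_univ i)
  rw [Finset.sum_eq_zero_iff_of_nonneg fun i _ => by positivity] at h1
  simpa using h1 j (Finset.mem_univ j)

/-- `ad X` is self-adjoint for hermitian `X`. -/
theorem ip_cm {m : ℕ} {X : Mat m} (hX : Xᴴ = X) (A B : Mat m) : ip (cm X A) B = ip A (cm X B) := by
  unfold ip cm
  rw [conjTranspose_sub, conjTranspose_mul, conjTranspose_mul, hX, sub_mul, mul_sub, trace_sub,
    trace_sub, Matrix.mul_assoc X A, Matrix.trace_mul_comm X, Matrix.mul_assoc A X,
    Matrix.mul_assoc A]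

theorem Xa_herm (a : Ix n) : (Xa a)ᴴ = Xa a := by
  rw [Xa_eq, conjTranspose_add, conjTranspose_smul, conjTranspose_smul, star_star, eu, ed,
    conjTranspose_single, conjTranspose_single, star_one]
  exact add_comm _ _

/-- The pointwise identity: `b a b` are the derivatives `X_a η_b`, `c a b = [X_a, η_b]`. -/
theorem sq_ident {ι : Type} [Fintype ι] {m : ℕ} (b c : ι → ι → Mat m) :
    (∑ x, ∑ y, ip (b x y + c x y - b y x - c y x) (b x y + c x y - b y x - c y x)) / 2 +
      ip (∑ x, (c x x - b x x)) (∑ x, (c x x - b x x)) =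
    (∑ x, ∑ y, ip (b x y - b y x) (b x y - b y x)) / 2 + ip (∑ x, b x x) (∑ x, b x x) +
    ((∑ x, ∑ y, ip (c x y - c y x) (c x y - c y x)) / 2 + ip (∑ x, c x x) (∑ x, c x x)) +
    ∑ x, ∑ y, (2 * ip (b x y) (c x y) - 2 * ip (b x y) (c y x) - 2 * ip (b x x) (c y y)) := by
  have e1 : ∀ x y, ip (b x y + c x y - b y x - c y x) (b x y + c x y - b y x - c y x) =
      ip (b x y - b y x) (b x y - b y x) + ip (c x y - c y x) (c x y - c y x) +
        2 * (ip (b x y) (c x y) - ip (b x y) (c y x)) +
        2 * (ip (b y x) (c y x) - ip (b y x) (c x y)) := by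
    intro x y
    simp only [ip_add_left, ip_sub_left, ip_add_right, ip_sub_right]
    rw [ip_comm (c x y) (b x y), ip_comm (c x y) (b y x), ip_comm (c y x) (b x y),
      ip_comm (c y x) (b y x)]
    ring
  have e2 : ∑ x, ∑ y, 2 * (ip (b y x) (c y x) - ip (b y x) (c x y)) =
      ∑ x, ∑ y, 2 * (ip (b x y) (c x y) - ip (b x y) (c y x)) := Finset.sum_comm
  have e3 : ip (∑ x, (c x x - b x x)) (∑ x, (c x x - b x x)) =
      ip (∑ x, c x x) (∑ x, c x x) + ip (∑ x, b x x) (∑ x, b x x) -
        2 * ip (∑ x, b x x) (∑ x, c x x) := by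
    rw [Finset.sum_sub_distrib, ip_sub_left, ip_sub_right, ip_sub_right,
      ip_comm (∑ x, c x x) (∑ x, b x x)]
    ring
  have e4 : ip (∑ x, b x x) (∑ x, c x x) = ∑ x, ∑ y, ip (b x x) (c y y) := by
    rw [ip_sum_left]
    exact Finset.sum_congr rfl fun x _ => ip_sum_right _ _ _
  simp only [e1, Finset.sum_add_distrib]
  rw [e2, e3, e4]
  simp only [Finset.sum_sub_distrib, ← Finset.mul_sum]
  ring

end Pool.Agent.Lib.MP_5d4057_al.WR
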