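import Pool.Agent.Lib.MP_5d4057_al.WR.Defs

/-! The base map on the cone from a base map on the group. -/

set_option autoImplicit false

namespace Pool.Agent.Lib.MP_5d4057_al.WR

open Matrix MeasureTheory Filter Topology Pool.Agent.Lib.MP_5d4057_al
  Pool.Agent.Lib.MP_5d4057_al.Hyb Pool.Agent.Lib.MP_5d4057_al.HM Pool.Agent.Lib.MP_5d4057_al.NU
  Pool.Agent.Lib.MP_5d4057_al.IN.D

open scoped ComplexOrder MatrixOrder Matrix.Norms.L2Operator ENNReal

variable {n : ℕ}

/-- two elements with the same image of the base point, up to scalars, differ by an element of the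
stabiliser -/
private theorem ch_rel {g g' : SUGroup n} {c : ℂ}
    (h : act g (base n) = c • act g' (base n)) : ch (g'⁻¹ * g) = 1 := by
  have h1 : act (g'⁻¹ * g) (base n) = c • base n := by
    rw [act_mul, h, act_smul, ← act_mul, inv_mul_cancel, act_one]
  have h2 : ‖c‖ = 1 := by
    have h3 := q_act (g'⁻¹ * g) (base n)
    rw [h1, q_smul, q_base] at h3
    have h4 : ‖c‖ ^ 2 = 1 := by linarith
    nlinarith [norm_nonneg c]
  exact (ch_eq_one_iff _).2 ⟨c, h2, h1⟩

private theorem f_eq {f : SUGroup n → Mat (n + 1)} (hi : ∀ g k, ch k = 1 → f (g * k) = f g)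
    {g g' : SUGroup n} {c : ℂ} (h : act g (base n) = c • act g' (base n)) : f g = f g' := by
  have h1 := hi g' (g'⁻¹ * g) (ch_rel h)
  rwa [mul_inv_cancel_left] at h1

private theorem continuousOn_sec' : ContinuousOn (sec n) (Cone n) := by
  rw [(isClosedEmbedding_toMatrix n).isInducing.continuousOn_iff]
  exact (contDiffOn_sec n).continuousOn

/-- the part of trace zero -/
private noncomputable def t0 (A : Mat (n + 1)) : Mat (n + 1) := A - (A.trace / (n + 1)) • 1

private theorem t0_trace (A : Mat (n + 1)) : (t0 A).trace = 0 := by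
  have h : ((n : ℂ) + 1) ≠ 0 := by exact_mod_cast (Nat.succ_ne_zero n)
  rw [t0, trace_sub, trace_smul, trace_one, Fintype.card_fin, smul_eq_mul]
  push_cast
  rw [div_mul_cancel₀ _ h, sub_self]

private theorem entry_le (A : Mat (n + 1)) (i j : Fin (n + 1)) : ‖A i j‖ ≤ ‖A‖ := by
  have h := A.l2_opNorm_mulVec (WithLp.toLp 2 (Pi.single j (1 : ℂ)))
  have h2 : ‖(WithLp.toLp 2 (A *ᵥ (Pi.single j (1 : ℂ))) :
      EuclideanSpace ℂ (Fin (n + 1)))‖ ≤ ‖A‖ := by
    refine h.trans (le_of_eq ?_)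
    simp
  have h3 := PiLp.norm_apply_le
    (WithLp.toLp 2 (A *ᵥ (Pi.single j (1 : ℂ))) : EuclideanSpace ℂ (Fin (n + 1))) i
  have h4 : (WithLp.toLp 2 (A *ᵥ (Pi.single j (1 : ℂ))) :
      EuclideanSpace ℂ (Fin (n + 1))) i = A i j := by
    simp
  rw [h4] at h3
  exact h3.trans h2

private theorem norm_trace_le (A : Mat (n + 1)) : ‖A.trace / (n + 1)‖ ≤ ‖A‖ := by
  have h : (0 : ℝ) < (n : ℝ) + 1 := by positivity
  have h1 : ‖A.trace‖ ≤ (n + 1) * ‖A‖ := by
    rw [trace]
    refine (norm_sum_le _ _).trans ?_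
    refine (Finset.sum_le_card_nsmul _ _ ‖A‖ fun i _ => entry_le A i i).trans ?_
    rw [Finset.card_univ, Fintype.card_fin, nsmul_eq_mul]
    push_cast
    exact le_rfl
  have h2 : ‖((n : ℂ) + 1)‖ = (n : ℝ) + 1 := by
    have : ((n : ℂ) + 1) = (((n : ℝ) + 1 : ℝ) : ℂ) := by push_cast; rfl
    rw [this, Complex.norm_real, Real.norm_of_nonneg h.le]
  rw [norm_div, h2, div_le_iff₀ h]
  linarith

private theorem norm_t0_le (A : Mat (n + 1)) : ‖t0 A‖ ≤ 2 * ‖A‖ := by
  have h1 := norm_trace_le A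
  have h2 : ‖(A.trace / (n + 1)) • (1 : Mat (n + 1))‖ ≤ ‖A‖ := by
    rw [norm_smul, norm_one, mul_one]
    exact h1
  have h3 := norm_sub_le A ((A.trace / (n + 1)) • 1)
  rw [t0]
  linarith

private theorem t0_sub (A B : Mat (n + 1)) : t0 (A - B) = t0 A - t0 B := by
  rw [t0, t0, t0, trace_sub, sub_div, sub_smul]
  abel

private theorem t0_add_zero (A B : Mat (n + 1)) (hB : B.trace = 0) : t0 (A + B) = t0 A + B := by
  rw [t0, t0, trace_add, hB, add_zero]
  abel

private theorem trace_cj (g : SUGroup n) (A : Mat (n + 1)) : (cj g A).trace = A.trace := by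
  rw [cj, Matrix.trace_mul_comm, ← Matrix.mul_assoc, toMatrix_inv_mul, Matrix.one_mul]

private theorem t0_cj (g : SUGroup n) (A : Mat (n + 1)) : t0 (cj g A) = cj g (t0 A) := by
  rw [t0, t0, trace_cj, cj, cj, Matrix.mul_sub, Matrix.sub_mul, Matrix.mul_smul, Matrix.smul_mul,
    Matrix.mul_one, toMatrix_mul_inv]

private theorem t0_cont : Continuous (t0 (n := n)) := by
  unfold t0
  have h : Continuous fun A : Mat (n + 1) => A.trace := by fun_prop
  exact continuous_id.sub ((h.div_const _).smul continuous_const)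

/-- the base map on the cone -/
theorem bas_of_base {Γ : Subgroup (SUGroup n)} {κ : Γ → Mat (n + 1)} (hκ : Cocy Γ κ)
    {f : SUGroup n → Mat (n + 1)} (hc : Continuous f) (hi : ∀ g k, ch k = 1 → f (g * k) = f g)
    (he : ∀ (γ : Γ) (g : SUGroup n), f ((γ : SUGroup n) * g) =
      (γ : SUGroup n).toMatrix * f g * ((γ : SUGroup n)⁻¹).toMatrix + κ γ)
    {N : ℕ} {C : ℝ} (hb : ∀ g x : SUGroup n, ‖(g⁻¹).toMatrix * (f (g * x) - f g) * g.toMatrix‖ ≤
      C * ch x ^ N * hty Γ (act g (base n)) ^ 2) {b : ℝ} (h0 : 0 ≤ b) :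
    Bas κ N (2 * |C|) (fun v => hty Γ v ^ 2 + b) (fun v => t0 (f (sec n v))) := by
  have hs : ∀ g : SUGroup n, f (sec n (act g (base n))) = f g := fun g => by
    obtain ⟨c, -, h⟩ := sec_spec (orbit_mem g)
    exact (f_eq hi h).symm
  refine ⟨fun c hc v hv => by simp only [sec_smul hv hc],
    t0_cont.comp_continuousOn (hc.comp_continuousOn continuousOn_sec'), fun v _ => t0_trace _,
    fun γ v hv => ?_, fun g x => ?_⟩
  · obtain ⟨c, hc0, h⟩ := sec_spec hv
    obtain ⟨c', hc0', h'⟩ := sec_spec (act_mem (γ : SUGroup n) hv)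
    have h1 : f (sec n (act (γ : SUGroup n) v)) = f ((γ : SUGroup n) * sec n v) := by
      refine f_eq hi (c := c'⁻¹ * c) ?_
      rw [act_mul, mul_smul, ← act_smul _ c, ← h]
      conv_rhs => rw [h']
      rw [inv_smul_smul₀ hc0']
    rw [h1, he, t0_add_zero _ _ (hκ.tr γ)]
    congr 1
    exact t0_cj (γ : SUGroup n) _
  · have h1 := hb g x
    have h2 : cj g⁻¹ (t0 (f (g * x)) - t0 (f g)) =
        t0 ((g⁻¹).toMatrix * (f (g * x) - f g) * g.toMatrix) := by
      rw [← t0_sub, ← t0_cj, cj, inv_inv]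
    rw [hs, hs, h2]
    refine (norm_t0_le _).trans ?_
    have h3 := one_le_ch x
    have h4 : ch x ^ N ≤ ch x ^ (2 * N) := pow_le_pow_right₀ h3 (by omega)
    have h5 : 0 ≤ hty Γ (act g (base n)) ^ 2 := sq_nonneg _
    have h6 : C * ch x ^ N * hty Γ (act g (base n)) ^ 2 ≤
        |C| * ch x ^ (2 * N) * (hty Γ (act g (base n)) ^ 2 + b) := by
      have h7 : (0 : ℝ) ≤ ch x ^ N := by positivity
      have h8 := le_abs_self C
      have h9 := abs_nonneg C
      calc C * ch x ^ N * hty Γ (act g (base n)) ^ 2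
          ≤ |C| * ch x ^ N * hty Γ (act g (base n)) ^ 2 := by gcongr
        _ ≤ |C| * ch x ^ (2 * N) * (hty Γ (act g (base n)) ^ 2 + b) := by
            gcongr
            linarith
    linarith

end Pool.Agent.Lib.MP_5d4057_al.WR
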