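import Pool.Agent.Lib.MP_5d4057_al.WR.BaseF
import Pool.Agent.Lib.MP_5d4057_al.WR.BaseA

/-! The base map in the form needed here (adapter to helper82's `exists_base` on the group). -/

set_option autoImplicit false

namespace Pool.Agent.Lib.MP_5d4057_al.WR

open Matrix MeasureTheory Filter Topology Pool.Agent.Lib.MP_5d4057_al
  Pool.Agent.Lib.MP_5d4057_al.Hyb Pool.Agent.Lib.MP_5d4057_al.HM Pool.Agent.Lib.MP_5d4057_al.NU
  Pool.Agent.Lib.MP_5d4057_al.IN.D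

open scoped ComplexOrder MatrixOrder Matrix.Norms.L2Operator ENNReal

variable {n : ℕ}

/-- From `exists_base` (BaseF, helper82): `F v = f (sec n v)`, `f` right invariant under `ch = 1`. The
weight `hty ^ 2 + b`, `b ≥ 0`, is larger than `hty ^ 2`. -/
theorem exists_bas (hn : 2 ≤ n) {Γ : Subgroup (SUGroup n)} {χ : SUGroup n → ℝ} (hL : Lat Γ χ)
    (hT : TF Γ) (hTor : Tor Γ) {κ : Γ → Mat (n + 1)} (hκ : Cocy Γ κ) :
    ∃ (N : ℕ) (C : ℝ) (F : Vec n → Mat (n + 1)), ∀ b : ℝ, 0 ≤ b →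
      Bas κ N C (fun v => hty Γ v ^ 2 + b) F := by
  classical
  obtain ⟨K, hK0⟩ : ∃ K : SUGroup n → Mat (n + 1), ∀ γ : Γ, K γ = κ γ :=
    ⟨fun x => if h : x ∈ Γ then κ ⟨x, h⟩ else 0, fun γ => dif_pos γ.2⟩
  have hK : ∀ x ∈ Γ, ∀ y ∈ Γ, K (x * y) = K x + x.toMatrix * K y * (x⁻¹).toMatrix := by
    intro x hx y hy
    have h := hκ.mul ⟨x, hx⟩ ⟨y, hy⟩
    rw [← hK0, ← hK0, ← hK0] at h
    exact h
  obtain ⟨f, hc, hi, he, -, N, C, -, hb⟩ := exists_base hn hL hT hTor hK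
  refine ⟨N, 2 * |C|, _, fun b h0 => bas_of_base hκ hc hi (fun γ g => ?_) hb h0⟩
  rw [he γ γ.2 g, hK0]
  exact add_comm _ _

end Pool.Agent.Lib.MP_5d4057_al.WR
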