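import Pool.Agent.Lib.MP_5d4057_al.WR.BaseK

/-!
# WR: the base map
-/

set_option autoImplicit false

namespace Pool.Agent.Lib.MP_5d4057_al.WR.Bs

open Matrix Filter Topology Function Pool.Agent.Lib.MP_5d4057_al Pool.Agent.Lib.MP_5d4057_al.Hyb
  Pool.Agent.Lib.MP_5d4057_al.HM Pool.Agent.Lib.MP_5d4057_al.HM.Kak Pool.Agent.Lib.MP_5d4057_al.NU
  Pool.Agent.Lib.MP_5d4057_al.RG

open scoped ComplexOrder MatrixOrder Matrix.Norms.L2Operator

variable {n : ℕ} {Γ : Subgroup (SUGroup n)} {χ : SUGroup n → ℝ} {T : ℝ}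

theorem continuous_hty (h : Ht Γ T (hty Γ)) :
    Continuous fun g : SUGroup n => hty Γ (act g (base n)) := by
  rw [continuous_iff_continuousAt]
  intro g
  have hw : Tendsto (fun x : SUGroup n => wt (g⁻¹ * x)) (𝓝 g) (𝓝 1) := by
    have h1 : Tendsto (fun x : SUGroup n => wt (g⁻¹ * x)) (𝓝 g) (𝓝 (wt (g⁻¹ * g))) :=
      (continuous_wt.comp (continuous_const_mul g⁻¹)).tendsto g
    rwa [inv_mul_cancel, wt_one] at h1
  have hup : ∀ x : SUGroup n, hty Γ (act x (base n)) ≤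
      wt (g⁻¹ * x) ^ 2 * hty Γ (act g (base n)) := by
    intro x
    have h1 := h.harn g (g⁻¹ * x)
    rwa [mul_inv_cancel_left] at h1
  have hlo : ∀ x : SUGroup n, (wt (g⁻¹ * x) ^ 2)⁻¹ * hty Γ (act g (base n)) ≤
      hty Γ (act x (base n)) := by
    intro x
    have h1 := h.harn x (x⁻¹ * g)
    rw [mul_inv_cancel_left, ← wt_inv, _root_.mul_inv_rev, inv_inv] at h1
    have h2 := HM.one_le_wt (g⁻¹ * x)
    rw [inv_mul_le_iff₀ (by positivity)]
    exact h1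
  have t1 : Tendsto (fun x : SUGroup n => wt (g⁻¹ * x) ^ 2 * hty Γ (act g (base n))) (𝓝 g)
      (𝓝 (hty Γ (act g (base n)))) := by
    have h1 := (hw.pow 2).mul_const (hty Γ (act g (base n)))
    rwa [one_pow, one_mul] at h1
  have t2 : Tendsto (fun x : SUGroup n => (wt (g⁻¹ * x) ^ 2)⁻¹ * hty Γ (act g (base n))) (𝓝 g)
      (𝓝 (hty Γ (act g (base n)))) := by
    have h1 := ((hw.pow 2).inv₀ (by norm_num)).mul_const (hty Γ (act g (base n)))
    rwa [one_pow, inv_one, one_mul] at h1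
  exact tendsto_of_tendsto_of_tendsto_of_le_of_le t2 t1 hlo hup

theorem hty_mul_K (h : Ht Γ T (hty Γ)) (g : SUGroup n) {k : SUGroup n} (hk : ch k = 1) :
    hty Γ (act (g * k) (base n)) = hty Γ (act g (base n)) := by
  have hw : wt k = 1 := by rw [wt, hk]; norm_num
  apply le_antisymm
  · have h1 := h.harn g k
    rwa [hw, one_pow, one_mul] at h1
  · have h1 := h.harn (g * k) k⁻¹
    rwa [mul_inv_cancel_right, wt_inv, hw, one_pow, one_mul] at h1

/-- The weight function. -/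
noncomputable def psi (Γ : Subgroup (SUGroup n)) (C : ℝ) (g : SUGroup n) : ℝ :=
  max 0 (C * hty Γ (act g (base n)) - ch g ^ 2)

theorem psi_nonneg (C : ℝ) (g : SUGroup n) : 0 ≤ psi Γ C g := le_max_left _ _

theorem psi_ne {C : ℝ} {g : SUGroup n} (h : psi Γ C g ≠ 0) :
    ch g ^ 2 ≤ C * hty Γ (act g (base n)) := by
  by_contra hlt
  rw [not_le] at hlt
  exact h (max_eq_left (by linarith))

theorem continuous_psi (h : Ht Γ T (hty Γ)) (C : ℝ) : Continuous (psi Γ C) :=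
  continuous_const.max ((continuous_const.mul (continuous_hty h)).sub (continuous_ch.pow 2))

theorem psi_mul_K (h : Ht Γ T (hty Γ)) (C : ℝ) (g : SUGroup n) {k : SUGroup n} (hk : ch k = 1) :
    psi Γ C (g * k) = psi Γ C g := by
  rw [psi, psi, hty_mul_K h g hk, (ch_mul_of_ch_eq_one hk g).2]

theorem psi_fin (hd : DiscreteTopology Γ) (h : Ht Γ T (hty Γ)) {C : ℝ} (hC : 0 ≤ C) (R : ℝ) :
    {γ : Γ | ∃ g : SUGroup n, ch g ≤ R ∧ psi Γ C (γ * g) ≠ 0}.Finite := by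
  obtain ⟨Y₁, hY₁⟩ : ∃ Y : ℝ, Y = hty Γ (act (1 : SUGroup n) (base n)) := ⟨_, rfl⟩
  have hY₁0 : 0 ≤ Y₁ := by rw [hY₁]; exact zero_le_one.trans (le_max_left _ _)
  refine ((finite_ch hd (16 * C * R ^ 4 * Y₁ + 1)).preimage
    (Subtype.val_injective.injOn)).subset ?_
  rintro γ ⟨g, hg, hp⟩
  refine ⟨γ.2, ?_⟩
  have h1 := psi_ne hp
  rw [act_mul, hty_act γ.2] at h1
  have h2 := h.harn 1 g
  rw [one_mul, ← hY₁] at h2
  have h3 := wt_le g
  have h4 := HM.one_le_wt g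
  have h5 := HM.one_le_ch g
  have h6 : (γ : SUGroup n) = (γ * g) * g⁻¹ := by group
  have h7 := ch_mul_le' ((γ : SUGroup n) * g) g⁻¹
  rw [← h6, ch_inv] at h7
  have h8 := HM.one_le_ch (γ : SUGroup n)
  have h9 := HM.one_le_ch ((γ : SUGroup n) * g)
  have h10 : ch (γ : SUGroup n) ^ 2 ≤ 16 * C * R ^ 4 * Y₁ := by
    calc ch (γ : SUGroup n) ^ 2 ≤ (2 * ch ((γ : SUGroup n) * g) * ch g) ^ 2 := by gcongr
      _ = 4 * ch ((γ : SUGroup n) * g) ^ 2 * ch g ^ 2 := by ring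
      _ ≤ 4 * (C * ((2 * ch g) ^ 2 * Y₁)) * ch g ^ 2 := by
          gcongr
          exact h1.trans (by gcongr; exact h2.trans (by gcongr))
      _ = 16 * C * ch g ^ 4 * Y₁ := by ring
      _ ≤ _ := by gcongr
  nlinarith

theorem psi_locfin (hd : DiscreteTopology Γ) (h : Ht Γ T (hty Γ)) {C : ℝ} (hC : 0 ≤ C) :
    LocallyFinite fun γ : Γ => support fun g : SUGroup n => psi Γ C (γ * g) := by
  intro g
  refine ⟨{x | ch x < ch g + 1}, (isOpen_lt continuous_ch continuous_const).mem_nhds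
    (by simp), (psi_fin hd h hC (ch g + 1)).subset ?_⟩
  rintro γ ⟨x, hx1, hx2⟩
  exact ⟨x, le_of_lt hx2, hx1⟩

theorem psi_supp (hd : DiscreteTopology Γ) (h : Ht Γ T (hty Γ)) {C : ℝ} (hC : 0 ≤ C)
    (g : SUGroup n) : HasFiniteSupport fun γ : Γ => psi Γ C (γ * g) :=
  (psi_fin hd h hC (ch g)).subset fun _ hγ => ⟨g, le_rfl, hγ⟩

/-- The normalised weights. -/
noncomputable def wg (Γ : Subgroup (SUGroup n)) (C : ℝ) (g : SUGroup n) (γ : Γ) : ℝ :=
  psi Γ C (γ * g) * (∑ᶠ γ' : Γ, psi Γ C (γ' * g))⁻¹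

/-- The base map. -/
noncomputable def bF (Γ : Subgroup (SUGroup n)) (C : ℝ) (K : SUGroup n → Mat (n + 1))
    (g : SUGroup n) : Mat (n + 1) := ∑ᶠ γ : Γ, wg Γ C g γ • K (γ : SUGroup n)⁻¹

/-- The hypotheses on the constant. -/
structure BC (Γ : Subgroup (SUGroup n)) (T C : ℝ) : Prop where
  disc : DiscreteTopology Γ
  ht : Ht Γ T (hty Γ)
  pos : 0 < C
  depth : ∀ g : SUGroup n, ∃ γ ∈ Γ, ch (γ * g) ^ 2 < C * hty Γ (act g (base n))

variable {C : ℝ}

theorem BC.sum_pos (h : BC Γ T C) (g : SUGroup n) : 0 < ∑ᶠ γ' : Γ, psi Γ C (γ' * g) := by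
  refine finsum_pos (fun γ => psi_nonneg _ _) ?_ (psi_supp h.disc h.ht h.pos.le g)
  obtain ⟨γ, hγ, h1⟩ := h.depth g
  refine ⟨⟨γ, hγ⟩, ?_⟩
  show 0 < psi Γ C (γ * g)
  rw [psi, act_mul, hty_act hγ]
  exact lt_max_of_lt_right (by linarith)

theorem BC.wg_nonneg (h : BC Γ T C) (g : SUGroup n) (γ : Γ) : 0 ≤ wg Γ C g γ :=
  mul_nonneg (psi_nonneg _ _) (inv_nonneg.2 (h.sum_pos g).le)

theorem BC.wg_sum (h : BC Γ T C) (g : SUGroup n) : ∑ᶠ γ : Γ, wg Γ C g γ = 1 := by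
  simp only [wg]
  rw [← finsum_mul, mul_inv_cancel₀ (h.sum_pos g).ne']

theorem wg_ne {g : SUGroup n} {γ : Γ} (h : wg Γ C g γ ≠ 0) :
    ch ((γ : SUGroup n) * g) ^ 2 ≤ C * hty Γ (act g (base n)) := by
  have h1 := psi_ne (left_ne_zero_of_mul h)
  rwa [act_mul, hty_act γ.2] at h1

theorem BC.wg_supp (h : BC Γ T C) (g : SUGroup n) : HasFiniteSupport (wg Γ C g) :=
  (psi_supp h.disc h.ht h.pos.le g).subset fun _ hγ => left_ne_zero_of_mul hγ

theorem BC.wgK_supp (h : BC Γ T C) (g : SUGroup n) (K : Γ → Mat (n + 1)) :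
    HasFiniteSupport fun γ : Γ => wg Γ C g γ • K γ :=
  (h.wg_supp g).subset fun _ hγ => left_ne_zero_of_smul hγ

theorem BC.continuous_wg (h : BC Γ T C) (γ : Γ) : Continuous fun g => wg Γ C g γ := by
  have h1 : ∀ γ : Γ, Continuous fun g : SUGroup n => psi Γ C (γ * g) := fun γ =>
    (continuous_psi h.ht C).comp (continuous_const_mul (γ : SUGroup n))
  exact (h1 γ).mul ((continuous_finsum h1 (psi_locfin h.disc h.ht h.pos.le)).inv₀
    fun g => (h.sum_pos g).ne')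

theorem BC.continuous (h : BC Γ T C) (K : SUGroup n → Mat (n + 1)) : Continuous (bF Γ C K) := by
  refine continuous_finsum (fun γ => (h.continuous_wg γ).smul continuous_const) ?_
  refine (psi_locfin h.disc h.ht h.pos.le).subset fun γ g hg => ?_
  exact left_ne_zero_of_mul (left_ne_zero_of_smul hg)

theorem BC.mul_K (h : BC Γ T C) (K : SUGroup n → Mat (n + 1)) (g : SUGroup n) {k : SUGroup n}
    (hk : ch k = 1) : bF Γ C K (g * k) = bF Γ C K g := by
  simp only [bF, wg, ← mul_assoc, psi_mul_K h.ht C _ hk]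

theorem BC.wg_mul (g : SUGroup n) (σ γ : Γ) : wg Γ C (σ * g) γ = wg Γ C g (γ * σ) := by
  have h1 : ∑ᶠ γ' : Γ, psi Γ C (γ' * (σ * g)) = ∑ᶠ γ' : Γ, psi Γ C (γ' * g) := by
    rw [← finsum_comp_equiv (Equiv.mulRight σ) (f := fun γ' : Γ => psi Γ C (γ' * g))]
    refine finsum_congr fun γ' => ?_
    rw [Equiv.coe_mulRight, Subgroup.coe_mul, mul_assoc]
  rw [wg, wg, h1, Subgroup.coe_mul, mul_assoc]

/-- `x A x⁻¹` as an additive map. -/
private noncomputable def cjA (x : SUGroup n) : Mat (n + 1) →+ Mat (n + 1) where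
  toFun A := cj x A
  map_zero' := cj_zero x
  map_add' := cj_add x

theorem BC.equi (h : BC Γ T C) {K : SUGroup n → Mat (n + 1)} (hK : Ccl Γ K) (σ : Γ)
    (g : SUGroup n) : bF Γ C K (σ * g) =
      K σ + (σ : SUGroup n).toMatrix * bF Γ C K g * ((σ : SUGroup n)⁻¹).toMatrix := by
  have e1 : bF Γ C K (σ * g) = ∑ᶠ γ : Γ, wg Γ C g γ • K ((σ : SUGroup n) * (γ : SUGroup n)⁻¹) := by
    rw [bF, ← finsum_comp_equiv (Equiv.mulRight σ)
      (f := fun γ : Γ => wg Γ C g γ • K ((σ : SUGroup n) * (γ : SUGroup n)⁻¹))]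
    refine finsum_congr fun γ => ?_
    rw [BC.wg_mul, Equiv.coe_mulRight, Subgroup.coe_mul, _root_.mul_inv_rev, mul_inv_cancel_left]
  have e2 : ∀ γ : Γ, wg Γ C g γ • K ((σ : SUGroup n) * (γ : SUGroup n)⁻¹) =
      wg Γ C g γ • K σ + cjA (σ : SUGroup n)⁻¹ (wg Γ C g γ • K (γ : SUGroup n)⁻¹) := by
    intro γ
    rw [hK _ σ.2 _ (Γ.inv_mem γ.2), smul_add]
    congr 1
    show _ = cj _ _
    rw [cj_smul, cj, inv_inv]
  rw [e1, finsum_congr e2, finsum_add_distrib (h.wgK_supp g fun _ => K σ), ← finsum_smul,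
    h.wg_sum, one_smul, ← AddMonoidHom.map_finsum]
  · congr 1
    show cj _ _ = _
    rw [cj, inv_inv]
    rfl
  · exact h.wgK_supp g fun γ => K (γ : SUGroup n)⁻¹
  · refine (h.wgK_supp g fun γ => K (γ : SUGroup n)⁻¹).subset fun γ hγ h0 => hγ ?_
    have h1 : wg Γ C g γ • K (γ : SUGroup n)⁻¹ = 0 := h0
    show cjA (σ : SUGroup n)⁻¹ (wg Γ C g γ • K (γ : SUGroup n)⁻¹) = 0
    rw [h1, map_zero]

theorem BC.trace_zero (h : BC Γ T C) {K : SUGroup n → Mat (n + 1)}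
    (hK : ∀ γ ∈ Γ, (K γ).trace = 0) (g : SUGroup n) : (bF Γ C K g).trace = 0 := by
  have h1 := AddMonoidHom.map_finsum (Matrix.traceAddMonoidHom (Fin (n + 1)) ℂ)
    (h.wgK_supp g fun γ => K (γ : SUGroup n)⁻¹)
  have h2 : (bF Γ C K g).trace = Matrix.traceAddMonoidHom (Fin (n + 1)) ℂ
    (∑ᶠ γ : Γ, wg Γ C g γ • K (γ : SUGroup n)⁻¹) := rfl
  rw [h2, h1]
  refine (finsum_congr fun γ => ?_).trans finsum_zero
  show (wg Γ C g γ • K (γ : SUGroup n)⁻¹).trace = 0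
  rw [trace_smul, hK _ (Γ.inv_mem γ.2), smul_zero]

/-- `x⁻¹ A x` as a linear map. -/
private noncomputable def cjL (x : SUGroup n) : Mat (n + 1) →ₗ[ℝ] Mat (n + 1) where
  toFun A := cj x A
  map_add' := cj_add x
  map_smul' c A := cj_smul x c A

/-- Increments over bounded distances. -/
theorem BC.inc (h : BC Γ T C) (hL : Lat Γ χ) (hT : TF Γ) (hTor : Tor Γ)
    {K : SUGroup n → Mat (n + 1)} (hK : Ccl Γ K) : ∃ B : ℝ, 0 < B ∧
      ∀ g x : SUGroup n, wt x ≤ 3 → ‖cj g (bF Γ C K (g * x) - bF Γ C K g)‖ ≤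
        B * hty Γ (act g (base n)) ^ 2 := by
  obtain ⟨B, hB0, hB⟩ := key_bound hL hT hTor hK (324 * C)
  have hC := h.pos
  refine ⟨B, hB0, fun g x hx => ?_⟩
  obtain ⟨Y, hY⟩ : ∃ Y, Y = hty Γ (act g (base n)) := ⟨_, rfl⟩
  have hY1 : 1 ≤ Y := by rw [hY]; exact le_max_left _ _
  rw [← hY]
  have hpair : ∀ γ γ' : Γ, wg Γ C (g * x) γ ≠ 0 → wg Γ C g γ' ≠ 0 →
      ‖cj g (K (γ : SUGroup n)⁻¹) - cj g (K (γ' : SUGroup n)⁻¹)‖ ≤ B * Y ^ 2 := by
    intro γ γ' h1 h2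
    have h3 := wg_ne h1
    have h4 := wg_ne h2
    have h5 := h.ht.harn g x
    rw [← hY] at h4 h5
    have h6 := HM.one_le_wt x
    have h7 := (ch_le_wt x).trans hx
    have h8 := HM.one_le_ch x
    have e1 : (γ : SUGroup n) * g = (γ * (g * x)) * x⁻¹ := by group
    have h9 := ch_mul_le' ((γ : SUGroup n) * (g * x)) x⁻¹
    rw [← e1, ch_inv] at h9
    have h10 := HM.one_le_ch ((γ : SUGroup n) * g)
    have h11 := HM.one_le_ch ((γ : SUGroup n) * (g * x))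
    have h12 : ch ((γ : SUGroup n) * g) ^ 2 ≤ 324 * C * Y := by
      calc ch ((γ : SUGroup n) * g) ^ 2 ≤ (2 * ch ((γ : SUGroup n) * (g * x)) * ch x) ^ 2 := by
            gcongr
        _ = 4 * ch ((γ : SUGroup n) * (g * x)) ^ 2 * ch x ^ 2 := by ring
        _ ≤ 4 * (C * (3 ^ 2 * Y)) * 3 ^ 2 := by
            gcongr
            exact h3.trans (by gcongr; exact h5.trans (by gcongr))
        _ = _ := by ring
    have h13 : ch ((γ' : SUGroup n) * g) ^ 2 ≤ 324 * C * Y := by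
      refine h4.trans ?_
      gcongr
      linarith
    have hYγ : hty Γ (act ((γ' : SUGroup n) * g) (base n)) = Y := by
      rw [act_mul, hty_act γ'.2, hY]
    have e2 : ((γ : SUGroup n) * (γ' : SUGroup n)⁻¹) * ((γ' : SUGroup n) * g) =
        (γ : SUGroup n) * g := by group
    have h14 := hB ((γ' : SUGroup n) * g) ((γ : SUGroup n) * (γ' : SUGroup n)⁻¹)
      (Γ.mul_mem γ.2 (Γ.inv_mem γ'.2)) (by rw [hYγ]; exact h13) (by rw [hYγ, e2]; exact h12)
    rw [hYγ] at h14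
    have h15 := hK.mul (Γ.inv_mem γ'.2) (Γ.mul_mem γ'.2 (Γ.inv_mem γ.2)) g
    have e3 : (γ' : SUGroup n)⁻¹ * ((γ' : SUGroup n) * (γ : SUGroup n)⁻¹) =
        (γ : SUGroup n)⁻¹ := by group
    have e4 : ((γ : SUGroup n) * (γ' : SUGroup n)⁻¹)⁻¹ =
        (γ' : SUGroup n) * (γ : SUGroup n)⁻¹ := by group
    rw [e3, inv_inv] at h15
    rw [e4] at h14
    rw [h15, add_sub_cancel_left]
    exact h14
  rw [cj_sub]
  have c1 : bF Γ C K (g * x) ∈ (cjL g) ⁻¹' Metric.closedBall (cj g (bF Γ C K g)) (B * Y ^ 2) := by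
    refine ((convex_closedBall _ _).linear_preimage (cjL g)).finsum_mem
      (h.wg_nonneg (g * x)) (h.wg_sum (g * x)) fun γ hγ => ?_
    show cj g (K (γ : SUGroup n)⁻¹) ∈ Metric.closedBall (cj g (bF Γ C K g)) (B * Y ^ 2)
    have c2 : bF Γ C K g ∈ (cjL g) ⁻¹' Metric.closedBall (cj g (K (γ : SUGroup n)⁻¹))
        (B * Y ^ 2) := by
      refine ((convex_closedBall _ _).linear_preimage (cjL g)).finsum_mem
        (h.wg_nonneg g) (h.wg_sum g) fun γ' hγ' => ?_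
      show cj g (K (γ' : SUGroup n)⁻¹) ∈ Metric.closedBall (cj g (K (γ : SUGroup n)⁻¹))
        (B * Y ^ 2)
      rw [Metric.mem_closedBall', dist_eq_norm]
      exact hpair γ γ' hγ hγ'
    have c3 : cj g (bF Γ C K g) ∈ Metric.closedBall (cj g (K (γ : SUGroup n)⁻¹)) (B * Y ^ 2) := c2
    rw [Metric.mem_closedBall'] at c3 ⊢
    rwa [dist_comm]
  have c4 : cj g (bF Γ C K (g * x)) ∈ Metric.closedBall (cj g (bF Γ C K g)) (B * Y ^ 2) := c1
  rwa [Metric.mem_closedBall, dist_eq_norm] at c4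

/-- Increments along the flow. -/
theorem chain {F : SUGroup n → Mat (n + 1)} (ht : Ht Γ T (hty Γ)) {B : ℝ} (hB : 0 ≤ B)
    (h : ∀ g x : SUGroup n, wt x ≤ 3 → ‖cj g (F (g * x) - F g)‖ ≤
      B * hty Γ (act g (base n)) ^ 2) (ζ : Fin n → ℂ) (N : ℕ) : ∀ (t : ℝ), 0 ≤ t → t ≤ N →
      ∀ g : SUGroup n, ‖cj g (F (g * fl ζ t) - F g)‖ ≤
        B * Real.exp (7 * t) * hty Γ (act g (base n)) ^ 2 := by
  have hbase : ∀ t : ℝ, 0 ≤ t → t ≤ 1 → ∀ g : SUGroup n, ‖cj g (F (g * fl ζ t) - F g)‖ ≤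
      B * hty Γ (act g (base n)) ^ 2 := by
    intro t h0 h1 g
    refine h g _ ((wt_fl_le ζ t).trans ?_)
    rw [abs_of_nonneg h0]
    calc Real.exp t ≤ Real.exp 1 := Real.exp_le_exp.2 h1
      _ ≤ 3 := by linarith [Real.exp_one_lt_d9]
  induction N with
  | zero =>
    intro t h0 h1 g
    have h2 : t = 0 := le_antisymm (by simpa using h1) h0
    rw [h2, fl_zero, mul_one, sub_self, cj_zero, norm_zero]
    positivity
  | succ N ih =>
    intro t h0 h1 g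
    obtain ⟨Y, hY⟩ : ∃ Y, Y = hty Γ (act g (base n)) := ⟨_, rfl⟩
    have hY1 : 1 ≤ Y := by rw [hY]; exact le_max_left _ _
    rcases le_or_gt t 1 with h2 | h2
    · refine (hbase t h0 h2 g).trans ?_
      have h3 : 1 ≤ Real.exp (7 * t) := Real.one_le_exp (by linarith)
      rw [← hY]
      calc B * Y ^ 2 = B * 1 * Y ^ 2 := by ring
        _ ≤ _ := by gcongr
    · push_cast at h1
      have h3 := ih (t - 1) (by linarith) (by linarith) (g * fl ζ 1)
      have h4 := hbase 1 zero_le_one le_rfl g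
      have e1 : g * fl ζ 1 * fl ζ (t - 1) = g * fl ζ t := by
        rw [mul_assoc, ← fl_add]
        congr 2
        ring
      rw [e1] at h3
      have h5 := ht.harn g (fl ζ 1)
      have h6 := wt_fl_le ζ 1
      rw [abs_one] at h6
      have h7 := HM.one_le_wt (fl ζ 1)
      have h8 : hty Γ (act (g * fl ζ 1) (base n)) ≤ Real.exp 1 ^ 2 * Y := by
        rw [hY]
        refine h5.trans ?_
        rw [← hY]
        gcongr
      have h80 : 0 ≤ hty Γ (act (g * fl ζ 1) (base n)) := zero_le_one.trans (le_max_left _ _)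
      have e2 : cj g (F (g * fl ζ t) - F (g * fl ζ 1)) =
          cj (fl ζ 1)⁻¹ (cj (g * fl ζ 1) (F (g * fl ζ t) - F (g * fl ζ 1))) := by
        rw [← cj_mul, mul_inv_cancel_right]
      have h9 : ‖cj g (F (g * fl ζ t) - F (g * fl ζ 1))‖ ≤
          Real.exp 1 ^ 2 * (B * Real.exp (7 * (t - 1)) * (Real.exp 1 ^ 2 * Y) ^ 2) := by
        rw [e2]
        refine (norm_cj_le _ _).trans ?_
        rw [wt_inv]
        gcongr
        exact h3.trans (by gcongr)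
      have e3 : F (g * fl ζ t) - F g =
          (F (g * fl ζ t) - F (g * fl ζ 1)) + (F (g * fl ζ 1) - F g) := by abel
      have e4 : Real.exp 1 ^ 2 * (B * Real.exp (7 * (t - 1)) * (Real.exp 1 ^ 2 * Y) ^ 2) =
          B * (Real.exp (7 * t) * (Real.exp 1)⁻¹) * Y ^ 2 := by
        have e5 : Real.exp 1 ^ 2 * Real.exp (7 * (t - 1)) * (Real.exp 1 ^ 2) ^ 2 =
            Real.exp (7 * t) * (Real.exp 1)⁻¹ := by
          rw [← Real.exp_neg, ← Real.exp_nat_mul, ← Real.exp_nat_mul, ← Real.exp_add,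
            ← Real.exp_add, ← Real.exp_add]
          congr 1
          push_cast
          ring
        rw [← e5]
        ring
      rw [e4] at h9
      rw [← hY] at h4
      have h10 : Real.exp (7 * t) * (Real.exp 1)⁻¹ + 1 ≤ Real.exp (7 * t) := by
        have h11 : (Real.exp 1)⁻¹ ≤ 1 / 2 := by
          rw [inv_le_comm₀ (Real.exp_pos 1) (by norm_num)]
          have := Real.add_one_le_exp (1 : ℝ)
          norm_num at this ⊢
          linarith
        have h12 : 2 ≤ Real.exp (7 * t) := by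
          have := Real.add_one_le_exp (7 * t)
          linarith
        nlinarith
      rw [e3, cj_add, ← hY]
      calc _ ≤ B * (Real.exp (7 * t) * (Real.exp 1)⁻¹) * Y ^ 2 + B * Y ^ 2 :=
            (norm_add_le _ _).trans (add_le_add h9 h4)
        _ = B * (Real.exp (7 * t) * (Real.exp 1)⁻¹ + 1) * Y ^ 2 := by ring
        _ ≤ _ := by gcongr

/-- **The base map.** -/
theorem exists_base (hn : 2 ≤ n) (hL : Lat Γ χ) (hT : TF Γ) (hTor : Tor Γ)
    {K : SUGroup n → Mat (n + 1)} (hK : Ccl Γ K) :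
    ∃ F : SUGroup n → Mat (n + 1), Continuous F ∧
      (∀ g k : SUGroup n, ch k = 1 → F (g * k) = F g) ∧
      (∀ γ ∈ Γ, ∀ g : SUGroup n,
        F (γ * g) = K γ + γ.toMatrix * F g * (γ⁻¹).toMatrix) ∧
      ((∀ γ ∈ Γ, (K γ).trace = 0) → ∀ g, (F g).trace = 0) ∧
      ∃ (N : ℕ) (C : ℝ), 0 < C ∧ ∀ g x : SUGroup n,
        ‖(g⁻¹).toMatrix * (F (g * x) - F g) * g.toMatrix‖ ≤
          C * ch x ^ N * hty Γ (act g (base n)) ^ 2 := by
  obtain ⟨C₀, hC₀, hdep⟩ := hty_depth hn hL hT hTor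
  have h : BC Γ 64 (2 * C₀) := by
    refine ⟨hL.disc, ht_hty hn hL hT hTor, by linarith, fun g => ?_⟩
    obtain ⟨γ, hγ, h1⟩ := hdep g
    refine ⟨γ, hγ, lt_of_le_of_lt h1 ?_⟩
    have h2 : 1 ≤ hty Γ (act g (base n)) := le_max_left _ _
    nlinarith
  obtain ⟨B, hB0, hB⟩ := h.inc hL hT hTor hK
  refine ⟨bF Γ (2 * C₀) K, h.continuous K, fun g k hk => h.mul_K K g hk, fun γ hγ g => ?_,
    fun htr g => h.trace_zero htr g, 7, B * 2 ^ 7, by positivity, fun g x => ?_⟩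
  · exact h.equi hK ⟨γ, hγ⟩ g
  · obtain ⟨ζ, t, k, hζ, ht, hk, hx, hw⟩ := exists_fl (by omega) x
    obtain ⟨N, hN⟩ := exists_nat_ge t
    have h1 := chain h.ht hB0.le hB ζ N t ht hN g
    have h2 : bF Γ (2 * C₀) K (g * x) = bF Γ (2 * C₀) K (g * fl ζ t) := by
      rw [hx, ← mul_assoc, h.mul_K K _ hk]
    have h3 : Real.exp (7 * t) ≤ 2 ^ 7 * ch x ^ 7 := by
      have h4 : Real.exp (7 * t) = wt x ^ 7 := by
        rw [hw, ← Real.exp_nat_mul]
        norm_num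
      have h5 := wt_le x
      have h6 := HM.one_le_wt x
      rw [h4, ← mul_pow]
      gcongr
    rw [h2]
    refine h1.trans ?_
    have h7 : 0 ≤ hty Γ (act g (base n)) := zero_le_one.trans (le_max_left _ _)
    calc B * Real.exp (7 * t) * hty Γ (act g (base n)) ^ 2 ≤
          B * (2 ^ 7 * ch x ^ 7) * hty Γ (act g (base n)) ^ 2 := by gcongr
      _ = _ := by ring

end Pool.Agent.Lib.MP_5d4057_al.WR.Bs

namespace Pool.Agent.Lib.MP_5d4057_al.WR

open Pool.Agent.Lib.MP_5d4057_al.HM Pool.Agent.Lib.MP_5d4057_al.NU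

open scoped Matrix.Norms.L2Operator

/-- **The base map** (all notions of HM and NU only). -/
theorem exists_base {n : ℕ} {Γ : Subgroup (SUGroup n)} {χ : SUGroup n → ℝ} (hn : 2 ≤ n)
    (hL : Lat Γ χ) (hT : TF Γ) (hTor : Tor Γ) {K : SUGroup n → Mat (n + 1)}
    (hK : ∀ x ∈ Γ, ∀ y ∈ Γ, K (x * y) = K x + x.toMatrix * K y * (x⁻¹).toMatrix) :
    ∃ F : SUGroup n → Mat (n + 1), Continuous F ∧
      (∀ g k : SUGroup n, ch k = 1 → F (g * k) = F g) ∧
      (∀ γ ∈ Γ, ∀ g : SUGroup n,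
        F (γ * g) = K γ + γ.toMatrix * F g * (γ⁻¹).toMatrix) ∧
      ((∀ γ ∈ Γ, (K γ).trace = 0) → ∀ g, (F g).trace = 0) ∧
      ∃ (N : ℕ) (C : ℝ), 0 < C ∧ ∀ g x : SUGroup n,
        ‖(g⁻¹).toMatrix * (F (g * x) - F g) * g.toMatrix‖ ≤
          C * ch x ^ N * hty Γ (act g (base n)) ^ 2 :=
  Bs.exists_base hn hL hT hTor hK

end Pool.Agent.Lib.MP_5d4057_al.WR
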