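import Pool.Agent.Lib.MP_5d4057_al.WR.CuspG

/-!
# WR: the bound for the increments of a cocycle
-/

set_option autoImplicit false

namespace Pool.Agent.Lib.MP_5d4057_al.WR.Bs

open Matrix Filter Topology Pool.Agent.Lib.MP_5d4057_al Pool.Agent.Lib.MP_5d4057_al.Hyb
  Pool.Agent.Lib.MP_5d4057_al.HM Pool.Agent.Lib.MP_5d4057_al.HM.Kak Pool.Agent.Lib.MP_5d4057_al.NU
  Pool.Agent.Lib.MP_5d4057_al.RG

open scoped ComplexOrder MatrixOrder Matrix.Norms.L2Operator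

variable {n : ℕ} {Γ : Subgroup (SUGroup n)} {χ : SUGroup n → ℝ}

theorem bk_unif {α : Type} {X : Set α} (hX : X.Finite) {P : α → ℝ → Prop}
    (hm : ∀ a C C', C ≤ C' → P a C → P a C') (h : ∀ a ∈ X, ∃ C, P a C) :
    ∃ C, 1 ≤ C ∧ ∀ a ∈ X, P a C := by
  choose! f hf using h
  obtain ⟨C, hC⟩ := (hX.image f).bddAbove
  exact ⟨max C 1, le_max_right _ _, fun a ha =>
    hm a _ _ ((hC ⟨a, ha, rfl⟩).trans (le_max_left _ _)) (hf a ha)⟩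

theorem bk_ch (x : SUGroup n) : ch x = ‖herm (base n) (act x (base n))‖ := by
  rw [herm_eq, base, Pi.single_eq_same, Finset.sum_eq_zero]
  · rw [zero_sub, norm_neg, star_one, one_mul, act, mulVec_single_one]
    rfl
  · intro i _
    rw [Pi.single_eq_of_ne (Fin.castSucc_lt_last i).ne]
    simp

/-- `yp (pe ξ)` at the base point. -/
theorem bk_yp_one {ξ : Fin n → ℂ} : yp (pe ξ) (act (1 : SUGroup n) (base n)) = 1 := by
  rw [yp_pe, inv_one, ml_one, norm_one]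
  norm_num

/-- The position of a point with respect to a cusp. -/
theorem bk_pos {ξ : Fin n → ℂ} (hξ : nq ξ = 1) (h : SUGroup n) {s : ℝ} (hs : 0 ≤ s)
    (he : 1 ≤ Real.exp (2 * s) → s = 0 ∨ Real.exp (2 * s) = yp (pe ξ) (act h (base n))) :
    ch (fl ξ (-s) * h) ≤ 1 + Real.exp (-s) * ch h := by
  rcases he (Real.one_le_exp (by linarith)) with rfl | he
  · rw [neg_zero, fl_zero, one_mul, Real.exp_zero, one_mul]
    linarith
  obtain ⟨v, hv⟩ : ∃ v, v = act h (base n) := ⟨_, rfl⟩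
  have h1 : ch (fl ξ (-s) * h) = ‖herm (act (fl ξ s) (base n)) v‖ := by
    rw [bk_ch, act_mul, ← herm_act (fl ξ s), ← act_mul (fl ξ s), ← fl_add, add_neg_cancel,
      fl_zero, act_one, ← hv]
  have h2 : (2 : ℂ) • act (fl ξ s) (base n) =
      (Real.exp s : ℂ) • pe ξ + (Real.exp (-s) : ℂ) • pe (-ξ) := by
    rw [← act_smul, ← two_smul_base ξ, act_add, fl_pe hξ, fl_pe_neg hξ]
  have h3 : herm (pe (-ξ)) v = 2 * herm (base n) v - herm (pe ξ) v := by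
    have h4 := herm_add_left (pe ξ) (pe (-ξ)) v
    rw [two_smul_base, herm_smul_left] at h4
    have h5 : star (2 : ℂ) = 2 := by simp
    rw [h5] at h4
    rw [h4]
    ring
  have h4 : 2 * herm (act (fl ξ s) (base n)) v =
      (Real.exp s : ℂ) * herm (pe ξ) v + (Real.exp (-s) : ℂ) * herm (pe (-ξ)) v := by
    have h5 : herm ((2 : ℂ) • act (fl ξ s) (base n)) v =
        herm ((Real.exp s : ℂ) • pe ξ + (Real.exp (-s) : ℂ) • pe (-ξ)) v := by rw [h2]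
    rw [herm_smul_left, herm_add_left, herm_smul_left, herm_smul_left] at h5
    have h6 : star (2 : ℂ) = 2 := by simp
    have h7 : ∀ r : ℝ, star (r : ℂ) = r := fun r => Complex.conj_ofReal r
    rw [h6, h7, h7] at h5
    exact h5
  have h5 : ‖herm (pe ξ) v‖ = Real.exp (-s) := by
    have h6 : ‖herm (pe ξ) v‖ ^ 2 = Real.exp (-s) ^ 2 := by
      have h7 : yp (pe ξ) v = 1 / ‖herm (pe ξ) v‖ ^ 2 := by
        rw [yp, hv, q_orbit, neg_neg, herm_comm (pe ξ), norm_star]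
      rw [hv, ← he, ← hv] at h7
      have h8 : Real.exp (-s) ^ 2 = (Real.exp (2 * s))⁻¹ := by
        rw [← Real.exp_nat_mul, ← Real.exp_neg]
        congr 1
        push_cast
        ring
      rw [h8, h7, one_div, inv_inv]
    exact (sq_eq_sq₀ (norm_nonneg _) (Real.exp_pos _).le).1 h6
  have h6 : ‖herm (base n) v‖ = ch h := by rw [hv, ← bk_ch]
  have hes : Real.exp (-s) ≤ 1 := Real.exp_le_one_iff.2 (by linarith)
  have hes0 := Real.exp_pos (-s)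
  have h7 : Real.exp s * Real.exp (-s) = 1 := by rw [← Real.exp_add, add_neg_cancel, Real.exp_zero]
  have h8 : ‖herm (pe (-ξ)) v‖ ≤ 2 * ch h + Real.exp (-s) := by
    rw [h3]
    refine (norm_sub_le _ _).trans ?_
    rw [norm_mul, h6, h5, Complex.norm_ofNat]
  have h9 : 2 * ‖herm (act (fl ξ s) (base n)) v‖ ≤
      Real.exp s * Real.exp (-s) + Real.exp (-s) * (2 * ch h + Real.exp (-s)) := by
    have h10 : 2 * ‖herm (act (fl ξ s) (base n)) v‖ = ‖2 * herm (act (fl ξ s) (base n)) v‖ := by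
      rw [norm_mul, Complex.norm_ofNat]
    rw [h10, h4]
    refine (norm_add_le _ _).trans ?_
    rw [norm_mul, norm_mul, Complex.norm_real, Complex.norm_real, Real.norm_eq_abs,
      Real.norm_eq_abs, abs_of_pos (Real.exp_pos _), abs_of_pos (Real.exp_pos _), h5]
    gcongr
  rw [h1]
  nlinarith

/-- The bound for elements of the stabiliser of a cusp. -/
theorem bk_St {ξ : Fin n → ℂ} (hP : Par Γ ξ) {K : SUGroup n → Mat (n + 1)} {C : ℝ} (hC : 0 ≤ C)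
    (hG : ∀ s : ℝ, 0 ≤ s → ∀ γ ∈ Γ, γ ∈ St ξ →
      ‖cj (fl ξ s) (K γ)‖ ≤ C * Real.exp (4 * s) * ch (fl ξ (-s) * γ * fl ξ s) ^ 3)
    {A E : ℝ} (hA : 0 ≤ A) (h : SUGroup n) (h1 : 1 ≤ E)
    (h2 : yp (pe ξ) (act h (base n)) ≤ E)
    (h3 : ch h ^ 2 ≤ A ^ 2 * max 1 (yp (pe ξ) (act h (base n)))) {δ : SUGroup n} (hδ : δ ∈ Γ)
    (hs : δ ∈ St ξ) (h4 : ch (δ * h) ^ 2 ≤ A ^ 2 * max 1 (yp (pe ξ) (act h (base n)))) :
    ‖cj h (K δ⁻¹)‖ ≤ 4 * (1 + A) ^ 2 * (C * (2 * (1 + A) * (1 + A)) ^ 3) * E ^ 2 := by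
  have hξ := hP.1
  obtain ⟨y, hy⟩ : ∃ y, y = yp (pe ξ) (act h (base n)) := ⟨_, rfl⟩
  have hy0 : 0 < y := by
    rw [hy]
    exact yp_pos (pe_ne_zero ξ) (by rw [q_pe, hξ, sub_self]) (orbit_mem _)
  obtain ⟨s, hsdef⟩ : ∃ s, s = Real.log (max 1 y) / 2 := ⟨_, rfl⟩
  have hm1 : 1 ≤ max 1 y := le_max_left _ _
  have hs0 : 0 ≤ s := by
    rw [hsdef]
    have := Real.log_nonneg hm1
    positivity
  have hexp : Real.exp (2 * s) = max 1 y := by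
    rw [hsdef, mul_div_cancel₀ _ two_ne_zero, Real.exp_log (by linarith)]
  have hcase : ∀ x : SUGroup n, yp (pe ξ) (act x (base n)) = y → 1 ≤ Real.exp (2 * s) →
      s = 0 ∨ Real.exp (2 * s) = yp (pe ξ) (act x (base n)) := by
    intro x hx _
    rw [hx, hexp]
    rcases le_total 1 y with h5 | h5
    · right
      exact max_eq_right h5
    · left
      rw [hsdef, max_eq_left h5, Real.log_one, zero_div]
  have hyδ : yp (pe ξ) (act (δ * h) (base n)) = y := by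
    have h6 := (mem_PS hξ).1 ((PS ξ).inv_mem (hP.2 δ hδ hs))
    rw [hy, yp_pe, yp_pe, _root_.mul_inv_rev, ml_mul hξ, h6.1, norm_mul, h6.2, mul_one]
  have p1 := bk_pos hξ h hs0 (hcase h hy.symm)
  have p2 := bk_pos hξ (δ * h) hs0 (hcase (δ * h) hyδ)
  rw [← hy, ← hexp] at h3 h4
  have hex : Real.exp (-s) ^ 2 * Real.exp (2 * s) = 1 := by
    rw [← Real.exp_nat_mul, ← Real.exp_add]
    push_cast
    rw [show (2 : ℝ) * -s + 2 * s = 0 by ring, Real.exp_zero]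
  have hA' : ∀ x : SUGroup n, ch x ^ 2 ≤ A ^ 2 * Real.exp (2 * s) → Real.exp (-s) * ch x ≤ A := by
    intro x hx
    refine le_of_sq_le_sq ?_ hA
    calc (Real.exp (-s) * ch x) ^ 2 = Real.exp (-s) ^ 2 * ch x ^ 2 := by ring
      _ ≤ Real.exp (-s) ^ 2 * (A ^ 2 * Real.exp (2 * s)) := by gcongr
      _ = A ^ 2 * (Real.exp (-s) ^ 2 * Real.exp (2 * s)) := by ring
      _ = A ^ 2 := by rw [hex, mul_one]
  have q1 : ch (fl ξ (-s) * h) ≤ 1 + A := p1.trans (by linarith [hA' h h3])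
  have q2 : ch (fl ξ (-s) * (δ * h)) ≤ 1 + A := p2.trans (by linarith [hA' (δ * h) h4])
  have q3 : ch (fl ξ (-s) * δ⁻¹ * fl ξ s) ≤ 2 * (1 + A) * (1 + A) := by
    have e : fl ξ (-s) * δ⁻¹ * fl ξ s = (fl ξ (-s) * h) * (fl ξ (-s) * (δ * h))⁻¹ := by
      rw [fl_neg]
      group
    rw [e]
    refine (ch_mul_le' _ _).trans ?_
    rw [ch_inv]
    have := one_le_ch (fl ξ (-s) * h)
    have := one_le_ch (fl ξ (-s) * (δ * h))
    gcongr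
  have q4 := hG s hs0 δ⁻¹ (Γ.inv_mem hδ) ((St ξ).inv_mem hs)
  have e1 : h = fl ξ s * (fl ξ (-s) * h) := by
    rw [fl_neg]
    group
  have q5 : Real.exp (4 * s) ≤ E ^ 2 := by
    have e2 : Real.exp (4 * s) = Real.exp (2 * s) ^ 2 := by
      rw [← Real.exp_nat_mul]
      congr 1
      push_cast
      ring
    rw [e2, hexp]
    have : max 1 y ≤ E := max_le h1 (by rw [hy]; exact h2)
    gcongr
  have r1 := one_le_ch (fl ξ (-s) * h)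
  have r2 := one_le_ch (fl ξ (-s) * δ⁻¹ * fl ξ s)
  calc ‖cj h (K δ⁻¹)‖ = ‖cj (fl ξ (-s) * h) (cj (fl ξ s) (K δ⁻¹))‖ := by
        rw [← cj_mul, ← e1]
    _ ≤ 4 * ch (fl ξ (-s) * h) ^ 2 * ‖cj (fl ξ s) (K δ⁻¹)‖ := norm_cj_le' _ _
    _ ≤ 4 * (1 + A) ^ 2 * (C * E ^ 2 * (2 * (1 + A) * (1 + A)) ^ 3) := by
        gcongr
        exact q4.trans (by gcongr)
    _ = _ := by ring

/-- finitely many lines of transvections with bounded displacement at the base point -/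
theorem bk_lines (hd : DiscreteTopology Γ) (hT : TF Γ) (B : ℝ) :
    {ξ : Fin n → ℂ | ∃ γ ∈ Γ, ∃ κ : ℝ, IsTv γ ξ κ ∧ ds 1 γ ≤ B}.Finite := by
  have h1 := finite_ds hd 1 B
  refine (h1.biUnion (t := fun γ => {ξ : Fin n → ℂ | γ ∈ Γ ∧ ∃ κ : ℝ, IsTv γ ξ κ}) ?_).subset ?_
  · intro γ _
    refine Set.Subsingleton.finite ?_
    rintro ξ ⟨hγ, κ, h⟩ ξ' ⟨_, κ', h'⟩
    exact ((h.par hd hγ).unique hT hγ h.ne_one h.mem_St h'.1 h'.mem_St).symm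
  · rintro ξ ⟨γ, hγ, κ, h, hds⟩
    exact Set.mem_biUnion (⟨hγ, 1, by rw [ch_one], hds⟩ : γ ∈ {γ : SUGroup n | γ ∈ Γ ∧
      ∃ g : SUGroup n, ch g ≤ 1 ∧ ds g γ ≤ B}) ⟨hγ, κ, h⟩

/-- The line of a transvection of `Γ` has a cobounded stabiliser. -/
theorem bk_cob (hL : Lat Γ χ) (hT : TF Γ) (hTor : Tor Γ) {γ : SUGroup n} {ξ : Fin n → ℂ} {κ : ℝ}
    (hγ : γ ∈ Γ) (h : IsTv γ ξ κ) : Par Γ ξ ∧
      ∃ R : ℝ, ∀ g ∈ PS ξ, ∃ γ ∈ Γ, γ ∈ St ξ ∧ ch (γ * g) ≤ R := by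
  have hP : Par Γ ξ := h.par hL.disc hγ
  obtain ⟨R, X, hX⟩ := exists_rays hL hT
  exact ⟨hP, horo hT hTor hL.disc hX hP ⟨γ, hγ, h.ne_one, h.mem_St⟩⟩

/-- The key bound. -/
theorem key_bound (hL : Lat Γ χ) (hT : TF Γ) (hTor : Tor Γ)
    {K : SUGroup n → Mat (n + 1)} (hK : Ccl Γ K) (B : ℝ) : ∃ C : ℝ, 0 < C ∧
      ∀ (h δ : SUGroup n), δ ∈ Γ → ch h ^ 2 ≤ B * hty Γ (act h (base n)) →
        ch (δ * h) ^ 2 ≤ B * hty Γ (act h (base n)) →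
          ‖cj h (K δ⁻¹)‖ ≤ C * hty Γ (act h (base n)) ^ 2 := by
  have hd := hL.disc
  wlog hB : 1 ≤ B generalizing B
  · obtain ⟨C, hC, hb⟩ := this 1 le_rfl
    refine ⟨C, hC, fun h δ hδ h1 h2 => hb h δ hδ ?_ ?_⟩
    · refine h1.trans ?_
      have : 0 ≤ hty Γ (act h (base n)) := zero_le_one.trans (le_max_left _ _)
      gcongr
      exact (not_le.1 hB).le
    · refine h2.trans ?_
      have : 0 ≤ hty Γ (act h (base n)) := zero_le_one.trans (le_max_left _ _)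
      gcongr
      exact (not_le.1 hB).le
  -- the thick part
  obtain ⟨M₁, hM₁1, hM₁⟩ : ∃ M : ℝ, 1 ≤ M ∧ ∀ x ∈ Γ, ch x ≤ 32 * B → ‖K x‖ ≤ M := by
    obtain ⟨M, hM⟩ := ((finite_ch hd (32 * B)).image fun x => ‖K x‖).bddAbove
    exact ⟨max M 1, le_max_right _ _, fun x hx h =>
      (hM ⟨x, ⟨hx, h⟩, rfl⟩).trans (le_max_left _ _)⟩
  -- the lines
  obtain ⟨X, hX⟩ : ∃ X : Set (Fin n → ℂ), X = {ξ : Fin n → ℂ | ∃ γ ∈ Γ, ∃ κ : ℝ, IsTv γ ξ κ ∧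
    ds 1 γ ≤ 8 * B} := ⟨_, rfl⟩
  have hXf : X.Finite := by rw [hX]; exact bk_lines hd hT _
  have hXm : ∀ (x z : SUGroup n) (ξ : Fin n → ℂ) (κ : ℝ), z ∈ Γ → IsTv z ξ κ →
      ch x ^ 2 ≤ B * hty Γ (act x (base n)) →
      hty Γ (act x (base n)) = yp (pe ξ) (act x (base n)) / |κ| → ξ ∈ X := by
    intro x z ξ κ hz hTv h1 h2
    rw [hX]
    refine ⟨z, hz, κ, hTv, ?_⟩
    have h3 := ds_mul_le x x⁻¹ z
    rw [mul_inv_cancel, wt_inv] at h3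
    have h4 := hTv.ds x
    rw [← h2] at h4
    have h5 := wt_le x
    have h6 := one_le_wt x
    have h7 : wt x ^ 2 ≤ (2 * ch x) ^ 2 := by gcongr
    have h8 := ds_nonneg x z
    calc ds 1 z ≤ wt x ^ 2 * ds x z := h3
      _ ≤ (2 * ch x) ^ 2 * ds x z := by gcongr
      _ = 4 * ch x ^ 2 * ds x z := by ring
      _ ≤ 4 * (B * hty Γ (act x (base n))) * ds x z := by gcongr
      _ = 4 * B * (ds x z * hty Γ (act x (base n))) := by ring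
      _ = 8 * B := by rw [h4]; ring
  -- the growth
  obtain ⟨C₁, hC₁1, hC₁⟩ : ∃ C : ℝ, 1 ≤ C ∧ ∀ ξ ∈ X, ∀ s : ℝ, 0 ≤ s → ∀ γ ∈ Γ, γ ∈ St ξ →
      ‖cj (fl ξ s) (K γ)‖ ≤ C * Real.exp (4 * s) * ch (fl ξ (-s) * γ * fl ξ s) ^ 3 := by
    refine bk_unif hXf (P := fun ξ C => ∀ s : ℝ, 0 ≤ s → ∀ γ ∈ Γ, γ ∈ St ξ →
      ‖cj (fl ξ s) (K γ)‖ ≤ C * Real.exp (4 * s) * ch (fl ξ (-s) * γ * fl ξ s) ^ 3) ?_ ?_
    · intro ξ C C' hCC h s hs γ hγ hst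
      have := one_le_ch (fl ξ (-s) * γ * fl ξ s)
      exact (h s hs γ hγ hst).trans (by gcongr)
    · intro ξ hξ
      rw [hX] at hξ
      obtain ⟨z, hz, κ, hTv, -⟩ := hξ
      obtain ⟨hP, R, hR⟩ := bk_cob hL hT hTor hz hTv
      obtain ⟨C, -, hC⟩ := grow_cusp hd hP hR hK
      exact ⟨C, hC⟩
  -- the connecting elements
  obtain ⟨M₂, hM₂1, hM₂⟩ : ∃ M : ℝ, 1 ≤ M ∧ ∀ p ∈ X ×ˢ X, (∃ δ ∈ Γ, mv δ p.1 = p.2) →
      ∃ δ ∈ Γ, mv δ p.1 = p.2 ∧ ch δ ≤ M ∧ ‖K δ⁻¹‖ ≤ M := by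
    refine bk_unif (hXf.prod hXf) (P := fun p M => (∃ δ ∈ Γ, mv δ p.1 = p.2) →
      ∃ δ ∈ Γ, mv δ p.1 = p.2 ∧ ch δ ≤ M ∧ ‖K δ⁻¹‖ ≤ M) ?_ ?_
    · intro p C C' hCC h hex
      obtain ⟨δ, h1, h2, h3, h4⟩ := h hex
      exact ⟨δ, h1, h2, h3.trans hCC, h4.trans hCC⟩
    · intro p _
      by_cases hex : ∃ δ ∈ Γ, mv δ p.1 = p.2
      · obtain ⟨δ, h1, h2⟩ := hex
        exact ⟨max (ch δ) ‖K δ⁻¹‖, fun _ => ⟨δ, h1, h2, le_max_left _ _, le_max_right _ _⟩⟩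
      · exact ⟨0, fun h => absurd h hex⟩
  obtain ⟨Y₁, hY₁⟩ : ∃ Y : ℝ, Y = hty Γ (act (1 : SUGroup n) (base n)) := ⟨_, rfl⟩
  have hY₁1 : 1 ≤ Y₁ := by rw [hY₁]; exact le_max_left _ _
  obtain ⟨A, hA⟩ : ∃ A : ℝ, A = 2 * M₂ * (B * Y₁) := ⟨_, rfl⟩
  have hBY : 1 ≤ B * Y₁ := one_le_mul_of_one_le_of_one_le hB hY₁1
  have hA1 : 1 ≤ A := by rw [hA]; nlinarith
  obtain ⟨C₂, hC₂⟩ : ∃ C : ℝ, C = 4 * (1 + A) ^ 2 * (C₁ * (2 * (1 + A) * (1 + A)) ^ 3) *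
    (4 * B) ^ 2 := ⟨_, rfl⟩
  have hC₂0 : 0 < C₂ := by rw [hC₂]; positivity
  refine ⟨64 * B * M₁ + (C₂ + 16 * M₂ ^ 2 * B * M₂), by positivity, fun h δ hδ h1 h2 => ?_⟩
  obtain ⟨Y, hYd⟩ : ∃ Y, Y = hty Γ (act h (base n)) := ⟨_, rfl⟩
  have hY1 : 1 ≤ Y := by rw [hYd]; exact le_max_left _ _
  rw [← hYd] at h1 h2 ⊢
  have hYY : Y ≤ Y ^ 2 := by nlinarith
  have hch := one_le_ch h
  have hchδ := one_le_ch (δ * h)
  rcases le_or_gt Y 16 with hY16 | hY16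
  · have h3 : ch δ⁻¹ ≤ 32 * B := by
      have e : δ⁻¹ = h * (δ * h)⁻¹ := by group
      have h4 := ch_mul_le' h (δ * h)⁻¹
      rw [← e, ch_inv (δ * h)] at h4
      nlinarith [sq_nonneg (ch h - ch (δ * h))]
    have h4 := hM₁ _ (Γ.inv_mem hδ) h3
    calc ‖cj h (K δ⁻¹)‖ ≤ 4 * ch h ^ 2 * ‖K δ⁻¹‖ := norm_cj_le' _ _
      _ ≤ 4 * (B * 16) * M₁ := by
          gcongr
          exact h1.trans (by gcongr)
      _ = 64 * B * M₁ * 1 := by ring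
      _ ≤ 64 * B * M₁ * Y ^ 2 := by
          gcongr
          nlinarith
      _ ≤ (64 * B * M₁ + (C₂ + 16 * M₂ ^ 2 * B * M₂)) * Y ^ 2 := by
          gcongr
          have : 0 ≤ 16 * M₂ ^ 2 * B * M₂ := by positivity
          linarith
  · obtain ⟨z, hz, ξ, κ, hTv, hYeq⟩ := exists_hty hd h (by rw [← hYd]; linarith)
    have hξ := hTv.1
    have hκ0 : 0 < |κ| := abs_pos.2 hTv.2.1
    have hP := hTv.par hd hz
    have hξX : ξ ∈ X := hXm h z ξ κ hz hTv (by rw [← hYd]; exact h1) hYeq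
    have hYδ : hty Γ (act (δ * h) (base n)) = Y := by rw [act_mul, hty_act hδ, hYd]
    have hTv' := hTv.conj (γ' := δ)
    have hξ'X : mv δ ξ ∈ X := by
      refine hXm (δ * h) (δ * z * δ⁻¹) _ _ (Γ.mul_mem (Γ.mul_mem hδ hz) (Γ.inv_mem hδ)) hTv'
        (by rw [hYδ]; exact h2) ?_
      have h3 := hTv'.ds (δ * h)
      have h4 := hTv.ds h
      have e : ds (δ * h) (δ * z * δ⁻¹) = ds h z := by
        rw [ds_conj]
        congr 1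
        group
      rw [e] at h3
      rw [hYδ, hYd, hYeq]
      have h5 : ds h z ≠ 0 := by
        intro h0
        rw [h0, zero_mul] at h4
        norm_num at h4
      exact mul_left_cancel₀ h5 (h4.trans h3.symm)
    obtain ⟨δ₀, hδ₀, hmv, hchδ₀, hKδ₀⟩ := hM₂ (ξ, mv δ ξ) ⟨hξX, hξ'X⟩ ⟨δ, hδ, rfl⟩
    have hchδ₀1 := one_le_ch δ₀
    -- the element of the stabiliser
    obtain ⟨δ₂, hδ₂⟩ : ∃ δ₂, δ₂ = δ₀⁻¹ * δ := ⟨_, rfl⟩
    have hδ₂Γ : δ₂ ∈ Γ := by rw [hδ₂]; exact Γ.mul_mem (Γ.inv_mem hδ₀) hδ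
    have hδ₂S : δ₂ ∈ St ξ := by
      rw [mem_St hξ, hδ₂, mv_mul hξ]
      have h3 : mv δ₀ ξ = mv δ ξ := hmv
      rw [← h3, mv_inv_mv hξ]
    have e1 : δ⁻¹ = δ₂⁻¹ * δ₀⁻¹ := by rw [hδ₂]; group
    have hy : yp (pe ξ) (act h (base n)) = |κ| * Y := by
      rw [hYd, hYeq]
      field_simp
    have hchδ₂ : ch (δ₂ * h) ≤ 2 * M₂ * ch (δ * h) := by
      have e : δ₂ * h = δ₀⁻¹ * (δ * h) := by rw [hδ₂]; group
      rw [e]
      refine (ch_mul_le' _ _).trans ?_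
      rw [ch_inv]
      gcongr
    -- bounds for `κ`
    have hκ1 : 1 ≤ |κ| * Y₁ := by
      have h3 := le_hty hd hz hTv 1
      rw [bk_yp_one, ← hY₁, div_le_iff₀ hκ0] at h3
      linarith
    have hκ2 : |κ| ≤ 4 * B := by
      have h3 := yp_harn (pe_ne_zero ξ) (by rw [q_pe, hξ, sub_self]) 1 h
      rw [one_mul, bk_yp_one, mul_one, hy] at h3
      have h4 := wt_le h
      have h5 := one_le_wt h
      have h6 : wt h ^ 2 ≤ (2 * ch h) ^ 2 := by gcongr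
      have h7 : |κ| * Y ≤ 4 * B * Y := by nlinarith
      exact le_of_mul_le_mul_right h7 (by linarith)
    have hAA : ∀ x : SUGroup n, ch x ≤ 2 * M₂ * ch (δ * h) ∨ ch x ≤ ch h →
        ch x ^ 2 ≤ A ^ 2 * max 1 (yp (pe ξ) (act h (base n))) := by
      intro x hx
      have hx1 := one_le_ch x
      have h3 : ch x ^ 2 ≤ (2 * M₂) ^ 2 * (B * Y) := by
        rcases hx with hx | hx
        · calc ch x ^ 2 ≤ (2 * M₂ * ch (δ * h)) ^ 2 := by gcongr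
            _ = (2 * M₂) ^ 2 * ch (δ * h) ^ 2 := by ring
            _ ≤ _ := by gcongr
        · have h4 : 1 ≤ (2 * M₂) ^ 2 := one_le_pow₀ (by linarith)
          calc ch x ^ 2 ≤ ch h ^ 2 := by gcongr
            _ ≤ 1 * (B * Y) := by rw [one_mul]; exact h1
            _ ≤ _ := by gcongr
      have h4 : B * Y ≤ (B * Y₁) ^ 2 * max 1 (yp (pe ξ) (act h (base n))) := by
        have h5 : |κ| * Y ≤ max 1 (yp (pe ξ) (act h (base n))) := by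
          rw [← hy]
          exact le_max_right _ _
        have h6 : B * Y ≤ B * Y₁ * (|κ| * Y) := by
          have : B * Y * 1 ≤ B * Y * (|κ| * Y₁) := by gcongr
          linarith
        have h7 : B * Y₁ ≤ (B * Y₁) ^ 2 := by nlinarith
        calc B * Y ≤ B * Y₁ * (|κ| * Y) := h6
          _ ≤ (B * Y₁) ^ 2 * max 1 (yp (pe ξ) (act h (base n))) := by gcongr
      calc ch x ^ 2 ≤ (2 * M₂) ^ 2 * (B * Y) := h3
        _ ≤ (2 * M₂) ^ 2 * ((B * Y₁) ^ 2 * max 1 (yp (pe ξ) (act h (base n)))) := by gcongr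
        _ = _ := by rw [hA]; ring
    have hE1 : 1 ≤ 4 * B * Y := by nlinarith
    have k1 := bk_St hP (by linarith : (0 : ℝ) ≤ C₁) (hC₁ ξ hξX) (by linarith : (0 : ℝ) ≤ A)
      h hE1 (by rw [hy]; gcongr) (hAA h (Or.inr le_rfl)) hδ₂Γ hδ₂S
      (hAA (δ₂ * h) (Or.inl hchδ₂))
    have k2 : ‖cj (δ₂ * h) (K δ₀⁻¹)‖ ≤ 16 * M₂ ^ 2 * B * M₂ * Y := by
      refine (norm_cj_le' _ _).trans ?_
      have hx1 := one_le_ch (δ₂ * h)
      calc 4 * ch (δ₂ * h) ^ 2 * ‖K δ₀⁻¹‖ ≤ 4 * (2 * M₂ * ch (δ * h)) ^ 2 * M₂ := by gcongr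
        _ = 16 * M₂ ^ 2 * M₂ * ch (δ * h) ^ 2 := by ring
        _ ≤ 16 * M₂ ^ 2 * M₂ * (B * Y) := by gcongr
        _ = _ := by ring
    have hKe := hK.mul (Γ.inv_mem hδ₂Γ) (Γ.inv_mem hδ₀) h
    rw [← e1, inv_inv] at hKe
    rw [hKe]
    calc ‖cj h (K δ₂⁻¹) + cj (δ₂ * h) (K δ₀⁻¹)‖ ≤
          4 * (1 + A) ^ 2 * (C₁ * (2 * (1 + A) * (1 + A)) ^ 3) * (4 * B * Y) ^ 2 +
            16 * M₂ ^ 2 * B * M₂ * Y := (norm_add_le _ _).trans (add_le_add k1 k2)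
      _ = C₂ * Y ^ 2 + 16 * M₂ ^ 2 * B * M₂ * Y := by rw [hC₂]; ring
      _ ≤ C₂ * Y ^ 2 + 16 * M₂ ^ 2 * B * M₂ * Y ^ 2 := by gcongr
      _ = (C₂ + 16 * M₂ ^ 2 * B * M₂) * Y ^ 2 := by ring
      _ ≤ (64 * B * M₁ + (C₂ + 16 * M₂ ^ 2 * B * M₂)) * Y ^ 2 := by
          refine mul_le_mul_of_nonneg_right ?_ (sq_nonneg _)
          have : 0 ≤ 64 * B * M₁ := by positivity
          linarith

end Pool.Agent.Lib.MP_5d4057_al.WR.Bs
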