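import Pool.Agent.Lib.MP_5d4057_al.WR.Ident
import Pool.Agent.Lib.MP_5d4057_al.HM.Grp

/-! From functions on the cone with values in matrices to forms on the group: `et f b g` is
`g⁻¹ (X_b f) g`, `ett f a b` is its derivative along `X_a`. -/

set_option autoImplicit false

namespace Pool.Agent.Lib.MP_5d4057_al.WR

open Matrix MeasureTheory Filter Topology Pool.Agent.Lib.MP_5d4057_al
  Pool.Agent.Lib.MP_5d4057_al.Hyb Pool.Agent.Lib.MP_5d4057_al.HM Pool.Agent.Lib.MP_5d4057_al.NU
  Pool.Agent.Lib.MP_5d4057_al.IN.D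

open scoped ComplexOrder MatrixOrder Matrix.Norms.L2Operator ENNReal

variable {n : ℕ}

/-- The form `g⁻¹ (X_b f) g` of a function on the cone. -/
noncomputable def et (f : Vec n → Mat (n + 1)) (b : Ix n) (g : SUGroup n) : Mat (n + 1) :=
  (g⁻¹).toMatrix * fderiv ℝ f (act g (base n)) (act g (vec (xi b))) * g.toMatrix

/-- The second derivatives in the frame. -/
noncomputable def dd (f : Vec n → Mat (n + 1)) (a b : Ix n) (g : SUGroup n) : Mat (n + 1) :=
  (g⁻¹).toMatrix * fderiv ℝ (fderiv ℝ f) (act g (base n)) (act g (vec (xi a)))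
    (act g (vec (xi b))) * g.toMatrix

/-- The derivative of `et f b` along `X_a`. -/
noncomputable def ett (f : Vec n → Mat (n + 1)) (a b : Ix n) (g : SUGroup n) : Mat (n + 1) :=
  dd f a b g - cm (Xa a) (et f b g)

/-- Equivariance with a cocycle. -/
def Aff (Γ : Subgroup (SUGroup n)) (κ : SUGroup n → Mat (n + 1)) (f : Vec n → Mat (n + 1)) :
    Prop :=
  ∀ γ ∈ Γ, ∀ v ∈ Cone n, f (act γ v) = γ.toMatrix * f v * (γ⁻¹).toMatrix + κ γ

theorem J_Xa (a : Ix n) : J n * Xa a * J n = -Xa a := by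
  have hne : ∀ k : Fin n, k.castSucc ≠ Fin.last n := fun k => (Fin.castSucc_lt_last k).ne
  have e1 : ∀ i : Fin n, J n * eu i * J n = -eu i := by
    intro i
    ext k l
    rw [HG.mul_J_apply, HG.J_mul_apply, Matrix.neg_apply, eu, Matrix.single_apply]
    split_ifs with h
    · rw [← h.1, ← h.2, HG.J_castSucc, HG.J_last]
      ring
    · simp
  have e2 : ∀ i : Fin n, J n * ed i * J n = -ed i := by
    intro i
    ext k l
    rw [HG.mul_J_apply, HG.J_mul_apply, Matrix.neg_apply, ed, Matrix.single_apply]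
    split_ifs with h
    · rw [← h.1, ← h.2, HG.J_castSucc, HG.J_last]
      ring
    · simp
  rw [Xa_eq, mul_add, add_mul, mul_smul_comm, smul_mul_assoc, mul_smul_comm, smul_mul_assoc, e1, e2,
    smul_neg, smul_neg, neg_add]

theorem hasDerivAt_ba (a : Ix n) (t : ℝ) :
    HasDerivAt (fun t => (ba a t).toMatrix) ((ba a t).toMatrix * Xa a) t :=
  Kak.hasDerivAt_flow (xi_norm a) t

theorem hasDerivAt_gba (a : Ix n) (g : SUGroup n) (t : ℝ) :
    HasDerivAt (fun t => (g * ba a t).toMatrix) ((g * ba a t).toMatrix * Xa a) t := by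
  have h := (hasDerivAt_ba a t).const_mul g.toMatrix
  simp only [toMatrix_mul]
  rw [Matrix.mul_assoc]
  exact h

theorem hasDerivAt_gba_inv (a : Ix n) (g : SUGroup n) (t : ℝ) :
    HasDerivAt (fun t => ((g * ba a t)⁻¹).toMatrix) (-(Xa a * ((g * ba a t)⁻¹).toMatrix)) t := by
  have h := hasDerivAt_gba a g t
  have h1 : HasDerivAt (fun t => J n * ((g * ba a t).toMatrix)ᴴ * J n)
      (J n * ((g * ba a t).toMatrix * Xa a)ᴴ * J n) t := by
    have h2 : HasDerivAt (fun t => ((g * ba a t).toMatrix)ᴴ) (((g * ba a t).toMatrix * Xa a)ᴴ) t :=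
      h.star
    exact (h2.const_mul (J n)).mul_const (J n)
  simp only [HG.inv_toMatrix]
  refine h1.congr_deriv ?_
  rw [conjTranspose_mul, Xa_herm]
  have e : J n * (Xa a * ((g * ba a t).toMatrix)ᴴ) * J n =
      (J n * Xa a * J n) * (J n * ((g * ba a t).toMatrix)ᴴ * J n) := by
    have hJ : J n * J n = 1 := J_mul_J n
    calc J n * (Xa a * ((g * ba a t).toMatrix)ᴴ) * J n
        = J n * Xa a * (1 * (((g * ba a t).toMatrix)ᴴ * J n)) := by
          rw [Matrix.one_mul]
          simp only [Matrix.mul_assoc]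
      _ = _ := by
          rw [← hJ]
          simp only [Matrix.mul_assoc]
  rw [e, J_Xa, neg_mul]

theorem hasDerivAt_act_ba (a : Ix n) (g : SUGroup n) (w : Vec n) (t : ℝ) :
    HasDerivAt (fun t => act (g * ba a t) w) (act (g * ba a t) (Xa a *ᵥ w)) t := by
  have h := hasDerivAt_gba a g t
  rw [hasDerivAt_pi]
  intro i
  have h1 : ∀ j, HasDerivAt (fun t => (g * ba a t).toMatrix i j)
      (((g * ba a t).toMatrix * Xa a) i j) t := fun j => hasDerivAt_pi.1 (hasDerivAt_pi.1 h i) j
  have h2 := HasDerivAt.fun_sum (u := Finset.univ) fun j _ => (h1 j).mul_const (w j)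
  have e : ∀ A : Mat (n + 1), (A *ᵥ w) i = ∑ j, A i j * w j := fun A => rfl
  simp only [act, e]
  refine h2.congr_deriv ?_
  rw [← e, ← Matrix.mulVec_mulVec]

theorem Xa_base (a : Ix n) : Xa a *ᵥ base n = vec (xi a) := by
  rw [Xa, xmat, add_mulVec, vecMulVec_mulVec, vecMulVec_mulVec, Kak.base_dot_base,
    Kak.star_vec_dot_base]
  simp

theorem Xa_vec (a b : Ix n) : ∃ c : ℂ, Xa a *ᵥ vec (xi b) = c • base n := by
  refine ⟨star (vec (xi a)) ⬝ᵥ vec (xi b), ?_⟩
  rw [Xa, xmat, add_mulVec, vecMulVec_mulVec, vecMulVec_mulVec, Kak.base_dot_vec]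
  simp

theorem hasDerivAt_D1 {E : Type} [NormedAddCommGroup E] [NormedSpace ℝ E] {f : Vec n → E}
    (hf : Homog f) (h2 : ContDiffOn ℝ 2 f (Cone n)) (a b : Ix n)
    (g : SUGroup n) (t : ℝ) :
    HasDerivAt (fun t => fderiv ℝ f (act (g * ba a t) (base n)) (act (g * ba a t) (vec (xi b))))
      (fderiv ℝ (fderiv ℝ f) (act (g * ba a t) (base n)) (act (g * ba a t) (vec (xi a)))
        (act (g * ba a t) (vec (xi b)))) t := by
  have hd : ContDiffAt ℝ 2 f (act (g * ba a t) (base n)) :=
    h2.contDiffAt ((isOpen_cone n).mem_nhds (orbit_mem _))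
  have h1 := hasDerivAt_act_ba a g (base n) t
  have h3 := hasDerivAt_act_ba a g (vec (xi b)) t
  rw [Xa_base] at h1
  obtain ⟨c, hc⟩ := Xa_vec a b
  rw [hc, act_smul] at h3
  have hD : DifferentiableAt ℝ (fderiv ℝ f) (act (g * ba a t) (base n)) :=
    (hd.fderiv_right (m := 1) (by norm_num)).differentiableAt (by norm_num)
  have h4 : HasDerivAt (fun t => fderiv ℝ f (act (g * ba a t) (base n)))
      (fderiv ℝ (fderiv ℝ f) (act (g * ba a t) (base n)) (act (g * ba a t) (vec (xi a)))) t :=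
    hD.hasFDerivAt.comp_hasDerivAt t h1
  have h5 := h4.clm_apply h3
  have h6 := homog_fderiv hf (orbit_mem (g * ba a t)) (hd.differentiableAt (by norm_num)) c
  rw [h6, add_zero] at h5
  exact h5

theorem et_alg {m : ℕ} (X p D D' q : Mat m) :
    (-(X * p) * D + p * D') * q + p * D * (q * X) = p * D' * q - (X * (p * D * q) - p * D * q * X) := by
  simp only [Matrix.mul_assoc, neg_mul, add_mul]
  abel

section
variable {f : Vec n → Mat (n + 1)}

/-- The derivative of `et f b` along `X_a` is `ett f a b`. -/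
theorem hasDerivAt_et (hf : Homog f) (h2 : ContDiffOn ℝ 2 f (Cone n)) (a b : Ix n)
    (g : SUGroup n) (t : ℝ) :
    HasDerivAt (fun t => et f b (g * ba a t)) (ett f a b (g * ba a t)) t := by
  have h1 := ((hasDerivAt_gba_inv a g t).mul (hasDerivAt_D1 hf h2 a b g t)).mul
    (hasDerivAt_gba a g t)
  unfold et
  refine h1.congr_deriv ?_
  rw [ett, dd, cm, et]
  exact et_alg _ _ _ _ _

theorem continuous_inv_mat : Continuous fun g : SUGroup n => (g⁻¹).toMatrix :=
  (continuous_toMatrix n).comp continuous_inv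

theorem continuous_et (h2 : ContDiffOn ℝ 2 f (Cone n)) (b : Ix n) : Continuous (et f b) := by
  unfold et
  exact (continuous_inv_mat.mul (continuous_D1 h2 _)).mul (continuous_toMatrix n)

theorem continuous_dd (h2 : ContDiffOn ℝ 2 f (Cone n)) (a b : Ix n) : Continuous (dd f a b) := by
  unfold dd
  exact (continuous_inv_mat.mul
    ((((continuousOn_fderiv_two_cone h2).comp_continuous continuous_orbit orbit_mem).clm_apply
      (continuous_actv _)).clm_apply (continuous_actv _))).mul (continuous_toMatrix n)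

theorem continuous_ett (h2 : ContDiffOn ℝ 2 f (Cone n)) (a b : Ix n) :
    Continuous (ett f a b) := by
  unfold ett
  exact (continuous_dd h2 a b).sub ((continuous_cm _).comp (continuous_et h2 b))

theorem dd_symm (h2 : ContDiffOn ℝ 2 f (Cone n)) (a b : Ix n) (g : SUGroup n) :
    dd f a b g = dd f b a g := by
  have hd : ContDiffAt ℝ 2 f (act g (base n)) :=
    h2.contDiffAt ((isOpen_cone n).mem_nhds (orbit_mem _))
  have h := hd.isSymmSndFDerivAt (by simp)
  unfold dd
  rw [h.eq]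

/-- The form is closed. -/
theorem et_closed (h2 : ContDiffOn ℝ 2 f (Cone n)) (a b : Ix n) (g : SUGroup n) :
    ett f a b g + cm (Xa a) (et f b g) = ett f b a g + cm (Xa b) (et f a g) := by
  rw [ett, ett, sub_add_cancel, sub_add_cancel, dd_symm h2]

/-- The operator `L = D^* D` in the frame `g`. -/
noncomputable def Lg (f : Vec n → Mat (n + 1)) (g : SUGroup n) : Mat (n + 1) :=
  ∑ a, (cm (Xa a) (et f a g) - ett f a a g)

theorem Lg_eq (f : Vec n → Mat (n + 1)) (g : SUGroup n) :
    Lg f g = ∑ a, ((2 : ℝ) • cm (Xa a) (et f a g) - dd f a a g) := by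
  unfold Lg ett
  refine Finset.sum_congr rfl fun a _ => ?_
  rw [two_smul]
  abel

theorem trace_et (h2 : ContDiffOn ℝ 2 f (Cone n)) (ht : ∀ v ∈ Cone n, (f v).trace = 0) (b : Ix n)
    (g : SUGroup n) : (et f b g).trace = 0 := by
  have hd : DifferentiableAt ℝ f (act g (base n)) :=
    (h2.contDiffAt ((isOpen_cone n).mem_nhds (orbit_mem _))).differentiableAt (by norm_num)
  obtain ⟨l, hl⟩ : ∃ l : Mat (n + 1) →L[ℝ] ℂ, ∀ A, l A = A.trace :=
    ⟨((Matrix.traceLinearMap (Fin (n + 1)) ℂ ℂ).restrictScalars ℝ).toContinuousLinearMap,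
      fun A => rfl⟩
  have h1 : HasFDerivAt (fun v => l (f v)) (l.comp (fderiv ℝ f (act g (base n))))
      (act g (base n)) := l.hasFDerivAt.comp _ hd.hasFDerivAt
  have h3 : (fun v => l (f v)) =ᶠ[𝓝 (act g (base n))] fun _ => 0 := by
    filter_upwards [(isOpen_cone n).mem_nhds (orbit_mem g)] with v hv
    rw [hl, ht v hv]
  have h4 := h1.unique ((hasFDerivAt_const (0 : ℂ) _).congr_of_eventuallyEq h3)
  have h5 := congrArg (fun L : Vec n →L[ℝ] ℂ => L (act g (vec (xi b)))) h4
  simp only [ContinuousLinearMap.comp_apply, hl, _root_.zero_apply] at h5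
  rw [et, Matrix.mul_assoc, Matrix.trace_mul_comm, Matrix.mul_assoc, toMatrix_mul_inv,
    Matrix.mul_one, h5]

variable {Γ : Subgroup (SUGroup n)} {κ : SUGroup n → Mat (n + 1)}

/-- The form of an equivariant function is invariant. -/
theorem et_inv (h2 : ContDiffOn ℝ 2 f (Cone n)) (hA : Aff Γ κ f) (b : Ix n) :
    ∀ γ ∈ Γ, ∀ g, et f b (γ * g) = et f b g := by
  intro γ hγ g
  have hd : ∀ v ∈ Cone n, DifferentiableAt ℝ f v := fun v hv =>
    (h2.contDiffAt ((isOpen_cone n).mem_nhds hv)).differentiableAt (by norm_num)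
  have h1 : HasFDerivAt (fun u => f (actL γ u)) ((fderiv ℝ f (act γ (act g (base n)))).comp
      (actL γ)) (act g (base n)) :=
    HasFDerivAt.comp (act g (base n)) (g := f) (f := fun u => actL γ u)
      (hd _ (act_mem γ (orbit_mem g))).hasFDerivAt (actL γ).hasFDerivAt
  obtain ⟨l, hl⟩ : ∃ l : Mat (n + 1) →L[ℝ] Mat (n + 1), ∀ A, l A =
      γ.toMatrix * A * (γ⁻¹).toMatrix :=
    ⟨(((LinearMap.mulLeft ℝ γ.toMatrix).comp
      (LinearMap.mulRight ℝ (γ⁻¹).toMatrix))).toContinuousLinearMap, fun A => by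
      show γ.toMatrix * (A * (γ⁻¹).toMatrix) = _
      rw [Matrix.mul_assoc]⟩
  have h3 : HasFDerivAt (fun u => l (f u) + κ γ) (l.comp (fderiv ℝ f (act g (base n))))
      (act g (base n)) :=
    ((l.hasFDerivAt.comp _ (hd _ (orbit_mem g)).hasFDerivAt)).add_const _
  have h4 : (fun u => f (actL γ u)) =ᶠ[𝓝 (act g (base n))] fun u => l (f u) + κ γ := by
    filter_upwards [(isOpen_cone n).mem_nhds (orbit_mem g)] with u hu
    rw [hl]
    exact hA γ hγ u hu
  have h5 := h1.unique (h3.congr_of_eventuallyEq h4)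
  have h6 := congrArg (fun L : Vec n →L[ℝ] Mat (n + 1) => L (act g (vec (xi b)))) h5
  simp only [ContinuousLinearMap.comp_apply, hl, actL_apply] at h6
  unfold et
  rw [act_mul, act_mul, h6, _root_.mul_inv_rev, toMatrix_mul, toMatrix_mul]
  calc (g⁻¹).toMatrix * (γ⁻¹).toMatrix * (γ.toMatrix * _ * (γ⁻¹).toMatrix) *
      (γ.toMatrix * g.toMatrix)
      = (g⁻¹).toMatrix * ((γ⁻¹).toMatrix * γ.toMatrix) *
        (fderiv ℝ f (act g (base n)) (act g (vec (xi b)))) *
        ((γ⁻¹).toMatrix * γ.toMatrix) * g.toMatrix := by simp only [Matrix.mul_assoc]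
    _ = _ := by rw [toMatrix_inv_mul, Matrix.mul_one, Matrix.mul_one]

/-- If an equivariant trace free function `f` on the cone satisfies `L f = 0` and its first and second
derivatives are square integrable, it is constant. -/
theorem et_zero (hn : 2 ≤ n) {χ : SUGroup n → ℝ} (h : Lat Γ χ) (hf : Homog f)
    (h2 : ContDiffOn ℝ 2 f (Cone n)) (ht : ∀ v ∈ Cone n, (f v).trace = 0) (hA : Aff Γ κ f)
    (hL : ∀ g, Lg f g = 0)
    (hi : ∀ b, Integrable (fun g => χ g • ip (et f b g) (et f b g)) (mu n))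
    (hi' : ∀ a b, Integrable (fun g => χ g • ip (ett f a b g) (ett f a b g)) (mu n)) :
    ∀ b g, et f b g = 0 :=
  eta_zero hn h (continuous_et h2) (continuous_ett h2) (hasDerivAt_et hf h2) (et_inv h2 hA)
    (trace_et h2 ht) (et_closed h2) hL hi hi'

theorem vec_eq_sum (ξ : Fin n → ℂ) : vec ξ = ∑ j : Fin n,
    ((ξ j).re • vec (xi (j, false)) + (ξ j).im • vec (xi (j, true))) := by
  ext k
  refine Fin.lastCases ?_ (fun k => ?_) k
  · simp [Kak.vec_last]
  · simp only [Finset.sum_apply, Pi.add_apply, Pi.smul_apply, Kak.vec_castSucc]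
    rw [Finset.sum_eq_single k]
    · rw [xi, xi, Pi.single_eq_same, Pi.single_eq_same]
      simp [Complex.re_add_im]
    · intro j _ hj
      rw [xi, xi, Pi.single_eq_of_ne hj.symm, Pi.single_eq_of_ne hj.symm]
      simp
    · intro h
      exact absurd (Finset.mem_univ k) h

/-- If the form of a homogeneous function vanishes, the function is constant. -/
theorem const_of_et (hf : Homog f) (h2 : ContDiffOn ℝ 2 f (Cone n)) (h0 : ∀ b g, et f b g = 0) :
    ∃ B : Mat (n + 1), ∀ v ∈ Cone n, f v = B := by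
  have hd : ∀ v ∈ Cone n, DifferentiableAt ℝ f v := fun v hv =>
    (h2.contDiffAt ((isOpen_cone n).mem_nhds hv)).differentiableAt (by norm_num)
  have h1 : ∀ b g, fderiv ℝ f (act g (base n)) (act g (vec (xi b))) = 0 := by
    intro b g
    have h3 := h0 b g
    unfold et at h3
    calc fderiv ℝ f (act g (base n)) (act g (vec (xi b)))
        = (g.toMatrix * (g⁻¹).toMatrix) * fderiv ℝ f (act g (base n)) (act g (vec (xi b))) *
          (g.toMatrix * (g⁻¹).toMatrix) := by
          rw [toMatrix_mul_inv, Matrix.mul_one, Matrix.one_mul]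
      _ = g.toMatrix * ((g⁻¹).toMatrix * fderiv ℝ f (act g (base n)) (act g (vec (xi b))) *
          g.toMatrix) * (g⁻¹).toMatrix := by simp only [Matrix.mul_assoc]
      _ = 0 := by rw [h3]; simp
  have h2' : ∀ g : SUGroup n, fderiv ℝ f (act g (base n)) = 0 := by
    intro g
    ext1 w
    obtain ⟨ξ, c, hw⟩ : ∃ (ξ : Fin n → ℂ) (c : ℂ), act g⁻¹ w = vec ξ + c • base n := by
      refine ⟨fun i => act g⁻¹ w i.castSucc, act g⁻¹ w (Fin.last n), ?_⟩
      ext k
      refine Fin.lastCases ?_ (fun k => ?_) k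
      · simp [Kak.vec_last, Kak.base_last]
      · simp [Kak.vec_castSucc, Kak.base_castSucc]
    have e : w = act g (act g⁻¹ w) := by
      rw [← act_mul, mul_inv_cancel, act_one]
    have hlin : ∀ ξ : Fin n → ℂ, fderiv ℝ f (act g (base n)) (act g (vec ξ)) = 0 := by
      intro ξ
      have e2 : act g (vec ξ) = actL g (vec ξ) := rfl
      rw [e2, vec_eq_sum, map_sum, map_sum]
      refine Finset.sum_eq_zero fun j _ => ?_
      rw [map_add, map_add, map_smul, map_smul, map_smul, map_smul, actL_apply, actL_apply,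
        h1 (j, false) g, h1 (j, true) g, smul_zero, smul_zero, add_zero]
    rw [e, hw, act_add, act_smul, map_add, hlin, homog_fderiv hf (orbit_mem g) (hd _ (orbit_mem g)),
      add_zero]
    rfl
  have h3 : ∀ v ∈ Cone n, fderiv ℝ f v = 0 := by
    intro v hv
    obtain ⟨g, c, hc, rfl⟩ := exists_act_eq hv
    have hL : HasFDerivAt (fun u : Vec n => c⁻¹ • u) (c⁻¹ • ContinuousLinearMap.id ℝ (Vec n))
        (c • act g (base n)) := (hasFDerivAt_id _).const_smul c⁻¹
    have e1 : c⁻¹ • c • act g (base n) = act g (base n) := by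
      rw [smul_smul, inv_mul_cancel₀ hc, one_smul]
    have h4 : HasFDerivAt f (0 : Vec n →L[ℝ] Mat (n + 1)) (c⁻¹ • c • act g (base n)) := by
      rw [e1, ← h2' g]
      exact (hd _ (orbit_mem g)).hasFDerivAt
    have h5 : HasFDerivAt (fun u => f (c⁻¹ • u)) ((0 : Vec n →L[ℝ] Mat (n + 1)).comp
        (c⁻¹ • ContinuousLinearMap.id ℝ (Vec n))) (c • act g (base n)) :=
      HasFDerivAt.comp (c • act g (base n)) (g := f) (f := fun u => c⁻¹ • u) h4 hL
    have h6 : (fun u => f (c⁻¹ • u)) =ᶠ[𝓝 (c • act g (base n))] f := by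
      filter_upwards [(isOpen_cone n).mem_nhds hv] with u hu
      exact hf _ (inv_ne_zero hc) u hu
    rw [← h6.fderiv_eq, h5.fderiv, ContinuousLinearMap.zero_comp]
  refine ⟨f (base n), fun v hv => ?_⟩
  exact (isOpen_cone n).is_const_of_fderiv_eq_zero (isPreconnected_cone n)
    (fun u hu => (hd u hu).differentiableWithinAt) (fun u hu => h3 u hu) hv (base_mem n)

/-- The end of the proof: the cocycle of a trace free affine function with `L F = 0` and square
integrable first and second derivatives is a coboundary. -/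
theorem cob_of_aff (hn : 2 ≤ n) {χ : SUGroup n → ℝ} (h : Lat Γ χ) (hf : Homog f)
    (h2 : ContDiffOn ℝ 2 f (Cone n)) (ht : ∀ v ∈ Cone n, (f v).trace = 0) (hA : Aff Γ κ f)
    (hL : ∀ g, ∑ a, (cm (Xa a) (et f a g) - ett f a a g) = 0)
    (hi : ∀ b, Integrable (fun g => χ g • ip (et f b g) (et f b g)) (mu n))
    (hi' : ∀ a b, Integrable (fun g => χ g • ip (ett f a b g) (ett f a b g)) (mu n)) :
    ∃ B : Mat (n + 1), B.trace = 0 ∧ ∀ γ ∈ Γ, κ γ = B - γ.toMatrix * B * (γ⁻¹).toMatrix := by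
  obtain ⟨B, hB⟩ := const_of_et hf h2 (et_zero hn h hf h2 ht hA hL hi hi')
  refine ⟨B, ?_, fun γ hγ => ?_⟩
  · rw [← hB _ (base_mem n)]
    exact ht _ (base_mem n)
  · have h1 := hA γ hγ (base n) (base_mem n)
    rw [hB _ (base_mem n), hB _ (act_mem γ (base_mem n))] at h1
    rw [eq_sub_iff_add_eq, add_comm (κ γ)]
    exact h1.symm

end

end Pool.Agent.Lib.MP_5d4057_al.WR
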