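import Pool.Agent.Lib.MP_5d4057_al.RG.SepB

/-!
# WR: growth of cocycles of the adjoint representation on a cusp group
-/

set_option autoImplicit false

namespace Pool.Agent.Lib.MP_5d4057_al.WR.Bs

open Matrix Filter Topology Pool.Agent.Lib.MP_5d4057_al Pool.Agent.Lib.MP_5d4057_al.Hyb
  Pool.Agent.Lib.MP_5d4057_al.HM Pool.Agent.Lib.MP_5d4057_al.HM.Kak Pool.Agent.Lib.MP_5d4057_al.NU
  Pool.Agent.Lib.MP_5d4057_al.RG

open scoped ComplexOrder MatrixOrder Matrix.Norms.L2Operator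

variable {n : ℕ} {Γ : Subgroup (SUGroup n)}

/-- Cocycles of the adjoint representation. -/
def Ccl (Γ : Subgroup (SUGroup n)) (K : SUGroup n → Mat (n + 1)) : Prop :=
  ∀ x ∈ Γ, ∀ y ∈ Γ, K (x * y) = K x + x.toMatrix * K y * (x⁻¹).toMatrix

/-- `x⁻¹ A x`. -/
noncomputable def cj (x : SUGroup n) (A : Mat (n + 1)) : Mat (n + 1) :=
  (x⁻¹).toMatrix * A * x.toMatrix

theorem cj_mul (x y : SUGroup n) (A : Mat (n + 1)) : cj (x * y) A = cj y (cj x A) := by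
  simp only [cj, _root_.mul_inv_rev, toMatrix_mul, Matrix.mul_assoc]

theorem cj_one (A : Mat (n + 1)) : cj 1 A = A := by
  rw [cj, inv_one, toMatrix_one, Matrix.one_mul, Matrix.mul_one]

theorem cj_add (x : SUGroup n) (A B : Mat (n + 1)) : cj x (A + B) = cj x A + cj x B := by
  rw [cj, cj, cj, Matrix.mul_add, Matrix.add_mul]

theorem cj_sub (x : SUGroup n) (A B : Mat (n + 1)) : cj x (A - B) = cj x A - cj x B := by
  rw [cj, cj, cj, Matrix.mul_sub, Matrix.sub_mul]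

theorem cj_zero (x : SUGroup n) : cj x 0 = 0 := by
  rw [cj, Matrix.mul_zero, Matrix.zero_mul]

theorem cj_smul (x : SUGroup n) (c : ℝ) (A : Mat (n + 1)) : cj x (c • A) = c • cj x A := by
  rw [cj, cj, Matrix.mul_smul, Matrix.smul_mul]

theorem norm_cj_le (x : SUGroup n) (A : Mat (n + 1)) : ‖cj x A‖ ≤ wt x ^ 2 * ‖A‖ := by
  have h1 := norm_toMatrix_le x
  have h2 := norm_toMatrix_le x⁻¹
  rw [wt_inv] at h2
  have h3 := one_le_wt x
  calc ‖cj x A‖ ≤ ‖(x⁻¹).toMatrix‖ * ‖A‖ * ‖x.toMatrix‖ :=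
        (norm_mul_le _ _).trans (mul_le_mul_of_nonneg_right (norm_mul_le _ _) (norm_nonneg _))
    _ ≤ wt x * ‖A‖ * wt x := by gcongr
    _ = _ := by ring

theorem norm_cj_le' (x : SUGroup n) (A : Mat (n + 1)) : ‖cj x A‖ ≤ 4 * ch x ^ 2 * ‖A‖ := by
  refine (norm_cj_le x A).trans ?_
  have h1 := one_le_wt x
  have h2 := wt_le x
  have h3 : wt x ^ 2 ≤ (2 * ch x) ^ 2 := by gcongr
  have h4 : (2 * ch x) ^ 2 = 4 * ch x ^ 2 := by ring
  rw [← h4]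
  gcongr

theorem Ccl.one {K : SUGroup n → Mat (n + 1)} (hK : Ccl Γ K) : K 1 = 0 := by
  have h := hK 1 Γ.one_mem 1 Γ.one_mem
  rw [inv_one, toMatrix_one, Matrix.one_mul, Matrix.mul_one, mul_one] at h
  exact left_eq_add.1 h

theorem Ccl.mul {K : SUGroup n → Mat (n + 1)} (hK : Ccl Γ K) {x y : SUGroup n} (hx : x ∈ Γ)
    (hy : y ∈ Γ) (g : SUGroup n) : cj g (K (x * y)) = cj g (K x) + cj (x⁻¹ * g) (K y) := by
  rw [hK x hx y hy, cj_add, cj_mul]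
  congr 2
  rw [cj, inv_inv]

theorem Ccl.mono {Δ : Subgroup (SUGroup n)} {K : SUGroup n → Mat (n + 1)} (hK : Ccl Γ K)
    (h : Δ ≤ Γ) : Ccl Δ K := fun x hx y hy => hK x (h hx) y (h hy)

theorem uv_pow_le' {ξ : Fin n → ℂ} (hξ : nq ξ = 1) {v : SUGroup n} (hv : Un ξ v) {j k : ℕ}
    (hjk : j ≤ k) : ‖uv ξ (v ^ j)‖ ≤ 2 * ‖uv ξ (v ^ k)‖ := by
  have key : ∀ j : ℕ, (uv ξ (v ^ j)).re = (j : ℝ) ^ 2 * (q (ua ξ v) / 4) ∧
      (uv ξ (v ^ j)).im = j * (uv ξ v).im := by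
    intro j
    obtain ⟨h1, h2, h3⟩ := ua_pow hξ hv j
    constructor
    · rw [h1.re hξ, h2, q_smul, Complex.norm_natCast]
      ring
    · have e : ((j : ℂ) * (j - 1) / 4) * (q (ua ξ v) : ℂ) =
          (((j : ℝ) * (j - 1) / 4 * q (ua ξ v) : ℝ) : ℂ) := by push_cast; ring
      rw [h3, e, Complex.add_im, Complex.ofReal_im, add_zero]
      simp
  obtain ⟨h1, h2⟩ := key j
  obtain ⟨h3, h4⟩ := key k
  have hq := Un.q_nonneg hξ v
  have hjk' : (j : ℝ) ≤ k := by exact_mod_cast hjk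
  have hj0 : (0 : ℝ) ≤ j := by positivity
  have h5 : |(uv ξ (v ^ j)).re| ≤ ‖uv ξ (v ^ k)‖ := by
    refine le_trans ?_ (Complex.abs_re_le_norm _)
    rw [h1, h3, abs_of_nonneg (by positivity), abs_of_nonneg (by positivity)]
    gcongr
  have h6 : |(uv ξ (v ^ j)).im| ≤ ‖uv ξ (v ^ k)‖ := by
    refine le_trans ?_ (Complex.abs_im_le_norm _)
    rw [h2, h4, abs_mul, abs_mul, abs_of_nonneg hj0, abs_of_nonneg (hj0.trans hjk')]
    gcongr
  have h7 := Complex.norm_le_abs_re_add_abs_im (uv ξ (v ^ j))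
  linarith

/-- Growth on a unipotent group. -/
theorem grow_un {ξ : Fin n → ℂ} (hξ : nq ξ = 1) {Δ : Subgroup (SUGroup n)}
    (hd : DiscreteTopology Δ) (hΔ : ∀ x ∈ Δ, Un ξ x) {R : ℝ}
    (hc : ∀ g ∈ PS ξ, ∃ δ ∈ Δ, ch (δ * g) ≤ R) {K : SUGroup n → Mat (n + 1)} (hK : Ccl Δ K) :
    ∃ C : ℝ, 0 < C ∧ ∀ s : ℝ, 0 ≤ s → ∀ δ ∈ Δ,
      ‖cj (fl ξ s) (K δ)‖ ≤ C * Real.exp (4 * s) * ch (fl ξ (-s) * δ * fl ξ s) ^ 3 := by
  obtain ⟨C₀, hC₀, hroot⟩ := exists_root hξ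
  have hR1 : 1 ≤ R := by
    obtain ⟨δ, -, h⟩ := hc 1 (PS ξ).one_mem
    exact (one_le_ch _).trans h
  obtain ⟨B, hB⟩ : ∃ B : ℝ, B = 2 * (2 * R * (3 * C₀)) * R := ⟨_, rfl⟩
  obtain ⟨M, hM1, hM⟩ : ∃ M : ℝ, 0 < M ∧ ∀ x ∈ Δ, ch x ≤ B → ‖K x‖ ≤ M := by
    obtain ⟨M, hM⟩ := ((finite_ch hd B).image fun x => ‖K x‖).bddAbove
    exact ⟨max M 1, lt_max_of_lt_right one_pos, fun x hx h =>
      (hM ⟨x, ⟨hx, h⟩, rfl⟩).trans (le_max_left _ _)⟩
  refine ⟨2 * (4 * (12 * R) ^ 2 * M), by positivity, fun s hs δ hδ => ?_⟩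
  obtain ⟨D, hD⟩ : ∃ D : ℝ, D = ch (fl ξ (-s) * δ * fl ξ s) := ⟨_, rfl⟩
  have hD1 : 1 ≤ D := hD ▸ one_le_ch _
  obtain ⟨E, hE⟩ : ∃ E : ℝ, E = Real.exp (2 * s) := ⟨_, rfl⟩
  have hE1 : 1 ≤ E := hE ▸ Real.one_le_exp (by linarith)
  have hEi : Real.exp (-(2 * s)) = E⁻¹ := by rw [hE, Real.exp_neg]
  have hu := hΔ δ hδ
  -- size of the coordinates
  have hA : ‖uv ξ δ‖ ≤ 2 * (E * D) := by
    obtain ⟨h1, h2⟩ := hu.flow hξ s
    have h3 := h1.norm_uv_le hξ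
    rw [h2, norm_mul, Complex.norm_real, Real.norm_eq_abs, abs_of_pos (Real.exp_pos _), hEi,
      ← hD, inv_mul_le_iff₀ (by linarith)] at h3
    linarith
  obtain ⟨k, hk⟩ : ∃ k, k = ⌈E * D⌉₊ := ⟨_, rfl⟩
  have hED : 1 ≤ E * D := one_le_mul_of_one_le_of_one_le hE1 hD1
  have hk1 : 1 ≤ k := by
    rw [hk]; exact Nat.one_le_ceil_iff.2 (by linarith)
  have hkR : (0 : ℝ) < k := by exact_mod_cast hk1
  have hkle : E * D ≤ k := by rw [hk]; exact Nat.le_ceil _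
  have hkub : (k : ℝ) ≤ 2 * (E * D) := by
    have : (k : ℝ) < E * D + 1 := by
      rw [hk]; exact Nat.ceil_lt_add_one (by linarith)
    linarith
  obtain ⟨v, hvP, hvD, hvk, hvc⟩ := hroot δ hu.1 hu.2 k hk1
  have hvU : Un ξ v := ⟨hvP, hvD⟩
  have hv : ch v ≤ 3 * C₀ := by
    have h1 : ch δ / k ≤ 2 := by
      rw [div_le_iff₀ hkR]
      have := hu.ch_le hξ
      linarith
    have h2 : C₀ * (1 + ch δ / k) ≤ C₀ * (1 + 2) := by gcongr
    linarith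
  -- the path
  have hpU : ∀ j : ℕ, Un ξ (v ^ j) := fun j => (ua_pow hξ hvU j).1
  choose f hfΔ hfR using fun j : ℕ => hc (v ^ j) (hpU j).1
  let b : ℕ → SUGroup n := fun j => if j = 0 then 1 else if j < k then (f j)⁻¹ else δ
  have hb0 : b 0 = 1 := by simp [b]
  have hbk : b k = δ := by
    have h1 : k ≠ 0 := by omega
    simp [b, h1]
  have hbΔ : ∀ j, b j ∈ Δ := by
    intro j
    by_cases h0 : j = 0
    · simp only [b, if_pos h0]; exact Δ.one_mem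
    · by_cases hj : j < k
      · simp only [b, if_neg h0, if_pos hj]; exact Δ.inv_mem (hfΔ j)
      · simp only [b, if_neg h0, if_neg hj]; exact hδ
  have hbR : ∀ j ≤ k, ch ((b j)⁻¹ * v ^ j) ≤ R := by
    intro j hjk
    by_cases h0 : j = 0
    · subst h0
      simp only [b, if_pos, pow_zero, mul_one, inv_one]
      rw [ch_one]
      exact hR1
    · by_cases hj : j < k
      · simp only [b, if_neg h0, if_pos hj, inv_inv]; exact hfR j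
      · have h1 : j = k := by omega
        simp only [b, if_neg h0, if_neg hj]
        rw [h1, hvk, inv_mul_cancel, ch_one]
        exact hR1
  -- sizes seen from the point at height `s`
  have hbs : ∀ j ≤ k, ch (fl ξ (-s) * b j * fl ξ s) ≤ 12 * R * D := by
    intro j hj
    have h1 := (hpU j).ch_flow hξ s
    have h2 := uv_pow_le' hξ hvU hj
    rw [hvk] at h2
    have h3 : ch (fl ξ (-s) * v ^ j * fl ξ s) ≤ 3 * D := by
      refine h1.trans ?_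
      rw [hEi]
      have h4 : E⁻¹ * ‖uv ξ (v ^ j)‖ ≤ 4 * D := by
        rw [inv_mul_le_iff₀ (by linarith)]
        linarith
      linarith
    have hcU : Un ξ ((b j)⁻¹ * v ^ j) := ((hΔ _ (hbΔ j)).inv hξ).mul hξ (hpU j)
    have h5 := hcU.ch_flow hξ s
    have h6 : ch (fl ξ (-s) * ((b j)⁻¹ * v ^ j) * fl ξ s) ≤ 2 * R := by
      refine h5.trans ?_
      rw [hEi]
      have h7 := hcU.norm_uv_le hξ
      have h8 : E⁻¹ * ‖uv ξ ((b j)⁻¹ * v ^ j)‖ ≤ 2 * R := by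
        rw [inv_mul_le_iff₀ (by linarith)]
        have h9 := hbR j hj
        nlinarith
      linarith
    have e : fl ξ (-s) * b j * fl ξ s = (fl ξ (-s) * v ^ j * fl ξ s) *
        (fl ξ (-s) * ((b j)⁻¹ * v ^ j) * fl ξ s)⁻¹ := by
      rw [fl_neg]
      group
    rw [e]
    refine (ch_mul_le' _ _).trans ?_
    rw [ch_inv]
    have h9 := one_le_ch (fl ξ (-s) * v ^ j * fl ξ s)
    have h10 := one_le_ch (fl ξ (-s) * ((b j)⁻¹ * v ^ j) * fl ξ s)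
    calc _ ≤ 2 * (3 * D) * (2 * R) := by gcongr
      _ = _ := by ring
  -- the steps
  have hstep : ∀ j, j + 1 ≤ k → ch ((b j)⁻¹ * b (j + 1)) ≤ B := by
    intro j hj
    have e : (b j)⁻¹ * b (j + 1) =
        ((b j)⁻¹ * v ^ j) * v * ((b (j + 1))⁻¹ * v ^ (j + 1))⁻¹ := by
      rw [pow_succ]
      group
    rw [e, hB]
    have h1 := ch_mul_le' (((b j)⁻¹ * v ^ j) * v) ((b (j + 1))⁻¹ * v ^ (j + 1))⁻¹
    have h2 := ch_mul_le' ((b j)⁻¹ * v ^ j) v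
    have h3 := hbR j (by omega)
    have h4 := hbR (j + 1) hj
    rw [ch_inv] at h1
    have h5 := one_le_ch ((b j)⁻¹ * v ^ j)
    have h6 := one_le_ch (((b j)⁻¹ * v ^ j) * v)
    have h7 := one_le_ch v
    have h8 := one_le_ch ((b (j + 1))⁻¹ * v ^ (j + 1))
    calc _ ≤ _ := h1
      _ ≤ 2 * (2 * R * (3 * C₀)) * R := by
          gcongr
          exact h2.trans (by gcongr)
  obtain ⟨L, hL⟩ : ∃ L : ℝ, L = 4 * (12 * R) ^ 2 * M * D ^ 2 * E := ⟨_, rfl⟩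
  have hL0 : 0 ≤ L := by rw [hL]; positivity
  have hind : ∀ j ≤ k, ‖cj (fl ξ s) (K (b j))‖ ≤ j * L := by
    intro j
    induction j with
    | zero =>
      intro _
      rw [hb0, hK.one, cj_zero, norm_zero]
      simp
    | succ j ih =>
      intro hj
      have h1 := ih (by omega)
      have e1 : b (j + 1) = b j * ((b j)⁻¹ * b (j + 1)) := by group
      have hx : (b j)⁻¹ * b (j + 1) ∈ Δ := Δ.mul_mem (Δ.inv_mem (hbΔ j)) (hbΔ _)
      have h2 : ‖K ((b j)⁻¹ * b (j + 1))‖ ≤ M := hM _ hx (hstep j hj)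
      have e2 : (b j)⁻¹ * fl ξ s = fl ξ s * (fl ξ (-s) * b j * fl ξ s)⁻¹ := by
        rw [fl_neg]
        group
      have h3 : ‖cj ((b j)⁻¹ * fl ξ s) (K ((b j)⁻¹ * b (j + 1)))‖ ≤ L := by
        rw [e2, cj_mul]
        have h4 := norm_cj_le' (fl ξ (-s) * b j * fl ξ s)⁻¹
          (cj (fl ξ s) (K ((b j)⁻¹ * b (j + 1))))
        have h5 := norm_cj_le (fl ξ s) (K ((b j)⁻¹ * b (j + 1)))
        have h6 := wt_fl_le ξ s
        rw [abs_of_nonneg hs] at h6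
        have h7 := one_le_wt (fl ξ s)
        have h8 : wt (fl ξ s) ^ 2 ≤ E := by
          rw [hE, two_mul, Real.exp_add, ← sq]
          gcongr
        rw [ch_inv] at h4
        have h9 := hbs j (by omega)
        have h10 := one_le_ch (fl ξ (-s) * b j * fl ξ s)
        calc _ ≤ _ := h4
          _ ≤ 4 * (12 * R * D) ^ 2 * (E * M) := by
              gcongr
              exact h5.trans (by gcongr)
          _ = L := by rw [hL]; ring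
      rw [e1, hK.mul (hbΔ j) hx]
      refine (norm_add_le _ _).trans ?_
      push_cast
      linarith
  have h1 := hind k le_rfl
  rw [hbk] at h1
  rw [← hD]
  have e4 : Real.exp (4 * s) = E ^ 2 := by
    rw [hE, ← Real.exp_nat_mul]
    congr 1
    push_cast
    ring
  rw [e4]
  calc _ ≤ _ := h1
    _ ≤ 2 * (E * D) * L := by gcongr
    _ = _ := by rw [hL]; ring

/-- Growth on the stabiliser of a cusp. -/
theorem grow_cusp (hd : DiscreteTopology Γ) {ξ : Fin n → ℂ} (hP : Par Γ ξ) {R : ℝ}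
    (hc : ∀ g ∈ PS ξ, ∃ γ ∈ Γ, γ ∈ St ξ ∧ ch (γ * g) ≤ R) {K : SUGroup n → Mat (n + 1)}
    (hK : Ccl Γ K) : ∃ C : ℝ, 0 < C ∧ ∀ s : ℝ, 0 ≤ s → ∀ γ ∈ Γ, γ ∈ St ξ →
      ‖cj (fl ξ s) (K γ)‖ ≤ C * Real.exp (4 * s) * ch (fl ξ (-s) * γ * fl ξ s) ^ 3 := by
  have hξ := hP.1
  obtain ⟨Δ, hle, hfi, h1, R', hR'⟩ := exists_unip hd hP hc
  have hlΓ : Δ ≤ Γ := hle.trans inf_le_left
  have hdΔ : DiscreteTopology Δ :=
    DiscreteTopology.of_continuous_injective (continuous_inclusion hlΓ)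
      (Set.inclusion_injective hlΓ)
  have hΔ : ∀ x ∈ Δ, Un ξ x := fun x hx => ⟨(hle hx).2, h1 x hx⟩
  obtain ⟨C, hC0, hC⟩ := grow_un hξ hdΔ hΔ hR' (hK.mono hlΓ)
  have hfin : Finite ((Γ ⊓ PS ξ : Subgroup (SUGroup n)) ⧸ Δ.subgroupOf (Γ ⊓ PS ξ)) :=
    Nat.finite_of_card_ne_zero hfi
  obtain ⟨M, hM⟩ := (Set.finite_range fun c : ((Γ ⊓ PS ξ : Subgroup (SUGroup n)) ⧸
    Δ.subgroupOf (Γ ⊓ PS ξ)) => ‖K (c.out : SUGroup n)‖ +
      4 * (fro (c.out : SUGroup n).toMatrix) ^ 2 * (C * (2 * fro (c.out : SUGroup n).toMatrix) ^ 3)).bddAbove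
  refine ⟨|M| + 1, by positivity, ?_⟩
  intro s hs γ hγ hst
  have hγ' : γ ∈ Γ ⊓ PS ξ := ⟨hγ, hP.2 γ hγ hst⟩
  obtain ⟨c, hcdef⟩ : ∃ c : ((Γ ⊓ PS ξ : Subgroup (SUGroup n)) ⧸ Δ.subgroupOf (Γ ⊓ PS ξ)),
    c = QuotientGroup.mk ⟨γ, hγ'⟩ := ⟨_, rfl⟩
  have hout : (QuotientGroup.mk c.out : ((Γ ⊓ PS ξ : Subgroup (SUGroup n)) ⧸
      Δ.subgroupOf (Γ ⊓ PS ξ))) = QuotientGroup.mk ⟨γ, hγ'⟩ := by
    rw [QuotientGroup.out_eq', hcdef]
  have hδ : (c.out : SUGroup n)⁻¹ * γ ∈ Δ := by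
    have := QuotientGroup.eq.1 hout
    rw [Subgroup.mem_subgroupOf] at this
    exact this
  have hMc : ‖K (c.out : SUGroup n)‖ + 4 * (fro (c.out : SUGroup n).toMatrix) ^ 2 *
      (C * (2 * fro (c.out : SUGroup n).toMatrix) ^ 3) ≤ |M| :=
    (hM (Set.mem_range_self c)).trans (le_abs_self M)
  have hr0 : (c.out : SUGroup n) ∈ Γ ⊓ PS ξ := c.out.2
  obtain ⟨r, hr⟩ : ∃ r : SUGroup n, r = (c.out : SUGroup n) := ⟨_, rfl⟩
  rw [← hr] at hδ hMc hr0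
  have e1 : γ = r * (r⁻¹ * γ) := by group
  have hmv : mv r ξ = ξ := (mem_St hξ).1 (PS_le_St ξ hr0.2)
  have h2 := ch_flow_le hξ hmv hs
  have h3 := hC s hs _ hδ
  obtain ⟨D, hD⟩ : ∃ D : ℝ, D = ch (fl ξ (-s) * γ * fl ξ s) := ⟨_, rfl⟩
  have hD1 : 1 ≤ D := hD ▸ one_le_ch _
  have h4 : ch (fl ξ (-s) * (r⁻¹ * γ) * fl ξ s) ≤ 2 * fro r.toMatrix * D := by
    have e : fl ξ (-s) * (r⁻¹ * γ) * fl ξ s =
        (fl ξ (-s) * r * fl ξ s)⁻¹ * (fl ξ (-s) * γ * fl ξ s) := by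
      rw [fl_neg]
      group
    rw [e]
    refine (ch_mul_le' _ _).trans ?_
    rw [ch_inv, ← hD]
    gcongr
  have hE1 : 1 ≤ Real.exp (4 * s) := Real.one_le_exp (by linarith)
  have h5 : ‖cj (fl ξ s) (K r)‖ ≤ Real.exp (4 * s) * ‖K r‖ := by
    refine (norm_cj_le _ _).trans ?_
    have h6 := wt_fl_le ξ s
    rw [abs_of_nonneg hs] at h6
    have h7 := one_le_wt (fl ξ s)
    have h8 : wt (fl ξ s) ^ 2 ≤ Real.exp (4 * s) := by
      calc wt (fl ξ s) ^ 2 ≤ Real.exp s ^ 2 := by gcongr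
        _ = Real.exp (2 * s) := by rw [← Real.exp_nat_mul]; norm_num
        _ ≤ Real.exp (4 * s) := Real.exp_le_exp.2 (by linarith)
    gcongr
  have e2 : r⁻¹ * fl ξ s = fl ξ s * (fl ξ (-s) * r * fl ξ s)⁻¹ := by
    rw [fl_neg]
    group
  have h6 : ‖cj (r⁻¹ * fl ξ s) (K (r⁻¹ * γ))‖ ≤
      4 * (fro r.toMatrix) ^ 2 * (C * Real.exp (4 * s) * (2 * fro r.toMatrix * D) ^ 3) := by
    rw [e2, cj_mul]
    refine (norm_cj_le' _ _).trans ?_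
    rw [ch_inv]
    have h7 := one_le_ch (fl ξ (-s) * r * fl ξ s)
    have h8 := one_le_ch (fl ξ (-s) * (r⁻¹ * γ) * fl ξ s)
    gcongr
    exact h3.trans (by gcongr)
  have hK' := hK.mul hr0.1 (hlΓ hδ) (fl ξ s)
  rw [← e1] at hK'
  rw [hK', ← hD]
  have hD3 : 1 ≤ D ^ 3 := one_le_pow₀ hD1
  have hf := fro_nonneg r.toMatrix
  calc ‖cj (fl ξ s) (K r) + cj (r⁻¹ * fl ξ s) (K (r⁻¹ * γ))‖ ≤
        Real.exp (4 * s) * ‖K r‖ +
          4 * (fro r.toMatrix) ^ 2 * (C * Real.exp (4 * s) * (2 * fro r.toMatrix * D) ^ 3) :=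
        (norm_add_le _ _).trans (add_le_add h5 h6)
    _ ≤ Real.exp (4 * s) * ‖K r‖ * D ^ 3 +
          4 * (fro r.toMatrix) ^ 2 * (C * Real.exp (4 * s) * (2 * fro r.toMatrix * D) ^ 3) := by
        have : Real.exp (4 * s) * ‖K r‖ * 1 ≤ Real.exp (4 * s) * ‖K r‖ * D ^ 3 := by gcongr
        linarith
    _ = (‖K r‖ + 4 * (fro r.toMatrix) ^ 2 * (C * (2 * fro r.toMatrix) ^ 3)) *
          Real.exp (4 * s) * D ^ 3 := by ring
    _ ≤ |M| * Real.exp (4 * s) * D ^ 3 := by gcongr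
    _ ≤ (|M| + 1) * Real.exp (4 * s) * D ^ 3 := by gcongr; linarith

end Pool.Agent.Lib.MP_5d4057_al.WR.Bs
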