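import Pool.Agent.Lib.MP_5d4057_al.WR.Alg
import Pool.Agent.Lib.MP_5d4057_al.NU.CuspL

/-!
# (III): the first cohomology of a lattice of `SU(n,1)` with values in `sl(n + 1)` vanishes. Definitions

Scalar version (helper69). For a matrix `B` let `fB B v = ⟨v, B v⟩ / (-⟨v, v⟩)`. A cocycle `κ` gives the
affine condition `f (γ v) = f v + fB (κ γ) (γ v)` for functions of degree `0` on the cone. For `tr B = 0`
the function `fB B` is an eigenfunction of all averaging operators `P s` with eigenvalue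
`cE n s = s / (s - n - 1) > 1`; so `f ↦ P s f / cE n s` is a contraction of the affine space (`Fix`), the
fixed point `f` is smooth with `Lap f = (n + 1) f` (`Sol`). `Fm f` is the matrix of the derivatives
`∂_a ∂bar_b` of `(-q) f`: it is equivariant, `Fm (fB B) = B`, and its differential is a closed and coclosed
form (`Div`), hence zero (`Ident`), so `Fm f` is a constant `B` and `κ` is the coboundary of `B`.
-/

set_option autoImplicit false

namespace Pool.Agent.Lib.MP_5d4057_al.WR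

open Matrix MeasureTheory Filter Topology Pool.Agent.Lib.MP_5d4057_al
  Pool.Agent.Lib.MP_5d4057_al.Hyb Pool.Agent.Lib.MP_5d4057_al.HM Pool.Agent.Lib.MP_5d4057_al.NU
  Pool.Agent.Lib.MP_5d4057_al.IN.D

open scoped ComplexOrder MatrixOrder Matrix.Norms.L2Operator ENNReal

variable {n : ℕ}

/-- The function `⟨v, B v⟩ / (-⟨v, v⟩)` of a matrix. -/
noncomputable def fB (B : Mat (n + 1)) (v : Vec n) : ℂ := herm v (B *ᵥ v) / ((-q v : ℝ) : ℂ)

/-- The eigenvalue of `P s` on the functions `fB B`, `tr B = 0`. -/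
noncomputable def cE (n s : ℕ) : ℝ := s / (s - n - 1)

/-- Conjugation. -/
def cj (g : SUGroup n) (A : Mat (n + 1)) : Mat (n + 1) := g.toMatrix * A * (g⁻¹).toMatrix

/-- A cocycle of trace zero. -/
structure Cocy (Γ : Subgroup (SUGroup n)) (κ : Γ → Mat (n + 1)) : Prop where
  mul : ∀ x y : Γ, κ (x * y) = κ x + cj (x : SUGroup n) (κ y)
  tr : ∀ x : Γ, (κ x).trace = 0

/-- A weight at level `s`. -/
structure Wgt (Γ : Subgroup (SUGroup n)) (χ : SUGroup n → ℝ) (s : ℕ) (W : Vec n → ℝ) : Prop where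
  hom : Homog W
  cont : ContinuousOn W (Cone n)
  inv : ∀ γ ∈ Γ, ∀ v ∈ Cone n, W (act γ v) = W v
  one_le : ∀ v ∈ Cone n, 1 ≤ W v
  grow : ∀ g x : SUGroup n, W (act (g * x) (base n)) ≤ 16 * ch x ^ 4 * W (act g (base n))
  avg : ∃ θ : ℝ, 0 ≤ θ ∧ θ < 1 ∧ ∀ v ∈ Cone n, P s W v ≤ cE n s * θ * W v
  int : Integrable (fun g => χ g * W (act g (base n)) ^ 2) (mu n)

/-- A base map: continuous, affine equivariant, with increments bounded by the weight. -/
structure Bas {Γ : Subgroup (SUGroup n)} (κ : Γ → Mat (n + 1)) (N : ℕ) (C : ℝ) (W : Vec n → ℝ)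
    (F : Vec n → Mat (n + 1)) : Prop where
  hom : Homog F
  cont : ContinuousOn F (Cone n)
  tr : ∀ v ∈ Cone n, (F v).trace = 0
  eq : ∀ γ : Γ, ∀ v ∈ Cone n, F (act (γ : SUGroup n) v) = cj (γ : SUGroup n) (F v) + κ γ
  inc : ∀ g x : SUGroup n, ‖cj g⁻¹ (F (act (g * x) (base n)) - F (act g (base n)))‖ ≤
    C * ch x ^ (2 * N) * W (act g (base n))

/-- The solution of the affine problem at the levels `s`, `s + 1`. -/
structure Sol {Γ : Subgroup (SUGroup n)} (κ : Γ → Mat (n + 1)) (s N : ℕ) (C : ℝ) (W : Vec n → ℝ)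
    (f : Vec n → ℂ) : Prop where
  hom : Homog f
  cont : ContinuousOn f (Cone n)
  eq : ∀ γ : Γ, ∀ v ∈ Cone n,
    f (act (γ : SUGroup n) v) = f v + fB (κ γ) (act (γ : SUGroup n) v)
  eig : ∀ v ∈ Cone n, P s f v = cE n s • f v
  eig' : ∀ v ∈ Cone n, P (s + 1) f v = cE n (s + 1) • f v
  bd : ∀ g : SUGroup n, ∃ B : Mat (n + 1), B.trace = 0 ∧ ∀ x : SUGroup n,
    ‖f (act (g * x) (base n)) - fB B (act (g * x) (base n))‖ ≤
      C * ch x ^ (2 * N) * W (act g (base n))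

/-- The second derivative `∂bar_ζ ∂_ξ h`. -/
noncomputable def Hm (h : Vec n → ℂ) (v ζ ξ : Vec n) : ℂ :=
  (1 / 4 : ℂ) * (fderiv ℝ (fderiv ℝ h) v ζ ξ + fderiv ℝ (fderiv ℝ h) v (Complex.I • ζ) (Complex.I • ξ) +
    Complex.I * (fderiv ℝ (fderiv ℝ h) v (Complex.I • ζ) ξ -
      fderiv ℝ (fderiv ℝ h) v ζ (Complex.I • ξ)))

/-- The matrix `F` with `⟨ζ, F(v) ξ⟩ = ∂bar_ζ ∂_ξ ((-q) f)`. -/
noncomputable def Fm (f : Vec n → ℂ) (v : Vec n) : Mat (n + 1) :=
  Matrix.of fun b a => J n b b *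
    Hm (fun w => ((-q w : ℝ) : ℂ) * f w) v (Pi.single b 1) (Pi.single a 1)

end Pool.Agent.Lib.MP_5d4057_al.WR
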