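import Pool.Agent.Lib.MP_5d4057_al.WR.Fm

/-! The matrix `Fm f` of an eigenfunction is trace free and coclosed. -/

set_option autoImplicit false

namespace Pool.Agent.Lib.MP_5d4057_al.WR

open Matrix MeasureTheory Filter Topology Pool.Agent.Lib.MP_5d4057_al
  Pool.Agent.Lib.MP_5d4057_al.Hyb Pool.Agent.Lib.MP_5d4057_al.HM Pool.Agent.Lib.MP_5d4057_al.NU
  Pool.Agent.Lib.MP_5d4057_al.IN.D

open scoped ComplexOrder MatrixOrder Matrix.Norms.L2Operator ENNReal

variable {n : ℕ}

/-- The Euler relations. -/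
theorem dv_euler {φ : Vec n → ℂ} (hs : Pd.Sm φ) (hh : Homog φ) {v : Vec n} (hv : v ∈ Cone n) :
    ∑ i, v i * Pd.op false i φ v = 0 ∧ ∑ i, star (v i) * Pd.op true i φ v = 0 := by
  have h1 := homog_fderiv hh hv (hs.diff hv) 1
  have h2 := homog_fderiv hh hv (hs.diff hv) Complex.I
  rw [one_smul, Pd.fderiv_eq_op, Finset.sum_add_distrib] at h1
  rw [Pd.fderiv_eq_op, Finset.sum_add_distrib] at h2
  have e1 : ∑ i, (Complex.I • v) i * Pd.op false i φ v =
      Complex.I * ∑ i, v i * Pd.op false i φ v := by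
    rw [Finset.mul_sum]
    refine Finset.sum_congr rfl fun i _ => ?_
    rw [Pi.smul_apply, smul_eq_mul]
    ring
  have e2 : ∑ i, star ((Complex.I • v) i) * Pd.op true i φ v =
      -Complex.I * ∑ i, star (v i) * Pd.op true i φ v := by
    rw [Finset.mul_sum]
    refine Finset.sum_congr rfl fun i _ => ?_
    rw [Pi.smul_apply, smul_eq_mul, star_mul, Complex.star_def, Complex.conj_I]
    ring
  rw [e1, e2] at h2
  have h3 : ∑ i, v i * Pd.op false i φ v - ∑ i, star (v i) * Pd.op true i φ v = 0 := by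
    refine mul_left_cancel₀ Complex.I_ne_zero ?_
    rw [mul_zero]
    linear_combination h2
  constructor
  · linear_combination (1 / 2 : ℂ) * h1 + (1 / 2 : ℂ) * h3
  · linear_combination (1 / 2 : ℂ) * h1 - (1 / 2 : ℂ) * h3

theorem dv_smul_base (n : ℕ) (c : ℂ) : c • base n = Pi.single (Fin.last n) c := by
  rw [base, ← Pi.single_smul, smul_eq_mul, mul_one]

/-- A homogeneous function has no derivative in the last direction at the base point. -/
theorem dv_last {φ : Vec n → ℂ} (hs : Pd.Sm φ) (hh : Homog φ) (s : Bool) :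
    Pd.op s (Fin.last n) φ (base n) = 0 := by
  have h : ∀ c : ℂ, fderiv ℝ φ (base n) (Pi.single (Fin.last n) c) = 0 := fun c => by
    rw [← dv_smul_base]
    exact homog_fderiv hh (base_mem n) (hs.diff (base_mem n)) c
  rw [Pd.op, h, h]
  ring

theorem dv_tf {φ : Vec n → ℂ} (hs : Pd.Sm φ) {v : Vec n} (hv : v ∈ Cone n) (i : Fin (n + 1)) :
    Pd.op true i (Pd.op false i φ) v = (1 / 4) *
      (fderiv ℝ (fderiv ℝ φ) v (Pi.single i 1) (Pi.single i 1) +
        fderiv ℝ (fderiv ℝ φ) v (Pi.single i Complex.I) (Pi.single i Complex.I)) := by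
  rw [Pd.op_op hs hv, Pd.fderiv_symm hs hv (Pi.single i Complex.I) (Pi.single i 1)]
  simp only [Pd.sg, if_true, Bool.false_eq_true, if_false]
  linear_combination (-(1 / 4 : ℂ) *
    fderiv ℝ (fderiv ℝ φ) v (Pi.single i Complex.I) (Pi.single i Complex.I)) * Complex.I_sq

theorem dv_last_two {φ : Vec n → ℂ} (hs : Pd.Sm φ) (hh : Homog φ) :
    Pd.op true (Fin.last n) (Pd.op false (Fin.last n) φ) (base n) = 0 := by
  have h := homog_fderiv_two hh (base_mem n) (fm_contDiffAt_two hs (base_mem n))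
  have e := dv_smul_base n 1
  rw [one_smul] at e
  rw [dv_smul_base, e] at h
  rw [dv_tf hs (base_mem n)]
  have e' : fderiv ℝ (fderiv ℝ φ) (base n) = fderiv ℝ (fderiv ℝ φ) (Pi.single (Fin.last n) 1) := by
    rw [e]
  rw [e', h, mul_zero]

theorem dv_J_re (i : Fin (n + 1)) : (((J n i i).re : ℝ) : ℂ) = J n i i := by
  refine Fin.lastCases ?_ (fun i => ?_) i
  · rw [HG.J_last]
    simp
  · rw [HG.J_castSucc]
    simp

theorem dv_lap {φ : Vec n → ℂ} (hs : Pd.Sm φ) {v : Vec n} (hv : v ∈ Cone n) :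
    Lap φ v = ((-q v : ℝ) : ℂ) * ∑ i, J n i i * Pd.op true i (Pd.op false i φ) v := by
  rw [Lap, Complex.real_smul, Finset.mul_sum, Finset.mul_sum]
  refine Finset.sum_congr rfl fun i _ => ?_
  rw [Complex.real_smul, dv_J_re, dv_tf hs hv]
  push_cast
  ring

/-- The function `-q`. -/
theorem dv_Q (w : Vec n) : ((-q w : ℝ) : ℂ) = ∑ i, (-(J n i i)) * (star (w i) * w i) := by
  rw [Complex.ofReal_neg, ← herm_self, herm, dotProduct, ← Finset.sum_neg_distrib]
  refine Finset.sum_congr rfl fun i _ => ?_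
  rw [J, mulVec_diagonal, diagonal_apply_eq, Pi.star_apply]
  ring

theorem dv_sm_Q : Pd.Sm fun w : Vec n => ((-q w : ℝ) : ℂ) := fm_contDiff_Q.contDiffOn

theorem dv_sm_sc (i : Fin (n + 1)) : Pd.Sm fun w : Vec n => star (w i) * w i :=
  (Pd.Sm.star i).mul (Pd.Sm.coord i)

theorem dv_op_false_Q {v : Vec n} (hv : v ∈ Cone n) (i : Fin (n + 1)) :
    Pd.op false i (fun w : Vec n => ((-q w : ℝ) : ℂ)) v = -(J n i i) * star (v i) := by
  rw [Pd.op_eqOn false i (fun w _ => dv_Q w) v hv,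
    Pd.op_sum (fun j _ => (dv_sm_sc j).cmul _) hv, Finset.sum_eq_single i]
  · rw [Pd.op_cmul (dv_sm_sc i) hv, Pd.op_mul (Pd.Sm.star i) (Pd.Sm.coord i) hv,
      Pd.op_false_star, Pd.op_false_coord, if_pos rfl]
    ring
  · intro j _ hj
    rw [Pd.op_cmul (dv_sm_sc j) hv, Pd.op_mul (Pd.Sm.star j) (Pd.Sm.coord j) hv,
      Pd.op_false_star, Pd.op_false_coord, if_neg hj]
    ring
  · intro h
    exact absurd (Finset.mem_univ _) h

theorem dv_op_true_Q {v : Vec n} (hv : v ∈ Cone n) (i : Fin (n + 1)) :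
    Pd.op true i (fun w : Vec n => ((-q w : ℝ) : ℂ)) v = -(J n i i) * v i := by
  rw [Pd.op_eqOn true i (fun w _ => dv_Q w) v hv,
    Pd.op_sum (fun j _ => (dv_sm_sc j).cmul _) hv, Finset.sum_eq_single i]
  · rw [Pd.op_cmul (dv_sm_sc i) hv, Pd.op_mul (Pd.Sm.star i) (Pd.Sm.coord i) hv,
      Pd.op_true_star, Pd.op_true_coord, if_pos rfl]
    ring
  · intro j _ hj
    rw [Pd.op_cmul (dv_sm_sc j) hv, Pd.op_mul (Pd.Sm.star j) (Pd.Sm.coord j) hv,
      Pd.op_true_star, Pd.op_true_coord, if_neg hj]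
    ring
  · intro h
    exact absurd (Finset.mem_univ _) h

/-- The wave operator of `(-q) f`. -/
theorem dv_box {f : Vec n → ℂ} (hf : ContDiffOn ℝ (⊤ : ℕ∞) f (Cone n)) (hh : Homog f)
    (hl : ∀ v ∈ Cone n, Lap f v = ((n : ℝ) + 1) • f v) {v : Vec n} (hv : v ∈ Cone n) :
    ∑ i, J n i i * Pd.op true i (Pd.op false i (hQ f)) v = 0 := by
  have hs : Pd.Sm f := hf
  obtain ⟨E1, E2⟩ := dv_euler hs hh hv
  have h1 : ∀ i, ∀ w ∈ Cone n, Pd.op false i (hQ f) w =
      -(J n i i) * (star (w i) * f w) + ((-q w : ℝ) : ℂ) * Pd.op false i f w := by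
    intro i w hw
    have h2 := Pd.op_mul dv_sm_Q hs hw false i
    rw [dv_op_false_Q hw] at h2
    calc _ = _ := h2
      _ = _ := by ring
  have h3 : ∀ i, Pd.op true i (Pd.op false i (hQ f)) v = -(J n i i) * f v -
      J n i i * (star (v i) * Pd.op true i f v) - J n i i * (v i * Pd.op false i f v) +
      ((-q v : ℝ) : ℂ) * Pd.op true i (Pd.op false i f) v := by
    intro i
    rw [Pd.op_eqOn true i (h1 i) v hv,
      Pd.op_add (((Pd.Sm.star i).mul hs).cmul _) (dv_sm_Q.mul (hs.op _ _)) hv,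
      Pd.op_cmul ((Pd.Sm.star i).mul hs) hv, Pd.op_mul (Pd.Sm.star i) hs hv,
      Pd.op_mul dv_sm_Q (hs.op _ _) hv, Pd.op_true_star, if_pos rfl, dv_op_true_Q hv]
    ring
  have h4 : ∀ i, J n i i * Pd.op true i (Pd.op false i (hQ f)) v = -(f v) -
      star (v i) * Pd.op true i f v - v i * Pd.op false i f v +
      ((-q v : ℝ) : ℂ) * (J n i i * Pd.op true i (Pd.op false i f) v) := by
    intro i
    rw [h3]
    linear_combination (-(f v) - star (v i) * Pd.op true i f v - v i * Pd.op false i f v) *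
      fm_J_sq i
  simp only [h4]
  rw [Finset.sum_add_distrib, Finset.sum_sub_distrib, Finset.sum_sub_distrib, E1, E2,
    ← Finset.mul_sum, ← dv_lap hs hv, hl v hv, Finset.sum_const, Finset.card_univ,
    Fintype.card_fin, Complex.real_smul]
  push_cast
  rw [nsmul_eq_mul]
  push_cast
  ring

/-- `Lap f = (n + 1) f` means `∑ ε_a ∂_a ∂bar_a ((-q) f) = 0` (with the Euler relations of degree `0`). -/
theorem Fm_trace {f : Vec n → ℂ} (hf : ContDiffOn ℝ (⊤ : ℕ∞) f (Cone n)) (hh : Homog f)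
    (hl : ∀ v ∈ Cone n, Lap f v = ((n : ℝ) + 1) • f v) {v : Vec n} (hv : v ∈ Cone n) :
    (Fm f v).trace = 0 := by
  rw [← dv_box hf hh hl hv, Matrix.trace]
  exact Finset.sum_congr rfl fun i _ => Fm_apply hf hv i i

/-- Entries and derivatives. -/
theorem dv_entry {F : Vec n → Mat (n + 1)} {v : Vec n} (hd : DifferentiableAt ℝ F v)
    (ξ : Vec n) (b a : Fin (n + 1)) :
    (fderiv ℝ F v ξ) b a = fderiv ℝ (fun w => F w b a) v ξ := by
  obtain ⟨l, hl⟩ : ∃ l : Mat (n + 1) →L[ℝ] ℂ, ∀ A, l A = A b a :=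
    ⟨LinearMap.toContinuousLinearMap
      { toFun := fun A => A b a
        map_add' := fun A B => rfl
        map_smul' := fun c A => rfl }, fun A => rfl⟩
  have h1 : HasFDerivAt (fun w => l (F w)) (l.comp (fderiv ℝ F v)) v :=
    l.hasFDerivAt.comp _ hd.hasFDerivAt
  have e : (fun w => l (F w)) = fun w => F w b a := funext fun w => hl _
  rw [← e, h1.fderiv, ContinuousLinearMap.comp_apply, hl]

theorem dv_entry_two {F : Vec n → Mat (n + 1)} (hF : ContDiffOn ℝ (⊤ : ℕ∞) F (Cone n)) {v : Vec n}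
    (hv : v ∈ Cone n) (η ξ : Vec n) (b a : Fin (n + 1)) :
    (fderiv ℝ (fderiv ℝ F) v η ξ) b a =
      fderiv ℝ (fderiv ℝ (fun w => F w b a)) v η ξ := by
  have hd : ∀ w ∈ Cone n, DifferentiableAt ℝ F w := fun w hw =>
    (hF.contDiffAt ((isOpen_cone n).mem_nhds hw)).differentiableAt (by simp)
  have hs : Pd.Sm fun w => F w b a := by
    obtain ⟨l, hl⟩ : ∃ l : Mat (n + 1) →L[ℝ] ℂ, ∀ A, l A = A b a :=
      ⟨LinearMap.toContinuousLinearMap
        { toFun := fun A => A b a
          map_add' := fun A B => rfl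
          map_smul' := fun c A => rfl }, fun A => rfl⟩
    have h0 : ContDiffOn ℝ (⊤ : ℕ∞) (fun w => l (F w)) (Cone n) :=
      ContDiff.comp_contDiffOn (ContinuousLinearMap.contDiff (𝕜 := ℝ) (E := Mat (n + 1)) (F := ℂ) l)
        hF
    exact h0.congr fun w _ => (hl _).symm
  rw [← Pd.fderiv_fderiv_apply hs hv]
  have h1 : ∀ w ∈ Cone n, (fun w => fderiv ℝ (fun u => F u b a) w ξ) w = (fderiv ℝ F w ξ) b a :=
    fun w hw => (dv_entry (hd w hw) ξ b a).symm
  rw [Pd.fderiv_eqOn h1 hv]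
  have h2 : DifferentiableAt ℝ (fderiv ℝ F) v :=
    ((ContDiffOn.fderiv_of_isOpen hF (isOpen_cone n) (m := (⊤ : ℕ∞)) (by simp)).contDiffAt
      ((isOpen_cone n).mem_nhds hv)).differentiableAt (by simp)
  have h3 := h2.hasFDerivAt.clm_apply (hasFDerivAt_const ξ v)
  have h4 := dv_entry (F := fun w => fderiv ℝ F w ξ) h3.differentiableAt η b a
  rw [← h4, h3.fderiv]
  simp

/-- The entries of `Fm f` as functions. -/
theorem dv_sm_entry {f : Vec n → ℂ} (hf : ContDiffOn ℝ (⊤ : ℕ∞) f (Cone n)) (b a : Fin (n + 1)) :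
    Pd.Sm fun w => Fm f w b a :=
  (((sm_hQ hf).op false a).op true b |>.cmul (J n b b)).congr fun w hw => Fm_apply hf hw b a

theorem dv_homog_entry {f : Vec n → ℂ} (hf : ContDiffOn ℝ (⊤ : ℕ∞) f (Cone n)) (hh : Homog f)
    (b a : Fin (n + 1)) : Homog fun w => Fm f w b a := fun c hc v hv =>
  congrFun (congrFun (Fm_homog hf hh c hc v hv) b) a

/-- The third derivatives of `(-q) f` at the base point. -/
noncomputable def dvT (f : Vec n → ℂ) (s : Bool) (i b a : Fin (n + 1)) : ℂ :=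
  Pd.op s i (Pd.op true b (Pd.op false a (hQ f))) (base n)

theorem dv_op_entry {f : Vec n → ℂ} (hf : ContDiffOn ℝ (⊤ : ℕ∞) f (Cone n)) (s : Bool)
    (i b a : Fin (n + 1)) :
    Pd.op s i (fun w => Fm f w b a) (base n) = J n b b * dvT f s i b a := by
  rw [Pd.op_eqOn s i (fun w hw => Fm_apply hf hw b a) _ (base_mem n),
    Pd.op_cmul (((sm_hQ hf).op _ _).op _ _) (base_mem n)]
  rfl

theorem dvT_last {f : Vec n → ℂ} (hf : ContDiffOn ℝ (⊤ : ℕ∞) f (Cone n)) (hh : Homog f) (s : Bool)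
    (b a : Fin (n + 1)) : dvT f s (Fin.last n) b a = 0 := by
  have h1 := dv_last (dv_sm_entry hf b a) (dv_homog_entry hf hh b a) s
  rw [dv_op_entry hf] at h1
  linear_combination (J n b b) * h1 - (dvT f s (Fin.last n) b a) * fm_J_sq b

theorem dvT_true {f : Vec n → ℂ} (hf : ContDiffOn ℝ (⊤ : ℕ∞) f (Cone n)) (i b a : Fin (n + 1)) :
    dvT f true i b a = dvT f true b i a :=
  Pd.op_comm ((sm_hQ hf).op _ _) (base_mem n) true true i b

theorem dvT_false {f : Vec n → ℂ} (hf : ContDiffOn ℝ (⊤ : ℕ∞) f (Cone n)) (i b a : Fin (n + 1)) :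
    dvT f false i b a = dvT f false a b i := by
  have hs := sm_hQ hf
  rw [dvT, dvT, Pd.op_comm (hs.op false a) (base_mem n) false true i b,
    Pd.op_comm (hs.op false i) (base_mem n) false true a b]
  exact Pd.op_eqOn true b (fun w hw => Pd.op_comm hs hw false false i a) _ (base_mem n)

theorem dvT_box_true {f : Vec n → ℂ} (hf : ContDiffOn ℝ (⊤ : ℕ∞) f (Cone n)) (hh : Homog f)
    (hl : ∀ v ∈ Cone n, Lap f v = ((n : ℝ) + 1) • f v) (s : Bool) (b : Fin (n + 1)) :
    ∑ i, J n i i * dvT f s b i i = 0 := by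
  have hs := sm_hQ hf
  have h1 := Pd.op_zero_of (fun v hv => dv_box hf hh hl hv) (base_mem n) s b
  rw [Pd.op_sum (fun j _ => ((hs.op _ _).op _ _).cmul _) (base_mem n)] at h1
  rw [← h1]
  refine Finset.sum_congr rfl fun i _ => ?_
  rw [Pd.op_cmul ((hs.op _ _).op _ _) (base_mem n)]
  rfl

/-- The wave operator of the entries. -/
theorem dv_box_entry {f : Vec n → ℂ} (hf : ContDiffOn ℝ (⊤ : ℕ∞) f (Cone n)) (hh : Homog f)
    (hl : ∀ v ∈ Cone n, Lap f v = ((n : ℝ) + 1) • f v) (b a : Fin (n + 1)) :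
    ∑ i, J n i i * Pd.op true i (Pd.op false i fun w => Fm f w b a) (base n) = 0 := by
  have hs := sm_hQ hf
  have h1 : ∀ i, Pd.op true i (Pd.op false i fun w => Fm f w b a) (base n) =
      J n b b * Pd.op true b (Pd.op false a (Pd.op true i (Pd.op false i (hQ f)))) (base n) := by
    intro i
    have e1 : ∀ w ∈ Cone n, Pd.op false i (fun w => Fm f w b a) w =
        J n b b * Pd.op true b (Pd.op false a (Pd.op false i (hQ f))) w := by
      intro w hw
      rw [Pd.op_eqOn false i (fun w hw => Fm_apply hf hw b a) w hw,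
        Pd.op_cmul ((hs.op _ _).op _ _) hw, Pd.op_comm (hs.op _ _) hw]
      congr 1
      exact Pd.op_eqOn true b (fun u hu => Pd.op_comm hs hu false false i a) w hw
    rw [Pd.op_eqOn true i e1 _ (base_mem n),
      Pd.op_cmul (((hs.op _ _).op _ _).op _ _) (base_mem n),
      Pd.op_comm ((hs.op _ _).op _ _) (base_mem n)]
    congr 1
    exact Pd.op_eqOn true b (fun u hu => Pd.op_comm (hs.op _ _) hu true false i a) _ (base_mem n)
  have h2 : ∀ w ∈ Cone n,
      ∑ i, J n i i * Pd.op false a (Pd.op true i (Pd.op false i (hQ f))) w = 0 := by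
    intro w hw
    have h3 := Pd.op_zero_of (fun v hv => dv_box hf hh hl hv) hw false a
    rw [Pd.op_sum (fun j _ => ((hs.op _ _).op _ _).cmul _) hw] at h3
    rw [← h3]
    exact Finset.sum_congr rfl fun i _ => (Pd.op_cmul ((hs.op _ _).op _ _) hw false a _).symm
  have h4 := Pd.op_zero_of h2 (base_mem n) true b
  rw [Pd.op_sum (fun j _ => (((hs.op _ _).op _ _).op _ _).cmul _) (base_mem n)] at h4
  calc _ = J n b b * ∑ i, Pd.op true b
        (fun w => J n i i * Pd.op false a (Pd.op true i (Pd.op false i (hQ f))) w) (base n) := by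
        rw [Finset.mul_sum]
        refine Finset.sum_congr rfl fun i _ => ?_
        rw [h1, Pd.op_cmul (((hs.op _ _).op _ _).op _ _) (base_mem n)]
        ring
    _ = 0 := by rw [h4, mul_zero]

theorem dv_vec_false (i : Fin n) : vec (xi (i, false)) = Pi.single i.castSucc 1 := by
  rw [xi, vec_pi_single]
  simp

theorem dv_vec_true (i : Fin n) : vec (xi (i, true)) = Pi.single i.castSucc Complex.I := by
  rw [xi, vec_pi_single]
  simp

/-- The first half of the divergence. -/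
theorem dv_first {f : Vec n → ℂ} (hf : ContDiffOn ℝ (⊤ : ℕ∞) f (Cone n)) (hh : Homog f)
    (hl : ∀ v ∈ Cone n, Lap f v = ((n : ℝ) + 1) • f v) :
    ∑ a : Ix n, fderiv ℝ (fderiv ℝ (Fm f)) (base n) (vec (xi a)) (vec (xi a)) = 0 := by
  rw [Fintype.sum_prod_type]
  simp only [Fintype.sum_bool, dv_vec_false, dv_vec_true]
  ext b a
  rw [Matrix.sum_apply]
  have h1 := dv_box_entry hf hh hl b a
  rw [Fin.sum_univ_castSucc, dv_last_two (dv_sm_entry hf b a) (dv_homog_entry hf hh b a),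
    mul_zero, add_zero] at h1
  calc _ = ∑ i : Fin n, 4 * (J n i.castSucc i.castSucc *
        Pd.op true i.castSucc (Pd.op false i.castSucc fun w => Fm f w b a) (base n)) := by
        refine Finset.sum_congr rfl fun i _ => ?_
        rw [Matrix.add_apply, dv_entry_two (contDiffOn_Fm hf) (base_mem n),
          dv_entry_two (contDiffOn_Fm hf) (base_mem n), dv_tf (dv_sm_entry hf b a) (base_mem n),
          HG.J_castSucc]
        ring
    _ = 0 := by rw [← Finset.mul_sum, h1, mul_zero]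

/-- The second half of the divergence. -/
theorem dv_second {f : Vec n → ℂ} (hf : ContDiffOn ℝ (⊤ : ℕ∞) f (Cone n)) (hh : Homog f)
    (hl : ∀ v ∈ Cone n, Lap f v = ((n : ℝ) + 1) • f v) :
    ∑ a : Ix n, cm (Xa a) (fderiv ℝ (Fm f) (base n) (vec (xi a))) = 0 := by
  have hd : DifferentiableAt ℝ (Fm f) (base n) :=
    ((contDiffOn_Fm hf).contDiffAt ((isOpen_cone n).mem_nhds (base_mem n))).differentiableAt
      (by simp)
  -- the complex derivatives as matrices
  obtain ⟨D, hD⟩ : ∃ D : Bool → Fin n → Mat (n + 1), ∀ s i b a,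
      D s i b a = J n b b * dvT f s i.castSucc b a :=
    ⟨fun s i => Matrix.of fun b a => J n b b * dvT f s i.castSucc b a, fun _ _ _ _ => rfl⟩
  have h1 : ∀ i : Fin n, fderiv ℝ (Fm f) (base n) (Pi.single i.castSucc 1) =
      D false i + D true i := by
    intro i
    ext b a
    rw [dv_entry hd, Pd.fderiv_one, dv_op_entry hf, dv_op_entry hf, Matrix.add_apply, hD, hD]
  have h2 : ∀ i : Fin n, fderiv ℝ (Fm f) (base n) (Pi.single i.castSucc Complex.I) =
      Complex.I • (D false i - D true i) := by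
    intro i
    ext b a
    rw [dv_entry hd, Pd.fderiv_I, dv_op_entry hf, dv_op_entry hf, Matrix.smul_apply,
      Matrix.sub_apply, hD, hD, smul_eq_mul]
  have h3 : ∀ i : Fin n, cm (Xa (i, true)) (fderiv ℝ (Fm f) (base n) (vec (xi (i, true)))) +
      cm (Xa (i, false)) (fderiv ℝ (Fm f) (base n) (vec (xi (i, false)))) =
      (2 : ℂ) • (cm (eu i) (D true i) + cm (ed i) (D false i)) := by
    intro i
    rw [dv_vec_false, dv_vec_true, h1, h2, Xa_false, Xa_true]
    simp only [cm_add_left, cm_add_right, cm_sub_left, cm_sub_right, cm_smul_left, cm_smul_right,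
      smul_sub, smul_smul, Complex.I_mul_I]
    module
  rw [Fintype.sum_prod_type]
  simp only [Fintype.sum_bool, h3]
  rw [← Finset.smul_sum]
  have h4 : ∑ i : Fin n, (cm (eu i) (D true i) + cm (ed i) (D false i)) = 0 := by
    ext k m
    rw [Matrix.sum_apply]
    simp only [Matrix.add_apply, cm_eu, cm_ed, hD]
    have e1 : ∀ (i : Fin n) (c : Fin (n + 1)),
        dvT f true i.castSucc (Fin.last n) c = 0 := fun i c => by
      rw [dvT_true hf, dvT_last hf hh]
    have e2 : ∀ (i : Fin n) (b : Fin (n + 1)),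
        dvT f false i.castSucc b (Fin.last n) = 0 := fun i b => by
      rw [dvT_false hf, dvT_last hf hh]
    have e3 : ∑ i : Fin n, dvT f true i.castSucc k i.castSucc = 0 := by
      have h5 := dvT_box_true hf hh hl true k
      rw [Fin.sum_univ_castSucc, dvT_true hf, dvT_last hf hh, mul_zero, add_zero] at h5
      rw [← h5]
      refine Finset.sum_congr rfl fun i _ => ?_
      rw [HG.J_castSucc, one_mul, dvT_true hf]
    have e4 : ∑ i : Fin n, dvT f false i.castSucc i.castSucc m = 0 := by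
      have h5 := dvT_box_true hf hh hl false m
      rw [Fin.sum_univ_castSucc, dvT_false hf, dvT_last hf hh, mul_zero, add_zero] at h5
      rw [← h5]
      refine Finset.sum_congr rfl fun i _ => ?_
      rw [HG.J_castSucc, one_mul, dvT_false hf]
    have e5 : ∀ i : Fin n,
        ((if k = i.castSucc then J n (Fin.last n) (Fin.last n) *
            dvT f true i.castSucc (Fin.last n) m else 0) -
          if m = Fin.last n then J n k k * dvT f true i.castSucc k i.castSucc else 0) +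
        ((if k = Fin.last n then J n i.castSucc i.castSucc *
            dvT f false i.castSucc i.castSucc m else 0) -
          if m = i.castSucc then J n k k * dvT f false i.castSucc k (Fin.last n) else 0) =
        (if m = Fin.last n then -(J n k k) else 0) * dvT f true i.castSucc k i.castSucc +
        (if k = Fin.last n then 1 else 0) * dvT f false i.castSucc i.castSucc m := by
      intro i
      rw [e1, e2, HG.J_castSucc]
      split_ifs <;> ring
    rw [Finset.sum_congr rfl fun i _ => e5 i, Finset.sum_add_distrib, ← Finset.mul_sum,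
      ← Finset.mul_sum, e3, e4, mul_zero, mul_zero, add_zero]
    rfl
  rw [h4, smul_zero]

/-- THE DIVERGENCE at the base point `e`. `h = (-q) f` satisfies `∑ ε_a ∂_a ∂bar_a h = 0` on the cone and
`z_a ∂_a h = h = zbar_a ∂bar_a h`. `F_ba = ε_b ∂_a ∂bar_b h`. So `∑_a D²F(ξ_a, ξ_a) = 4 ∑_(i<n) ∂_i ∂bar_i F =
4 ∂_l ∂bar_l F = 0`; and `∑_a [X_a, DF(ξ_a)]`, `X_ξ = e ξ^* + ξ e^*`, consists of four sums, each `0`:
`∑ e ξ^* DF(ξ)`: `∑_(i<n) ∂_i F_ia = ∂_a (∑_(i<n) ∂_i ∂bar_i h) = ∂_a ∂_l ∂bar_l h = 0` (`∂_a ∂bar_l h` has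
degree `0` in `z`); `∑ DF(ξ) e ξ^*`: `∂_i F_bl = ε_b ∂_i ∂_l ∂bar_b h = 0` (the same); `∑ ξ e^* DF(ξ)`:
`∂bar_i F_la = - ∂bar_i ∂bar_l ∂_a h = 0`; `∑ DF(ξ) ξ e^*`: `∑_(i<n) ∂bar_i F_bi = ε_b ∂bar_b ∂_l ∂bar_l h = 0`. -/
theorem Fm_div {f : Vec n → ℂ} (hf : ContDiffOn ℝ (⊤ : ℕ∞) f (Cone n)) (hh : Homog f)
    (hl : ∀ v ∈ Cone n, Lap f v = ((n : ℝ) + 1) • f v) :
    ∑ a : Ix n, (fderiv ℝ (fderiv ℝ (Fm f)) (base n) (vec (xi a)) (vec (xi a)) -
      (2 : ℝ) • cm (Xa a) (fderiv ℝ (Fm f) (base n) (vec (xi a)))) = 0 := by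
  rw [Finset.sum_sub_distrib, dv_first hf hh hl, ← Finset.smul_sum, dv_second hf hh hl, smul_zero,
    sub_zero]

end Pool.Agent.Lib.MP_5d4057_al.WR
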