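import Pool.Agent.Lib.MP_5d4057_al.WR.Defs
import Pool.Agent.Lib.MP_5d4057_al.HM.Comm

/-! The functions `fB B` are eigenfunctions of the averaging operators (helper15, helper26). -/

set_option autoImplicit false

namespace Pool.Agent.Lib.MP_5d4057_al.WR

open Matrix MeasureTheory Filter Topology Pool.Agent.Lib.MP_5d4057_al
  Pool.Agent.Lib.MP_5d4057_al.Hyb Pool.Agent.Lib.MP_5d4057_al.HM Pool.Agent.Lib.MP_5d4057_al.NU
  Pool.Agent.Lib.MP_5d4057_al.IN.D

open scoped ComplexOrder MatrixOrder Matrix.Norms.L2Operator ENNReal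

variable {n : ℕ}

theorem cj_inv_eq (g : SUGroup n) (B : Mat (n + 1)) : cj g⁻¹ B = g⁻¹.toMatrix * B * g.toMatrix := by
  rw [cj, inv_inv]

/-- `herm (g v) (B (g v)) = herm v (g⁻¹ B g v)` and `q (g v) = q v`. -/
theorem fB_act (B : Mat (n + 1)) (g : SUGroup n) (v : Vec n) :
    fB B (act g v) = fB (cj g⁻¹ B) v := by
  rw [cj_inv_eq, fB, fB, q_act]
  congr 1
  have h1 : herm (act g v) (B *ᵥ act g v) =
      herm (act g⁻¹ (act g v)) (act g⁻¹ (B *ᵥ act g v)) := (herm_act g⁻¹ _ _).symm
  rw [h1, ← act_mul, inv_mul_cancel, act_one, act, act, mulVec_mulVec, mulVec_mulVec,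
    Matrix.mul_assoc]

theorem fB_add (A B : Mat (n + 1)) (v : Vec n) : fB (A + B) v = fB A v + fB B v := by
  rw [fB, fB, fB, add_mulVec, herm_add_right, add_div]

theorem fB_smul (c : ℂ) (B : Mat (n + 1)) (v : Vec n) : fB (c • B) v = c * fB B v := by
  rw [fB, fB, smul_mulVec, herm_smul_right, mul_div_assoc]

theorem fB_sub (A B : Mat (n + 1)) (v : Vec n) : fB (A - B) v = fB A v - fB B v := by
  have h := fB_add (A - B) B v
  rw [sub_add_cancel] at h
  rw [h, add_sub_cancel_right]

theorem fB_homog (B : Mat (n + 1)) : Homog (fB B) := by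
  intro c hc v hv
  have hq : (q v : ℂ) ≠ 0 := by
    have : q v < 0 := hv
    exact_mod_cast this.ne
  have hn : ((‖c‖ ^ 2 : ℝ) : ℂ) ≠ 0 := by
    have := norm_pos_iff.2 hc
    exact_mod_cast (by positivity : ‖c‖ ^ 2 ≠ 0)
  rw [fB, fB, mulVec_smul, herm_smul_left, herm_smul_right, q_smul]
  have e : star c * (c * herm v (B *ᵥ v)) = ((‖c‖ ^ 2 : ℝ) : ℂ) * herm v (B *ᵥ v) := by
    rw [← mul_assoc, RCLike.star_def, Complex.conj_mul']
    push_cast; rfl
  rw [e]
  push_cast at hn ⊢
  field_simp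

theorem contDiffOn_fB (B : Mat (n + 1)) : ContDiffOn ℝ (⊤ : ℕ∞) (fB B) (Cone n) := by
  have h1 : ContDiffOn ℝ (⊤ : ℕ∞) (fun v : Vec n => herm v (B *ᵥ v)) (Cone n) := by
    unfold herm
    simp only [dotProduct]
    refine ContDiffOn.sum fun i _ => ContDiffOn.mul ?_ ?_
    · exact Kak.contDiffOn_star (Kak.contDiffOn_coord i _)
    · let L : Vec n →ₗ[ℝ] ℂ :=
        { toFun := fun v => (J n *ᵥ (B *ᵥ v)) i
          map_add' := fun v w => by rw [mulVec_add, mulVec_add]; rfl
          map_smul' := fun r v => by rw [mulVec_smul, mulVec_smul]; rfl }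
      exact L.toContinuousLinearMap.contDiff.contDiffOn
  have h2 : ContDiffOn ℝ (⊤ : ℕ∞) (fun v : Vec n => ((-q v : ℝ) : ℂ)) (Cone n) :=
    Kak.contDiffOn_ofReal (Kak.contDiffOn_q _).neg
  have h3 : ∀ v ∈ Cone n, ((-q v : ℝ) : ℂ) ≠ 0 := by
    intro v hv
    have hv' : q v < 0 := hv
    exact_mod_cast (by linarith : -q v ≠ 0)
  exact (h1.mul (h2.inv h3)).congr fun v _ => by
    rw [fB, div_eq_mul_inv]
    rfl

theorem fB_base (B : Mat (n + 1)) : fB B (base n) = - B (Fin.last n) (Fin.last n) := by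
  have h1 : B *ᵥ base n = fun i => B i (Fin.last n) := by
    funext i
    rw [base, mulVec_single_one]; rfl
  rw [fB, q_base, h1, herm_eq]
  have h2 : ∀ i : Fin n, (base n) i.castSucc = 0 := fun i => by
    rw [base, Pi.single_eq_of_ne (Fin.castSucc_lt_last i).ne]
  have h3 : (base n) (Fin.last n) = 1 := by rw [base, Pi.single_eq_same]
  rw [Finset.sum_eq_zero fun i _ => by rw [h2, star_zero, zero_mul], h3]
  simp

/-- The polynomial in the coordinates of the ball. -/
noncomputable def zpol (B : Mat (n + 1)) (x : SUGroup n) : ℂ :=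
  ∑ i : Fin n, ∑ j : Fin n, B i.castSucc j.castSucc * (zc x j * star (zc x i)) +
    ∑ i : Fin n, B i.castSucc (Fin.last n) * star (zc x i) -
    ∑ j : Fin n, B (Fin.last n) j.castSucc * zc x j - B (Fin.last n) (Fin.last n)

theorem fB_orbit (B : Mat (n + 1)) (x : SUGroup n) :
    fB B (act x (base n)) = ((ch x ^ 2 : ℝ) : ℂ) * zpol B x := by
  have hX : act x (base n) = fun i => x.toMatrix i (Fin.last n) := by
    funext i
    rw [act, base, mulVec_single_one]; rfl
  have hl : x.toMatrix (Fin.last n) (Fin.last n) ≠ 0 := by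
    have := ch_pos x
    rw [ch] at this
    exact norm_pos_iff.1 this
  set a := x.toMatrix (Fin.last n) (Fin.last n) with ha
  have hz : ∀ j : Fin n, x.toMatrix j.castSucc (Fin.last n) = zc x j * a := by
    intro j
    rw [zc, div_mul_cancel₀ _ hl]
  have hch : ((ch x ^ 2 : ℝ) : ℂ) = star a * a := by
    rw [ch, ← ha, RCLike.star_def, Complex.conj_mul']
    push_cast; rfl
  have hB : ∀ k : Fin (n + 1), (B *ᵥ act x (base n)) k =
      (∑ j : Fin n, B k j.castSucc * zc x j + B k (Fin.last n)) * a := by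
    intro k
    rw [hX, mulVec, dotProduct, Fin.sum_univ_castSucc, add_mul, Finset.sum_mul]
    congr 1
    refine Finset.sum_congr rfl fun j _ => ?_
    rw [hz]; ring
  rw [fB, q_orbit, herm_eq, hB]
  have e1 : ∀ i : Fin n, star (act x (base n) i.castSucc) * (B *ᵥ act x (base n)) i.castSucc =
      (star a * a) * (∑ j : Fin n, B i.castSucc j.castSucc * (zc x j * star (zc x i)) +
        B i.castSucc (Fin.last n) * star (zc x i)) := by
    intro i
    rw [hB, hX]
    simp only
    rw [hz, star_mul, mul_add, add_mul, mul_add, Finset.mul_sum, Finset.sum_mul, Finset.mul_sum]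
    congr 1
    · refine Finset.sum_congr rfl fun j _ => ?_
      ring
    · ring
  have e2 : star (act x (base n) (Fin.last n)) = star a := by rw [hX]
  rw [Finset.sum_congr rfl fun i _ => e1 i, e2, hch, zpol, ← Finset.mul_sum,
    Finset.sum_add_distrib]
  push_cast
  ring

private theorem int_bdd {t : ℕ} (h : n < t) {u : SUGroup n → ℂ} (hu : Continuous u)
    (hb : ∀ x, ‖u x‖ ≤ 1) : Integrable (fun x : SUGroup n => (kap t x : ℂ) * u x) (mu n) := by
  refine Integrable.mono' (integrable_kap h) ((Complex.continuous_ofReal.comp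
    (continuous_kap t)).mul hu).aestronglyMeasurable (Filter.Eventually.of_forall fun x => ?_)
  rw [norm_mul, Complex.norm_real, Real.norm_of_nonneg (kap_nonneg t x)]
  exact mul_le_of_le_one_right (kap_nonneg t x) (hb x)

theorem integral_zpol {t : ℕ} (h : n < t) (B : Mat (n + 1)) :
    Integrable (fun x : SUGroup n => (kap t x : ℂ) * zpol B x) (mu n) ∧
    ∫ x : SUGroup n, (kap t x : ℂ) * zpol B x ∂(mu n) =
      (∑ i : Fin n, B i.castSucc i.castSucc) / t - B (Fin.last n) (Fin.last n) := by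
  have c1 : ∀ j : Fin n, Integrable (fun x : SUGroup n => (kap t x : ℂ) * zc x j) (mu n) :=
    fun j => int_bdd h (continuous_zc j) fun x => norm_zc_le x j
  have c2 : ∀ j : Fin n, Integrable (fun x : SUGroup n => (kap t x : ℂ) * star (zc x j)) (mu n) :=
    fun j => int_bdd h (continuous_zc j).star fun x => by rw [norm_star]; exact norm_zc_le x j
  have c3 : ∀ i j : Fin n, Integrable
      (fun x : SUGroup n => (kap t x : ℂ) * (zc x j * star (zc x i))) (mu n) :=
    fun i j => int_bdd h ((continuous_zc j).mul (continuous_zc i).star) fun x => by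
      rw [norm_mul, norm_star]
      exact mul_le_one₀ (norm_zc_le x j) (norm_nonneg _) (norm_zc_le x i)
  have c4 : Integrable (fun x : SUGroup n => (kap t x : ℂ)) (mu n) :=
    (integrable_kap h).ofReal
  have e : ∀ x : SUGroup n, (kap t x : ℂ) * zpol B x =
      ∑ i : Fin n, ∑ j : Fin n, B i.castSucc j.castSucc *
        ((kap t x : ℂ) * (zc x j * star (zc x i))) +
      ∑ i : Fin n, B i.castSucc (Fin.last n) * ((kap t x : ℂ) * star (zc x i)) -
      ∑ j : Fin n, B (Fin.last n) j.castSucc * ((kap t x : ℂ) * zc x j) -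
      B (Fin.last n) (Fin.last n) * (kap t x : ℂ) := by
    intro x
    rw [zpol, mul_sub, mul_sub, mul_add, Finset.mul_sum, Finset.mul_sum, Finset.mul_sum]
    congr 1
    · congr 1
      · congr 1
        · refine Finset.sum_congr rfl fun i _ => ?_
          rw [Finset.mul_sum]
          refine Finset.sum_congr rfl fun j _ => ?_
          ring
        · refine Finset.sum_congr rfl fun i _ => ?_
          ring
      · refine Finset.sum_congr rfl fun i _ => ?_
        ring
    · ring
  have d1 : Integrable (fun x : SUGroup n => ∑ i : Fin n, ∑ j : Fin n,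
      B i.castSucc j.castSucc * ((kap t x : ℂ) * (zc x j * star (zc x i)))) (mu n) :=
    integrable_finsetSum _ fun i _ => integrable_finsetSum _ fun j _ => (c3 i j).const_mul _
  have d2 : Integrable (fun x : SUGroup n => ∑ i : Fin n,
      B i.castSucc (Fin.last n) * ((kap t x : ℂ) * star (zc x i))) (mu n) :=
    integrable_finsetSum _ fun i _ => (c2 i).const_mul _
  have d3 : Integrable (fun x : SUGroup n => ∑ j : Fin n,
      B (Fin.last n) j.castSucc * ((kap t x : ℂ) * zc x j)) (mu n) :=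
    integrable_finsetSum _ fun i _ => (c1 i).const_mul _
  have d4 : Integrable (fun x : SUGroup n => B (Fin.last n) (Fin.last n) * (kap t x : ℂ))
      (mu n) := c4.const_mul _
  refine ⟨(((d1.add d2).sub d3).sub d4).congr (Filter.Eventually.of_forall fun x => (e x).symm), ?_⟩
  have I := (integral_sub ((d1.add d2).sub d3) d4).trans (congrArg₂ (· - ·)
    ((integral_sub (d1.add d2) d3).trans (congrArg₂ (· - ·) (integral_add d1 d2) rfl)) rfl)
  refine (integral_congr_ae (Filter.Eventually.of_forall e)).trans (I.trans ?_)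
  have i1 : ∫ x : SUGroup n, ∑ i : Fin n, ∑ j : Fin n,
      B i.castSucc j.castSucc * ((kap t x : ℂ) * (zc x j * star (zc x i))) ∂(mu n) =
      (∑ i : Fin n, B i.castSucc i.castSucc) / t := by
    rw [integral_finsetSum _ fun i _ => integrable_finsetSum _ fun j _ => (c3 i j).const_mul _,
      Finset.sum_div]
    refine Finset.sum_congr rfl fun i _ => ?_
    rw [integral_finsetSum _ fun j _ => (c3 i j).const_mul _]
    rw [Finset.sum_eq_single i]
    · rw [integral_const_mul, integral_zc_conj h, if_pos rfl]; ring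
    · intro j _ hj
      rw [integral_const_mul, integral_zc_conj h, if_neg hj, mul_zero]
    · intro hi; exact absurd (Finset.mem_univ i) hi
  have i2 : ∫ x : SUGroup n, ∑ i : Fin n,
      B i.castSucc (Fin.last n) * ((kap t x : ℂ) * star (zc x i)) ∂(mu n) = 0 := by
    rw [integral_finsetSum _ fun i _ => (c2 i).const_mul _]
    refine Finset.sum_eq_zero fun i _ => ?_
    rw [integral_const_mul]
    have h5 : ∀ x : SUGroup n, (kap t x : ℂ) * star (zc x i) =
        (starRingEnd ℂ) ((kap t x : ℂ) * zc x i) := by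
      intro x
      rw [map_mul, Complex.conj_ofReal]; rfl
    rw [integral_congr_ae (Filter.Eventually.of_forall h5), integral_conj, integral_zc h, map_zero,
      mul_zero]
  have i3 : ∫ x : SUGroup n, ∑ j : Fin n,
      B (Fin.last n) j.castSucc * ((kap t x : ℂ) * zc x j) ∂(mu n) = 0 := by
    rw [integral_finsetSum _ fun i _ => (c1 i).const_mul _]
    refine Finset.sum_eq_zero fun i _ => ?_
    rw [integral_const_mul, integral_zc h, mul_zero]
  have i4 : ∫ x : SUGroup n, B (Fin.last n) (Fin.last n) * (kap t x : ℂ) ∂(mu n) =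
      B (Fin.last n) (Fin.last n) := by
    rw [integral_const_mul, integral_complex_ofReal, integral_kap h]; simp
  rw [i1, i2, i3, i4]
  ring

theorem kap_mul_ch {s : ℕ} (h : n + 1 < s) (x : SUGroup n) :
    kap s x * ch x ^ 2 = ((s : ℝ) - 1) / (s - 1 - n) * kap (s - 1) x := by
  obtain ⟨t, rfl⟩ : ∃ t, s = t + 1 := ⟨s - 1, by omega⟩
  have ht : n < t := by omega
  have h3 := cs_succ (n := n) (s := t) ht
  have h4 := cs_pos' (n := n) (s := t + 1) (by omega)
  have h4' := cs_pos' (n := n) (s := t) ht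
  have h5 : (n : ℝ) < t := by exact_mod_cast ht
  have h6 : (t : ℝ) - n ≠ 0 := by linarith
  have h7 : (0 : ℝ) < t := by exact_mod_cast (by omega : 0 < t)
  have hx := (ch_pos x).ne'
  rw [Nat.add_sub_cancel, kap, kap]
  push_cast
  rw [add_sub_cancel_right, show 2 * (t + 1) = 2 * t + 2 by ring, pow_add, mul_inv]
  rw [show cs n (t + 1) = (t - n) * cs n t / t by rw [eq_div_iff h7.ne', mul_comm]; exact h3]
  field_simp

/-- At a point of the orbit. The operator norm of `cj g⁻¹ B` (with `fB_act` and `q (base) = -1`). -/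
theorem norm_fB_le (B : Mat (n + 1)) (g : SUGroup n) : ‖fB B (act g (base n))‖ ≤ ‖cj g⁻¹ B‖ := by
  rw [fB_act, fB_base, norm_neg]
  exact Lv.norm_entry_le_norm _ _ _

/-- `‖cj x⁻¹ B‖ ≤ wt x ^ 2 ‖B‖ ≤ 4 ch x ^ 2 ‖B‖` (`norm_toMatrix_le`, `wt_le`, `ch_inv`). -/
theorem norm_cj_le (x : SUGroup n) (B : Mat (n + 1)) : ‖cj x B‖ ≤ 4 * ch x ^ 2 * ‖B‖ := by
  have h1 : ‖x.toMatrix‖ ≤ 2 * ch x := (NU.norm_toMatrix_le x).trans (HM.wt_le x)
  have h2 : ‖(x⁻¹).toMatrix‖ ≤ 2 * ch x := by
    refine (NU.norm_toMatrix_le x⁻¹).trans ?_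
    rw [HM.wt_inv]
    exact HM.wt_le x
  have h0 : 0 ≤ ch x := (ch_pos x).le
  calc ‖cj x B‖ ≤ ‖x.toMatrix‖ * ‖B‖ * ‖(x⁻¹).toMatrix‖ :=
        (norm_mul_le _ _).trans (mul_le_mul_of_nonneg_right (norm_mul_le _ _) (norm_nonneg _))
    _ ≤ (2 * ch x) * ‖B‖ * (2 * ch x) := by gcongr
    _ = 4 * ch x ^ 2 * ‖B‖ := by ring

theorem continuous_fB_orbit (B : Mat (n + 1)) :
    Continuous fun y : SUGroup n => fB B (act y (base n)) := by
  have e : (fun y : SUGroup n => fB B (act y (base n))) =
      fun y => ((ch y ^ 2 : ℝ) : ℂ) * zpol B y := funext fun y => fB_orbit B y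
  rw [e]
  have h1 : Continuous fun y : SUGroup n => ch y :=
    ((continuous_toMatrix n).matrix_elem _ _).norm
  have h2 : Continuous fun y : SUGroup n => zpol B y := by
    unfold zpol
    have hz := fun j : Fin n => continuous_zc (n := n) j
    refine ((Continuous.add (continuous_finsetSum _ fun i _ => continuous_finsetSum _ fun j _ =>
      continuous_const.mul ((hz j).mul (hz i).star)) (continuous_finsetSum _ fun i _ =>
        continuous_const.mul (hz i).star)).sub (continuous_finsetSum _ fun j _ =>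
          continuous_const.mul (hz j))).sub continuous_const
  exact (Complex.continuous_ofReal.comp (h1.pow 2)).mul h2

theorem adm_fB (B : Mat (n + 1)) : Adm 1 (4 * ‖B‖) (fB B) := by
  refine ⟨(continuous_fB_orbit B).aestronglyMeasurable, fun y => ?_⟩
  refine (norm_fB_le B y).trans ((norm_cj_le y⁻¹ B).trans (le_of_eq ?_))
  rw [ch_inv]
  ring

/-- **The eigenvalue.** -/
theorem P_fB_mul {s : ℕ} (h : n + 1 < s) {B : Mat (n + 1)} (hB : B.trace = 0) {v : Vec n}
    (hv : v ∈ Cone n) : P s (fB B) v = ((s : ℂ) / (s - n - 1)) * fB B v := by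
  obtain ⟨g, a, ha, rfl⟩ := exists_act_eq hv
  rw [P_homog s _ a ha _ (orbit_mem g), P_orbit, fB_homog B a ha _ (orbit_mem g), fB_act,
    fB_base, cj_inv_eq]
  set C : Mat (n + 1) := g⁻¹.toMatrix * B * g.toMatrix with hC
  have htr : C.trace = 0 := by
    rw [hC, Matrix.mul_assoc, trace_mul_comm, Matrix.mul_assoc]
    have : g.toMatrix * g⁻¹.toMatrix = 1 := by rw [← toMatrix_mul, mul_inv_cancel, toMatrix_one]
    rw [this, Matrix.mul_one, hB]
  have e : ∀ x : SUGroup n, kap s x • fB B (act (g * x) (base n)) =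
      (((s : ℝ) - 1) / (s - 1 - n) : ℝ) * ((kap (s - 1) x : ℂ) * zpol C x) := by
    intro x
    rw [act_mul, fB_act, cj_inv_eq, ← hC, fB_orbit, Complex.real_smul, ← mul_assoc, ← Complex.ofReal_mul,
      kap_mul_ch h]
    push_cast
    ring
  rw [integral_congr_ae (Filter.Eventually.of_forall e), integral_const_mul,
    (integral_zpol (t := s - 1) (by omega) C).2]
  have htr2 : ∑ i : Fin n, C i.castSucc i.castSucc = - C (Fin.last n) (Fin.last n) := by
    rw [Matrix.trace, Fin.sum_univ_castSucc] at htr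
    simp only [Matrix.diag_apply] at htr
    exact eq_neg_of_add_eq_zero_left htr
  rw [htr2]
  have hs1 : (1 : ℝ) < s := by exact_mod_cast (by omega : 1 < s)
  have hs2 : (n : ℝ) + 1 < s := by exact_mod_cast h
  have h1 : (((s - 1 : ℕ) : ℝ) : ℂ) = (s : ℂ) - 1 := by
    rw [Nat.cast_sub (by omega)]; push_cast; ring
  have h1' : (((s - 1 : ℕ)) : ℂ) = (s : ℂ) - 1 := by
    rw [Nat.cast_sub (by omega)]; push_cast; ring
  rw [h1']
  have h2 : (s : ℂ) - 1 ≠ 0 := by
    intro h0
    have : (s : ℝ) - 1 = 0 := by exact_mod_cast h0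
    linarith
  have h3 : (s : ℂ) - 1 - n ≠ 0 := by
    intro h0
    have : (s : ℝ) - 1 - n = 0 := by exact_mod_cast h0
    linarith
  have h4 : (s : ℂ) - n - 1 ≠ 0 := by
    intro h0; apply h3; rw [← h0]; ring
  push_cast
  rw [show (s : ℂ) - n - 1 = (s : ℂ) - 1 - n by ring]
  field_simp
  ring

/-- THE EIGENVALUE. By `P_act` and `fB_act` it is enough at the base point, where (with `z = zc x`,
`fB B (x e) = ch x ^ 2 (∑_(i,j) conj z_i B_ij z_j + (terms linear in z) - B_ll)`, `kap s x * ch x ^ 2 =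
(cs n (s-1) / cs n s) kap (s-1) x`, `integral_zc`, `integral_zc_conj`, `cs_succ`) it is
`((s-1)/(s-1-n)) ((∑_(i<n) B_ii)/(s-1) - B_ll) = - (s/(s-1-n)) B_ll` for `tr B = 0`, and
`fB B (base) = - B_ll`. -/
theorem P_fB {B : Mat (n + 1)} (hB : B.trace = 0) {s : ℕ} (hs : n + 1 < s) {v : Vec n}
    (hv : v ∈ Cone n) : P s (fB B) v = cE n s • fB B v := by
  rw [P_fB_mul hs hB hv, cE, Complex.real_smul]
  push_cast
  rfl

end Pool.Agent.Lib.MP_5d4057_al.WR
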