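import Pool.Agent.Lib.MP_5d4057_al.WR.Defs
import Pool.Agent.Lib.MP_5d4057_al.HM.SmoothB

/-! The contraction `u ↦ P s u / cE n s` on functions bounded by the weight. -/

set_option autoImplicit false

namespace Pool.Agent.Lib.MP_5d4057_al.WR

open Matrix MeasureTheory Filter Topology Pool.Agent.Lib.MP_5d4057_al
  Pool.Agent.Lib.MP_5d4057_al.Hyb Pool.Agent.Lib.MP_5d4057_al.HM Pool.Agent.Lib.MP_5d4057_al.NU
  Pool.Agent.Lib.MP_5d4057_al.IN.D

open scoped ComplexOrder MatrixOrder Matrix.Norms.L2Operator ENNReal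

variable {n : ℕ} {Γ : Subgroup (SUGroup n)} {χ : SUGroup n → ℝ} {s : ℕ} {W : Vec n → ℝ}

theorem cE_pos (hs : n + 1 < s) : 0 < cE n s := by
  have h : ((n : ℝ) + 1) < s := by exact_mod_cast hs
  unfold cE
  have h0 : (0 : ℝ) ≤ n := Nat.cast_nonneg n
  exact div_pos (by linarith) (by linarith)

theorem one_lt_cE (hs : n + 1 < s) : 1 < cE n s := by
  have h : ((n : ℝ) + 1) < s := by exact_mod_cast hs
  unfold cE
  have h0 : (0 : ℝ) ≤ n := Nat.cast_nonneg n
  rw [lt_div_iff₀ (by linarith)]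
  linarith

theorem Wgt.adm (h : Wgt Γ χ s W) : Adm 2 (16 * W (base n)) W := by
  refine adm_of_continuousOn h.cont fun y => ?_
  have h1 := h.grow 1 y
  rw [one_mul, act_one] at h1
  have h2 := h.one_le _ (orbit_mem y)
  rw [Real.norm_eq_abs, abs_of_nonneg (by linarith)]
  calc W (act y (base n)) ≤ 16 * ch y ^ 4 * W (base n) := h1
    _ = 16 * W (base n) * ch y ^ (2 * 2) := by ring

/-- Functions bounded by a multiple of the weight. -/
structure WB (W : Vec n → ℝ) (K : ℝ) (u : Vec n → ℂ) : Prop where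
  hom : Homog u
  meas : AEStronglyMeasurable (fun g : SUGroup n => u (act g (base n))) (mu n)
  bd : ∀ v ∈ Cone n, ‖u v‖ ≤ K * W v

theorem WB.nonneg {K : ℝ} {u : Vec n → ℂ} (h : Wgt Γ χ s W) (hu : WB W K u) : 0 ≤ K := by
  have h1 := hu.bd (base n) (base_mem n)
  have h2 := h.one_le (base n) (base_mem n)
  by_contra h3
  push Not at h3
  have h4 : K * W (base n) < 0 := mul_neg_of_neg_of_pos h3 (by linarith)
  have h5 := norm_nonneg (u (base n))
  linarith

theorem WB.adm {K : ℝ} {u : Vec n → ℂ} (h : Wgt Γ χ s W) (hu : WB W K u) :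
    Adm 2 (K * (16 * W (base n))) u where
  meas := hu.meas
  bound y := by
    have h1 := hu.bd _ (orbit_mem y)
    have h2 := h.adm.bound y
    have h3 := h.one_le _ (orbit_mem y)
    have h4 := hu.nonneg h
    rw [Real.norm_eq_abs, abs_of_nonneg (by linarith)] at h2
    calc ‖u (act y (base n))‖ ≤ K * W (act y (base n)) := h1
      _ ≤ K * (16 * W (base n) * ch y ^ (2 * 2)) := mul_le_mul_of_nonneg_left h2 h4
      _ = _ := by ring

/-- The averaging operator on a bound. -/
theorem norm_P_le {K : ℝ} {u : Vec n → ℂ} (h : Wgt Γ χ s W) (hu : WB W K u) {t : ℕ}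
    (ht : n + 2 < t) {v : Vec n} (hv : v ∈ Cone n) : ‖P t u v‖ ≤ K * P t W v := by
  have i1 := Sm.integrable_P (h.adm) ht hv
  have i2 := Sm.integrable_P (hu.adm h) ht hv
  have hk : ∀ y : SUGroup n, 0 ≤ ker t v (act y (base n)) / cs n t := fun y =>
    div_nonneg (Sm.ker_nonneg t hv (orbit_mem y)) (cs_nonneg n t)
  rw [P, P]
  calc ‖∫ y : SUGroup n, (ker t v (act y (base n)) / cs n t) • u (act y (base n)) ∂(mu n)‖
      ≤ ∫ y : SUGroup n, K * ((ker t v (act y (base n)) / cs n t) • W (act y (base n))) ∂(mu n) := by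
        refine norm_integral_le_of_norm_le (i1.const_mul K) (Eventually.of_forall fun y => ?_)
        rw [norm_smul, Real.norm_of_nonneg (hk y), smul_eq_mul]
        calc ker t v (act y (base n)) / cs n t * ‖u (act y (base n))‖
            ≤ ker t v (act y (base n)) / cs n t * (K * W (act y (base n))) :=
              mul_le_mul_of_nonneg_left (hu.bd _ (orbit_mem y)) (hk y)
          _ = _ := by ring
    _ = _ := integral_const_mul _ _

/-- Measurability of `P t u`. -/
theorem meas_P {K : ℝ} {u : Vec n → ℂ} (h : Wgt Γ χ s W) (hu : WB W K u) {t : ℕ}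
    (ht : n + 2 < t) : AEStronglyMeasurable (fun g : SUGroup n => P t u (act g (base n))) (mu n) :=
  ((hu.adm h).avg ht).meas

/-- The contraction. -/
noncomputable def Tc (s : ℕ) (u : Vec n → ℂ) (v : Vec n) : ℂ := (cE n s)⁻¹ • P s u v

theorem Tc_meas {K : ℝ} {u : Vec n → ℂ} (h : Wgt Γ χ s W) (hs : n + 2 < s) (hu : WB W K u) :
    AEStronglyMeasurable (fun g : SUGroup n => Tc s u (act g (base n))) (mu n) := by
  have h1 := meas_P h hu hs
  exact AEStronglyMeasurable.const_smul h1 (cE n s)⁻¹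

theorem Tc_homog (s : ℕ) (u : Vec n → ℂ) : Homog (Tc s u) := by
  intro c hc' v hv
  have h1 := Sm.homog_P s u c hc' v hv
  unfold Tc
  rw [h1]

theorem Tc_bd {K θ : ℝ} {u : Vec n → ℂ} (h : Wgt Γ χ s W) (hs : n + 2 < s)
    (hθ : ∀ v ∈ Cone n, P s W v ≤ cE n s * θ * W v) (hu : WB W K u) {v : Vec n}
    (hv : v ∈ Cone n) : ‖Tc s u v‖ ≤ K * θ * W v := by
  have hc : 0 < cE n s := cE_pos (by omega)
  have h1 := norm_P_le h hu hs hv
  have h2 := mul_le_mul_of_nonneg_left (hθ v hv) (hu.nonneg h)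
  have h3 : ‖Tc s u v‖ = (cE n s)⁻¹ * ‖P s u v‖ := by
    unfold Tc
    rw [norm_smul, norm_inv, Real.norm_of_nonneg hc.le]
  rw [h3]
  have h4 : (cE n s)⁻¹ * ‖P s u v‖ ≤ (cE n s)⁻¹ * (K * (cE n s * θ * W v)) :=
    mul_le_mul_of_nonneg_left (h1.trans h2) (inv_nonneg.2 hc.le)
  have h5 : (cE n s)⁻¹ * (K * (cE n s * θ * W v)) = K * θ * W v := by
    have h6 : (cE n s)⁻¹ * cE n s = 1 := inv_mul_cancel₀ hc.ne'
    calc (cE n s)⁻¹ * (K * (cE n s * θ * W v)) = ((cE n s)⁻¹ * cE n s) * (K * θ * W v) := by ring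
      _ = _ := by rw [h6, one_mul]
  linarith

theorem WB.step {K θ : ℝ} {u : Vec n → ℂ} (h : Wgt Γ χ s W) (hs : n + 2 < s)
    (hθ : ∀ v ∈ Cone n, P s W v ≤ cE n s * θ * W v) (hu : WB W K u) :
    WB W (K * θ) (Tc s u) := ⟨Tc_homog s u, Tc_meas h hs hu, fun _ hv => Tc_bd h hs hθ hu hv⟩

/-- Uniqueness: a bounded eigenfunction of `P s` with eigenvalue `cE n s` is zero. -/
theorem eig_unique {K : ℝ} {u : Vec n → ℂ} (h : Wgt Γ χ s W) (hs : n + 2 < s)
    (hu : WB W K u) (he : ∀ v ∈ Cone n, P s u v = cE n s • u v) : ∀ v ∈ Cone n, u v = 0 := by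
  obtain ⟨θ, h0, h1, hθ⟩ := h.avg
  have hc := cE_pos (n := n) (s := s) (by omega)
  have key : ∀ k : ℕ, WB W (K * θ ^ k) u := by
    intro k
    induction k with
    | zero => simpa using hu
    | succ k ih =>
      refine ⟨hu.hom, hu.meas, fun v hv => ?_⟩
      have h2 := (ih.step h hs hθ).bd v hv
      have h3 : Tc s u v = u v := by
        show (cE n s)⁻¹ • P s u v = u v
        rw [he v hv, smul_smul, inv_mul_cancel₀ hc.ne', one_smul]
      rw [h3] at h2
      calc ‖u v‖ ≤ K * θ ^ k * θ * W v := h2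
        _ = _ := by ring
  intro v hv
  have h2 : Tendsto (fun k : ℕ => K * θ ^ k * W v) atTop (𝓝 (K * 0 * W v)) :=
    ((tendsto_pow_atTop_nhds_zero_of_lt_one h0 h1).const_mul K).mul_const _
  have h3 : ‖u v‖ ≤ K * 0 * W v := ge_of_tendsto' h2 fun k => (key k).bd v hv
  have h4 : ‖u v‖ ≤ 0 := by simpa using h3
  exact norm_le_zero_iff.1 h4

/-- The resolvent. -/
theorem exists_res {K : ℝ} {u : Vec n → ℂ} (h : Wgt Γ χ s W) (hs : n + 2 < s)
    (hu : WB W K u) : ∃ (K' : ℝ) (S : Vec n → ℂ), WB W K' S ∧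
      ∀ v ∈ Cone n, (cE n s)⁻¹ • P s S v = S v - u v := by
  obtain ⟨θ, h0, h1, hθ⟩ := h.avg
  have hc := cE_pos (n := n) (s := s) (by omega)
  have hK := hu.nonneg h
  obtain ⟨U, hU⟩ : ∃ U : ℕ → Vec n → ℂ, U = fun k => (Tc s)^[k] u := ⟨_, rfl⟩
  have hU0 : U 0 = u := by rw [hU]; rfl
  have hU1 : ∀ k, U (k + 1) = Tc s (U k) := by
    intro k
    rw [hU]
    show (Tc s)^[k + 1] u = _
    rw [Function.iterate_succ_apply']
  have hb : ∀ k, WB W (K * θ ^ k) (U k) := by
    intro k
    induction k with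
    | zero => rw [hU0]; simpa using hu
    | succ k ih =>
      rw [hU1, pow_succ, ← mul_assoc]
      exact ih.step h hs hθ
  have hsum : ∀ v ∈ Cone n, Summable fun k => U k v := by
    intro v hv
    refine Summable.of_norm_bounded (g := fun k => K * θ ^ k * W v) ?_ fun k => (hb k).bd v hv
    exact ((summable_geometric_of_lt_one h0 h1).mul_left K).mul_right _
  obtain ⟨S, hS⟩ : ∃ S : Vec n → ℂ, S = fun v => ∑' k, U k v := ⟨_, rfl⟩
  have hSb : WB W (K * (1 - θ)⁻¹) S := by
    refine ⟨?_, ?_, ?_⟩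
    · intro c hc' v hv
      rw [hS]
      exact tsum_congr fun k => (hb k).hom c hc' v hv
    · refine aestronglyMeasurable_of_tendsto_ae atTop
        (f := fun (M : ℕ) (g : SUGroup n) => ∑ k ∈ Finset.range M, U k (act g (base n)))
        (fun M => ?_) (Eventually.of_forall fun g => ?_)
      · exact Finset.aestronglyMeasurable_fun_sum _ fun k _ => (hb k).meas
      · rw [hS]
        exact (hsum _ (orbit_mem g)).hasSum.tendsto_sum_nat
    · intro v hv
      rw [hS]
      have h2 : HasSum (fun k => K * θ ^ k * W v) (K * (1 - θ)⁻¹ * W v) :=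
        ((hasSum_geometric_of_lt_one h0 h1).mul_left K).mul_right _
      exact tsum_of_norm_bounded h2 fun k => (hb k).bd v hv
  refine ⟨_, S, hSb, fun v hv => ?_⟩
  have hk : ∀ y : SUGroup n, 0 ≤ ker s v (act y (base n)) / cs n s := fun y =>
    div_nonneg (Sm.ker_nonneg s hv (orbit_mem y)) (cs_nonneg n s)
  have hi : ∀ k, Integrable (fun y : SUGroup n =>
      (ker s v (act y (base n)) / cs n s) • U k (act y (base n))) (mu n) := fun k =>
    Sm.integrable_P ((hb k).adm h) hs hv
  have iW := Sm.integrable_P h.adm hs hv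
  have hn : Summable fun k => ∫ y : SUGroup n,
      ‖(ker s v (act y (base n)) / cs n s) • U k (act y (base n))‖ ∂(mu n) := by
    refine Summable.of_nonneg_of_le (fun k => integral_nonneg fun y => norm_nonneg _)
      (fun k => ?_) (((summable_geometric_of_lt_one h0 h1).mul_left K).mul_right (P s W v))
    rw [P, ← integral_const_mul]
    refine integral_mono (hi k).norm (iW.const_mul _) fun y => ?_
    show ‖(ker s v (act y (base n)) / cs n s) • U k (act y (base n))‖ ≤
      K * θ ^ k * ((ker s v (act y (base n)) / cs n s) • W (act y (base n)))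
    rw [norm_smul, Real.norm_of_nonneg (hk y), smul_eq_mul]
    calc ker s v (act y (base n)) / cs n s * ‖U k (act y (base n))‖
        ≤ ker s v (act y (base n)) / cs n s * (K * θ ^ k * W (act y (base n))) :=
          mul_le_mul_of_nonneg_left ((hb k).bd _ (orbit_mem y)) (hk y)
      _ = _ := by ring
  have hs' := hasSum_integral_of_summable_integral_norm hi hn
  have e1 : (∫ y : SUGroup n, ∑' k, (ker s v (act y (base n)) / cs n s) •
      U k (act y (base n)) ∂(mu n)) = P s S v := by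
    rw [P, hS]
    refine integral_congr_ae (Eventually.of_forall fun y => ?_)
    show ∑' k, (ker s v (act y (base n)) / cs n s) • U k (act y (base n)) =
      (ker s v (act y (base n)) / cs n s) • ∑' k, U k (act y (base n))
    rw [(hsum _ (orbit_mem y)).tsum_const_smul]
  rw [e1] at hs'
  have h3 := hs'.const_smul (cE n s)⁻¹
  have h4 : (fun k => (cE n s)⁻¹ • ∫ y : SUGroup n,
      (ker s v (act y (base n)) / cs n s) • U k (act y (base n)) ∂(mu n)) =
      fun k => U (k + 1) v := by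
    funext k
    rw [hU1]
    rfl
  rw [h4] at h3
  have h5 : HasSum (fun k => U (k + 1) v) (S v - u v) := by
    have h6 := (hasSum_nat_add_iff' (f := fun k => U k v) 1).2
      (show HasSum (fun k => U k v) (S v) by rw [hS]; exact (hsum v hv).hasSum)
    simpa [hU0] using h6
  exact h3.unique h5

end Pool.Agent.Lib.MP_5d4057_al.WR
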