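import Pool.Agent.Lib.MP_5d4057_al.WR.Eig
import Pool.Agent.Lib.MP_5d4057_al.WR.FixA
import Pool.Agent.Lib.MP_5d4057_al.HM.Comm

/-! The fixed point of `f ↦ P s f / cE n s`. -/

set_option autoImplicit false

namespace Pool.Agent.Lib.MP_5d4057_al.WR

open Matrix MeasureTheory Filter Topology Pool.Agent.Lib.MP_5d4057_al
  Pool.Agent.Lib.MP_5d4057_al.Hyb Pool.Agent.Lib.MP_5d4057_al.HM Pool.Agent.Lib.MP_5d4057_al.NU
  Pool.Agent.Lib.MP_5d4057_al.IN.D

open scoped ComplexOrder MatrixOrder Matrix.Norms.L2Operator ENNReal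

variable {n : ℕ}

theorem cj_cj (g h : SUGroup n) (A : Mat (n + 1)) : cj g (cj h A) = cj (g * h) A := by
  unfold cj
  rw [_root_.mul_inv_rev, toMatrix_mul, toMatrix_mul]
  simp only [Matrix.mul_assoc]

theorem cj_one (A : Mat (n + 1)) : cj (1 : SUGroup n) A = A := by
  unfold cj
  rw [inv_one, toMatrix_one, Matrix.one_mul, Matrix.mul_one]

theorem cj_inv_cj (g : SUGroup n) (A : Mat (n + 1)) : cj g⁻¹ (cj g A) = A := by
  rw [cj_cj, inv_mul_cancel, cj_one]

theorem trace_cj (g : SUGroup n) (A : Mat (n + 1)) : (cj g A).trace = A.trace := by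
  unfold cj
  rw [Matrix.trace_mul_comm, ← Matrix.mul_assoc, ← toMatrix_mul, inv_mul_cancel, toMatrix_one,
    Matrix.one_mul]

/-- The average of a function which is close to a flat one. -/
theorem P_near {t N M : ℕ} (h1 : n + 1 < t) (hN : n + N < t) (hM : n + M < t) {f : Vec n → ℂ}
    {Cf : ℝ} (hf : Adm N Cf f) {B : Mat (n + 1)} (hB : B.trace = 0) {A : ℝ} (g : SUGroup n)
    (h : ∀ x : SUGroup n, ‖f (act (g * x) (base n)) - fB B (act (g * x) (base n))‖ ≤
      A * ch x ^ (2 * M)) :
    ‖P t f (act g (base n)) - cE n t • fB B (act g (base n))‖ ≤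
      A * ∫ x : SUGroup n, kap t x * ch x ^ (2 * M) ∂(mu n) := by
  rw [← P_fB hB h1 (orbit_mem g), P_orbit, P_orbit, ← integral_sub (Sm.integrable_P_orbit hf hN g)
    (Sm.integrable_P_orbit (adm_fB B) (by omega) g), ← integral_const_mul]
  refine norm_integral_le_of_norm_le ((integrable_kap_pow hM).const_mul A)
    (Eventually.of_forall fun x => ?_)
  rw [← smul_sub, norm_smul, Real.norm_of_nonneg (kap_nonneg t x)]
  calc kap t x * ‖f (act (g * x) (base n)) - fB B (act (g * x) (base n))‖
      ≤ kap t x * (A * ch x ^ (2 * M)) := mul_le_mul_of_nonneg_left (h x) (kap_nonneg t x)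
    _ = _ := by ring

/-- `f₀ v = fB (F v) v`, `u = P s f₀ / c - f₀` is invariant and `O(W)`
(`u (g e) = (P s (f₀ - fB (F (g e))) / c) (g e)` by `P_fB`), `f = f₀ + ∑ (P s / c)^N u` (`Wgt.avg`).
`eig'`: `P (s+1) f / cE n (s+1) - f` is invariant, `O(W)` and an eigenfunction of `P s` with eigenvalue
`cE n s` (`P_comm`), so it is `0`. -/
theorem exists_sol (hn : 1 ≤ n) (N : ℕ) : ∃ s₁ N' : ℕ, ∀ s, s₁ ≤ s →
    ∀ {Γ : Subgroup (SUGroup n)} {χ : SUGroup n → ℝ} {κ : Γ → Mat (n + 1)} (_ : Cocy Γ κ) {C : ℝ}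
      {W : Vec n → ℝ} (_ : Wgt Γ χ s W) {F : Vec n → Mat (n + 1)} (_ : Bas κ N C W F),
      ∃ (C' : ℝ) (f : Vec n → ℂ), Sol κ s N' C' W f := by
  obtain ⟨s₀, hs₀⟩ := P_comm (E := ℂ) hn (N + 3)
  refine ⟨s₀ + n + N + 5, N + 2, fun s hs => ?_⟩
  intro Γ χ κ hκ C W hW F hF
  have hc := cE_pos (n := n) (s := s) (by omega)
  have hc' := cE_pos (n := n) (s := s + 1) (by omega)
  -- the base function
  obtain ⟨f₀, hf₀⟩ : ∃ f₀ : Vec n → ℂ, f₀ = fun v => fB (F v) v := ⟨_, rfl⟩
  have hom₀ : Homog f₀ := by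
    intro c hc v hv
    rw [hf₀]
    show fB (F (c • v)) (c • v) = fB (F v) v
    rw [hF.hom c hc v hv, fB_homog _ c hc v hv]
  have cont₀ : ContinuousOn f₀ (Cone n) := by
    rw [hf₀]
    unfold fB
    refine ContinuousOn.div ?_ ?_ ?_
    · have h1 : ContinuousOn (fun v : Vec n => (v, F v *ᵥ v)) (Cone n) := by
        refine continuousOn_id.prodMk ?_
        refine continuousOn_pi.2 fun i => ?_
        simp only [Matrix.mulVec, dotProduct]
        refine continuousOn_finsetSum _ fun j _ => ?_
        refine ContinuousOn.mul ?_ (continuous_apply j).continuousOn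
        exact (continuous_id.matrix_elem i j).comp_continuousOn hF.cont
      exact contDiff_herm.continuous.comp_continuousOn h1
    · exact (Complex.continuous_ofReal.comp contDiff_q.continuous.neg).continuousOn
    · intro v hv
      have h1 : q v < 0 := hv
      exact_mod_cast (neg_pos.2 h1).ne'
  have hd₀ : ∀ g x : SUGroup n, ‖f₀ (act (g * x) (base n)) -
      fB (F (act g (base n))) (act (g * x) (base n))‖ ≤
        4 * C * W (act g (base n)) * ch x ^ (2 * (N + 1)) := by
    intro g x
    rw [hf₀]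
    show ‖fB (F (act (g * x) (base n))) (act (g * x) (base n)) -
      fB (F (act g (base n))) (act (g * x) (base n))‖ ≤ _
    rw [← fB_sub]
    refine (norm_fB_le _ _).trans ?_
    have e : cj (g * x)⁻¹ (F (act (g * x) (base n)) - F (act g (base n))) =
        cj x⁻¹ (cj g⁻¹ (F (act (g * x) (base n)) - F (act g (base n)))) := by
      rw [cj_cj, _root_.mul_inv_rev]
    rw [e]
    refine (norm_cj_le _ _).trans ?_
    rw [ch_inv]
    have h1 := hF.inc g x
    have h2 : (0 : ℝ) ≤ 4 * ch x ^ 2 := by positivity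
    calc 4 * ch x ^ 2 * ‖cj g⁻¹ (F (act (g * x) (base n)) - F (act g (base n)))‖
        ≤ 4 * ch x ^ 2 * (C * ch x ^ (2 * N) * W (act g (base n))) :=
          mul_le_mul_of_nonneg_left h1 h2
      _ = _ := by ring
  have hCW : ∀ g : SUGroup n, 0 ≤ 4 * C * W (act g (base n)) := by
    intro g
    have h1 := (norm_nonneg _).trans (hd₀ g 1)
    rw [ch_one, one_pow, mul_one] at h1
    exact h1
  have hC : 0 ≤ C := by
    have h1 := hCW 1
    have h2 := hW.one_le _ (orbit_mem (1 : SUGroup n))
    by_contra h3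
    push Not at h3
    have h4 : 4 * C * W (act (1 : SUGroup n) (base n)) < 0 :=
      mul_neg_of_neg_of_pos (by linarith) (by linarith)
    linarith
  have adm₀ : Adm (N + 1) (4 * C * W (act 1 (base n)) + 4 * ‖F (act 1 (base n))‖) f₀ := by
    refine adm_of_continuousOn cont₀ fun y => ?_
    have h1 := hd₀ 1 y
    rw [one_mul] at h1
    have h2 := (adm_fB (F (act 1 (base n)))).bound y
    have h3 := one_le_ch y
    have h4 : ch y ^ (2 * 1) ≤ ch y ^ (2 * (N + 1)) := pow_le_pow_right₀ h3 (by omega)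
    have h5 := norm_sub_norm_le (f₀ (act y (base n))) (fB (F (act 1 (base n))) (act y (base n)))
    have h6 : 4 * ‖F (act 1 (base n))‖ * ch y ^ (2 * 1) ≤
        4 * ‖F (act 1 (base n))‖ * ch y ^ (2 * (N + 1)) :=
      mul_le_mul_of_nonneg_left h4 (by positivity)
    calc ‖f₀ (act y (base n))‖ ≤ 4 * C * W (act 1 (base n)) * ch y ^ (2 * (N + 1)) +
          4 * ‖F (act 1 (base n))‖ * ch y ^ (2 * (N + 1)) := by linarith
      _ = _ := by ring
  have eq₀ : ∀ γ : Γ, ∀ v ∈ Cone n, f₀ (act (γ : SUGroup n) v) =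
      f₀ v + fB (κ γ) (act (γ : SUGroup n) v) := by
    intro γ v hv
    rw [hf₀]
    show fB (F (act (γ : SUGroup n) v)) (act (γ : SUGroup n) v) = fB (F v) v + _
    rw [hF.eq γ v hv, fB_add]
    congr 1
    rw [fB_act, cj_inv_cj]
  -- the defect
  obtain ⟨u, hu⟩ : ∃ u : Vec n → ℂ, u = fun v => Tc s f₀ v - f₀ v := ⟨_, rfl⟩
  have huW : WB W (4 * C * ∫ x : SUGroup n, kap s x * ch x ^ (2 * (N + 1)) ∂(mu n)) u := by
    refine ⟨?_, ?_, ?_⟩
    · intro c hc v hv
      rw [hu]
      show Tc s f₀ (c • v) - f₀ (c • v) = Tc s f₀ v - f₀ v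
      rw [Tc_homog s f₀ c hc v hv, hom₀ c hc v hv]
    · rw [hu]
      have h1 : AEStronglyMeasurable (fun g : SUGroup n => Tc s f₀ (act g (base n))) (mu n) :=
        AEStronglyMeasurable.const_smul (adm₀.avg (s := s) (by omega)).meas (cE n s)⁻¹
      exact h1.sub adm₀.meas
    · intro v hv
      obtain ⟨g, c, hc0, hg⟩ := exists_act_eq hv
      have e1 : u v = u (act g (base n)) := by
        rw [hg, hu]
        show Tc s f₀ (c • act g (base n)) - f₀ (c • act g (base n)) = _
        rw [Tc_homog s f₀ c hc0 _ (orbit_mem g), hom₀ c hc0 _ (orbit_mem g)]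
      have e2 : W v = W (act g (base n)) := by rw [hg, hW.hom c hc0 _ (orbit_mem g)]
      rw [e1, e2]
      have h1 := P_near (n := n) (t := s) (by omega) (N := N + 1) (by omega) (M := N + 1)
        (by omega) adm₀ (hF.tr _ (orbit_mem g)) g (hd₀ g)
      have e3 : fB (F (act g (base n))) (act g (base n)) = f₀ (act g (base n)) := by rw [hf₀]
      rw [e3] at h1
      have e4 : u (act g (base n)) = (cE n s)⁻¹ • (P s f₀ (act g (base n)) -
          cE n s • f₀ (act g (base n))) := by
        rw [hu, smul_sub, smul_smul, inv_mul_cancel₀ hc.ne', one_smul]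
        rfl
      rw [e4, norm_smul, norm_inv, Real.norm_of_nonneg hc.le]
      have h2 : (cE n s)⁻¹ ≤ 1 := inv_le_one_of_one_le₀ (one_lt_cE (by omega)).le
      calc (cE n s)⁻¹ * ‖P s f₀ (act g (base n)) - cE n s • f₀ (act g (base n))‖
          ≤ 1 * ‖P s f₀ (act g (base n)) - cE n s • f₀ (act g (base n))‖ :=
            mul_le_mul_of_nonneg_right h2 (norm_nonneg _)
        _ ≤ 1 * _ := mul_le_mul_of_nonneg_left h1 zero_le_one
        _ = _ := by ring
  obtain ⟨K', S, hS, hSe⟩ := exists_res hW (by omega) huW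
  have hK' := hS.nonneg hW
  -- the solution
  obtain ⟨f, hf⟩ : ∃ f : Vec n → ℂ, f = fun v => f₀ v + S v := ⟨_, rfl⟩
  have homf : Homog f := by
    intro c hc v hv
    rw [hf]
    show f₀ (c • v) + S (c • v) = f₀ v + S v
    rw [hom₀ c hc v hv, hS.hom c hc v hv]
  obtain ⟨Cf, admf⟩ : ∃ Cf : ℝ, Adm (max (N + 1) 2) Cf f := by
    rw [hf]
    exact ⟨_, adm₀.add (hS.adm hW)⟩
  have hmax : n + max (N + 1) 2 < s := by omega
  have eigf : ∀ v ∈ Cone n, P s f v = cE n s • f v := by
    intro v hv
    have h1 : P s f v = P s f₀ v + P s S v := by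
      rw [hf]
      exact Sm.P_add adm₀ (hS.adm hW) (by omega) (by omega) hv
    have h2 : (cE n s)⁻¹ • P s f v = f v := by
      rw [h1, smul_add, hSe v hv, hu, hf]
      show (cE n s)⁻¹ • P s f₀ v + (S v - ((cE n s)⁻¹ • P s f₀ v - f₀ v)) = f₀ v + S v
      abel
    rw [← h2, smul_smul, mul_inv_cancel₀ hc.ne', one_smul]
  have contf : ContinuousOn f (Cone n) := by
    have h1 := (Sm.contDiffOn_P admf hmax).continuousOn
    refine (h1.const_smul (cE n s)⁻¹).congr fun v hv => ?_
    show f v = (cE n s)⁻¹ • P s f v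
    rw [eigf v hv, smul_smul, inv_mul_cancel₀ hc.ne', one_smul]
  have contS : ContinuousOn S (Cone n) := by
    have : S = fun v => f v - f₀ v := by
      funext v
      rw [hf]
      show S v = f₀ v + S v - f₀ v
      ring
    rw [this]
    exact contf.sub cont₀
  have hd : ∀ g x : SUGroup n, ‖f (act (g * x) (base n)) -
      fB (F (act g (base n))) (act (g * x) (base n))‖ ≤
        (4 * C + 16 * K') * W (act g (base n)) * ch x ^ (2 * (N + 2)) := by
    intro g x
    have h1 := hd₀ g x
    have h2 := hS.bd _ (orbit_mem (g * x))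
    have h3 := hW.grow g x
    have h4 := one_le_ch x
    have h5 : ch x ^ (2 * (N + 1)) ≤ ch x ^ (2 * (N + 2)) := pow_le_pow_right₀ h4 (by omega)
    have h6 : ch x ^ 4 ≤ ch x ^ (2 * (N + 2)) := pow_le_pow_right₀ h4 (by omega)
    have h7 := hW.one_le _ (orbit_mem g)
    have e : f (act (g * x) (base n)) - fB (F (act g (base n))) (act (g * x) (base n)) =
        (f₀ (act (g * x) (base n)) - fB (F (act g (base n))) (act (g * x) (base n))) +
          S (act (g * x) (base n)) := by
      rw [hf]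
      ring
    rw [e]
    refine (norm_add_le _ _).trans ?_
    have h8 : 4 * C * W (act g (base n)) * ch x ^ (2 * (N + 1)) ≤
        4 * C * W (act g (base n)) * ch x ^ (2 * (N + 2)) :=
      mul_le_mul_of_nonneg_left h5 (hCW g)
    have h9 : K' * W (act (g * x) (base n)) ≤
        K' * (16 * ch x ^ (2 * (N + 2)) * W (act g (base n))) := by
      refine mul_le_mul_of_nonneg_left (h3.trans ?_) hK'
      refine mul_le_mul_of_nonneg_right ?_ (by linarith)
      linarith
    calc _ ≤ 4 * C * W (act g (base n)) * ch x ^ (2 * (N + 2)) +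
          K' * (16 * ch x ^ (2 * (N + 2)) * W (act g (base n))) := by linarith
      _ = _ := by ring
  refine ⟨4 * C + 16 * K', f, homf, contf, ?_, eigf, ?_, fun g => ?_⟩
  · -- equivariance by uniqueness
    intro γ v hv
    obtain ⟨w, hw⟩ : ∃ w : Vec n → ℂ, w = fun v => f (act (γ : SUGroup n) v) -
        fB (cj (γ : SUGroup n)⁻¹ (κ γ)) v - f v := ⟨_, rfl⟩
    have hact : ∀ v ∈ Cone n, act (γ : SUGroup n) v ∈ Cone n := fun v hv => act_mem _ hv
    have hwS : ∀ v ∈ Cone n, w v = S (act (γ : SUGroup n) v) - S v := by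
      intro v hv
      have h1 := eq₀ γ v hv
      rw [fB_act] at h1
      rw [hw, hf]
      show f₀ (act (γ : SUGroup n) v) + S (act (γ : SUGroup n) v) -
        fB (cj (γ : SUGroup n)⁻¹ (κ γ)) v - (f₀ v + S v) = _
      rw [h1]
      ring
    have hcont : ContinuousOn w (Cone n) := by
      have h1 : ContinuousOn (fun v : Vec n => S (act (γ : SUGroup n) v)) (Cone n) :=
        contS.comp (actL (γ : SUGroup n)).continuous.continuousOn hact
      exact (h1.sub contS).congr hwS
    have hwB : WB W (2 * K') w := by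
      refine ⟨?_, ?_, ?_⟩
      · intro c hc v hv
        have hcv := smul_mem_cone hc hv
        rw [hwS _ hcv, hwS _ hv, act_smul, hS.hom c hc _ (hact v hv), hS.hom c hc v hv]
      · exact (hcont.comp_continuous continuous_orbit fun y => orbit_mem y).aestronglyMeasurable
      · intro v hv
        rw [hwS v hv]
        have h1 := hS.bd _ (hact v hv)
        have h2 := hS.bd v hv
        rw [hW.inv _ γ.2 v hv] at h1
        calc ‖S (act (γ : SUGroup n) v) - S v‖ ≤ _ := norm_sub_le _ _
          _ ≤ K' * W v + K' * W v := add_le_add h1 h2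
          _ = _ := by ring
    have hwe : ∀ v ∈ Cone n, P s w v = cE n s • w v := by
      intro v hv
      have htr : (cj (γ : SUGroup n)⁻¹ (κ γ)).trace = 0 := by rw [trace_cj, hκ.tr]
      have a1 := admf.act (γ : SUGroup n)
      have a2 := adm_fB (cj (γ : SUGroup n)⁻¹ (κ γ))
      have a3 := a1.sub a2
      have e1 : P s w v = P s (fun v => f (act (γ : SUGroup n) v) -
          fB (cj (γ : SUGroup n)⁻¹ (κ γ)) v) v - P s f v := by
        rw [hw]
        exact Sm.P_sub a3 admf (by omega) hmax hv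
      have e2 : P s (fun v => f (act (γ : SUGroup n) v) -
          fB (cj (γ : SUGroup n)⁻¹ (κ γ)) v) v = P s (fun v => f (act (γ : SUGroup n) v)) v -
            P s (fB (cj (γ : SUGroup n)⁻¹ (κ γ))) v := Sm.P_sub a1 a2 hmax (by omega) hv
      rw [e1, e2, Sm.P_act, eigf _ (hact v hv), P_fB htr (by omega) hv, eigf v hv, hw, smul_sub,
        smul_sub]
    have h1 := eig_unique hW (by omega) hwB hwe v hv
    rw [hw] at h1
    have h2 : f (act (γ : SUGroup n) v) - fB (cj (γ : SUGroup n)⁻¹ (κ γ)) v - f v = 0 := h1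
    rw [fB_act]
    linear_combination h2
  · -- the level `s + 1`
    obtain ⟨w, hw⟩ : ∃ w : Vec n → ℂ, w = fun v => (cE n (s + 1))⁻¹ • P (s + 1) f v - f v :=
      ⟨_, rfl⟩
    have hmax' : n + max (N + 1) 2 < s + 1 := by omega
    obtain ⟨I, hI⟩ : ∃ I : ℝ, I = ∫ x : SUGroup n, kap (s + 1) x * ch x ^ (2 * (N + 2)) ∂(mu n) :=
      ⟨_, rfl⟩
    have hwcont : ContinuousOn w (Cone n) := by
      have h1 := (Sm.contDiffOn_P admf hmax').continuousOn
      rw [hw]
      exact ContinuousOn.sub (h1.const_smul (cE n (s + 1))⁻¹) contf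
    have hwB : WB W ((4 * C + 16 * K') * I + (4 * C + 16 * K')) w := by
      refine ⟨?_, ?_, ?_⟩
      · intro c hc v hv
        rw [hw]
        show (cE n (s + 1))⁻¹ • P (s + 1) f (c • v) - f (c • v) =
          (cE n (s + 1))⁻¹ • P (s + 1) f v - f v
        rw [Sm.homog_P _ _ c hc v hv, homf c hc v hv]
      · exact (hwcont.comp_continuous continuous_orbit fun y => orbit_mem y).aestronglyMeasurable
      · intro v hv
        obtain ⟨g, c, hc0, hg⟩ := exists_act_eq hv
        have e1 : w v = w (act g (base n)) := by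
          rw [hg, hw]
          show (cE n (s + 1))⁻¹ • P (s + 1) f (c • act g (base n)) - f (c • act g (base n)) = _
          rw [Sm.homog_P _ _ c hc0 _ (orbit_mem g), homf c hc0 _ (orbit_mem g)]
        have e2 : W v = W (act g (base n)) := by rw [hg, hW.hom c hc0 _ (orbit_mem g)]
        rw [e1, e2]
        have h1 := P_near (n := n) (t := s + 1) (by omega) (N := max (N + 1) 2) (by omega)
          (M := N + 2) (by omega) admf (hF.tr _ (orbit_mem g)) g (hd g)
        rw [← hI] at h1
        have h2 := hd g 1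
        rw [mul_one, ch_one, one_pow, mul_one] at h2
        have e4 : w (act g (base n)) = (cE n (s + 1))⁻¹ • (P (s + 1) f (act g (base n)) -
            cE n (s + 1) • fB (F (act g (base n))) (act g (base n))) -
              (f (act g (base n)) - fB (F (act g (base n))) (act g (base n))) := by
          rw [hw, smul_sub, smul_smul, inv_mul_cancel₀ hc'.ne', one_smul]
          show (cE n (s + 1))⁻¹ • P (s + 1) f (act g (base n)) - f (act g (base n)) = _
          ring
        rw [e4]
        refine (norm_sub_le _ _).trans ?_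
        rw [norm_smul, norm_inv, Real.norm_of_nonneg hc'.le]
        have h3 : (cE n (s + 1))⁻¹ ≤ 1 := inv_le_one_of_one_le₀ (one_lt_cE (by omega)).le
        have h4 : (cE n (s + 1))⁻¹ * ‖P (s + 1) f (act g (base n)) -
            cE n (s + 1) • fB (F (act g (base n))) (act g (base n))‖ ≤
              (4 * C + 16 * K') * W (act g (base n)) * I := by
          calc _ ≤ 1 * ‖P (s + 1) f (act g (base n)) -
                cE n (s + 1) • fB (F (act g (base n))) (act g (base n))‖ :=
                mul_le_mul_of_nonneg_right h3 (norm_nonneg _)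
            _ ≤ 1 * _ := mul_le_mul_of_nonneg_left h1 zero_le_one
            _ = _ := one_mul _
        calc _ ≤ (4 * C + 16 * K') * W (act g (base n)) * I +
              (4 * C + 16 * K') * W (act g (base n)) := add_le_add h4 h2
          _ = _ := by ring
    have hwe : ∀ v ∈ Cone n, P s w v = cE n s • w v := by
      intro v hv
      have a1 := (admf.avg hmax').smul (cE n (s + 1))⁻¹
      have e1 : P s w v = P s (fun v => (cE n (s + 1))⁻¹ • P (s + 1) f v) v - P s f v := by
        rw [hw]
        exact Sm.P_sub a1 admf hmax hmax hv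
      have admf' := admf.mono (N' := N + 3) (by omega) le_rfl
      have e2 : P s (P (s + 1) f) v = cE n s • P (s + 1) f v := by
        rw [hs₀ s (s + 1) (by omega) (by omega) _ f admf' v hv]
        rw [Sm.P_congr (s + 1) (f₁ := P s f) (f₂ := fun v => cE n s • f v)
          (Eventually.of_forall fun y => eigf _ (orbit_mem y)) v, Sm.P_smul]
      rw [e1, Sm.P_smul, e2, eigf v hv, hw]
      show (cE n (s + 1))⁻¹ • cE n s • P (s + 1) f v - cE n s • f v =
        cE n s • ((cE n (s + 1))⁻¹ • P (s + 1) f v - f v)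
      rw [smul_sub, smul_comm]
    intro v hv
    have h1 := eig_unique hW (by omega) hwB hwe v hv
    rw [hw] at h1
    have h2 : (cE n (s + 1))⁻¹ • P (s + 1) f v = f v := sub_eq_zero.1 h1
    rw [← h2, smul_smul, mul_inv_cancel₀ hc'.ne', one_smul]
  · refine ⟨F (act g (base n)), hF.tr _ (orbit_mem g), fun x => ?_⟩
    refine (hd g x).trans (le_of_eq ?_)
    ring

end Pool.Agent.Lib.MP_5d4057_al.WR
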