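import Pool.Agent.Lib.MP_5d4057_al.NU.FlowN

/-! The integral over `Γ \ G` of a derivative along a flow vanishes: integrable functions, every
lattice, no cut-offs. -/

set_option autoImplicit false

namespace Pool.Agent.Lib.MP_5d4057_al.WR

open Matrix MeasureTheory Filter Topology Pool.Agent.Lib.MP_5d4057_al
  Pool.Agent.Lib.MP_5d4057_al.Hyb Pool.Agent.Lib.MP_5d4057_al.HM Pool.Agent.Lib.MP_5d4057_al.NU

open scoped ENNReal

variable {n : ℕ} {Γ : Subgroup (SUGroup n)} {χ : SUGroup n → ℝ}

theorem integrable_iff_LI (h : Lat Γ χ) {f : SUGroup n → ℝ} (hc : Continuous f) :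
    Integrable (fun g => χ g • f g) (mu n) ↔ LI χ (fun g => ENNReal.ofReal |f g|) < ⊤ := by
  have e : ∫⁻ g, ‖χ g • f g‖ₑ ∂(mu n) = LI χ (fun g => ENNReal.ofReal |f g|) := by
    rw [LI]
    refine lintegral_congr fun g => ?_
    rw [← ofReal_norm_eq_enorm, norm_smul, Real.norm_of_nonneg (h.pos g).le,
      ENNReal.ofReal_mul (h.pos g).le, Real.norm_eq_abs]
  constructor
  · intro hi
    rw [← e]
    exact hi.2
  · intro hi
    refine ⟨(h.cont.smul hc).aestronglyMeasurable, ?_⟩
    rw [HasFiniteIntegral, e]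
    exact hi

/-- Right translates of integrable invariant functions. -/
theorem integrable_right (h : Lat Γ χ) {f : SUGroup n → ℝ} (hf : ∀ γ ∈ Γ, ∀ g, f (γ * g) = f g)
    (hc : Continuous f) (hi : Integrable (fun g => χ g • f g) (mu n)) (a : SUGroup n) :
    Integrable (fun g => χ g • f (g * a)) (mu n) := by
  have hca : Continuous fun g => f (g * a) := hc.comp (continuous_mul_const a)
  rw [integrable_iff_LI h hca]
  rw [integrable_iff_LI h hc] at hi
  have e := LI_mul_right h (f := fun g => ENNReal.ofReal |f g|)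
    (fun γ hγ g => by rw [hf γ hγ]) hc.abs.measurable.ennreal_ofReal.aemeasurable a
  rw [e]
  exact hi

theorem II_right_nonneg (h : Lat Γ χ) {f : SUGroup n → ℝ} (hf : ∀ γ ∈ Γ, ∀ g, f (γ * g) = f g)
    (hc : Continuous f) (h0 : ∀ g, 0 ≤ f g) (a : SUGroup n) :
    II χ (fun g => f (g * a)) = II χ f := by
  have key : ∀ φ : SUGroup n → ℝ, Continuous φ → (∀ g, 0 ≤ φ g) →
      II χ φ = (LI χ (fun g => ENNReal.ofReal (φ g))).toReal := by
    intro φ hφ hφ0
    unfold II LI
    rw [integral_eq_lintegral_of_nonneg_ae (f := fun g => χ g • φ g)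
      (Filter.Eventually.of_forall fun g => mul_nonneg (h.pos g).le (hφ0 g))
      (h.cont.smul hφ).aestronglyMeasurable]
    congr 1
    refine lintegral_congr fun g => ?_
    rw [smul_eq_mul, ENNReal.ofReal_mul (h.pos g).le]
  rw [key (fun g => f (g * a)) (hc.comp (continuous_mul_const a)) fun g => h0 _, key f hc h0]
  congr 1
  exact LI_mul_right h (f := fun g => ENNReal.ofReal (f g)) (fun γ hγ g => by rw [hf γ hγ])
    hc.measurable.ennreal_ofReal.aemeasurable a

/-- Invariance under right translations, integrable functions. -/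
theorem II_right (h : Lat Γ χ) {f : SUGroup n → ℝ} (hf : ∀ γ ∈ Γ, ∀ g, f (γ * g) = f g)
    (hc : Continuous f) (hi : Integrable (fun g => χ g • f g) (mu n)) (a : SUGroup n) :
    II χ (fun g => f (g * a)) = II χ f := by
  have hcp : Continuous fun g => max (f g) 0 := hc.max continuous_const
  have hcm : Continuous fun g => max (-f g) 0 := hc.neg.max continuous_const
  have hip : Integrable (fun g => χ g • max (f g) 0) (mu n) := by
    refine hi.norm.mono' (h.cont.smul hcp).aestronglyMeasurable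
      (Filter.Eventually.of_forall fun g => ?_)
    rw [norm_smul, norm_smul]
    refine mul_le_mul_of_nonneg_left ?_ (norm_nonneg _)
    rw [Real.norm_of_nonneg (le_max_right _ _), Real.norm_eq_abs]
    exact max_le (le_abs_self _) (abs_nonneg _)
  have him : Integrable (fun g => χ g • max (-f g) 0) (mu n) := by
    refine hi.norm.mono' (h.cont.smul hcm).aestronglyMeasurable
      (Filter.Eventually.of_forall fun g => ?_)
    rw [norm_smul, norm_smul]
    refine mul_le_mul_of_nonneg_left ?_ (norm_nonneg _)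
    rw [Real.norm_of_nonneg (le_max_right _ _), Real.norm_eq_abs]
    exact max_le (neg_le_abs _) (abs_nonneg _)
  have hfp : ∀ γ ∈ Γ, ∀ g, max (f (γ * g)) 0 = max (f g) 0 := fun γ hγ g => by rw [hf γ hγ]
  have hfm : ∀ γ ∈ Γ, ∀ g, max (-f (γ * g)) 0 = max (-f g) 0 := fun γ hγ g => by rw [hf γ hγ]
  have e : ∀ x : ℝ, x = max x 0 - max (-x) 0 := by
    intro x
    rcases le_total 0 x with hx | hx
    · rw [max_eq_left hx, max_eq_right (by linarith), sub_zero]
    · rw [max_eq_right hx, max_eq_left (by linarith)]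
      ring
  have e1 : ∀ φ : SUGroup n → ℝ, Integrable (fun g => χ g • max (φ g) 0) (mu n) →
      Integrable (fun g => χ g • max (-φ g) 0) (mu n) →
      II χ φ = II χ (fun g => max (φ g) 0) - II χ (fun g => max (-φ g) 0) := by
    intro φ h1 h2
    unfold II
    rw [← integral_sub h1 h2]
    refine integral_congr_ae (Filter.Eventually.of_forall fun g => ?_)
    show χ g • φ g = χ g • max (φ g) 0 - χ g • max (-φ g) 0
    rw [← smul_sub, ← e]
  rw [e1 f hip him, e1 (fun g => f (g * a)) (integrable_right h hfp hcp hip a)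
    (integrable_right h hfm hcm him a), II_right_nonneg h hfp hcp (fun g => le_max_right _ _) a,
    II_right_nonneg h hfm hcm (fun g => le_max_right _ _) a]

/-- The integral of a derivative along a flow vanishes, integrable functions. -/
theorem II_flow_int (h : Lat Γ χ) {b : ℝ → SUGroup n} (hb0 : b 0 = 1) (hbc : Continuous b)
    {Ψ Ψ' : SUGroup n → ℝ} (hc0 : Continuous Ψ) (hc : Continuous Ψ')
    (hd : ∀ g t, HasDerivAt (fun t => Ψ (g * b t)) (Ψ' (g * b t)) t)
    (hf : ∀ γ ∈ Γ, ∀ g, Ψ (γ * g) = Ψ g) (hi : Integrable (fun g => χ g • Ψ g) (mu n))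
    (hi' : Integrable (fun g => χ g • Ψ' g) (mu n)) : II χ Ψ' = 0 := by
  have hf' := inv_of_flow hb0 hd hf
  have hcont : Continuous (fun p : SUGroup n × ℝ => χ p.1 • Ψ' (p.1 * b p.2)) :=
    (h.cont.comp continuous_fst).smul
      (hc.comp (continuous_fst.mul (hbc.comp continuous_snd)))
  have h1 : ∀ g, χ g • (Ψ (g * b 1) - Ψ g) = ∫ u in (0 : ℝ)..1, χ g • Ψ' (g * b u) := by
    intro g
    have hcg : Continuous (fun u : ℝ => Ψ' (g * b u)) :=
      hc.comp (continuous_const.mul hbc)
    have h := intervalIntegral.integral_eq_sub_of_hasDerivAt (a := 0) (b := 1)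
      (f := fun t => Ψ (g * b t)) (f' := fun t => Ψ' (g * b t)) (fun t _ => hd g t)
      (hcg.intervalIntegrable 0 1)
    rw [intervalIntegral.integral_smul, h, hb0, mul_one]
  have h2 : ∫ g, χ g • (Ψ (g * b 1) - Ψ g) ∂(mu n) = 0 := by
    have h3 := integrable_right h hf hc0 hi (b 1)
    have h4 := II_right h hf hc0 hi (b 1)
    simp only [smul_sub]
    rw [integral_sub h3 hi]
    unfold II at h4
    rw [h4, sub_self]
  have h4 : ∫ g, (∫ u in (0 : ℝ)..1, χ g • Ψ' (g * b u)) ∂(mu n) =
      ∫ u in (0 : ℝ)..1, (∫ g, χ g • Ψ' (g * b u) ∂(mu n)) := by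
    simp only [intervalIntegral.integral_of_le zero_le_one]
    refine integral_integral_swap ?_
    have hmeas : AEStronglyMeasurable (fun p : SUGroup n × ℝ => χ p.1 • Ψ' (p.1 * b p.2))
        ((mu n).prod (volume.restrict (Set.Ioc (0 : ℝ) 1))) := hcont.aestronglyMeasurable
    show Integrable (fun p : SUGroup n × ℝ => χ p.1 • Ψ' (p.1 * b p.2))
        ((mu n).prod (volume.restrict (Set.Ioc (0 : ℝ) 1)))
    rw [integrable_prod_iff' hmeas]
    constructor
    · exact Filter.Eventually.of_forall fun u => integrable_right h hf' hc hi' (b u)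
    · have hn : ∀ γ ∈ Γ, ∀ g, |Ψ' (γ * g)| = |Ψ' g| := fun γ hγ g => by rw [hf' γ hγ]
      have hni : Integrable (fun g => χ g • |Ψ' g|) (mu n) := by
        refine hi'.norm.congr (Filter.Eventually.of_forall fun g => ?_)
        show ‖χ g • Ψ' g‖ = χ g • |Ψ' g|
        rw [norm_smul, Real.norm_of_nonneg (h.pos g).le, Real.norm_eq_abs, smul_eq_mul]
      have h5 : ∀ u : ℝ, ∫ g, ‖χ g • Ψ' (g * b u)‖ ∂(mu n) = II χ (fun g => |Ψ' g|) := by
        intro u
        have h6 := II_right h hn hc.abs hni (b u)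
        rw [← h6]
        unfold II
        refine integral_congr_ae (Filter.Eventually.of_forall fun g => ?_)
        show ‖χ g • Ψ' (g * b u)‖ = χ g • |Ψ' (g * b u)|
        rw [norm_smul, Real.norm_of_nonneg (h.pos g).le, Real.norm_eq_abs, smul_eq_mul]
      simp only [h5]
      exact integrable_const _
  have h6 : ∀ u : ℝ, ∫ g, χ g • Ψ' (g * b u) ∂(mu n) = II χ Ψ' := fun u =>
    II_right h hf' hc hi' (b u)
  simp only [h6] at h4
  rw [intervalIntegral.integral_const, sub_zero, one_smul] at h4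
  calc II χ Ψ' = ∫ g, (∫ u in (0 : ℝ)..1, χ g • Ψ' (g * b u)) ∂(mu n) := h4.symm
    _ = ∫ g, χ g • (Ψ (g * b 1) - Ψ g) ∂(mu n) :=
        integral_congr_ae (Filter.Eventually.of_forall fun g => (h1 g).symm)
    _ = 0 := h2

end Pool.Agent.Lib.MP_5d4057_al.WR
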