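import Pool.Agent.Lib.MP_5d4057_al.WR.Defs
import Pool.Agent.Lib.MP_5d4057_al.HM.BochCB

/-! The derivatives of `Fm f` at the base point. -/

set_option autoImplicit false

namespace Pool.Agent.Lib.MP_5d4057_al.WR

open Matrix MeasureTheory Filter Topology Pool.Agent.Lib.MP_5d4057_al
  Pool.Agent.Lib.MP_5d4057_al.Hyb Pool.Agent.Lib.MP_5d4057_al.HM Pool.Agent.Lib.MP_5d4057_al.NU
  Pool.Agent.Lib.MP_5d4057_al.IN.D

open scoped ComplexOrder MatrixOrder Matrix.Norms.L2Operator ENNReal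

variable {n : ℕ}

/-- `Fm` as a linear image of the second derivative. -/
noncomputable def LF (n : ℕ) : (Vec n →L[ℝ] Vec n →L[ℝ] ℂ) →ₗ[ℝ] Mat (n + 1) where
  toFun T := Matrix.of fun b a => J n b b * ((1 / 4 : ℂ) *
    (T (Pi.single b 1) (Pi.single a 1) +
      T (Complex.I • Pi.single b 1) (Complex.I • Pi.single a 1) +
      Complex.I * (T (Complex.I • Pi.single b 1) (Pi.single a 1) -
        T (Pi.single b 1) (Complex.I • Pi.single a 1))))
  map_add' S T := by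
    ext b a
    simp only [Matrix.of_apply, Matrix.add_apply, _root_.add_apply]
    ring
  map_smul' c T := by
    ext b a
    simp only [Matrix.of_apply, Matrix.smul_apply, _root_.smul_apply,
      RingHom.id_apply, Complex.real_smul]
    ring

theorem continuous_LF (n : ℕ) : Continuous (LF n) := by
  change Continuous fun T : Vec n →L[ℝ] Vec n →L[ℝ] ℂ => Matrix.of fun b a : Fin (n + 1) =>
    J n b b * ((1 / 4 : ℂ) *
    (T (Pi.single b 1) (Pi.single a 1) +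
      T (Complex.I • Pi.single b 1) (Complex.I • Pi.single a 1) +
      Complex.I * (T (Complex.I • Pi.single b 1) (Pi.single a 1) -
        T (Pi.single b 1) (Complex.I • Pi.single a 1))))
  have h : ∀ u w : Vec n, Continuous fun T : Vec n →L[ℝ] Vec n →L[ℝ] ℂ => T u w := fun u w =>
    ((ContinuousLinearMap.apply ℝ ℂ w).continuous.comp
      (ContinuousLinearMap.apply ℝ (Vec n →L[ℝ] ℂ) u).continuous)
  refine continuous_matrix fun b a => ?_
  exact continuous_const.mul (continuous_const.mul (((h _ _).add (h _ _)).add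
    (continuous_const.mul ((h _ _).sub (h _ _)))))

/-- Continuous linear maps and iterated derivatives. -/
theorem lin_bd {E F G : Type} [NormedAddCommGroup E] [NormedSpace ℝ E] [NormedAddCommGroup F]
    [NormedSpace ℝ F] [NormedAddCommGroup G] [NormedSpace ℝ G] (L : F →ₗ[ℝ] G)
    (hL : Continuous L) : ∃ C : ℝ, 0 ≤ C ∧ ∀ (g : E → F) (x : E), ContDiffAt ℝ (⊤ : ℕ∞) g x →
      ∀ i : ℕ, ‖iteratedFDeriv ℝ i (fun v => L (g v)) x‖ ≤ C * ‖iteratedFDeriv ℝ i g x‖ := by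
  let Lc : F →L[ℝ] G := ⟨L, hL⟩
  exact ⟨‖Lc‖, norm_nonneg _, fun g x hg i =>
    Lc.norm_iteratedFDeriv_comp_left hg (by exact_mod_cast le_top)⟩

theorem nf_two {E F : Type} [NormedAddCommGroup E] [NormedSpace ℝ E] [NormedAddCommGroup F]
    [NormedSpace ℝ F] (g : E → F) (x : E) :
    ‖fderiv ℝ (fderiv ℝ g) x‖ = ‖iteratedFDeriv ℝ 2 g x‖ := by
  rw [← norm_iteratedFDeriv_one, norm_iteratedFDeriv_fderiv]

theorem Fm_eq_LF (f : Vec n → ℂ) :
    Fm f = fun v => LF n (fderiv ℝ (fderiv ℝ (fun w => ((-q w : ℝ) : ℂ) * f w)) v) := rfl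

/-- The function `-q`, as a complex function, is smooth. -/
theorem contDiff_mq : ContDiff ℝ (⊤ : ℕ∞) fun w : Vec n => ((-q w : ℝ) : ℂ) :=
  Complex.ofRealCLM.contDiff.comp lk_contDiff_q.neg

/-- The derivatives of `Fm f` at the base point. -/
theorem Fm_bd (n : ℕ) : ∃ C : ℝ, 0 ≤ C ∧ ∀ (f : Vec n → ℂ), ContDiffOn ℝ (⊤ : ℕ∞) f (Cone n) →
    ∀ M : ℝ, (∀ k ≤ 4, ‖iteratedFDeriv ℝ k f (base n)‖ ≤ M) →
      ‖fderiv ℝ (Fm f) (base n)‖ ≤ C * M ∧ ‖fderiv ℝ (fderiv ℝ (Fm f)) (base n)‖ ≤ C * M := by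
  set m : Vec n → ℂ := fun w => ((-q w : ℝ) : ℂ) with hm
  set K : ℝ := ∑ k ∈ Finset.range 5, ∑ i ∈ Finset.range (k + 1), (k.choose i : ℝ) *
    ‖iteratedFDeriv ℝ i m (base n)‖ with hK
  have hK0 : ∀ k, 0 ≤ ∑ i ∈ Finset.range (k + 1), (k.choose i : ℝ) *
    ‖iteratedFDeriv ℝ i m (base n)‖ := fun k =>
      Finset.sum_nonneg fun i _ => mul_nonneg (Nat.cast_nonneg _) (norm_nonneg _)
  have hKn : 0 ≤ K := Finset.sum_nonneg fun k _ => hK0 k
  have hb := base_mem n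
  have ho := isOpen_cone n
  obtain ⟨L, hL0, hL⟩ := lin_bd (E := Vec n)
    (F := Vec n →L[ℝ] Vec n →L[ℝ] ℂ) (G := Mat (n + 1)) (LF n) (continuous_LF n)
  refine ⟨L * K, mul_nonneg hL0 hKn, fun f hf M hM => ?_⟩
  have hM0 : 0 ≤ M := (norm_nonneg _).trans (hM 0 (by norm_num))
  have key : ∀ k ≤ 4, ‖iteratedFDeriv ℝ k (fun w => m w * f w) (base n)‖ ≤ K * M := by
    intro k hk
    have h1 := norm_iteratedFDerivWithin_mul_le (𝕜 := ℝ) (contDiff_mq (n := n)).contDiffOn hf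
      ho.uniqueDiffOn hb (n := k) (N := ((⊤ : ℕ∞) : WithTop ℕ∞)) (by exact_mod_cast le_top)
    simp only [iteratedFDerivWithin_of_isOpen _ ho hb] at h1
    refine h1.trans ?_
    have h2 : ∑ i ∈ Finset.range (k + 1), (k.choose i : ℝ) *
        ‖iteratedFDeriv ℝ i m (base n)‖ ≤ K :=
      Finset.single_le_sum (f := fun k => ∑ i ∈ Finset.range (k + 1), (k.choose i : ℝ) *
        ‖iteratedFDeriv ℝ i m (base n)‖) (fun k _ => hK0 k)
        (Finset.mem_range.2 (Nat.lt_succ_iff.2 hk))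
    refine le_trans ?_ (mul_le_mul_of_nonneg_right h2 hM0)
    rw [Finset.sum_mul]
    exact Finset.sum_le_sum fun i _ => mul_le_mul_of_nonneg_left (hM _ ((Nat.sub_le k i).trans hk))
      (mul_nonneg (Nat.cast_nonneg _) (norm_nonneg _))
  have hh : ContDiffOn ℝ (⊤ : ℕ∞) (fun w => m w * f w) (Cone n) :=
    (contDiff_mq (n := n)).contDiffOn.mul hf
  have h1 : ContDiffOn ℝ (⊤ : ℕ∞) (fderiv ℝ (fun w => m w * f w)) (Cone n) :=
    hh.fderiv_of_isOpen ho (by norm_num)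
  have h2 : ContDiffOn ℝ (⊤ : ℕ∞) (fderiv ℝ (fderiv ℝ (fun w => m w * f w))) (Cone n) :=
    h1.fderiv_of_isOpen ho (by norm_num)
  have h3 : ContDiffAt ℝ (⊤ : ℕ∞) (fderiv ℝ (fderiv ℝ (fun w => m w * f w))) (base n) :=
    h2.contDiffAt (ho.mem_nhds hb)
  have key2 : ∀ i ≤ 2, ‖iteratedFDeriv ℝ i (Fm f) (base n)‖ ≤ L * K * M := by
    intro i hi
    rw [Fm_eq_LF]
    refine (hL _ _ h3 i).trans ?_
    rw [norm_iteratedFDeriv_fderiv, norm_iteratedFDeriv_fderiv, mul_assoc]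
    exact mul_le_mul_of_nonneg_left (key _ (by omega)) hL0
  constructor
  · rw [← norm_iteratedFDeriv_one]
    exact key2 1 (by norm_num)
  · exact (nf_two (Fm f) (base n)).le.trans (key2 2 le_rfl)

end Pool.Agent.Lib.MP_5d4057_al.WR
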