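import Pool.Agent.Lib.MP_5d4057_al.HM.LapKer
import Pool.Agent.Lib.MP_5d4057_al.HM.Grp

/-! The calculus of the operators `∂_i`, `∂bar_i` for smooth functions on the cone. -/

set_option autoImplicit false

namespace Pool.Agent.Lib.MP_5d4057_al.WR.Pd

open Matrix MeasureTheory Filter Topology Pool.Agent.Lib.MP_5d4057_al
  Pool.Agent.Lib.MP_5d4057_al.Hyb Pool.Agent.Lib.MP_5d4057_al.HM

variable {n : ℕ}

/-- Smooth functions on the cone. -/
def Sm (φ : Vec n → ℂ) : Prop := ContDiffOn ℝ (⊤ : ℕ∞) φ (Cone n)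

/-- The sign of `∂` (`false`) and of `∂bar` (`true`). -/
noncomputable def sg (s : Bool) : ℂ := if s then Complex.I else -Complex.I

/-- `∂_i` (`false`) and `∂bar_i` (`true`). -/
noncomputable def op (s : Bool) (i : Fin (n + 1)) (φ : Vec n → ℂ) (v : Vec n) : ℂ :=
  (1 / 2) * (fderiv ℝ φ v (Pi.single i 1) + sg s * fderiv ℝ φ v (Pi.single i Complex.I))

theorem Sm.diff {φ : Vec n → ℂ} (h : Sm φ) {v : Vec n} (hv : v ∈ Cone n) :
    DifferentiableAt ℝ φ v :=
  (h.contDiffAt ((isOpen_cone n).mem_nhds hv)).differentiableAt (by simp)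

theorem Sm.fd {φ : Vec n → ℂ} (h : Sm φ) :
    ContDiffOn ℝ (⊤ : ℕ∞) (fderiv ℝ φ) (Cone n) :=
  ContDiffOn.fderiv_of_isOpen h (isOpen_cone n) (by simp)

theorem Sm.fa {φ : Vec n → ℂ} (h : Sm φ) (ξ : Vec n) :
    Sm fun v => fderiv ℝ φ v ξ :=
  ContDiffOn.clm_apply h.fd contDiffOn_const

theorem Sm.const (c : ℂ) : Sm (n := n) fun _ => c := contDiffOn_const

theorem Sm.add {φ ψ : Vec n → ℂ} (h : Sm φ) (k : Sm ψ) : Sm fun v => φ v + ψ v := ContDiffOn.add h k

theorem Sm.sub {φ ψ : Vec n → ℂ} (h : Sm φ) (k : Sm ψ) : Sm fun v => φ v - ψ v := ContDiffOn.sub h k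

theorem Sm.mul {φ ψ : Vec n → ℂ} (h : Sm φ) (k : Sm ψ) : Sm fun v => φ v * ψ v := ContDiffOn.mul h k

theorem Sm.cmul {φ : Vec n → ℂ} (c : ℂ) (h : Sm φ) : Sm fun v => c * φ v := (Sm.const c).mul h

theorem Sm.sum {ι : Type} {s : Finset ι} {φ : ι → Vec n → ℂ} (h : ∀ i ∈ s, Sm (φ i)) :
    Sm fun v => ∑ i ∈ s, φ i v := ContDiffOn.sum h

theorem Sm.op {φ : Vec n → ℂ} (h : Sm φ) (s : Bool) (i : Fin (n + 1)) : Sm (op s i φ) :=
  Sm.cmul _ ((h.fa _).add (Sm.cmul _ (h.fa _)))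

theorem Sm.congr {φ ψ : Vec n → ℂ} (h : Sm φ) (k : ∀ v ∈ Cone n, ψ v = φ v) : Sm ψ :=
  ContDiffOn.congr h k

/-- Equality on the cone passes to derivatives. -/
theorem fderiv_eqOn {φ ψ : Vec n → ℂ} (h : ∀ v ∈ Cone n, φ v = ψ v) {v : Vec n} (hv : v ∈ Cone n) :
    fderiv ℝ φ v = fderiv ℝ ψ v := by
  refine Filter.EventuallyEq.fderiv_eq ?_
  filter_upwards [(isOpen_cone n).mem_nhds hv] with w hw
  exact h w hw

theorem op_eqOn {φ ψ : Vec n → ℂ} (s : Bool) (i : Fin (n + 1)) (h : ∀ v ∈ Cone n, φ v = ψ v) :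
    ∀ v ∈ Cone n, op s i φ v = op s i ψ v := by
  intro v hv
  rw [op, op, fderiv_eqOn h hv]

theorem fderiv_fderiv_apply {φ : Vec n → ℂ} (h : Sm φ) {v : Vec n} (hv : v ∈ Cone n) (ξ η : Vec n) :
    fderiv ℝ (fun w => fderiv ℝ φ w ξ) v η = fderiv ℝ (fderiv ℝ φ) v η ξ := by
  have h1 : DifferentiableAt ℝ (fderiv ℝ φ) v :=
    (h.fd.contDiffAt ((isOpen_cone n).mem_nhds hv)).differentiableAt (by simp)
  have h2 := (h1.hasFDerivAt.clm_apply (hasFDerivAt_const ξ v)).fderiv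
  rw [h2]
  simp

theorem fderiv_symm {φ : Vec n → ℂ} (h : Sm φ) {v : Vec n} (hv : v ∈ Cone n) (ξ η : Vec n) :
    fderiv ℝ (fderiv ℝ φ) v ξ η = fderiv ℝ (fderiv ℝ φ) v η ξ := by
  have h1 : ContDiffAt ℝ (⊤ : ℕ∞) φ v := h.contDiffAt ((isOpen_cone n).mem_nhds hv)
  have h2 : ContDiffAt ℝ 2 φ v := h1.of_le (WithTop.coe_le_coe.2 (le_top : (2 : ℕ∞) ≤ ⊤))
  exact (h2.isSymmSndFDerivAt (by simp)) ξ η

/-- The derivative of `op t j φ`. -/
theorem fderiv_op {φ : Vec n → ℂ} (h : Sm φ) {v : Vec n} (hv : v ∈ Cone n) (t : Bool)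
    (j : Fin (n + 1)) (ξ : Vec n) : fderiv ℝ (op t j φ) v ξ =
      (1 / 2) * (fderiv ℝ (fderiv ℝ φ) v ξ (Pi.single j 1) +
        sg t * fderiv ℝ (fderiv ℝ φ) v ξ (Pi.single j Complex.I)) := by
  have h1 := (h.fa (Pi.single j 1)).diff hv
  have h2 := (h.fa (Pi.single j Complex.I)).diff hv
  have e : op t j φ = fun v => (1 / 2 : ℂ) * ((fun w => fderiv ℝ φ w (Pi.single j 1)) v +
      sg t * (fun w => fderiv ℝ φ w (Pi.single j Complex.I)) v) := rfl
  rw [e, fderiv_const_mul (h1.fun_add (h2.const_mul _)), fderiv_fun_add h1 (h2.const_mul _),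
    fderiv_const_mul h2]
  simp only [_root_.smul_apply, _root_.add_apply, smul_eq_mul,
    fderiv_fderiv_apply h hv]

theorem op_op {φ : Vec n → ℂ} (h : Sm φ) {v : Vec n} (hv : v ∈ Cone n) (s t : Bool)
    (i j : Fin (n + 1)) : op s i (op t j φ) v =
      (1 / 4) * (fderiv ℝ (fderiv ℝ φ) v (Pi.single i 1) (Pi.single j 1) +
        sg t * fderiv ℝ (fderiv ℝ φ) v (Pi.single i 1) (Pi.single j Complex.I) +
        sg s * fderiv ℝ (fderiv ℝ φ) v (Pi.single i Complex.I) (Pi.single j 1) +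
        sg s * sg t * fderiv ℝ (fderiv ℝ φ) v (Pi.single i Complex.I) (Pi.single j Complex.I)) := by
  rw [op, fderiv_op h hv, fderiv_op h hv]
  ring

/-- The operators commute. -/
theorem op_comm {φ : Vec n → ℂ} (h : Sm φ) {v : Vec n} (hv : v ∈ Cone n) (s t : Bool)
    (i j : Fin (n + 1)) : op s i (op t j φ) v = op t j (op s i φ) v := by
  rw [op_op h hv, op_op h hv, fderiv_symm h hv (Pi.single j 1) (Pi.single i 1),
    fderiv_symm h hv (Pi.single j 1) (Pi.single i Complex.I),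
    fderiv_symm h hv (Pi.single j Complex.I) (Pi.single i 1),
    fderiv_symm h hv (Pi.single j Complex.I) (Pi.single i Complex.I)]
  ring

theorem op_add {φ ψ : Vec n → ℂ} (h : Sm φ) (k : Sm ψ) {v : Vec n} (hv : v ∈ Cone n) (s : Bool)
    (i : Fin (n + 1)) : op s i (fun v => φ v + ψ v) v = op s i φ v + op s i ψ v := by
  rw [op, op, op, fderiv_fun_add (h.diff hv) (k.diff hv)]
  simp only [_root_.add_apply]
  ring

theorem op_sub {φ ψ : Vec n → ℂ} (h : Sm φ) (k : Sm ψ) {v : Vec n} (hv : v ∈ Cone n) (s : Bool)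
    (i : Fin (n + 1)) : op s i (fun v => φ v - ψ v) v = op s i φ v - op s i ψ v := by
  rw [op, op, op, fderiv_fun_sub (h.diff hv) (k.diff hv)]
  simp only [_root_.sub_apply]
  ring

theorem op_cmul {φ : Vec n → ℂ} (h : Sm φ) {v : Vec n} (hv : v ∈ Cone n) (s : Bool)
    (i : Fin (n + 1)) (c : ℂ) : op s i (fun v => c * φ v) v = c * op s i φ v := by
  rw [op, op, fderiv_const_mul (h.diff hv)]
  simp only [_root_.smul_apply, smul_eq_mul]
  ring

theorem op_mul {φ ψ : Vec n → ℂ} (h : Sm φ) (k : Sm ψ) {v : Vec n} (hv : v ∈ Cone n) (s : Bool)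
    (i : Fin (n + 1)) :
    op s i (fun v => φ v * ψ v) v = op s i φ v * ψ v + φ v * op s i ψ v := by
  rw [op, op, op, fderiv_fun_mul (h.diff hv) (k.diff hv)]
  simp only [_root_.add_apply, _root_.smul_apply, smul_eq_mul]
  ring

theorem op_sum {ι : Type} {u : Finset ι} {φ : ι → Vec n → ℂ} (h : ∀ j ∈ u, Sm (φ j)) {v : Vec n}
    (hv : v ∈ Cone n) (s : Bool) (i : Fin (n + 1)) :
    op s i (fun v => ∑ j ∈ u, φ j v) v = ∑ j ∈ u, op s i (φ j) v := by
  rw [op, fderiv_fun_sum fun j hj => (h j hj).diff hv]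
  simp only [_root_.sum_apply, op]
  rw [← Finset.mul_sum, Finset.sum_add_distrib, Finset.mul_sum]

theorem op_const (s : Bool) (i : Fin (n + 1)) (c : ℂ) (v : Vec n) :
    op s i (fun _ : Vec n => c) v = 0 := by
  rw [op]
  simp

theorem op_zero_of {φ : Vec n → ℂ} (h : ∀ v ∈ Cone n, φ v = 0) {v : Vec n} (hv : v ∈ Cone n)
    (s : Bool) (i : Fin (n + 1)) : op s i φ v = 0 := by
  rw [op_eqOn s i (ψ := fun _ => 0) h v hv, op_const]

/-- The two real directions. -/
theorem fderiv_one (φ : Vec n → ℂ) (v : Vec n) (i : Fin (n + 1)) :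
    fderiv ℝ φ v (Pi.single i 1) = op false i φ v + op true i φ v := by
  simp only [op, sg]
  simp
  ring

theorem fderiv_I (φ : Vec n → ℂ) (v : Vec n) (i : Fin (n + 1)) :
    fderiv ℝ φ v (Pi.single i Complex.I) = Complex.I * (op false i φ v - op true i φ v) := by
  simp only [op, sg, if_true, if_false, Bool.false_eq_true]
  linear_combination (fderiv ℝ φ v (Pi.single i Complex.I)) * Complex.I_sq

/-- `z = z.re + z.im I` as a vector. -/
theorem single_eq (i : Fin (n + 1)) (z : ℂ) : (Pi.single i z : Vec n) =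
    z.re • (Pi.single i 1 : Vec n) + z.im • (Pi.single i Complex.I : Vec n) := by
  rw [← Pi.single_smul, ← Pi.single_smul, ← Pi.single_add]
  congr 1
  apply Complex.ext <;> simp

/-- The derivative in terms of the operators. -/
theorem fderiv_eq_op (φ : Vec n → ℂ) (v ξ : Vec n) : fderiv ℝ φ v ξ =
    ∑ i, (ξ i * op false i φ v + star (ξ i) * op true i φ v) := by
  have h1 : ξ = ∑ i, (Pi.single i (ξ i) : Vec n) := (Finset.univ_sum_single ξ).symm
  conv_lhs => rw [h1]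
  rw [map_sum]
  refine Finset.sum_congr rfl fun i _ => ?_
  rw [single_eq, map_add, map_smul, map_smul, fderiv_one, fderiv_I]
  simp only [Complex.real_smul, RCLike.star_def]
  have e1 : ξ i = (ξ i).re + (ξ i).im * Complex.I := (Complex.re_add_im _).symm
  have e2 : (starRingEnd ℂ) (ξ i) = (ξ i).re - (ξ i).im * Complex.I := by
    apply Complex.ext <;> simp
  rw [e2]
  linear_combination (-(op false i φ v)) * e1

theorem fderiv_coord (k : Fin (n + 1)) (v ξ : Vec n) :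
    fderiv ℝ (fun w : Vec n => w k) v ξ = ξ k := by
  have h : HasFDerivAt (fun w : Vec n => w k)
      (ContinuousLinearMap.proj (R := ℝ) (φ := fun _ : Fin (n + 1) => ℂ) k) v :=
    (ContinuousLinearMap.proj (R := ℝ) (φ := fun _ : Fin (n + 1) => ℂ) k).hasFDerivAt
  rw [h.fderiv]
  rfl

theorem fderiv_star (k : Fin (n + 1)) (v ξ : Vec n) :
    fderiv ℝ (fun w : Vec n => star (w k)) v ξ = star (ξ k) := by
  have h : HasFDerivAt (fun w : Vec n => star (w k)) ((Complex.conjCLE : ℂ →L[ℝ] ℂ).comp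
      (ContinuousLinearMap.proj (R := ℝ) (φ := fun _ : Fin (n + 1) => ℂ) k)) v :=
    ((Complex.conjCLE : ℂ →L[ℝ] ℂ).comp
      (ContinuousLinearMap.proj (R := ℝ) (φ := fun _ : Fin (n + 1) => ℂ) k)).hasFDerivAt
  rw [h.fderiv]
  rfl

theorem Sm.coord (k : Fin (n + 1)) : Sm fun w : Vec n => w k :=
  (contDiff_apply ℝ ℂ k).contDiffOn

theorem Sm.star (k : Fin (n + 1)) : Sm fun w : Vec n => star (w k) :=
  (Complex.conjCLE.contDiff.comp (contDiff_apply ℝ ℂ k)).contDiffOn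

theorem op_false_coord (i k : Fin (n + 1)) (v : Vec n) :
    op false i (fun w : Vec n => w k) v = if k = i then 1 else 0 := by
  rw [op, fderiv_coord, fderiv_coord, Pi.single_apply, Pi.single_apply]
  simp only [sg, Bool.false_eq_true, if_false]
  split_ifs
  · linear_combination (-(1 / 2 : ℂ)) * Complex.I_sq
  · ring

theorem op_true_coord (i k : Fin (n + 1)) (v : Vec n) :
    op true i (fun w : Vec n => w k) v = 0 := by
  rw [op, fderiv_coord, fderiv_coord, Pi.single_apply, Pi.single_apply]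
  simp only [sg, if_true]
  split_ifs
  · linear_combination (1 / 2 : ℂ) * Complex.I_sq
  · ring

theorem op_false_star (i k : Fin (n + 1)) (v : Vec n) :
    op false i (fun w : Vec n => star (w k)) v = 0 := by
  rw [op, fderiv_star, fderiv_star, Pi.single_apply, Pi.single_apply]
  simp only [sg, Bool.false_eq_true, if_false]
  split_ifs
  · rw [star_one, Complex.star_def, Complex.conj_I]
    linear_combination (1 / 2 : ℂ) * Complex.I_sq
  · rw [star_zero]
    ring

theorem op_true_star (i k : Fin (n + 1)) (v : Vec n) :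
    op true i (fun w : Vec n => star (w k)) v = if k = i then 1 else 0 := by
  rw [op, fderiv_star, fderiv_star, Pi.single_apply, Pi.single_apply]
  simp only [sg, if_true]
  split_ifs
  · rw [star_one, Complex.star_def, Complex.conj_I]
    linear_combination (-(1 / 2 : ℂ)) * Complex.I_sq
  · rw [star_zero]
    ring

end Pool.Agent.Lib.MP_5d4057_al.WR.Pd
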