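import Pool.Agent.Lib.MP_5d4057_al.WR.Eig
import Pool.Agent.Lib.MP_5d4057_al.WR.FmB
import Pool.Agent.Lib.MP_5d4057_al.WR.Pd
import Pool.Agent.Lib.MP_5d4057_al.HM.Flow

/-! The matrix of the second derivatives `∂_a ∂bar_b` of `(-q) f`. (`Fm_bd` is in `FmB`.) -/

set_option autoImplicit false

namespace Pool.Agent.Lib.MP_5d4057_al.WR

open Matrix MeasureTheory Filter Topology Pool.Agent.Lib.MP_5d4057_al
  Pool.Agent.Lib.MP_5d4057_al.Hyb Pool.Agent.Lib.MP_5d4057_al.HM Pool.Agent.Lib.MP_5d4057_al.NU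
  Pool.Agent.Lib.MP_5d4057_al.IN.D

open scoped ComplexOrder MatrixOrder Matrix.Norms.L2Operator ENNReal

variable {n : ℕ}

/-- The function `(-q) f`. -/
noncomputable def hQ (f : Vec n → ℂ) (w : Vec n) : ℂ := ((-q w : ℝ) : ℂ) * f w

/-- Evaluation of a bilinear form. -/
noncomputable def fm_evL (ζ ξ : Vec n) : (Vec n →L[ℝ] Vec n →L[ℝ] ℂ) →L[ℝ] ℂ :=
  (ContinuousLinearMap.apply ℝ ℂ ξ).comp (ContinuousLinearMap.apply ℝ (Vec n →L[ℝ] ℂ) ζ)

/-- The antilinear-linear part of a bilinear form. -/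
noncomputable def fm_hmL (ζ ξ : Vec n) : (Vec n →L[ℝ] Vec n →L[ℝ] ℂ) →L[ℝ] ℂ :=
  (1 / 4 : ℂ) • (fm_evL ζ ξ + fm_evL (Complex.I • ζ) (Complex.I • ξ)) +
    (Complex.I / 4) • fm_evL (Complex.I • ζ) ξ + (-(Complex.I / 4)) • fm_evL ζ (Complex.I • ξ)

/-- The matrix of the antilinear-linear part of a bilinear form. -/
noncomputable def fm_LamL (n : ℕ) : (Vec n →L[ℝ] Vec n →L[ℝ] ℂ) →L[ℝ] Mat (n + 1) :=
  ∑ b : Fin (n + 1), ∑ a : Fin (n + 1),
    (J n b b • fm_hmL (Pi.single b 1) (Pi.single a 1)).smulRight (Matrix.single b a (1 : ℂ))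

theorem Hm_eq (h : Vec n → ℂ) (v ζ ξ : Vec n) :
    Hm h v ζ ξ = fm_hmL ζ ξ (fderiv ℝ (fderiv ℝ h) v) := by
  simp only [Hm, fm_hmL, fm_evL, _root_.add_apply, _root_.smul_apply, ContinuousLinearMap.comp_apply,
    ContinuousLinearMap.apply_apply, smul_eq_mul]
  ring

theorem Fm_eq_LamL (f : Vec n → ℂ) (v : Vec n) :
    Fm f v = fm_LamL n (fderiv ℝ (fderiv ℝ (hQ f)) v) := by
  rw [fm_LamL]
  simp only [_root_.sum_apply, ContinuousLinearMap.smulRight_apply, _root_.smul_apply]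
  ext b a
  simp only [Matrix.sum_apply, Matrix.smul_apply, Matrix.single_apply, smul_eq_mul]
  rw [Finset.sum_eq_single b, Finset.sum_eq_single a]
  · simp only [if_true, and_self, mul_one]
    exact congrArg (J n b b * ·) (Hm_eq (hQ f) v (Pi.single b 1) (Pi.single a 1))
  · intro c _ hc
    rw [if_neg fun h => hc h.2, mul_zero]
  · intro h
    exact absurd (Finset.mem_univ _) h
  · intro c _ hc
    refine Finset.sum_eq_zero fun a' _ => ?_
    rw [if_neg fun h => hc h.1, mul_zero]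
  · intro h
    exact absurd (Finset.mem_univ _) h

theorem fm_contDiff_q : ContDiff ℝ (⊤ : ℕ∞) fun v : Vec n => q v := by
  have e : (fun v : Vec n => q v) =
      fun v => ∑ i : Fin n, ‖v i.castSucc‖ ^ 2 - ‖v (Fin.last n)‖ ^ 2 := funext q_eq
  rw [e]
  refine ContDiff.sub (ContDiff.sum fun i _ => ?_) ?_
  · exact (contDiff_norm_sq ℝ).comp (contDiff_apply ℝ ℂ i.castSucc)
  · exact (contDiff_norm_sq ℝ).comp (contDiff_apply ℝ ℂ (Fin.last n))

theorem fm_contDiff_Q : ContDiff ℝ (⊤ : ℕ∞) fun v : Vec n => ((-q v : ℝ) : ℂ) :=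
  Complex.ofRealCLM.contDiff.comp fm_contDiff_q.neg

theorem sm_hQ {f : Vec n → ℂ} (hf : ContDiffOn ℝ (⊤ : ℕ∞) f (Cone n)) : Pd.Sm (hQ f) :=
  fm_contDiff_Q.contDiffOn.mul hf

theorem fm_contDiff_LamL (n : ℕ) : ContDiff ℝ (⊤ : ℕ∞) fun T => fm_LamL n T :=
  ContinuousLinearMap.contDiff (𝕜 := ℝ) (E := (Vec n →L[ℝ] Vec n →L[ℝ] ℂ)) (F := Mat (n + 1))
    (fm_LamL n)

theorem contDiffOn_Fm {f : Vec n → ℂ} (hf : ContDiffOn ℝ (⊤ : ℕ∞) f (Cone n)) :
    ContDiffOn ℝ (⊤ : ℕ∞) (Fm f) (Cone n) := by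
  have h1 : ContDiffOn ℝ (⊤ : ℕ∞) (fderiv ℝ (fderiv ℝ (hQ f))) (Cone n) :=
    ContDiffOn.fderiv_of_isOpen (sm_hQ hf).fd (isOpen_cone n) (by simp)
  exact ((fm_contDiff_LamL n).comp_contDiffOn h1).congr fun v _ => Fm_eq_LamL f v

theorem fm_two_eqOn {φ ψ : Vec n → ℂ} (h : ∀ v ∈ Cone n, φ v = ψ v) {v : Vec n}
    (hv : v ∈ Cone n) : fderiv ℝ (fderiv ℝ φ) v = fderiv ℝ (fderiv ℝ ψ) v := by
  refine Filter.EventuallyEq.fderiv_eq ?_
  filter_upwards [(isOpen_cone n).mem_nhds hv] with w hw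
  exact Pd.fderiv_eqOn h hw

/-- `Fm` depends only on the values near the point. -/
theorem Fm_congr {f₁ f₂ : Vec n → ℂ} (h : ∀ v ∈ Cone n, f₁ v = f₂ v) {v : Vec n}
    (hv : v ∈ Cone n) : Fm f₁ v = Fm f₂ v := by
  rw [Fm_eq_LamL, Fm_eq_LamL, fm_two_eqOn (φ := hQ f₁) (ψ := hQ f₂) (fun w hw => ?_) hv]
  rw [hQ, hQ, h w hw]

theorem fm_two_add {φ ψ : Vec n → ℂ} (h : Pd.Sm φ) (k : Pd.Sm ψ) {v : Vec n}
    (hv : v ∈ Cone n) : fderiv ℝ (fderiv ℝ fun w => φ w + ψ w) v =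
      fderiv ℝ (fderiv ℝ φ) v + fderiv ℝ (fderiv ℝ ψ) v := by
  have e : fderiv ℝ (fun w => φ w + ψ w) =ᶠ[𝓝 v] fun w => fderiv ℝ φ w + fderiv ℝ ψ w := by
    filter_upwards [(isOpen_cone n).mem_nhds hv] with w hw
    exact fderiv_fun_add (h.diff hw) (k.diff hw)
  rw [e.fderiv_eq]
  exact fderiv_fun_add ((h.fd.contDiffAt ((isOpen_cone n).mem_nhds hv)).differentiableAt (by simp))
    ((k.fd.contDiffAt ((isOpen_cone n).mem_nhds hv)).differentiableAt (by simp))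

theorem fm_two_sub {φ ψ : Vec n → ℂ} (h : Pd.Sm φ) (k : Pd.Sm ψ) {v : Vec n}
    (hv : v ∈ Cone n) : fderiv ℝ (fderiv ℝ fun w => φ w - ψ w) v =
      fderiv ℝ (fderiv ℝ φ) v - fderiv ℝ (fderiv ℝ ψ) v := by
  have e : fderiv ℝ (fun w => φ w - ψ w) =ᶠ[𝓝 v] fun w => fderiv ℝ φ w - fderiv ℝ ψ w := by
    filter_upwards [(isOpen_cone n).mem_nhds hv] with w hw
    exact fderiv_fun_sub (h.diff hw) (k.diff hw)
  rw [e.fderiv_eq]
  exact fderiv_fun_sub ((h.fd.contDiffAt ((isOpen_cone n).mem_nhds hv)).differentiableAt (by simp))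
    ((k.fd.contDiffAt ((isOpen_cone n).mem_nhds hv)).differentiableAt (by simp))

theorem Fm_sub {f₁ f₂ : Vec n → ℂ} (h₁ : ContDiffOn ℝ (⊤ : ℕ∞) f₁ (Cone n))
    (h₂ : ContDiffOn ℝ (⊤ : ℕ∞) f₂ (Cone n)) {v : Vec n} (hv : v ∈ Cone n) :
    Fm (fun w => f₁ w - f₂ w) v = Fm f₁ v - Fm f₂ v := by
  have e : hQ (fun w => f₁ w - f₂ w) = fun w => hQ f₁ w - hQ f₂ w := by
    funext w
    simp only [hQ]
    ring
  rw [Fm_eq_LamL, Fm_eq_LamL, Fm_eq_LamL, e, fm_two_sub (sm_hQ h₁) (sm_hQ h₂) hv]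
  exact map_sub (fm_LamL n) _ _

theorem Fm_add {f₁ f₂ : Vec n → ℂ} (h₁ : ContDiffOn ℝ (⊤ : ℕ∞) f₁ (Cone n))
    (h₂ : ContDiffOn ℝ (⊤ : ℕ∞) f₂ (Cone n)) {v : Vec n} (hv : v ∈ Cone n) :
    Fm (fun w => f₁ w + f₂ w) v = Fm f₁ v + Fm f₂ v := by
  have e : hQ (fun w => f₁ w + f₂ w) = fun w => hQ f₁ w + hQ f₂ w := by
    funext w
    simp only [hQ]
    ring
  rw [Fm_eq_LamL, Fm_eq_LamL, Fm_eq_LamL, e, fm_two_add (sm_hQ h₁) (sm_hQ h₂) hv]
  exact map_add (fm_LamL n) _ _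

/-- The entries of `Fm` in terms of the operators. -/
theorem Fm_apply {f : Vec n → ℂ} (hf : ContDiffOn ℝ (⊤ : ℕ∞) f (Cone n)) {v : Vec n}
    (hv : v ∈ Cone n) (b a : Fin (n + 1)) :
    Fm f v b a = J n b b * Pd.op true b (Pd.op false a (hQ f)) v := by
  have e : Fm f v b a = J n b b * Hm (hQ f) v (Pi.single b 1) (Pi.single a 1) := rfl
  have e1 : (Complex.I • Pi.single b (1 : ℂ) : Vec n) = Pi.single b Complex.I := by
    rw [← Pi.single_smul, smul_eq_mul, mul_one]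
  have e2 : (Complex.I • Pi.single a (1 : ℂ) : Vec n) = Pi.single a Complex.I := by
    rw [← Pi.single_smul, smul_eq_mul, mul_one]
  rw [e, Pd.op_op (sm_hQ hf) hv, Hm, e1, e2]
  simp only [Pd.sg, if_true, Bool.false_eq_true, if_false]
  linear_combination ((1 / 4 : ℂ) * J n b b * fderiv ℝ (fderiv ℝ (hQ f)) v (Pi.single b Complex.I)
    (Pi.single a Complex.I)) * Complex.I_sq

/-- `Hm` is antilinear in the first and linear in the second variable. -/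
theorem Hm_sum {h : Vec n → ℂ} (hs : Pd.Sm h) {v : Vec n} (hv : v ∈ Cone n) (ζ ξ : Vec n) :
    Hm h v ζ ξ = ∑ j, ∑ k, star (ζ j) * ξ k * Pd.op true j (Pd.op false k h) v := by
  have key : ∀ ζ ξ : Vec n, fderiv ℝ (fderiv ℝ h) v ζ ξ =
      ∑ j, ∑ k, (ζ j * ξ k * Pd.op false j (Pd.op false k h) v +
        ζ j * star (ξ k) * Pd.op false j (Pd.op true k h) v +
        star (ζ j) * ξ k * Pd.op true j (Pd.op false k h) v +
        star (ζ j) * star (ξ k) * Pd.op true j (Pd.op true k h) v) := by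
    intro ζ ξ
    rw [← Pd.fderiv_fderiv_apply hs hv, Pd.fderiv_eq_op]
    refine Finset.sum_congr rfl fun j _ => ?_
    have e : ∀ s, Pd.op s j (fun w => fderiv ℝ h w ξ) v =
        ∑ k, (ξ k * Pd.op s j (Pd.op false k h) v + star (ξ k) * Pd.op s j (Pd.op true k h) v) := by
      intro s
      rw [Pd.op_eqOn s j (ψ := fun w => ∑ k, (ξ k * Pd.op false k h w +
        star (ξ k) * Pd.op true k h w)) (fun w _ => Pd.fderiv_eq_op h w ξ) v hv,
        Pd.op_sum (fun k _ => ((hs.op _ _).cmul _).add ((hs.op _ _).cmul _)) hv]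
      refine Finset.sum_congr rfl fun k _ => ?_
      rw [Pd.op_add ((hs.op _ _).cmul _) ((hs.op _ _).cmul _) hv, Pd.op_cmul (hs.op _ _) hv,
        Pd.op_cmul (hs.op _ _) hv]
    rw [e, e, Finset.mul_sum, Finset.mul_sum, ← Finset.sum_add_distrib]
    refine Finset.sum_congr rfl fun k _ => ?_
    ring
  rw [Hm, key, key, key, key, ← Finset.sum_sub_distrib, ← Finset.sum_add_distrib, Finset.mul_sum,
    ← Finset.sum_add_distrib, Finset.mul_sum]
  refine Finset.sum_congr rfl fun j _ => ?_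
  rw [← Finset.sum_sub_distrib, ← Finset.sum_add_distrib, Finset.mul_sum,
    ← Finset.sum_add_distrib, Finset.mul_sum]
  refine Finset.sum_congr rfl fun k _ => ?_
  simp only [Pi.smul_apply, smul_eq_mul, star_mul, RCLike.star_def, Complex.conj_I]
  rw [← Complex.star_def]
  generalize star (ζ j) = zj
  generalize star (ξ k) = zk
  linear_combination (((1 / 4 : ℂ) * ζ j * ξ k * Pd.op false j (Pd.op false k h) v) +
    (1 / 4 : ℂ) * ζ j * zk * Pd.op false j (Pd.op true k h) v -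
    (3 / 4 : ℂ) * zj * ξ k * Pd.op true j (Pd.op false k h) v +
    (1 / 4 : ℂ) * zj * zk * Pd.op true j (Pd.op true k h) v) * Complex.I_sq

theorem fm_J_sq (j : Fin (n + 1)) : J n j j * J n j j = 1 := by
  refine Fin.lastCases ?_ (fun i => ?_) j
  · rw [HG.J_last]
    norm_num
  · rw [HG.J_castSucc]
    norm_num

theorem fm_contDiffAt_two {h : Vec n → ℂ} (hs : Pd.Sm h) {v : Vec n} (hv : v ∈ Cone n) :
    ContDiffAt ℝ 2 h v :=
  (hs.contDiffAt ((isOpen_cone n).mem_nhds hv)).of_le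
    (WithTop.coe_le_coe.2 (le_top : (2 : ℕ∞) ≤ ⊤))

theorem Hm_comp {h : Vec n → ℂ} (L : Vec n →L[ℝ] Vec n)
    (hL : ∀ ξ, L (Complex.I • ξ) = Complex.I • L ξ) {v : Vec n} (hd : ContDiffAt ℝ 2 h (L v))
    (ζ ξ : Vec n) : Hm (fun u => h (L u)) v ζ ξ = Hm h (L v) (L ζ) (L ξ) := by
  rw [Hm, Hm, fderiv_two_comp L hd, fderiv_two_comp L hd, fderiv_two_comp L hd,
    fderiv_two_comp L hd, hL, hL]

theorem Hm_congr {φ ψ : Vec n → ℂ} (h : ∀ v ∈ Cone n, φ v = ψ v) {v : Vec n} (hv : v ∈ Cone n)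
    (ζ ξ : Vec n) : Hm φ v ζ ξ = Hm ψ v ζ ξ := by
  rw [Hm, Hm, fm_two_eqOn h hv]

theorem Hm_cmul {h : Vec n → ℂ} (hs : Pd.Sm h) {v : Vec n} (hv : v ∈ Cone n) (c : ℂ)
    (ζ ξ : Vec n) : Hm (fun w => c * h w) v ζ ξ = c * Hm h v ζ ξ := by
  rw [Hm_sum (hs.cmul c) hv, Hm_sum hs hv, Finset.mul_sum]
  refine Finset.sum_congr rfl fun j _ => ?_
  rw [Finset.mul_sum]
  refine Finset.sum_congr rfl fun k _ => ?_
  rw [Pd.op_eqOn true j (ψ := fun w => c * Pd.op false k h w)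
    (fun w hw => Pd.op_cmul hs hw false k c) v hv, Pd.op_cmul (hs.op _ _) hv]
  ring

theorem Hm_smul {h : Vec n → ℂ} (hs : Pd.Sm h) {v : Vec n} (hv : v ∈ Cone n) (c : ℂ)
    (ζ ξ : Vec n) : Hm h v (c • ζ) (c • ξ) = star c * c * Hm h v ζ ξ := by
  rw [Hm_sum hs hv, Hm_sum hs hv, Finset.mul_sum]
  refine Finset.sum_congr rfl fun j _ => ?_
  rw [Finset.mul_sum]
  refine Finset.sum_congr rfl fun k _ => ?_
  rw [Pi.smul_apply, Pi.smul_apply, smul_eq_mul, smul_eq_mul, star_mul]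
  ring

/-- `⟨ζ, Fm (f ∘ g) (v) ξ⟩ = ⟨g ζ, Fm f (g v) g ξ⟩`: chain rule (`fderiv_two_comp`, `actL`), the function
`q` is invariant and `Hm` is antilinear in `ζ`, linear in `ξ`. -/
theorem Fm_act {f : Vec n → ℂ} (hf : ContDiffOn ℝ (⊤ : ℕ∞) f (Cone n)) (g : SUGroup n) {v : Vec n}
    (hv : v ∈ Cone n) : Fm (fun w => f (act g w)) v = cj g⁻¹ (Fm f (act g v)) := by
  have hgv := act_mem g hv
  have hd : ContDiffAt ℝ 2 (hQ f) (actL g v) := fm_contDiffAt_two (sm_hQ hf) hgv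
  have e0 : hQ (fun w => f (act g w)) = fun w => hQ f (actL g w) := by
    funext w
    rw [hQ, hQ, actL_apply, q_act]
  have e3 : ∀ b j, actL g (Pi.single b 1) j = g.toMatrix j b := by
    intro b j
    rw [actL_apply, act, mulVec_single_one]
    rfl
  ext b a
  have e1 : Fm (fun w => f (act g w)) v b a =
      J n b b * Hm (hQ (fun w => f (act g w))) v (Pi.single b 1) (Pi.single a 1) := rfl
  have e2 : ∀ k, ((g⁻¹).toMatrix * Fm f (act g v)) b k =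
      ∑ j, J n b b * star (g.toMatrix j b) *
        Pd.op true j (Pd.op false k (hQ f)) (act g v) := by
    intro k
    rw [HG.inv_toMatrix, Matrix.mul_apply]
    refine Finset.sum_congr rfl fun j _ => ?_
    rw [HG.mul_J_apply, HG.J_mul_apply, conjTranspose_apply, Fm_apply hf hgv]
    linear_combination (J n b b * star (g.toMatrix j b) *
      Pd.op true j (Pd.op false k (hQ f)) (act g v)) * fm_J_sq j
  rw [e1, e0, Hm_comp (actL g) (fun ξ => act_smul g _ ξ) hd, actL_apply g v,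
    Hm_sum (sm_hQ hf) hgv, cj, inv_inv, Matrix.mul_apply]
  simp only [e2, e3, Finset.sum_mul, Finset.mul_sum]
  rw [Finset.sum_comm]
  refine Finset.sum_congr rfl fun j _ => Finset.sum_congr rfl fun k _ => ?_
  ring

/-- `(-q) fB B = herm v (B v)`. -/
theorem hQ_fB (B : Mat (n + 1)) {v : Vec n} (hv : v ∈ Cone n) :
    hQ (fB B) v = ∑ j, ∑ k, (J n j j * B j k) * (star (v j) * v k) := by
  have hq : ((-q v : ℝ) : ℂ) ≠ 0 := by
    have h1 : q v < 0 := hv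
    exact_mod_cast (neg_pos.2 h1).ne'
  rw [hQ, fB, mul_div_cancel₀ _ hq, herm, dotProduct]
  refine Finset.sum_congr rfl fun j _ => ?_
  rw [J, mulVec_diagonal, diagonal_apply_eq, Pi.star_apply, mulVec, dotProduct, Finset.mul_sum,
    Finset.mul_sum]
  refine Finset.sum_congr rfl fun k _ => ?_
  ring

theorem Fm_fB (B : Mat (n + 1)) {v : Vec n} (hv : v ∈ Cone n) : Fm (fB B) v = B := by
  ext b a
  rw [Fm_apply (contDiffOn_fB B) hv]
  have hs : ∀ j k, Pd.Sm fun w : Vec n => star (w j) * w k := fun j k =>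
    (Pd.Sm.star j).mul (Pd.Sm.coord k)
  have e1 : ∀ w ∈ Cone n, Pd.op false a (hQ (fB B)) w = ∑ j, J n j j * B j a * star (w j) := by
    intro w hw
    rw [Pd.op_eqOn false a (fun u hu => hQ_fB B hu) w hw,
      Pd.op_sum (fun j _ => Pd.Sm.sum fun k _ => (hs j k).cmul _) hw]
    refine Finset.sum_congr rfl fun j _ => ?_
    rw [Pd.op_sum (fun k _ => (hs j k).cmul _) hw, Finset.sum_eq_single a]
    · rw [Pd.op_cmul (hs j a) hw, Pd.op_mul (Pd.Sm.star j) (Pd.Sm.coord a) hw, Pd.op_false_star,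
        Pd.op_false_coord, if_pos rfl]
      ring
    · intro k _ hk
      rw [Pd.op_cmul (hs j k) hw, Pd.op_mul (Pd.Sm.star j) (Pd.Sm.coord k) hw, Pd.op_false_star,
        Pd.op_false_coord, if_neg hk]
      ring
    · intro h
      exact absurd (Finset.mem_univ _) h
  rw [Pd.op_eqOn true b e1 v hv, Pd.op_sum (fun j _ => (Pd.Sm.star j).cmul _) hv,
    Finset.sum_eq_single b]
  · rw [Pd.op_cmul (Pd.Sm.star b) hv, Pd.op_true_star, if_pos rfl]
    linear_combination (B b a) * fm_J_sq b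
  · intro j _ hj
    rw [Pd.op_cmul (Pd.Sm.star j) hv, Pd.op_true_star, if_neg hj, mul_zero]
  · intro h
    exact absurd (Finset.mem_univ _) h

/-- `(-q) f` is homogeneous: `h (c v) = |c|² h v`. -/
theorem Fm_homog {f : Vec n → ℂ} (hf : ContDiffOn ℝ (⊤ : ℕ∞) f (Cone n)) (hh : Homog f) :
    Homog (Fm f) := by
  intro c hc v hv
  have hcv : c • v ∈ Cone n := smul_mem_cone hc hv
  have hN : star c * c = ((‖c‖ ^ 2 : ℝ) : ℂ) := HG.star_mul_self_eq c
  have hN0 : star c * c ≠ 0 := mul_ne_zero (star_ne_zero.2 hc) hc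
  have hd : ContDiffAt ℝ 2 (hQ f) (smulL n c v) := fm_contDiffAt_two (sm_hQ hf) hcv
  have hL : ∀ ξ : Vec n, smulL n c (Complex.I • ξ) = Complex.I • smulL n c ξ := fun ξ => by
    rw [smulL_apply, smulL_apply, smul_comm]
  ext b a
  have e : ∀ w, Fm f w b a = J n b b * Hm (hQ f) w (Pi.single b 1) (Pi.single a 1) :=
    fun _ => rfl
  rw [e, e]
  congr 1
  have h1 := Hm_comp (smulL n c) hL hd (Pi.single b 1) (Pi.single a 1)
  rw [smulL_apply, smulL_apply, smulL_apply, Hm_smul (sm_hQ hf) hcv] at h1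
  have h2 : Hm (fun u => hQ f (smulL n c u)) v (Pi.single b 1) (Pi.single a 1) =
      star c * c * Hm (hQ f) v (Pi.single b 1) (Pi.single a 1) := by
    rw [Hm_congr (ψ := fun u => (star c * c) * hQ f u) (fun u hu => ?_) hv,
      Hm_cmul (sm_hQ hf) hv]
    rw [hQ, hQ, smulL_apply, q_smul, hh c hc u hu, hN]
    push_cast
    ring
  exact mul_left_cancel₀ hN0 (h1.symm.trans h2)

end Pool.Agent.Lib.MP_5d4057_al.WR
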