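import Pool.Agent.Lib.MP_5d4057_al.RG.CpT1

/-!
# WR GK: growth of a submultiplicative function from the growth on the cusp groups
-/

set_option autoImplicit false

namespace Pool.Agent.Lib.MP_5d4057_al.WR

open Matrix Filter Topology Metric Pool.Agent.Lib.MP_5d4057_al Pool.Agent.Lib.MP_5d4057_al.Hyb
  Pool.Agent.Lib.MP_5d4057_al.HM Pool.Agent.Lib.MP_5d4057_al.HM.Kak Pool.Agent.Lib.MP_5d4057_al.NU
  Pool.Agent.Lib.MP_5d4057_al.RG

open scoped ComplexOrder MatrixOrder Matrix.Norms.L2Operator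

variable {m n : ℕ} {Γ : Subgroup (SUGroup m)}

private theorem gn_fin (G : SUGroup m → ℝ) (hd : DiscreteTopology Γ) (R : ℝ) :
    ∃ C : ℝ, 1 ≤ C ∧ ∀ γ ∈ Γ, ch γ ≤ R → G γ ≤ C := by
  obtain ⟨C, hC⟩ := ((finite_ch hd R).image G).bddAbove
  exact ⟨max C 1, le_max_right _ _, fun γ hγ h => (hC ⟨γ, ⟨hγ, h⟩, rfl⟩).trans (le_max_left _ _)⟩

private theorem gn_unif {α : Type} {X : Set α} (hX : X.Finite) {P : α → ℝ → Prop}
    (hm : ∀ a C C', C ≤ C' → P a C → P a C') (h : ∀ a ∈ X, ∃ C, P a C) :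
    ∃ C, ∀ a ∈ X, P a C := by
  choose! f hf using h
  obtain ⟨C, hC⟩ := (hX.image f).bddAbove
  exact ⟨C, fun a ha => hm a _ _ (hC ⟨a, ha, rfl⟩) (hf a ha)⟩

/-- growth on the elements mapping the line of `ξ'` to the line of a transvection -/
private theorem gn_line (hm : 2 ≤ m) {χ : SUGroup m → ℝ} (hL : Lat Γ χ) (hT : TF Γ) (hTor : Tor Γ)
    (G : SUGroup m → ℝ) (hG0 : ∀ x, 0 ≤ G x)
    (hGm : ∀ x ∈ Γ, ∀ y ∈ Γ, G (x * y) ≤ G x * G y) (a : ℕ)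
    (hS : ∀ (ξ : Fin m → ℂ) (z : SUGroup m) (κ : ℝ), Cusp Γ ξ z κ → ∃ C : ℝ, 0 < C ∧
      ∀ γ ∈ Γ, γ ∈ St ξ → G γ ≤ C * ch γ ^ a)
    {γ : SUGroup m} {ξ : Fin m → ℂ} {κ : ℝ} (hγ : γ ∈ Γ) (h : IsTv γ ξ κ)
    {ξ' : Fin m → ℂ} (hξ' : nq ξ' = 1) :
    ∃ C : ℝ, ∀ η ∈ Γ, mv η ξ' = ξ → G η ≤ C * ch η ^ a := by
  have hξ : nq ξ = 1 := h.1
  obtain ⟨z, κ', hc⟩ := cusp_of_tv hm hL hT hTor hγ h
  obtain ⟨C, hC0, hC⟩ := hS ξ z κ' hc
  by_cases hδ : ∃ δ ∈ Γ, mv δ ξ' = ξ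
  · obtain ⟨δ, hδΓ, hδ⟩ := hδ
    refine ⟨C * (2 * ch δ) ^ a * G δ, fun η hη hm => ?_⟩
    have h1 : mv δ⁻¹ ξ = ξ' := by rw [← hδ, mv_inv_mv hξ']
    have h2 : η * δ⁻¹ ∈ St ξ := by
      rw [mem_St hξ, mv_mul hξ, h1, hm]
    have h0 : η * δ⁻¹ ∈ Γ := Γ.mul_mem hη (Γ.inv_mem hδΓ)
    have h3 := hC (η * δ⁻¹) h0 h2
    have h4 := ch_mul_le' η δ⁻¹
    rw [ch_inv] at h4
    have h5 := hGm _ h0 _ hδΓ
    rw [inv_mul_cancel_right] at h5
    have h6 := one_le_ch (η * δ⁻¹)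
    have h7 := hG0 δ
    have h8 : (2 * ch η * ch δ) ^ a = (2 * ch δ) ^ a * ch η ^ a := by
      rw [← mul_pow]
      ring
    calc G η ≤ G (η * δ⁻¹) * G δ := h5
      _ ≤ (C * ch (η * δ⁻¹) ^ a) * G δ := by gcongr
      _ ≤ (C * (2 * ch η * ch δ) ^ a) * G δ := by gcongr
      _ = _ := by rw [h8]; ring
  · exact ⟨0, fun η hη hm => absurd ⟨η, hη, hm⟩ hδ⟩

/-- finitely many lines of transvections with small displacement on a ball -/
private theorem gn_lines (hd : DiscreteTopology Γ) (hT : TF Γ) (R : ℝ) :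
    {ξ : Fin m → ℂ | ∃ γ ∈ Γ, ∃ κ : ℝ, IsTv γ ξ κ ∧ ∃ f : SUGroup m, ch f ≤ R ∧
      ds f γ ≤ 1 / 32}.Finite := by
  have h1 := finite_ds hd R (1 / 32)
  refine (h1.biUnion (t := fun γ => {ξ : Fin m → ℂ | γ ∈ Γ ∧ ∃ κ : ℝ, IsTv γ ξ κ}) ?_).subset ?_
  · intro γ _
    refine Set.Subsingleton.finite ?_
    rintro ξ ⟨hγ, κ, h⟩ ξ' ⟨_, κ', h'⟩
    exact ((h.par hd hγ).unique hT hγ h.ne_one h.mem_St h'.1 h'.mem_St).symm
  · rintro ξ ⟨γ, hγ, κ, h, f, hf, hds⟩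
    exact Set.mem_biUnion (⟨hγ, f, hf, hds⟩ : γ ∈ {γ : SUGroup m | γ ∈ Γ ∧
      ∃ g : SUGroup m, ch g ≤ R ∧ ds g γ ≤ 1 / 32}) ⟨hγ, κ, h⟩

/-- **growth.** A submultiplicative function on a lattice which has polynomial growth on the cusp
groups has polynomial growth. -/
theorem grow_gen (hm : 2 ≤ m) {χ : SUGroup m → ℝ} (hL : Lat Γ χ) (hT : TF Γ) (hTor : Tor Γ)
    (G : SUGroup m → ℝ) (hG0 : ∀ x, 0 ≤ G x)
    (hGm : ∀ x ∈ Γ, ∀ y ∈ Γ, G (x * y) ≤ G x * G y) (a : ℕ)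
    (hS : ∀ (ξ : Fin m → ℂ) (z : SUGroup m) (κ : ℝ), Cusp Γ ξ z κ → ∃ C : ℝ, 0 < C ∧
      ∀ γ ∈ Γ, γ ∈ St ξ → G γ ≤ C * ch γ ^ a) :
    ∃ (N : ℕ) (C : ℝ), 0 < C ∧ ∀ γ ∈ Γ, G γ ≤ C * ch γ ^ N := by
  have hd := hL.disc
  have hHt := ht_hty hm hL hT hTor
  set Y : SUGroup m → ℝ := fun g => hty Γ (act g (base m)) with hY
  set R₁ : ℝ := max 64 (Y 1) with hR₁
  have hR64 : 64 ≤ R₁ := le_max_left _ _
  obtain ⟨R', hcpt⟩ := hty_cpt hm hL hT hTor R₁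
  set R : ℝ := max R' 1 with hR
  have hR1 : 1 ≤ R := le_max_right _ _
  have hcpt' : ∀ g : SUGroup m, Y g ≤ R₁ → ∃ γ ∈ Γ, ch (γ * g) ≤ R := fun g hg => by
    obtain ⟨γ, hγ, h⟩ := hcpt g hg
    exact ⟨γ, hγ, h.trans (le_max_left _ _)⟩
  -- the constants
  obtain ⟨C₁, hC₁1, hC₁⟩ := gn_fin G hd (4 * R ^ 2 * Real.exp 1)
  set X : Set (Fin m → ℂ) := {ξ : Fin m → ℂ | ∃ γ ∈ Γ, ∃ κ : ℝ, IsTv γ ξ κ ∧
    ∃ f : SUGroup m, ch f ≤ R ∧ ds f γ ≤ 1 / 32} with hX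
  have hXf : X.Finite := gn_lines hd hT R
  obtain ⟨C₂, hC₂1, hC₂⟩ : ∃ C₂ : ℝ, 1 ≤ C₂ ∧ ∀ ξ ∈ X, ∀ ξ' ∈ X, ∀ η ∈ Γ, mv η ξ' = ξ →
      G η ≤ C₂ * ch η ^ a := by
    have h1 : ∃ C : ℝ, ∀ p ∈ X ×ˢ X, ∀ η ∈ Γ, mv η p.2 = p.1 →
        G η ≤ C * ch η ^ a := by
      refine gn_unif (hXf.prod hXf) (P := fun p C => ∀ η ∈ Γ, mv η p.2 = p.1 →
        G η ≤ C * ch η ^ a) ?_ ?_
      · intro p C C' hCC h η hη hm
        have h0 := one_le_ch η
        exact (h η hη hm).trans (mul_le_mul_of_nonneg_right hCC (by positivity))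
      · rintro ⟨ξ, ξ'⟩ ⟨⟨γ, hγ, κ, h, -⟩, ⟨γ', hγ', κ', h', -⟩⟩
        exact gn_line hm hL hT hTor G hG0 hGm a hS hγ h h'.1
    obtain ⟨C, hC⟩ := h1
    refine ⟨max C 1, le_max_right _ _, fun ξ hξ ξ' hξ' η hη hm => ?_⟩
    have h0 := one_le_ch η
    exact (hC (ξ, ξ') ⟨hξ, hξ'⟩ η hη hm).trans
      (mul_le_mul_of_nonneg_right (le_max_left _ _) (by positivity))
  set C₃ : ℝ := C₁ * C₂ * (4 * R ^ 2) ^ a with hC₃
  have hC₁3 : C₁ ≤ C₃ := by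
    have h1 : 1 ≤ C₂ * (4 * R ^ 2) ^ a := by
      have h2 : 1 ≤ 4 * R ^ 2 := by nlinarith
      have h3 : 1 ≤ (4 * R ^ 2) ^ a := one_le_pow₀ h2
      nlinarith
    rw [hC₃, mul_assoc]
    exact le_mul_of_one_le_right (by linarith) h1
  obtain ⟨A, hA⟩ := exists_nat_ge (C₃ + a)
  have hC₃0 : 0 ≤ C₃ := by linarith
  have hexp : ∀ u : ℝ, 1 ≤ u → C₃ * Real.exp (a * u) ≤ Real.exp (A * u) := by
    intro u hu
    have h1 : (A : ℝ) * u = (A - a) * u + a * u := by ring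
    rw [h1, Real.exp_add]
    refine mul_le_mul_of_nonneg_right ?_ (Real.exp_pos _).le
    have h2 := Real.add_one_le_exp (((A : ℝ) - a) * u)
    have h3 : (A : ℝ) - a ≤ ((A : ℝ) - a) * u := le_mul_of_one_le_right (by linarith) hu
    linarith
  -- the composition bound
  have hcomp : ∀ (ζ : Fin m → ℂ) (x y : SUGroup m) (s s' : ℝ), ch (x⁻¹ * fl ζ s) ≤ R →
      ch (y⁻¹ * fl ζ s') ≤ R → s ≤ s' → ch (x⁻¹ * y) ≤ 4 * R ^ 2 * Real.exp (s' - s) := by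
    intro ζ x y s s' h1 h2 h3
    have e : x⁻¹ * y = (x⁻¹ * fl ζ s) * fl ζ (s' - s) * (y⁻¹ * fl ζ s')⁻¹ := by
      have e1 : fl ζ s' = fl ζ s * fl ζ (s' - s) := by
        rw [← fl_add]
        congr 1
        ring
      rw [e1]
      group
    have h4 := ch_le_wt (x⁻¹ * y)
    have h5 := wt_mul_le ((x⁻¹ * fl ζ s) * fl ζ (s' - s)) (y⁻¹ * fl ζ s')⁻¹
    have h6 := wt_mul_le (x⁻¹ * fl ζ s) (fl ζ (s' - s))
    rw [← e, wt_inv] at h5
    have h7 := wt_fl_le ζ (s' - s)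
    rw [abs_of_nonneg (by linarith)] at h7
    have h8 := wt_le (x⁻¹ * fl ζ s)
    have h9 := wt_le (y⁻¹ * fl ζ s')
    have p1 := one_le_wt (x⁻¹ * fl ζ s)
    have p2 := one_le_wt (y⁻¹ * fl ζ s')
    have p3 := one_le_wt (fl ζ (s' - s))
    calc ch (x⁻¹ * y) ≤ wt (x⁻¹ * fl ζ s * fl ζ (s' - s)) * wt (y⁻¹ * fl ζ s') := h4.trans h5
      _ ≤ (wt (x⁻¹ * fl ζ s) * wt (fl ζ (s' - s))) * wt (y⁻¹ * fl ζ s') := by gcongr
      _ ≤ (2 * R * Real.exp (s' - s)) * (2 * R) := by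
          gcongr
          · linarith
          · linarith
      _ = _ := by ring
  have hbd1 : ∀ (ζ : Fin m → ℂ) (x y : SUGroup m) (s s' : ℝ), x ∈ Γ → y ∈ Γ →
      ch (x⁻¹ * fl ζ s) ≤ R → ch (y⁻¹ * fl ζ s') ≤ R → s ≤ s' → s' ≤ s + 1 →
      G (x⁻¹ * y) ≤ C₁ := by
    intro ζ x y s s' hx hy h1 h2 h3 h4
    refine hC₁ _ (Γ.mul_mem (Γ.inv_mem hx) hy) ((hcomp ζ x y s s' h1 h2 h3).trans ?_)
    have : Real.exp (s' - s) ≤ Real.exp 1 := Real.exp_le_exp.2 (by linarith)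
    gcongr
  have hone : ∀ ζ : Fin m → ℂ, ch ((1 : SUGroup m)⁻¹ * fl ζ 0) ≤ R := by
    intro ζ
    rw [fl_zero, inv_one, one_mul, ch_one]
    exact hR1
  have hY1 : Y 1 ≤ R₁ := le_max_right _ _
  have hYinv : ∀ γ ∈ Γ, ∀ g, Y (γ * g) = Y g := by
    intro γ hγ g
    simp only [hY]
    rw [act_mul, hHt.inv γ hγ _ (orbit_mem g)]
  -- the claim
  have claim : ∀ (ζ : Fin m → ℂ), nq ζ = 1 → ∀ (N : ℕ) (τ : ℝ) (γ' : SUGroup m), 0 ≤ τ →
      τ < N + 1 → γ' ∈ Γ → ch (γ'⁻¹ * fl ζ τ) ≤ R → Y (fl ζ τ) ≤ R₁ →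
      G γ' ≤ C₁ * Real.exp (A * τ) := by
    intro ζ hζ N
    have hbase : ∀ (τ : ℝ) (γ' : SUGroup m), 0 ≤ τ → τ < 1 → γ' ∈ Γ →
        ch (γ'⁻¹ * fl ζ τ) ≤ R → G γ' ≤ C₁ * Real.exp (A * τ) := by
      intro τ γ' h0 h1 hγ' hch
      have h2 := hbd1 ζ 1 γ' 0 τ Γ.one_mem hγ' (hone ζ) hch h0 (by linarith)
      rw [inv_one, one_mul] at h2
      refine h2.trans (le_mul_of_one_le_right (by linarith) ?_)
      exact Real.one_le_exp (by positivity)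
    induction N with
    | zero =>
      intro τ γ' h0 h1 hγ' hch _
      exact hbase τ γ' h0 (by simpa using h1) hγ' hch
    | succ N ih =>
      intro τ γ' h0 h1 hγ' hch hYτ
      rcases lt_or_ge τ 1 with hτ | hτ
      · exact hbase τ γ' h0 hτ hγ' hch
      push_cast at h1
      rcases le_or_gt (Y (fl ζ (τ - 1))) R₁ with hy | hy
      · -- the point at distance one is in the thick part
        obtain ⟨γa, hγa, hcha⟩ := hcpt' _ hy
        have hcha' : ch (γa⁻¹⁻¹ * fl ζ (τ - 1)) ≤ R := by rwa [inv_inv]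
        have h2 := ih (τ - 1) γa⁻¹ (by linarith) (by linarith) (Γ.inv_mem hγa) hcha' hy
        have h3 := hbd1 ζ γa⁻¹ γ' (τ - 1) τ (Γ.inv_mem hγa) hγ' hcha' hch (by linarith)
          (by linarith)
        have h4 := hGm γa⁻¹ (Γ.inv_mem hγa) (γa⁻¹⁻¹ * γ') (Γ.mul_mem (Γ.inv_mem (Γ.inv_mem hγa)) hγ')
        rw [mul_inv_cancel_left] at h4
        have h5 : C₁ ≤ Real.exp A := by
          have h6 := hexp 1 le_rfl
          rw [mul_one, mul_one] at h6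
          have h7 : 1 ≤ Real.exp (a : ℝ) := Real.one_le_exp (Nat.cast_nonneg a)
          nlinarith
        have h8 : Real.exp (A * τ) = Real.exp (A * (τ - 1)) * Real.exp A := by
          rw [← Real.exp_add]
          congr 1
          ring
        calc G γ' ≤ _ := h4
          _ ≤ (C₁ * Real.exp (A * (τ - 1))) * C₁ := mul_le_mul h2 h3 (hG0 _) (by positivity)
          _ ≤ (C₁ * Real.exp (A * (τ - 1))) * Real.exp A := by gcongr
          _ = _ := by rw [h8]; ring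
      · -- the point at distance one is in a cusp
        obtain ⟨γT, hγT, ξ, κ, hTv, hYeq⟩ := exists_hty hd (fl ζ (τ - 1))
          (lt_of_lt_of_le (by norm_num) (hR64.trans hy.le))
        have hξ : nq ξ = 1 := hTv.1
        set φ : ℝ → ℝ := fun s => yp (NU.pe ξ) (act (fl ζ s) (base m)) / |κ| with hφ
        have hκ : κ ≠ 0 := hTv.2.1
        have hp0 : NU.pe ξ ≠ 0 := pe_ne_zero ξ
        have hq0 : q (NU.pe ξ) = 0 := by rw [q_pe, hξ, sub_self]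
        have hφc : Continuous φ := by
          have h2 : Continuous fun s : ℝ => act (fl ζ s) (base m) :=
            continuous_orbit.comp (continuous_fl ζ)
          have h3 : Continuous fun s : ℝ => yp (NU.pe ξ) (act (fl ζ s) (base m)) :=
            (continuousOn_yp hp0 hq0).comp_continuous h2 fun s => orbit_mem _
          exact h3.div_const _
        have hφY : ∀ s, φ s ≤ Y (fl ζ s) := fun s => le_hty hd hγT hTv (fl ζ s)
        have hφ0 : φ 0 ≤ R₁ := by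
          refine (hφY 0).trans ?_
          rw [fl_zero]
          exact hY1
        have hφτ : φ τ ≤ R₁ := (hφY τ).trans hYτ
        have hφ1 : R₁ ≤ φ (τ - 1) := by
          have : Y (fl ζ (τ - 1)) = φ (τ - 1) := hYeq
          rw [← this]
          exact hy.le
        have hφu : ∀ s, φ s = R₁ → Y (fl ζ s) = R₁ := by
          intro s hs
          have h2 : Y (fl ζ s) = φ s := hty_unique hd hT hγT hTv hYeq (g' := fl ζ s) (by
            change 16 ≤ φ s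
            rw [hs]
            linarith)
          rw [h2, hs]
        obtain ⟨s₁, ⟨hs₁0, hs₁1⟩, hs₁⟩ := intermediate_value_Icc (by linarith : (0 : ℝ) ≤ τ - 1)
          hφc.continuousOn ⟨hφ0, hφ1⟩
        obtain ⟨s₂, ⟨hs₂0, hs₂1⟩, hs₂⟩ := intermediate_value_Icc' (by linarith : τ - 1 ≤ τ)
          hφc.continuousOn ⟨hφτ, hφ1⟩
        have hY₁ := hφu s₁ hs₁
        have hY₂ := hφu s₂ hs₂
        obtain ⟨γa, hγa, hcha⟩ := hcpt' _ hY₁.le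
        obtain ⟨γb, hγb, hchb⟩ := hcpt' _ hY₂.le
        have hcha' : ch (γa⁻¹⁻¹ * fl ζ s₁) ≤ R := by rwa [inv_inv]
        have hchb' : ch (γb⁻¹⁻¹ * fl ζ s₂) ≤ R := by rwa [inv_inv]
        -- the two lines
        have hline : ∀ (s : ℝ) (γc : SUGroup m), γc ∈ Γ → ch (γc * fl ζ s) ≤ R → φ s = R₁ →
            mv γc ξ ∈ X := by
          intro s γc hγc hc hs
          refine ⟨γc * γT * γc⁻¹, Γ.mul_mem (Γ.mul_mem hγc hγT) (Γ.inv_mem hγc),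
            κ * ‖ml γc ξ‖ ^ 2, hTv.conj, γc * fl ζ s, hc, ?_⟩
          rw [ds_conj]
          have e : γc⁻¹ * (γc * γT * γc⁻¹) * γc = γT := by group
          rw [e]
          have h2 : ds (fl ζ s) γT * φ s = 2 := hTv.ds (fl ζ s)
          rw [hs] at h2
          have h3 := ds_nonneg (fl ζ s) γT
          nlinarith
        have hX₁ := hline s₁ γa hγa hcha hs₁
        have hX₂ := hline s₂ γb hγb hchb hs₂
        have hmv : mv (γa * γb⁻¹) (mv γb ξ) = mv γa ξ := by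
          rw [mv_mul (nq_mv hξ γb), mv_inv_mv hξ]
        have h2 := hC₂ _ hX₁ _ hX₂ (γa * γb⁻¹) (Γ.mul_mem hγa (Γ.inv_mem hγb)) hmv
        have h3 := hcomp ζ γa⁻¹ γb⁻¹ s₁ s₂ hcha' hchb' (by linarith)
        rw [inv_inv] at h3
        have h4 := ih s₁ γa⁻¹ hs₁0 (by linarith) (Γ.inv_mem hγa) hcha' hY₁.le
        have h5 := hbd1 ζ γb⁻¹ γ' s₂ τ (Γ.inv_mem hγb) hγ' hchb' hch hs₂1 (by linarith)
        rw [inv_inv] at h5
        have h6 := hGm γa⁻¹ (Γ.inv_mem hγa) ((γa * γb⁻¹) * (γb * γ'))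
          (Γ.mul_mem (Γ.mul_mem hγa (Γ.inv_mem hγb)) (Γ.mul_mem hγb hγ'))
        have h7 := hGm (γa * γb⁻¹) (Γ.mul_mem hγa (Γ.inv_mem hγb)) (γb * γ') (Γ.mul_mem hγb hγ')
        have e : γa⁻¹ * ((γa * γb⁻¹) * (γb * γ')) = γ' := by group
        rw [e] at h6
        have h8 := one_le_ch (γa * γb⁻¹)
        have h9 : (Real.exp (s₂ - s₁)) ^ a ≤ Real.exp (a * (τ - s₁)) := by
          rw [← Real.exp_nat_mul]
          refine Real.exp_le_exp.2 ?_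
          exact mul_le_mul_of_nonneg_left (by linarith) (Nat.cast_nonneg a)
        have h10 := hexp (τ - s₁) (by linarith)
        have h11 : Real.exp (A * τ) = Real.exp (A * s₁) * Real.exp (A * (τ - s₁)) := by
          rw [← Real.exp_add]
          congr 1
          ring
        calc G γ' ≤ G γa⁻¹ *
              (G (γa * γb⁻¹) * G (γb * γ')) :=
              h6.trans (mul_le_mul_of_nonneg_left h7 (hG0 _))
          _ ≤ (C₁ * Real.exp (A * s₁)) * ((C₂ * ch (γa * γb⁻¹) ^ a) * C₁) :=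
              mul_le_mul h4 (mul_le_mul h2 h5 (hG0 _) (by positivity))
                (mul_nonneg (hG0 _) (hG0 _)) (by positivity)
          _ ≤ (C₁ * Real.exp (A * s₁)) *
              ((C₂ * (4 * R ^ 2 * Real.exp (s₂ - s₁)) ^ a) * C₁) := by gcongr
          _ = (C₁ * Real.exp (A * s₁)) * (C₃ * (Real.exp (s₂ - s₁)) ^ a) := by
              rw [hC₃, mul_pow]
              ring
          _ ≤ (C₁ * Real.exp (A * s₁)) * (C₃ * Real.exp (a * (τ - s₁))) := by gcongr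
          _ ≤ (C₁ * Real.exp (A * s₁)) * Real.exp (A * (τ - s₁)) := by gcongr
          _ = _ := by rw [h11]; ring
  refine ⟨A, C₁ * 2 ^ A, by positivity, fun γ hγ => ?_⟩
  obtain ⟨ζ, d, k, hζ, hd0, hk, hγe, hwt⟩ := exists_fl (by omega) γ
  obtain ⟨N, hN⟩ := exists_nat_gt d
  have hfl : fl ζ d = γ * k⁻¹ := by rw [hγe, mul_inv_cancel_right]
  have hwtk : wt k⁻¹ = 1 := by
    rw [wt_inv, wt, hk]
    norm_num
  have h1 : ch (γ⁻¹ * fl ζ d) ≤ R := by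
    rw [hfl, inv_mul_cancel_left, ch_inv, hk]
    exact hR1
  have h2 : Y (fl ζ d) ≤ R₁ := by
    rw [hfl, hYinv _ hγ]
    have h3 := hHt.harn 1 k⁻¹
    rw [hwtk, one_pow, one_mul, one_mul] at h3
    exact h3.trans hY1
  have h4 := claim ζ hζ N d γ hd0 (by linarith) hγ h1 h2
  refine h4.trans ?_
  have h5 : Real.exp (A * d) = wt γ ^ A := by
    rw [hwt, ← Real.exp_nat_mul]
  rw [h5, mul_assoc, ← mul_pow]
  have h6 := wt_le γ
  have h7 := one_le_wt γ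
  gcongr

end Pool.Agent.Lib.MP_5d4057_al.WR
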