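import Pool.Agent.Lib.MP_5d4057_al.RC.Max
import Pool.Agent.Lib.MP_5d4057_al.HM.Green

/-! Powers of the height are eigenfunctions of the invariant Laplacian. -/

namespace Pool.Agent.Lib.MP_5d4057_al.WR

open Matrix MeasureTheory Filter Topology Pool.Agent.Lib.MP_5d4057_al
  Pool.Agent.Lib.MP_5d4057_al.Hyb Pool.Agent.Lib.MP_5d4057_al.HM
  Pool.Agent.Lib.MP_5d4057_al.NU Pool.Agent.Lib.MP_5d4057_al.RC

open scoped ComplexOrder MatrixOrder Matrix.Norms.L2Operator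

variable {n m : ℕ}

theorem contDiffOn_yp_pow {p : Vec n} (hp : p ≠ 0) (hq : q p = 0) (a : ℕ) :
    ContDiffOn ℝ 2 (fun v => yp p v ^ a) (Cone n) :=
  (contDiffOn_yp_two hp hq).pow a

/-- The second derivatives of a power of a height. -/
theorem yp_pow_line (a : ℕ) {v p : Vec n} (hv : v ∈ Cone n) (hp : p ≠ 0) (hq : q p = 0)
    (ξ : Vec n) :
    fderiv ℝ (fderiv ℝ (fun w => yp p w ^ a)) v ξ ξ = yp p v ^ a *
      ((a : ℝ) ^ 2 * (4 * (herm v ξ).re ^ 2 / q v ^ 2 -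
          8 * ((herm v ξ).re * ((starRingEnd ℂ) (herm v p) * herm ξ p).re) / (q v * ‖herm v p‖ ^ 2) +
          4 * ((starRingEnd ℂ) (herm v p) * herm ξ p).re ^ 2 / (‖herm v p‖ ^ 2) ^ 2) +
        (a : ℝ) * (2 * q ξ / q v - 2 * ‖herm ξ p‖ ^ 2 / ‖herm v p‖ ^ 2 -
          4 * (herm v ξ).re ^ 2 / q v ^ 2 +
          4 * ((starRingEnd ℂ) (herm v p) * herm ξ p).re ^ 2 / (‖herm v p‖ ^ 2) ^ 2)) := by
  have hcd : ContDiffAt ℝ 2 (fun w => yp p w ^ a) v :=
    (contDiffOn_yp_pow hp hq a).contDiffAt ((isOpen_cone n).mem_nhds hv)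
  rw [fderiv_fderiv_line hcd]
  have hqv : q v < 0 := hv
  have hh := herm_isot_ne hv hp hq
  have h1 : (fun t : ℝ => yp p (v + t • ξ) ^ a) =
      fun t : ℝ => ((q v + 2 * t * (herm v ξ).re + t ^ 2 * q ξ) *
      (-1) / (‖herm v p‖ ^ 2 + 2 * t * ((starRingEnd ℂ) (herm v p) * herm ξ p).re +
        t ^ 2 * ‖herm ξ p‖ ^ 2)) ^ a := by
    funext t
    rw [yp, lk_q_line, lk_herm_line, lk_norm_line, mul_neg_one]
  rw [h1, lk_second a (-1) _ _ _ _ _ _ (by norm_num) hqv.ne (by positivity), yp, mul_neg_one]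

/-- The powers of the height are eigenfunctions. -/
theorem lap_yp_pow (a : ℕ) {v p : Vec n} (hv : v ∈ Cone n) (hp : p ≠ 0) (hq : q p = 0) :
    Lap (fun w => yp p w ^ a) v = (a : ℝ) * (a - n) * yp p v ^ a := by
  have hqv : q v < 0 := hv
  have hh := herm_isot_ne hv hp hq
  have hN : 0 < ‖herm v p‖ ^ 2 := by positivity
  have hre : ∑ i, ((starRingEnd ℂ) (herm v p) * ((starRingEnd ℂ) (v i) *
      (((lkEps n i : ℝ) : ℂ) * p i))).re = ‖herm v p‖ ^ 2 := by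
    rw [← Complex.re_sum, ← Finset.mul_sum, ← lk_herm, mul_comm, Complex.mul_conj,
      Complex.normSq_eq_norm_sq, Complex.ofReal_re]
  rw [Lap]
  simp only [yp_pow_line a hv hp hq, lk_J_re, smul_eq_mul]
  rw [Finset.sum_congr rfl fun i _ => lk_term a (yp p v ^ a) (q v) v p (herm v p) hN.ne' i]
  rw [← Finset.mul_sum, Finset.sum_add_distrib, ← Finset.mul_sum, ← Finset.mul_sum,
    Finset.sum_add_distrib, Finset.sum_sub_distrib, Finset.sum_sub_distrib, ← Finset.sum_div,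
    ← Finset.sum_div, ← Finset.sum_div, ← Finset.mul_sum, ← Finset.mul_sum, ← Finset.mul_sum,
    hre, ← lk_q, ← lk_q, Finset.sum_const, Finset.card_univ, Fintype.card_fin, nsmul_eq_mul, hq]
  generalize yp p v ^ a = K
  generalize hNd : ‖herm v p‖ ^ 2 = N at *
  generalize q v = Q at *
  have hQ0 : Q ≠ 0 := hqv.ne
  have hN0 : N ≠ 0 := hN.ne'
  push_cast
  field_simp
  ring

end Pool.Agent.Lib.MP_5d4057_al.WR
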