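import Pool.Agent.Lib.MP_5d4057_al.WR.HtyA
import Pool.Agent.Lib.MP_5d4057_al.HM.LipT
import Pool.Agent.Lib.MP_5d4057_al.HM.BochCF

/-! Powers of the height are tame, and strictly superharmonic for exponents in `(0, n)`. -/

set_option maxSynthPendingDepth 3

namespace Pool.Agent.Lib.MP_5d4057_al.WR

open Matrix MeasureTheory Filter Topology Pool.Agent.Lib.MP_5d4057_al
  Pool.Agent.Lib.MP_5d4057_al.Hyb Pool.Agent.Lib.MP_5d4057_al.HM
  Pool.Agent.Lib.MP_5d4057_al.NU Pool.Agent.Lib.MP_5d4057_al.RC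

open scoped ComplexOrder MatrixOrder Matrix.Norms.L2Operator

variable {n m : ℕ}

private theorem hb_herm : ContDiff ℝ (⊤ : ℕ∞) (fun x : Vec n × Vec n => herm x.2 x.1) := by
  have : (fun x : Vec n × Vec n => herm x.2 x.1) =
      fun x => ∑ i, (starRingEnd ℂ) (x.2 i) * (((lkEps n i : ℝ) : ℂ) * x.1 i) :=
    funext fun x => lk_herm x.2 x.1
  rw [this]
  refine ContDiff.sum fun i _ => ?_
  refine ContDiff.mul ?_ (contDiff_const.mul ?_)
  · exact (Complex.conjCLE.contDiff (n := (⊤ : ℕ∞))).comp ((contDiff_apply ℝ ℂ i).comp contDiff_snd)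
  · exact (contDiff_apply ℝ ℂ i).comp contDiff_fst

private theorem hb_joint (a : ℕ) {p v : Vec n} (hp : herm v p ≠ 0) :
    ContDiffAt ℝ (⊤ : ℕ∞) (fun x : Vec n × Vec n => yp x.1 x.2 ^ a) (p, v) := by
  unfold yp
  refine ContDiffAt.pow (ContDiffAt.div ?_ ?_ ?_) a
  · exact ((lk_contDiff_q (n := n)).comp contDiff_snd).neg.contDiffAt
  · exact (hb_herm.norm_sq ℝ).contDiffAt
  · positivity

private theorem hb_joint1 (a : ℕ) {p v : Vec n} (hp : herm v p ≠ 0) :
    ContDiffAt ℝ (⊤ : ℕ∞) (fun x : Vec n × Vec n => fderiv ℝ (fun w => yp x.1 w ^ a) x.2) (p, v) := by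
  refine ContDiffAt.fderiv (n := (⊤ : ℕ∞)) (f := fun (x : Vec n × Vec n) (w : Vec n) => yp x.1 w ^ a)
    (g := Prod.snd) ?_ contDiffAt_snd (by simp)
  exact (hb_joint a hp).comp ((p, v), v) (f := fun y : (Vec n × Vec n) × Vec n => (y.1.1, y.2))
    ((contDiff_fst.fst.prodMk contDiff_snd).contDiffAt)

private theorem hb_joint2 (a : ℕ) {p v : Vec n} (hp : herm v p ≠ 0) :
    ContDiffAt ℝ (⊤ : ℕ∞)
      (fun x : Vec n × Vec n => fderiv ℝ (fderiv ℝ (fun w => yp x.1 w ^ a)) x.2) (p, v) := by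
  refine ContDiffAt.fderiv (n := (⊤ : ℕ∞))
    (f := fun (x : Vec n × Vec n) (u : Vec n) => fderiv ℝ (fun w => yp x.1 w ^ a) u)
    (g := Prod.snd) ?_ contDiffAt_snd (by simp)
  exact (hb_joint1 a hp).comp ((p, v), v) (f := fun y : (Vec n × Vec n) × Vec n => (y.1.1, y.2))
    ((contDiff_fst.fst.prodMk contDiff_snd).contDiffAt)

/-- Bounds at the base point, uniform in the isotropic vector. -/
private theorem hb_base (a : ℕ) : ∃ M : ℝ, 0 ≤ M ∧ ∀ p : Vec n, ‖p‖ = 1 → q p = 0 →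
    ‖yp p (base n) ^ a‖ ≤ M ∧ ‖fderiv ℝ (fun w => yp p w ^ a) (base n)‖ ≤ M ∧
      ‖fderiv ℝ (fderiv ℝ (fun w => yp p w ^ a)) (base n)‖ ≤ M := by
  have hS : IsCompact {p : Vec n | ‖p‖ = 1 ∧ q p = 0} := by
    have h1 : IsCompact (Metric.sphere (0 : Vec n) 1) := isCompact_sphere 0 1
    have h2 : IsClosed {p : Vec n | q p = 0} :=
      isClosed_eq (lk_contDiff_q (n := n)).continuous continuous_const
    refine (h1.inter_right h2).of_isClosed_subset ?_ ?_
    · exact (isClosed_eq continuous_norm continuous_const).inter h2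
    · rintro p ⟨hp, hq⟩
      exact ⟨by simpa using hp, hq⟩
  have hne : ∀ p ∈ {p : Vec n | ‖p‖ = 1 ∧ q p = 0}, herm (base n) p ≠ 0 := by
    rintro p ⟨hp, hq⟩
    refine herm_isot_ne (base_mem n) ?_ hq
    rintro rfl
    simp at hp
  have hc : ∀ p : Vec n, ContinuousAt (fun p : Vec n => (p, base n)) p := fun p => by fun_prop
  obtain ⟨M₀, h0⟩ := hS.exists_bound_of_continuousOn (f := fun p => yp p (base n) ^ a)
    fun p hp => ((ContinuousAt.comp (f := fun p : Vec n => (p, base n))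
      (hb_joint a (hne p hp)).continuousAt (hc p))).continuousWithinAt
  obtain ⟨M₁, h1⟩ := hS.exists_bound_of_continuousOn
    (f := fun p => fderiv ℝ (fun w => yp p w ^ a) (base n))
    fun p hp => ((ContinuousAt.comp (f := fun p : Vec n => (p, base n))
      (hb_joint1 a (hne p hp)).continuousAt (hc p))).continuousWithinAt
  obtain ⟨M₂, h2⟩ := hS.exists_bound_of_continuousOn
    (f := fun p => ‖fderiv ℝ (fderiv ℝ (fun w => yp p w ^ a)) (base n)‖)
    fun p hp => ((ContinuousAt.comp (f := fun p : Vec n => (p, base n))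
      (hb_joint2 a (hne p hp)).continuousAt (hc p))).norm.continuousWithinAt
  refine ⟨|M₀| + |M₁| + |M₂|, by positivity, fun p hp hq => ⟨?_, ?_, ?_⟩⟩
  · have := h0 p ⟨hp, hq⟩
    linarith [le_abs_self M₀, abs_nonneg M₁, abs_nonneg M₂]
  · have := h1 p ⟨hp, hq⟩
    linarith [le_abs_self M₁, abs_nonneg M₀, abs_nonneg M₂]
  · have := h2 p ⟨hp, hq⟩
    rw [norm_norm] at this
    linarith [le_abs_self M₂, abs_nonneg M₀, abs_nonneg M₁]

/-- `yp p ^ a = ρ * yp p' ^ a ∘ g⁻¹`, `p = g (r p')`. -/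
private theorem hb_eq (a : ℕ) {p : Vec n} (g : SUGroup n) (w : Vec n) :
    yp p w ^ a = (‖act g⁻¹ p‖ ^ (2 * a))⁻¹ *
      yp (((‖act g⁻¹ p‖⁻¹ : ℝ) : ℂ) • act g⁻¹ p) (act g⁻¹ w) ^ a := by
  by_cases h0 : act g⁻¹ p = 0
  · have hp : p = 0 := by
      have h1 : act g (act g⁻¹ p) = act g 0 := by rw [h0]
      rw [← act_mul, mul_inv_cancel, act_one] at h1
      rw [h1]
      exact mulVec_zero _
    subst hp
    rcases Nat.eq_zero_or_pos a with rfl | ha
    · simp
    · have e : act g⁻¹ (0 : Vec n) = 0 := mulVec_zero _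
      have e2 : ∀ v : Vec n, yp (0 : Vec n) v = 0 := by
        intro v
        have e3 : herm v (0 : Vec n) = 0 := by simp [herm]
        rw [yp, e3]
        simp
      rw [e, smul_zero, e2, e2, zero_pow ha.ne', mul_zero]
  · have h1 : 0 < ‖act g⁻¹ p‖ := norm_pos_iff.2 h0
    rw [yp_smul, yp_act, Complex.norm_real, Real.norm_eq_abs, abs_of_pos (inv_pos.2 h1)]
    rw [div_pow, inv_pow, inv_pow, ← pow_mul, div_inv_eq_mul]
    field_simp

private theorem hb_norm_low (g : SUGroup n) (p : Vec n) :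
    ‖p‖ ≤ 2 * (n + 1) * ch g * ‖act g⁻¹ p‖ := by
  have h1 := (actL g).le_opNorm (act g⁻¹ p)
  rw [actL_apply, ← act_mul, mul_inv_cancel, act_one] at h1
  exact h1.trans (mul_le_mul_of_nonneg_right (bc_norm_actL_le g) (norm_nonneg _))

/-- Powers of the height are tame, with an exponent independent of the isotropic vector. -/
theorem tame_yp_pow (a : ℕ) {p : Vec n} (hp : p ≠ 0) (hq : q p = 0) :
    ∃ C : ℝ, Tame (a + 1) C fun v => yp p v ^ a := by
  obtain ⟨M, hM0, hM⟩ := hb_base (n := n) a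
  have hp0 : 0 < ‖p‖ := norm_pos_iff.2 hp
  set D : ℝ := (2 * (n + 1)) ^ (2 * a) / ‖p‖ ^ (2 * a) * M * (2 * (n + 1)) ^ 2 with hD
  have hcd : ContDiffOn ℝ 2 (fun v => yp p v ^ a) (Cone n) := contDiffOn_yp_pow hp hq a
  have hn1 : (1 : ℝ) ≤ 2 * (n + 1) := by
    have : (0 : ℝ) ≤ n := Nat.cast_nonneg n
    linarith
  -- the normalised isotropic vector
  have key : ∀ g : SUGroup n, ∃ (r : ℝ) (p' : Vec n), 0 ≤ r ∧ ‖p'‖ = 1 ∧ q p' = 0 ∧ p' ≠ 0 ∧
      (∀ w, yp p w ^ a = r * yp p' (act g⁻¹ w) ^ a) ∧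
      r ≤ (2 * (n + 1)) ^ (2 * a) / ‖p‖ ^ (2 * a) * ch g ^ (2 * a) := by
    intro g
    have hlow := hb_norm_low g p
    have hch := ch_pos g
    have h1 : 0 < ‖act g⁻¹ p‖ := by
      by_contra h
      have h2 : ‖act g⁻¹ p‖ = 0 := le_antisymm (not_lt.1 h) (norm_nonneg _)
      rw [h2, mul_zero] at hlow
      linarith
    refine ⟨(‖act g⁻¹ p‖ ^ (2 * a))⁻¹, ((‖act g⁻¹ p‖⁻¹ : ℝ) : ℂ) • act g⁻¹ p, by positivity, ?_, ?_,
      ?_, fun w => hb_eq a g w, ?_⟩
    · rw [norm_smul, Complex.norm_real, Real.norm_eq_abs, abs_of_pos (inv_pos.2 h1),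
        inv_mul_cancel₀ h1.ne']
    · rw [q_smul, q_act, hq, mul_zero]
    · exact smul_ne_zero (Complex.ofReal_ne_zero.2 (inv_ne_zero h1.ne')) (norm_pos_iff.1 h1)
    · have h2 : ‖p‖ / (2 * (n + 1) * ch g) ≤ ‖act g⁻¹ p‖ := by
        rw [div_le_iff₀ (by positivity)]
        linarith
      have h3 : (‖p‖ / (2 * (n + 1) * ch g)) ^ (2 * a) ≤ ‖act g⁻¹ p‖ ^ (2 * a) :=
        pow_le_pow_left₀ (by positivity) h2 _
      refine (inv_anti₀ (by positivity) h3).trans (le_of_eq ?_)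
      rw [div_pow, mul_pow, inv_div]
      ring
  have hfin : ∀ (g : SUGroup n) (x r : ℝ) (j : ℕ), j ≤ 2 → 0 ≤ r → x ≤ r * (M * (2 * (n + 1) * ch g) ^ j) →
      r ≤ (2 * (n + 1)) ^ (2 * a) / ‖p‖ ^ (2 * a) * ch g ^ (2 * a) →
      x ≤ D * ch g ^ (2 * (a + 1)) := by
    intro g x r j hj hr hx hr2
    have hch := one_le_ch g
    refine hx.trans ?_
    have h1 : (2 * (n + 1) * ch g) ^ j ≤ (2 * (n + 1) * ch g) ^ 2 :=
      pow_le_pow_right₀ (by nlinarith) hj
    calc r * (M * (2 * (n + 1) * ch g) ^ j)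
        ≤ ((2 * (n + 1)) ^ (2 * a) / ‖p‖ ^ (2 * a) * ch g ^ (2 * a)) *
          (M * (2 * (n + 1) * ch g) ^ 2) := by gcongr
      _ = D * ch g ^ (2 * (a + 1)) := by
          rw [hD]
          ring
  have hact : ∀ (g : SUGroup n), act g⁻¹ (act g (base n)) = base n := fun g => by
    rw [← act_mul, inv_mul_cancel, act_one]
  refine ⟨D, ?_, hcd, fun g => ?_, fun g => ?_, fun g => ?_⟩
  · intro c hc v hv
    show yp p (c • v) ^ a = yp p v ^ a
    congr 1
    rw [yp, yp, q_smul]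
    have e : herm (c • v) p = (starRingEnd ℂ) c * herm v p := herm_smul_left _ _ _
    rw [e, norm_mul, RCLike.norm_conj, mul_pow, ← mul_neg]
    have hc2 : ‖c‖ ^ 2 ≠ 0 := by
      have := norm_ne_zero_iff.2 hc
      positivity
    exact mul_div_mul_left _ _ hc2
  · obtain ⟨r, p', hr, hp', hq', hp0', he, hr2⟩ := key g
    refine hfin g _ r 0 (by norm_num) hr ?_ hr2
    rw [he, hact, norm_mul, Real.norm_eq_abs, abs_of_nonneg hr, pow_zero, mul_one]
    exact mul_le_mul_of_nonneg_left (hM p' hp' hq').1 hr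
  · obtain ⟨r, p', hr, hp', hq', hp0', he, hr2⟩ := key g
    refine hfin g _ r 1 (by norm_num) hr ?_ hr2
    have hcd' : ContDiffAt ℝ 2 (fun w => yp p' w ^ a) (base n) :=
      (contDiffOn_yp_pow hp0' hq' a).contDiffAt ((isOpen_cone n).mem_nhds (base_mem n))
    have e1 : (fun v => yp p v ^ a) = fun v => r • yp p' (actL g⁻¹ v) ^ a := by
      funext v
      rw [he, smul_eq_mul]
      rfl
    have hd : DifferentiableAt ℝ (fun v => yp p' (actL g⁻¹ v) ^ a) (act g (base n)) := by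
      refine DifferentiableAt.comp (g := fun w => yp p' w ^ a) (f := fun v => actL g⁻¹ v) _ ?_
        (actL g⁻¹).differentiableAt
      rw [actL_apply, hact]
      exact hcd'.differentiableAt (by norm_num)
    have e2 : fderiv ℝ (fun v => r • yp p' (actL g⁻¹ v) ^ a) (act g (base n)) =
        r • fderiv ℝ (fun v => yp p' (actL g⁻¹ v) ^ a) (act g (base n)) :=
      (hd.hasFDerivAt.const_smul r).fderiv
    rw [e1, e2, norm_smul, Real.norm_eq_abs, abs_of_nonneg hr, pow_one]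
    refine mul_le_mul_of_nonneg_left ?_ hr
    have h1 := lt_comp_b1 (f := fun w => yp p' w ^ a) (actL g⁻¹) (v := act g (base n)) (by
      rw [actL_apply, hact]
      exact hcd'.differentiableAt (by norm_num))
    rw [actL_apply, hact] at h1
    refine h1.trans (mul_le_mul (hM p' hp' hq').2.1 ?_ (norm_nonneg _) hM0)
    have h2 := bc_norm_actL_le g⁻¹
    rwa [ch_inv] at h2
  · obtain ⟨r, p', hr, hp', hq', hp0', he, hr2⟩ := key g
    refine hfin g _ r 2 (by norm_num) hr ?_ hr2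
    have hcd' : ContDiffAt ℝ 2 (fun w => yp p' w ^ a) (base n) :=
      (contDiffOn_yp_pow hp0' hq' a).contDiffAt ((isOpen_cone n).mem_nhds (base_mem n))
    have e1 : (fun v => yp p v ^ a) = fun v => r • yp p' (actL g⁻¹ v) ^ a := by
      funext v
      rw [he, smul_eq_mul]
      rfl
    have hcc : ContDiffAt ℝ 2 (fun v => yp p' (actL g⁻¹ v) ^ a) (act g (base n)) := by
      refine ContDiffAt.comp (g := fun w => yp p' w ^ a) (f := fun v => actL g⁻¹ v) _ ?_
        (actL g⁻¹).contDiff.contDiffAt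
      rw [actL_apply, hact]
      exact hcd'
    have hev : fderiv ℝ (fun v => r • yp p' (actL g⁻¹ v) ^ a) =ᶠ[𝓝 (act g (base n))]
        fun v => r • fderiv ℝ (fun v => yp p' (actL g⁻¹ v) ^ a) v := by
      filter_upwards [hcc.eventually (by norm_num)] with v hv
      exact ((hv.differentiableAt (by norm_num)).hasFDerivAt.const_smul r).fderiv
    have hd2 : DifferentiableAt ℝ (fderiv ℝ fun v => yp p' (actL g⁻¹ v) ^ a) (act g (base n)) :=
      (hcc.fderiv_right (m := 1) (by norm_num)).differentiableAt (by norm_num)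
    have e2 : fderiv ℝ (fun v => r • fderiv ℝ (fun v => yp p' (actL g⁻¹ v) ^ a) v)
        (act g (base n)) =
        r • fderiv ℝ (fderiv ℝ fun v => yp p' (actL g⁻¹ v) ^ a) (act g (base n)) :=
      (hd2.hasFDerivAt.const_smul r).fderiv
    rw [e1, hev.fderiv_eq, e2, norm_smul, Real.norm_eq_abs, abs_of_nonneg hr]
    refine mul_le_mul_of_nonneg_left ?_ hr
    have h1 := lt_comp_b2 (f := fun w => yp p' w ^ a) (actL g⁻¹) (v := act g (base n)) (by
      rw [actL_apply, hact]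
      exact hcd')
    rw [actL_apply, hact] at h1
    have h2 := bc_norm_actL_le g⁻¹
    rw [ch_inv] at h2
    refine h1.trans ?_
    rw [mul_assoc, sq]
    exact mul_le_mul (hM p' hp' hq').2.2 (mul_le_mul h2 h2 (norm_nonneg _)
      ((norm_nonneg _).trans h2)) (by positivity) hM0

end Pool.Agent.Lib.MP_5d4057_al.WR
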