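import Pool.Agent.Lib.MP_5d4057_al.WR.HtyB
import Pool.Agent.Lib.MP_5d4057_al.HM.LipP
import Pool.Agent.Lib.MP_5d4057_al.NU.LatA2

/-! Powers of the height are strictly superharmonic for exponents in `(0, n)`. -/

set_option maxSynthPendingDepth 3

namespace Pool.Agent.Lib.MP_5d4057_al.WR

open Matrix MeasureTheory Filter Topology Pool.Agent.Lib.MP_5d4057_al
  Pool.Agent.Lib.MP_5d4057_al.Hyb Pool.Agent.Lib.MP_5d4057_al.HM
  Pool.Agent.Lib.MP_5d4057_al.NU Pool.Agent.Lib.MP_5d4057_al.RC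

open scoped ComplexOrder MatrixOrder Matrix.Norms.L2Operator ENNReal

variable {n m : ℕ}

private theorem hc_P_smul (s : ℕ) (c : ℝ) {f f' : Vec n → ℝ} (h : ∀ v ∈ Cone n, f v = c * f' v)
    (v : Vec n) : P s f v = c * P s f' v := by
  rw [P, P, ← integral_const_mul]
  refine integral_congr_ae (Filter.Eventually.of_forall fun y => ?_)
  show (_ : ℝ) • f _ = c * ((_ : ℝ) • f' _)
  rw [h _ (orbit_mem y), smul_eq_mul, smul_eq_mul]
  ring

/-- The averages of `yp p ^ a`, `1 ≤ a < n`, are smaller than the function. -/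
theorem P_yp_le {a : ℕ} (ha : 1 ≤ a) (han : a < n) : ∃ s₀ : ℕ, n < s₀ ∧ ∀ s, s₀ ≤ s →
    ∀ p : Vec n, p ≠ 0 → q p = 0 → ∀ v ∈ Cone n,
      P s (fun w => yp p w ^ a) v ≤ (1 + (a : ℝ) * (n - a) / lam n s)⁻¹ * yp p v ^ a := by
  have hn : 1 ≤ n := by omega
  obtain ⟨s₁, h1⟩ := P_sub_P (E := ℝ) hn (a + 1)
  obtain ⟨s₂, h2⟩ := le_P_of_lap_nonneg hn (a + 1)
  refine ⟨s₁ + s₂ + n + 1, by omega, fun s hs p hp hq v hv => ?_⟩
  obtain ⟨C, hT⟩ := tame_yp_pow a hp hq
  have haR : (1 : ℝ) ≤ a := by exact_mod_cast ha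
  have hanR : (a : ℝ) < n := by exact_mod_cast han
  have hl : 0 < lam n s := lam_pos (by omega)
  have hpos : ∀ w : Vec n, w ∈ Cone n → 0 ≤ yp p w ^ a := fun w hw => by
    have : 0 ≤ yp p w := div_nonneg (by have : q w < 0 := hw; linarith) (sq_nonneg _)
    positivity
  -- the negative function
  have hTn := lt_clm hT (-ContinuousLinearMap.id ℝ ℝ)
  have e0 : (fun w : Vec n => (-ContinuousLinearMap.id ℝ ℝ) (yp p w ^ a)) =
      fun w => 0 + (-1) * yp p w ^ a := by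
    funext w
    simp
  rw [e0] at hTn
  have hLn : ∀ w ∈ Cone n, 0 ≤ Lap (fun w => 0 + (-1) * yp p w ^ a) w := by
    intro w hw
    have h3 := lap_add_mul (f := fun _ : Vec n => (0 : ℝ)) (k := fun w => yp p w ^ a) (v := w)
      contDiffAt_const ((contDiffOn_yp_pow hp hq a).contDiffAt ((isOpen_cone n).mem_nhds hw)) (-1)
    have h4 : Lap (fun _ : Vec n => (0 : ℝ)) w = 0 := by simp [Lap]
    rw [h3, h4, lap_yp_pow a hw hp hq]
    have h5 := hpos w hw
    have h6 : 0 ≤ (a : ℝ) * (n - a) * yp p w ^ a :=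
      mul_nonneg (mul_nonneg (by linarith) (by linarith)) h5
    nlinarith
  have h3 := (h2 (s + 1) (by omega) _ _ hTn hLn v hv).1
  rw [hc_P_smul (s + 1) (-1) (f' := fun w => yp p w ^ a) (fun w _ => by ring) v] at h3
  have h4 := h1 s (by omega) C _ hT v hv 1
  rw [Finset.sum_range_one, add_zero, smul_eq_mul,
    hc_P_smul s ((a : ℝ) * (a - n)) (f' := fun w => yp p w ^ a)
      (fun w hw => lap_yp_pow a hw hp hq) v] at h4
  set A := P s (fun w => yp p w ^ a) v with hA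
  set B := P (s + 1) (fun w => yp p w ^ a) v with hB
  have h5 : B ≤ yp p v ^ a := by linarith
  have h6 : B = (1 + (a : ℝ) * (n - a) / lam n s) * A := by
    have h7 : B = A - (lam n s)⁻¹ * ((a : ℝ) * (a - n) * A) := by linarith
    rw [h7]
    field_simp
    ring
  have h8 : 0 < 1 + (a : ℝ) * (n - a) / lam n s := by
    have : 0 < (a : ℝ) * (n - a) / lam n s := div_pos (mul_pos (by linarith) (by linarith)) hl
    linarith
  rw [← div_eq_inv_mul, le_div_iff₀ h8]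
  linarith

/-- The same on the group. -/
theorem int_yp_le {a : ℕ} (ha : 1 ≤ a) (han : a < n) : ∃ s₀ : ℕ, n < s₀ ∧ ∀ s, s₀ ≤ s →
    ∃ l : ℝ, 0 ≤ l ∧ l < 1 ∧ ∀ p : Vec n, p ≠ 0 → q p = 0 → ∀ g : SUGroup n,
      ∫ x, kap s x * yp p (act (g * x) (base n)) ^ a ∂(mu n) ≤ l * yp p (act g (base n)) ^ a := by
  obtain ⟨s₀, h0, h1⟩ := P_yp_le ha han
  refine ⟨s₀, h0, fun s hs => ⟨(1 + (a : ℝ) * (n - a) / lam n s)⁻¹, ?_, ?_, fun p hp hq g => ?_⟩⟩
  · have haR : (1 : ℝ) ≤ a := by exact_mod_cast ha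
    have hanR : (a : ℝ) < n := by exact_mod_cast han
    have hl : 0 < lam n s := lam_pos (by omega)
    have : 0 < (a : ℝ) * (n - a) / lam n s := div_pos (mul_pos (by linarith) (by linarith)) hl
    positivity
  · have haR : (1 : ℝ) ≤ a := by exact_mod_cast ha
    have hanR : (a : ℝ) < n := by exact_mod_cast han
    have hl : 0 < lam n s := lam_pos (by omega)
    have : 0 < (a : ℝ) * (n - a) / lam n s := div_pos (mul_pos (by linarith) (by linarith)) hl
    exact inv_lt_one_of_one_lt₀ (by linarith)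
  · have h2 := h1 s hs p hp hq _ (orbit_mem g)
    rw [P_orbit] at h2
    simpa only [smul_eq_mul] using h2

end Pool.Agent.Lib.MP_5d4057_al.WR
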