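import Pool.Agent.Lib.MP_5d4057_al.WR.HtyC
import Pool.Agent.Lib.MP_5d4057_al.NU.CuspL
import Pool.Agent.Lib.MP_5d4057_al.NU.CutN

/-! Powers `< n` of the height are integrable over the quotient. -/

namespace Pool.Agent.Lib.MP_5d4057_al.WR

open Matrix MeasureTheory Filter Topology Pool.Agent.Lib.MP_5d4057_al
  Pool.Agent.Lib.MP_5d4057_al.Hyb Pool.Agent.Lib.MP_5d4057_al.HM
  Pool.Agent.Lib.MP_5d4057_al.NU Pool.Agent.Lib.MP_5d4057_al.RC

open scoped ComplexOrder MatrixOrder Matrix.Norms.L2Operator ENNReal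

variable {n : ℕ} {Γ : Subgroup (SUGroup n)} {χ : SUGroup n → ℝ}

/-- The averages of an invariant function have the same integral. -/
theorem LI_kap (hL : Lat Γ χ) {s : ℕ} (hs : n < s) {w : SUGroup n → ℝ≥0∞} (hw : Measurable w)
    (hi : ∀ γ ∈ Γ, ∀ g, w (γ * g) = w g) :
    LI χ (fun g => ∫⁻ x, ENNReal.ofReal (kap s x) * w (g * x) ∂(mu n)) = LI χ w := by
  have hκ : Measurable fun x : SUGroup n => ENNReal.ofReal (kap s x) :=
    (continuous_kap s).measurable.ennreal_ofReal
  have hΨ : Measurable (Function.uncurry fun g x : SUGroup n => w (g * x)) :=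
    hw.comp (measurable_fst.mul measurable_snd)
  rw [LI_lintegral hL hκ.aemeasurable (fun g x => w (g * x)) hΨ.aemeasurable]
  have e1 : ∀ x : SUGroup n, LI χ (fun g => w (g * x)) = LI χ w := fun x =>
    LI_mul_right hL hi hw.aemeasurable x
  simp only [e1]
  rw [lintegral_mul_const _ hκ]
  have e2 : ∫⁻ x : SUGroup n, ENNReal.ofReal (kap s x) ∂(mu n) = 1 := by
    rw [← ofReal_integral_eq_lintegral_ofReal (integrable_kap hs)
      (Filter.Eventually.of_forall fun x => kap_nonneg s x), integral_kap hs, ENNReal.ofReal_one]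
  rw [e2, one_mul]

/-- The drift condition: the averages of `y ^ a` are at most `l y ^ a + C`, `l < 1`. -/
theorem drift_int {T : ℝ} {y : Vec n → ℝ} (h : Ht Γ T y) {a : ℕ} (ha : 1 ≤ a) (han : a < n) :
    ∃ s₁ : ℕ, ∀ s, s₁ ≤ s → ∃ l C : ℝ, n < s ∧ 0 ≤ l ∧ l < 1 ∧ 0 ≤ C ∧ ∀ g : SUGroup n,
      Integrable (fun x => kap s x * y (act (g * x) (base n)) ^ a) (mu n) ∧
      ∫ x, kap s x * y (act (g * x) (base n)) ^ a ∂(mu n) ≤ l * y (act g (base n)) ^ a + C := by
  obtain ⟨s₀, hs₀, h1⟩ := int_yp_le ha han
  refine ⟨s₀ + n + 2 * a + 1, fun s hs => ?_⟩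
  obtain ⟨l, hl0, hl1, h2⟩ := h1 s (by omega)
  have hns : n < s := by omega
  have hint : Integrable (fun x : SUGroup n => kap s x * wt x ^ (4 * a)) (mu n) := by
    refine Integrable.mono' ((integrable_kap_pow (n := n) (s := s) (N := 2 * a)
      (by omega)).const_mul (2 ^ (4 * a)))
      ((continuous_kap s).mul (continuous_wt.pow _)).aestronglyMeasurable
      (Filter.Eventually.of_forall fun x => ?_)
    have h3 := kap_nonneg s x
    have h4 := one_le_wt x
    rw [Real.norm_eq_abs, abs_of_nonneg (by positivity)]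
    have h5 : wt x ^ (4 * a) ≤ (2 * ch x) ^ (4 * a) := pow_le_pow_left₀ (by linarith) (wt_le x) _
    calc kap s x * wt x ^ (4 * a) ≤ kap s x * (2 * ch x) ^ (4 * a) :=
          mul_le_mul_of_nonneg_left h5 h3
      _ = 2 ^ (4 * a) * (kap s x * ch x ^ (2 * (2 * a))) := by
          rw [mul_pow, show 2 * (2 * a) = 4 * a by ring]
          ring
  set I := ∫ x : SUGroup n, kap s x * wt x ^ (4 * a) ∂(mu n) with hI
  have hI0 : 0 ≤ I := integral_nonneg fun x =>
    mul_nonneg (kap_nonneg s x) (pow_nonneg (zero_le_one.trans (one_le_wt x)) _)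
  refine ⟨l, |T| ^ a * I, hns, hl0, hl1, by positivity, fun g => ?_⟩
  have hYpos : ∀ g : SUGroup n, 0 < y (act g (base n)) := fun g =>
    lt_of_lt_of_le one_pos (h.one_le _ (orbit_mem g))
  -- the pointwise bound
  obtain ⟨F, hF0, hFi, hFl, hF⟩ : ∃ F : SUGroup n → ℝ, (∀ x, 0 ≤ F x) ∧
      Integrable (fun x => kap s x * F x) (mu n) ∧
      ∫ x, kap s x * F x ∂(mu n) ≤ l * y (act g (base n)) ^ a ∧
      ∀ x, y (act (g * x) (base n)) ^ a ≤ F x + |T| ^ a * wt x ^ (4 * a) := by
    by_cases hT : T ≤ y (act g (base n))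
    · obtain ⟨p, hp, hq, he, -, hun⟩ := h.nul g hT
      have hyp : ∀ g : SUGroup n, 0 ≤ yp p (act g (base n)) := fun g =>
        div_nonneg (by have : q (act g (base n)) < 0 := orbit_mem g; linarith) (sq_nonneg _)
      refine ⟨fun x => yp p (act (g * x) (base n)) ^ a, fun x => pow_nonneg (hyp _) _, ?_, ?_,
        fun x => ?_⟩
      · refine Integrable.mono' (hint.const_mul (yp p (act g (base n)) ^ a)) ?_
          (Filter.Eventually.of_forall fun x => ?_)
        · refine ((continuous_kap s).mul (Continuous.pow ?_ a)).aestronglyMeasurable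
          exact (continuousOn_yp hp hq).comp_continuous
            (continuous_orbit.comp (continuous_const_mul g)) fun x => orbit_mem (g * x)
        · have h3 := kap_nonneg s x
          have h4 := one_le_wt x
          have h5 := yp_harn hp hq g x
          rw [Real.norm_eq_abs, abs_of_nonneg (mul_nonneg h3 (pow_nonneg (hyp _) _))]
          have h6 : yp p (act (g * x) (base n)) ^ a ≤
              (wt x ^ 4 * yp p (act g (base n))) ^ a := by
            refine pow_le_pow_left₀ (hyp _) (h5.trans ?_) _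
            exact mul_le_mul_of_nonneg_right (pow_le_pow_right₀ h4 (by norm_num)) (hyp _)
          calc kap s x * yp p (act (g * x) (base n)) ^ a
              ≤ kap s x * (wt x ^ 4 * yp p (act g (base n))) ^ a := mul_le_mul_of_nonneg_left h6 h3
            _ = yp p (act g (base n)) ^ a * (kap s x * wt x ^ (4 * a)) := by
                rw [mul_pow, ← pow_mul]
                ring
      · rw [he]
        exact h2 p hp hq g
      · have h4 := one_le_wt x
        by_cases h5 : T ≤ 4 * yp p (act (g * x) (base n))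
        · rw [hun _ h5]
          have : 0 ≤ |T| ^ a * wt x ^ (4 * a) := by positivity
          linarith
        · rw [not_le] at h5
          have h6 := h.harn g x
          have h7 := yp_harn hp hq (g * x) x⁻¹
          rw [mul_inv_cancel_right, wt_inv, ← he] at h7
          have h8 : y (act (g * x) (base n)) ≤ |T| * wt x ^ 4 := by
            have h9 : (0 : ℝ) < wt x ^ 2 := by positivity
            have h10 : yp p (act (g * x) (base n)) ≤ |T| := by
              have := le_abs_self T
              have := hyp (g * x)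
              linarith
            calc y (act (g * x) (base n)) ≤ wt x ^ 2 * y (act g (base n)) := h6
              _ ≤ wt x ^ 2 * (wt x ^ 2 * yp p (act (g * x) (base n))) :=
                  mul_le_mul_of_nonneg_left h7 h9.le
              _ ≤ wt x ^ 2 * (wt x ^ 2 * |T|) := by gcongr
              _ = |T| * wt x ^ 4 := by ring
          have h9 : y (act (g * x) (base n)) ^ a ≤ |T| ^ a * wt x ^ (4 * a) := by
            refine (pow_le_pow_left₀ (hYpos _).le h8 a).trans (le_of_eq ?_)
            rw [mul_pow, ← pow_mul]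
          have := pow_nonneg (hyp (g * x)) a
          linarith
    · rw [not_le] at hT
      refine ⟨fun _ => 0, fun _ => le_rfl, ?_, ?_, fun x => ?_⟩
      · simp
      · simp only [mul_zero, integral_zero]
        exact mul_nonneg hl0 (pow_nonneg (hYpos g).le _)
      · have h4 := one_le_wt x
        have h6 := h.harn g x
        have h8 : y (act (g * x) (base n)) ≤ |T| * wt x ^ 4 := by
          have h9 : (0 : ℝ) < wt x ^ 2 := by positivity
          calc y (act (g * x) (base n)) ≤ wt x ^ 2 * y (act g (base n)) := h6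
            _ ≤ wt x ^ 4 * |T| := mul_le_mul (pow_le_pow_right₀ h4 (by norm_num))
                (hT.le.trans (le_abs_self T)) (hYpos g).le (by positivity)
            _ = |T| * wt x ^ 4 := by ring
        rw [zero_add]
        refine (pow_le_pow_left₀ (hYpos _).le h8 a).trans (le_of_eq ?_)
        rw [mul_pow, ← pow_mul]
  have hsum : Integrable (fun x : SUGroup n => kap s x * F x + |T| ^ a * (kap s x * wt x ^ (4 * a)))
      (mu n) := hFi.add (hint.const_mul _)
  have hYc : Continuous fun x : SUGroup n => y (act (g * x) (base n)) :=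
    h.cont_c.comp_continuous (continuous_orbit.comp (continuous_const_mul g))
      fun x => orbit_mem (g * x)
  have hle : ∀ x, kap s x * y (act (g * x) (base n)) ^ a ≤
      kap s x * F x + |T| ^ a * (kap s x * wt x ^ (4 * a)) := fun x => by
    calc kap s x * y (act (g * x) (base n)) ^ a
        ≤ kap s x * (F x + |T| ^ a * wt x ^ (4 * a)) :=
          mul_le_mul_of_nonneg_left (hF x) (kap_nonneg s x)
      _ = _ := by ring
  have hYi : Integrable (fun x => kap s x * y (act (g * x) (base n)) ^ a) (mu n) := by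
    refine Integrable.mono' hsum ((continuous_kap s).mul (hYc.pow a)).aestronglyMeasurable
      (Filter.Eventually.of_forall fun x => ?_)
    rw [Real.norm_eq_abs, abs_of_nonneg (mul_nonneg (kap_nonneg s x) (pow_nonneg (hYpos _).le _))]
    exact hle x
  refine ⟨hYi, (integral_mono hYi hsum hle).trans ?_⟩
  rw [integral_add hFi (hint.const_mul _), integral_const_mul]
  linarith

/-- The drift condition for the averaging operators. -/
theorem drift_P {T : ℝ} {y : Vec n → ℝ} (h : Ht Γ T y) {a : ℕ} (ha : 1 ≤ a) (han : a < n) :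
    ∃ s₁ : ℕ, ∀ s, s₁ ≤ s → ∃ l C : ℝ, n < s ∧ 0 ≤ l ∧ l < 1 ∧ 0 ≤ C ∧ ∀ v ∈ Cone n,
      P s (fun w => y w ^ a) v ≤ l * y v ^ a + C := by
  obtain ⟨s₁, h1⟩ := drift_int h ha han
  refine ⟨s₁, fun s hs => ?_⟩
  obtain ⟨l, C, h2, h3, h4, h5, h6⟩ := h1 s hs
  refine ⟨l, C, h2, h3, h4, h5, fun v hv => ?_⟩
  obtain ⟨g, c, hc, rfl⟩ := exists_act_eq hv
  rw [P_homog s _ c hc _ (orbit_mem g), P_orbit, h.hom c hc _ (orbit_mem g)]
  simpa only [smul_eq_mul] using (h6 g).2

/-- The drift condition as an inequality of lower integrals. -/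
theorem drift {T : ℝ} {y : Vec n → ℝ} (h : Ht Γ T y) {a : ℕ} (ha : 1 ≤ a) (han : a < n) :
    ∃ (s : ℕ) (l C : ℝ), n < s ∧ 0 ≤ l ∧ l < 1 ∧ 0 ≤ C ∧ ∀ g : SUGroup n,
      ∫⁻ x, ENNReal.ofReal (kap s x) * ENNReal.ofReal (y (act (g * x) (base n)) ^ a) ∂(mu n) ≤
        ENNReal.ofReal l * ENNReal.ofReal (y (act g (base n)) ^ a) + ENNReal.ofReal C := by
  obtain ⟨s, h1⟩ := drift_int h ha han
  obtain ⟨l, C, h2, h3, h4, h5, h6⟩ := h1 s le_rfl
  refine ⟨s, l, C, h2, h3, h4, h5, fun g => ?_⟩
  have hYpos : ∀ g : SUGroup n, 0 < y (act g (base n)) := fun g =>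
    lt_of_lt_of_le one_pos (h.one_le _ (orbit_mem g))
  have e1 : ∀ x : SUGroup n, ENNReal.ofReal (kap s x) *
      ENNReal.ofReal (y (act (g * x) (base n)) ^ a) =
        ENNReal.ofReal (kap s x * y (act (g * x) (base n)) ^ a) := fun x =>
    (ENNReal.ofReal_mul (kap_nonneg s x)).symm
  simp only [e1]
  rw [← ofReal_integral_eq_lintegral_ofReal (h6 g).1 (Filter.Eventually.of_forall fun x =>
      mul_nonneg (kap_nonneg s x) (pow_nonneg (hYpos _).le _)), ← ENNReal.ofReal_mul h3,
    ← ENNReal.ofReal_add (mul_nonneg h3 (pow_nonneg (hYpos g).le _)) h5]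
  exact ENNReal.ofReal_le_ofReal (h6 g).2

/-- An invariant function with the drift condition is integrable over the quotient. -/
theorem LI_of_drift (hL : Lat Γ χ) {s : ℕ} (hs : n < s) {v : SUGroup n → ℝ≥0∞} (hv : Measurable v)
    (hi : ∀ γ ∈ Γ, ∀ g, v (γ * g) = v g) (hf : ∀ g, v g ≠ ⊤) {l C : ℝ} (hl0 : 0 ≤ l) (hl : l < 1)
    (hC : 0 ≤ C)
    (hd : ∀ g, ∫⁻ x, ENNReal.ofReal (kap s x) * v (g * x) ∂(mu n) ≤
      ENNReal.ofReal l * v g + ENNReal.ofReal C) : LI χ v < ⊤ := by
  have hvol : LI χ 1 < ⊤ := hL.LI_one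
  -- the truncations
  set R : ℕ → SUGroup n → ℝ≥0∞ := fun M g => if v g < M then v g else 0 with hR
  have hset : ∀ M : ℕ, MeasurableSet {g : SUGroup n | v g < M} := fun M =>
    measurableSet_lt hv measurable_const
  have hRm : ∀ M, Measurable (R M) := fun M => Measurable.ite (hset M) hv measurable_const
  have hRle : ∀ M g, R M g ≤ M := fun M g => by
    simp only [hR]
    split_ifs with h
    · exact h.le
    · exact zero_le
  have hLIle : ∀ (M : ℕ) (w : SUGroup n → ℝ≥0∞), (∀ g, w g ≤ M) → LI χ w ≤ M * LI χ 1 := by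
    intro M w hw
    have h1 := LI_const_mul hL (M : ℝ≥0∞) (f := 1) aemeasurable_const
    rw [← h1]
    exact LI_mono fun g => by simpa using hw g
  have hfin : ∀ (M : ℕ) (w : SUGroup n → ℝ≥0∞), (∀ g, w g ≤ M) → LI χ w ≠ ⊤ := fun M w hw =>
    ((hLIle M w hw).trans_lt (ENNReal.mul_lt_top (ENNReal.natCast_lt_top M) hvol)).ne
  -- the main estimate
  have key : ∀ M : ℕ, LI χ (R M) ≤ ENNReal.ofReal ((1 - l)⁻¹) * (ENNReal.ofReal C * LI χ 1) := by
    intro M
    set B : SUGroup n → ℝ≥0∞ := fun g => if v g < M then 0 else M with hB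
    have hBle : ∀ g, B g ≤ M := fun g => by
      simp only [hB]
      split_ifs with h
      · exact zero_le
      · exact le_rfl
    have hBm : Measurable B := Measurable.ite (hset M) measurable_const measurable_const
    have hmin : ∀ g, min (v g) M = R M g + B g := by
      intro g
      simp only [hR, hB]
      split_ifs with h
      · rw [min_eq_left h.le, add_zero]
      · rw [min_eq_right (not_lt.1 h), zero_add]
    have h1 := LI_kap hL hs (w := fun g => min (v g) M) (hv.min measurable_const)
      (fun γ hγ g => by simp only [hi γ hγ g])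
    have h2 : LI χ (fun g => ∫⁻ x, ENNReal.ofReal (kap s x) * min (v (g * x)) M ∂(mu n)) ≤
        LI χ (fun g => (ENNReal.ofReal l * R M g + ENNReal.ofReal C * 1) + B g) := by
      refine LI_mono fun g => ?_
      by_cases h : v g < M
      · have e1 : R M g = v g := by simp only [hR, if_pos h]
        have e2 : B g = 0 := by simp only [hB, if_pos h]
        rw [e1, e2, add_zero, mul_one]
        refine le_trans (lintegral_mono fun x => ?_) (hd g)
        exact mul_le_mul_right (min_le_left _ _) _
      · have e2 : B g = M := by simp only [hB, if_neg h]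
        rw [e2]
        refine le_trans (lintegral_mono fun x => mul_le_mul_right (min_le_right _ _) _) ?_
        rw [lintegral_mul_const _ (continuous_kap s).measurable.ennreal_ofReal]
        have e3 : ∫⁻ x : SUGroup n, ENNReal.ofReal (kap s x) ∂(mu n) = 1 := by
          rw [← ofReal_integral_eq_lintegral_ofReal (integrable_kap hs)
            (Filter.Eventually.of_forall fun x => kap_nonneg s x), integral_kap hs,
            ENNReal.ofReal_one]
        rw [e3, one_mul]
        exact le_add_self
    rw [h1] at h2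
    have h3 : LI χ (fun g => min (v g) M) = LI χ (R M) + LI χ B := by
      rw [← LI_add hL (hRm M).aemeasurable]
      exact congrArg _ (funext hmin)
    have h4 : LI χ (fun g => (ENNReal.ofReal l * R M g + ENNReal.ofReal C * 1) + B g) =
        (ENNReal.ofReal l * LI χ (R M) + ENNReal.ofReal C * LI χ 1) + LI χ B := by
      rw [LI_add hL (f₁ := fun g => ENNReal.ofReal l * R M g + ENNReal.ofReal C * 1) (f₂ := B)
          (((hRm M).const_mul _).add measurable_const).aemeasurable,
        LI_add hL (f₁ := fun g => ENNReal.ofReal l * R M g) (f₂ := fun _ => ENNReal.ofReal C * 1)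
          ((hRm M).const_mul _).aemeasurable,
        LI_const_mul hL _ (hRm M).aemeasurable,
        LI_const_mul hL _ (f := fun _ => 1) aemeasurable_const]
      rfl
    rw [h3, h4] at h2
    have h5 : LI χ (R M) ≤ ENNReal.ofReal l * LI χ (R M) + ENNReal.ofReal C * LI χ 1 :=
      (ENNReal.add_le_add_iff_right (hfin M B hBle)).1 h2
    have hA := hfin M (R M) (hRle M)
    generalize LI χ (R M) = A at h5 hA
    generalize LI χ 1 = W at h5 hvol
    lift A to NNReal using hA
    lift W to NNReal using hvol.ne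
    have h6 := ENNReal.toReal_mono (by finiteness) h5
    rw [ENNReal.toReal_add (by finiteness) (by finiteness), ENNReal.toReal_mul, ENNReal.toReal_mul,
      ENNReal.toReal_ofReal hl0, ENNReal.toReal_ofReal hC, ENNReal.coe_toReal,
      ENNReal.coe_toReal] at h6
    have h7 : (A : ℝ) ≤ (1 - l)⁻¹ * (C * W) := by
      rw [← div_eq_inv_mul, le_div_iff₀ (by linarith)]
      nlinarith
    rw [← ENNReal.ofReal_coe_nnreal, ← ENNReal.ofReal_coe_nnreal (p := W),
      ← ENNReal.ofReal_mul hC, ← ENNReal.ofReal_mul (by rw [inv_nonneg]; linarith)]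
    exact ENNReal.ofReal_le_ofReal h7
  -- monotone convergence
  have hsup : ∀ g, ENNReal.ofReal (χ g) * v g = ⨆ M : ℕ, ENNReal.ofReal (χ g) * R M g := by
    intro g
    rw [← ENNReal.mul_iSup]
    congr 1
    refine le_antisymm ?_ (iSup_le fun M => ?_)
    · obtain ⟨M, hM⟩ := ENNReal.exists_nat_gt (hf g)
      refine le_trans (le_of_eq ?_) (le_iSup (fun M : ℕ => R M g) M)
      simp only [hR, if_pos hM]
    · simp only [hR]
      split_ifs
      · exact le_rfl
      · exact zero_le
  have hmono : Monotone fun (M : ℕ) (g : SUGroup n) => ENNReal.ofReal (χ g) * R M g := by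
    intro M M' hMM' g
    refine mul_le_mul_right ?_ _
    simp only [hR]
    split_ifs with h1 h2 h2
    · exact le_rfl
    · exact absurd (h1.trans_le (by exact_mod_cast hMM')) h2
    · exact zero_le
    · exact le_rfl
  have hle : LI χ v ≤ ENNReal.ofReal ((1 - l)⁻¹) * (ENNReal.ofReal C * LI χ 1) := by
    unfold LI
    simp only [hsup]
    rw [lintegral_iSup (f := fun (M : ℕ) (g : SUGroup n) => ENNReal.ofReal (χ g) * R M g)
      (fun M => hL.measurable.mul (hRm M)) hmono]
    exact iSup_le fun M => key M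
  exact hle.trans_lt (ENNReal.mul_lt_top ENNReal.ofReal_lt_top
    (ENNReal.mul_lt_top ENNReal.ofReal_lt_top hvol))

/-- Powers `< n` of a height function are integrable over the quotient. -/
theorem ht_int (hL : Lat Γ χ) {T : ℝ} {y : Vec n → ℝ} (h : Ht Γ T y) {a : ℕ} (ha : 1 ≤ a)
    (han : a < n) : LI χ (fun g => ENNReal.ofReal (y (act g (base n)) ^ a)) < ⊤ := by
  obtain ⟨s, l, C, hs, hl0, hl1, hC, hd⟩ := drift h ha han
  have hc : Continuous fun g : SUGroup n => y (act g (base n)) ^ a :=
    (h.cont_c.comp_continuous continuous_orbit orbit_mem).pow a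
  refine LI_of_drift hL hs (v := fun g => ENNReal.ofReal (y (act g (base n)) ^ a))
    hc.measurable.ennreal_ofReal (fun γ hγ g => ?_) (fun g => ENNReal.ofReal_ne_top) hl0 hl1 hC hd
  simp only [act_mul, h.inv γ hγ _ (orbit_mem g)]

/-- Powers `< n` of the height of a lattice are integrable over the quotient. -/
theorem hty_int (hn : 2 ≤ n) (hL : Lat Γ χ) (hT : TF Γ) (hTor : Tor Γ) {a : ℕ} (ha : 1 ≤ a)
    (han : a < n) :
    LI χ (fun g => ENNReal.ofReal (hty Γ (act g (base n)) ^ a)) < ⊤ :=
  ht_int hL (ht_hty hn hL hT hTor) ha han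

end Pool.Agent.Lib.MP_5d4057_al.WR
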