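import Pool.Agent.Lib.MP_5d4057_al.WR.Alg
import Pool.Agent.Lib.MP_5d4057_al.WR.Flow

/-! The vanishing theorem of Weil, final step: an invariant closed and coclosed form with values in
`sl(n + 1)`, square integrable with its derivatives, vanishes (`n ≥ 2`). -/

set_option autoImplicit false

namespace Pool.Agent.Lib.MP_5d4057_al.WR

open Matrix MeasureTheory Filter Topology Pool.Agent.Lib.MP_5d4057_al
  Pool.Agent.Lib.MP_5d4057_al.Hyb Pool.Agent.Lib.MP_5d4057_al.HM Pool.Agent.Lib.MP_5d4057_al.NU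
  Pool.Agent.Lib.MP_5d4057_al.IN.D

open scoped ComplexOrder MatrixOrder Matrix.Norms.L2Operator ENNReal

variable {n m : ℕ}

theorem ip_smul_left (r : ℝ) (A B : Mat m) : ip (r • A) B = r * ip A B := by
  unfold ip
  rw [smul_mul_assoc, trace_smul, Complex.smul_re, smul_eq_mul]

theorem ip_smul_right (r : ℝ) (A B : Mat m) : ip A (r • B) = r * ip A B := by
  rw [ip_comm, ip_smul_left, ip_comm]

theorem ip_neg_left (A B : Mat m) : ip (-A) B = -ip A B := by
  have h := ip_smul_left (-1) A B
  rw [neg_one_smul, neg_one_mul] at h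
  exact h

theorem ip_abs_le (A B : Mat m) : |ip A B| ≤ (ip A A + ip B B) / 2 := by
  have h1 := ip_self_nonneg (A + B)
  have h2 := ip_self_nonneg (A - B)
  simp only [ip_add_left, ip_add_right, ip_sub_left, ip_sub_right] at h1 h2
  rw [ip_comm B A] at h1 h2
  rw [abs_le]
  constructor <;> linarith

theorem ip_mul_le (X A : Mat m) : ip (X * A) (X * A) ≤ ip X X * ip A A := by
  have h1 : ∀ i j, ‖(X * A) i j‖ ^ 2 ≤ (∑ k, ‖X i k‖ ^ 2) * ∑ k, ‖A k j‖ ^ 2 := by
    intro i j
    rw [Matrix.mul_apply]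
    have h2 : ‖∑ k, X i k * A k j‖ ≤ ∑ k, ‖X i k‖ * ‖A k j‖ := by
      refine (norm_sum_le _ _).trans (Finset.sum_le_sum fun k _ => ?_)
      rw [norm_mul]
    refine (pow_le_pow_left₀ (norm_nonneg _) h2 2).trans ?_
    exact Finset.sum_mul_sq_le_sq_mul_sq _ _ _
  have e : ip X X * ip A A = ∑ i, ∑ j, (∑ k, ‖X i k‖ ^ 2) * ∑ k, ‖A k j‖ ^ 2 := by
    rw [ip_self X, ip_self A, Finset.sum_comm (f := fun i j => ‖A i j‖ ^ 2), Finset.sum_mul_sum]
  rw [e, ip_self]
  exact Finset.sum_le_sum fun i _ => Finset.sum_le_sum fun j _ => h1 i j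

theorem ip_conj (A : Mat m) : ip Aᴴ Aᴴ = ip A A := by
  unfold ip
  rw [conjTranspose_conjTranspose, Matrix.trace_mul_comm]

theorem ip_mul_le' (X A : Mat m) : ip (A * X) (A * X) ≤ ip X X * ip A A := by
  rw [← ip_conj, conjTranspose_mul]
  refine (ip_mul_le _ _).trans (le_of_eq ?_)
  rw [ip_conj, ip_conj]

theorem ip_add_sq_le (A B : Mat m) : ip (A - B) (A - B) ≤ 2 * ip A A + 2 * ip B B := by
  have h1 := ip_self_nonneg (A + B)
  simp only [ip_add_left, ip_add_right, ip_sub_left, ip_sub_right] at h1 ⊢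
  rw [ip_comm B A] at h1 ⊢
  linarith

theorem ip_cm_le (X A : Mat m) : ip (cm X A) (cm X A) ≤ 4 * ip X X * ip A A := by
  refine (ip_add_sq_le _ _).trans ?_
  have h1 := ip_mul_le X A
  have h2 := ip_mul_le' X A
  nlinarith

theorem continuous_ip : Continuous fun p : Mat m × Mat m => ip p.1 p.2 := by
  unfold ip
  exact Complex.continuous_re.comp
    ((continuous_fst.matrix_mul continuous_snd.matrix_conjTranspose).matrix_trace)

theorem continuous_cm (X : Mat m) : Continuous fun A : Mat m => cm X A := by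
  unfold cm
  exact (continuous_const.mul continuous_id).sub (continuous_id.mul continuous_const)

theorem hasDerivAt_ip {f g : ℝ → Mat m} {f' g' : Mat m} {t : ℝ} (hf : HasDerivAt f f' t)
    (hg : HasDerivAt g g' t) : HasDerivAt (fun t => ip (f t) (g t)) (ip f' (g t) + ip (f t) g') t := by
  have h1 : ∀ i j, HasDerivAt (fun t => f t i j) (f' i j) t := fun i j =>
    hasDerivAt_pi.1 (hasDerivAt_pi.1 hf i) j
  have h2 : ∀ i j, HasDerivAt (fun t => g t i j) (g' i j) t := fun i j =>
    hasDerivAt_pi.1 (hasDerivAt_pi.1 hg i) j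
  have e : ∀ A B : Mat m, ip A B = ∑ i, ∑ j, (A i j * star (B i j)).re := by
    intro A B
    unfold ip
    rw [Matrix.trace, Complex.re_sum]
    refine Finset.sum_congr rfl fun i _ => ?_
    rw [Matrix.diag_apply, Matrix.mul_apply, Complex.re_sum]
    rfl
  have h3 : ∀ i j, HasDerivAt (fun t => (f t i j * star (g t i j)).re)
      ((f' i j * star (g t i j)).re + (f t i j * star (g' i j)).re) t := by
    intro i j
    have h4 := (h1 i j).mul (h2 i j).star
    have h5 := Complex.reCLM.hasFDerivAt.comp_hasDerivAt t h4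
    simp only [Complex.reCLM_apply, Complex.add_re] at h5
    exact h5
  have h6 := HasDerivAt.fun_sum (u := Finset.univ) fun i _ =>
    HasDerivAt.fun_sum (u := Finset.univ) fun j _ => h3 i j
  simp only [Finset.sum_add_distrib] at h6
  simp only [e]
  exact h6

theorem hasDerivAt_cm (X : Mat m) {f : ℝ → Mat m} {f' : Mat m} {t : ℝ} (hf : HasDerivAt f f' t) :
    HasDerivAt (fun t => cm X (f t)) (cm X f') t := by
  unfold cm
  exact (hf.const_mul X).sub (hf.mul_const X)

variable {Γ : Subgroup (SUGroup n)} {χ : SUGroup n → ℝ}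

/-- A nonnegative continuous function with integral zero vanishes. -/
theorem zero_of_II (h : Lat Γ χ) {f : SUGroup n → ℝ} (hc : Continuous f) (h0 : ∀ g, 0 ≤ f g)
    (hi : Integrable (fun g => χ g • f g) (mu n)) (hz : II χ f = 0) (g : SUGroup n) : f g = 0 := by
  have h1 := (integral_eq_zero_iff_of_nonneg (μ := mu n) (f := fun g => χ g • f g)
    (fun g => mul_nonneg (h.pos g).le (h0 g)) hi).1 hz
  have h3 : (fun g => χ g • f g) = 0 :=
    Continuous.ae_eq_iff_eq (mu n) (h.cont.smul hc) continuous_const |>.1 h1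
  have h4 := congrFun h3 g
  simp only [smul_eq_mul, Pi.zero_apply] at h4
  exact (mul_eq_zero.1 h4).resolve_left (h.pos g).ne'

theorem integrable_of_le (h : Lat Γ χ) {f F : SUGroup n → ℝ} (hc : Continuous f)
    (hF : Integrable (fun g => χ g • F g) (mu n)) (hle : ∀ g, |f g| ≤ F g) :
    Integrable (fun g => χ g • f g) (mu n) := by
  refine hF.norm.mono' (h.cont.smul hc).aestronglyMeasurable
    (Filter.Eventually.of_forall fun g => ?_)
  rw [norm_smul, norm_smul]
  refine mul_le_mul_of_nonneg_left ?_ (norm_nonneg _)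
  rw [Real.norm_eq_abs, Real.norm_eq_abs]
  exact (hle g).trans (le_abs_self _)

theorem integrable_smul_add {f F : SUGroup n → ℝ} (hf : Integrable (fun g => χ g • f g) (mu n))
    (hF : Integrable (fun g => χ g • F g) (mu n)) :
    Integrable (fun g => χ g • (f g + F g)) (mu n) := by
  simp only [smul_add]
  exact hf.add hF

theorem integrable_smul_mul {f : SUGroup n → ℝ} (c : ℝ)
    (hf : Integrable (fun g => χ g • f g) (mu n)) :
    Integrable (fun g => χ g • (c * f g)) (mu n) := by
  refine (hf.const_mul c).congr (Filter.Eventually.of_forall fun g => ?_)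
  simp only [smul_eq_mul]
  ring

theorem integrable_smul_sum {ι : Type} (s : Finset ι) {f : ι → SUGroup n → ℝ}
    (hf : ∀ i ∈ s, Integrable (fun g => χ g • f i g) (mu n)) :
    Integrable (fun g => χ g • ∑ i ∈ s, f i g) (mu n) := by
  simp only [Finset.smul_sum]
  exact integrable_finsetSum s hf

theorem integrable_ip (h : Lat Γ χ) {A B : SUGroup n → Mat m} (hA : Continuous A)
    (hB : Continuous B) (hiA : Integrable (fun g => χ g • ip (A g) (A g)) (mu n))
    (hiB : Integrable (fun g => χ g • ip (B g) (B g)) (mu n)) :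
    Integrable (fun g => χ g • ip (A g) (B g)) (mu n) := by
  refine integrable_of_le h (F := fun g => 1 / 2 * (ip (A g) (A g) + ip (B g) (B g)))
    (continuous_ip.comp (hA.prodMk hB))
    (integrable_smul_mul _ (integrable_smul_add hiA hiB)) fun g => ?_
  refine (ip_abs_le _ _).trans (le_of_eq ?_)
  ring

theorem integrable_cm (h : Lat Γ χ) (X : Mat m) {A : SUGroup n → Mat m} (hA : Continuous A)
    (hiA : Integrable (fun g => χ g • ip (A g) (A g)) (mu n)) :
    Integrable (fun g => χ g • ip (cm X (A g)) (cm X (A g))) (mu n) := by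
  have hc : Continuous fun g => cm X (A g) := (continuous_cm X).comp hA
  refine integrable_of_le h (F := fun g => 4 * ip X X * ip (A g) (A g))
    (continuous_ip.comp (hc.prodMk hc)) (integrable_smul_mul _ hiA) fun g => ?_
  rw [abs_of_nonneg (ip_self_nonneg _)]
  exact ip_cm_le _ _

/-- The vanishing theorem: invariant `sl(n + 1)`-valued forms which are closed and coclosed and square
integrable with their first derivatives are zero. -/
theorem eta_zero (hn : 2 ≤ n) (h : Lat Γ χ) {η : Ix n → SUGroup n → Mat (n + 1)}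
    {η' : Ix n → Ix n → SUGroup n → Mat (n + 1)} (hc : ∀ b, Continuous (η b))
    (hc' : ∀ a b, Continuous (η' a b))
    (hd : ∀ a b g t, HasDerivAt (fun t => η b (g * ba a t)) (η' a b (g * ba a t)) t)
    (hinv : ∀ b, ∀ γ ∈ Γ, ∀ g, η b (γ * g) = η b g) (htr : ∀ b g, (η b g).trace = 0)
    (hcl : ∀ a b g, η' a b g + cm (Xa a) (η b g) = η' b a g + cm (Xa b) (η a g))
    (hco : ∀ g, ∑ a, (cm (Xa a) (η a g) - η' a a g) = 0)
    (hi : ∀ b, Integrable (fun g => χ g • ip (η b g) (η b g)) (mu n))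
    (hi' : ∀ a b, Integrable (fun g => χ g • ip (η' a b g) (η' a b g)) (mu n)) :
    ∀ b g, η b g = 0 := by
  have hba0 : ∀ a : Ix n, ba a 0 = 1 := fun a => Kak.flow_zero (xi_norm a)
  have hbac : ∀ a : Ix n, Continuous (ba a) := fun a => Kak.continuous_flow (xi_norm a)
  -- the divergence
  obtain ⟨Z, hZ⟩ : ∃ Z : Ix n → SUGroup n → ℝ, Z = fun a g => ∑ b,
    (ip (η b g) (cm (Xa a) (η b g)) - 2 * ip (η b g) (cm (Xa b) (η a g))) := ⟨_, rfl⟩
  obtain ⟨Z', hZ'⟩ : ∃ Z' : Ix n → SUGroup n → ℝ, Z' = fun a g => ∑ b,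
    (2 * ip (η' a b g) (cm (Xa a) (η b g)) - 2 * ip (η' a b g) (cm (Xa b) (η a g)) -
      2 * ip (η' a a g) (cm (Xa b) (η b g))) := ⟨_, rfl⟩
  have hcc : ∀ a b, Continuous fun g => cm (Xa a) (η b g) := fun a b =>
    (continuous_cm _).comp (hc b)
  have hic : ∀ a b, Integrable (fun g => χ g • ip (cm (Xa a) (η b g)) (cm (Xa a) (η b g))) (mu n) :=
    fun a b => integrable_cm h _ (hc b) (hi b)
  have hZc : ∀ a, Continuous (Z a) := by
    intro a
    rw [hZ]
    refine continuous_finsetSum _ fun b _ => ?_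
    exact (continuous_ip.comp ((hc b).prodMk (hcc a b))).sub
      (continuous_const.mul (continuous_ip.comp ((hc b).prodMk (hcc b a))))
  have hZ'c : ∀ a, Continuous (Z' a) := by
    intro a
    rw [hZ']
    refine continuous_finsetSum _ fun b _ => ?_
    exact ((continuous_const.mul (continuous_ip.comp ((hc' a b).prodMk (hcc a b)))).sub
      (continuous_const.mul (continuous_ip.comp ((hc' a b).prodMk (hcc b a))))).sub
      (continuous_const.mul (continuous_ip.comp ((hc' a a).prodMk (hcc b b))))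
  have hsub : ∀ {f F : SUGroup n → ℝ}, Integrable (fun g => χ g • f g) (mu n) →
      Integrable (fun g => χ g • F g) (mu n) → Integrable (fun g => χ g • (f g - F g)) (mu n) := by
    intro f F hf hF
    simp only [smul_sub]
    exact hf.sub hF
  have hZi : ∀ a, Integrable (fun g => χ g • Z a g) (mu n) := by
    intro a
    rw [hZ]
    refine integrable_smul_sum _ fun b _ => ?_
    exact hsub (integrable_ip h (hc b) (hcc a b) (hi b) (hic a b))
      (integrable_smul_mul 2 (integrable_ip h (hc b) (hcc b a) (hi b) (hic b a)))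
  have hZ'i : ∀ a, Integrable (fun g => χ g • Z' a g) (mu n) := by
    intro a
    rw [hZ']
    refine integrable_smul_sum _ fun b _ => ?_
    exact hsub (hsub
      (integrable_smul_mul 2 (integrable_ip h (hc' a b) (hcc a b) (hi' a b) (hic a b)))
      (integrable_smul_mul 2 (integrable_ip h (hc' a b) (hcc b a) (hi' a b) (hic b a))))
      (integrable_smul_mul 2 (integrable_ip h (hc' a a) (hcc b b) (hi' a a) (hic b b)))
  have hZinv : ∀ a, ∀ γ ∈ Γ, ∀ g, Z a (γ * g) = Z a g := by
    intro a γ hγ g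
    rw [hZ]
    simp only [hinv _ γ hγ]
  have hZd : ∀ a g t, HasDerivAt (fun t => Z a (g * ba a t)) (Z' a (g * ba a t)) t := by
    intro a g t
    have h1 : ∀ b, HasDerivAt (fun t => ip (η b (g * ba a t)) (cm (Xa a) (η b (g * ba a t))) -
        2 * ip (η b (g * ba a t)) (cm (Xa b) (η a (g * ba a t))))
        (2 * ip (η' a b (g * ba a t)) (cm (Xa a) (η b (g * ba a t))) -
          2 * ip (η' a b (g * ba a t)) (cm (Xa b) (η a (g * ba a t))) -
          2 * ip (η' a a (g * ba a t)) (cm (Xa b) (η b (g * ba a t)))) t := by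
      intro b
      have h2 := hasDerivAt_ip (hd a b g t) (hasDerivAt_cm (Xa a) (hd a b g t))
      have h3 := (hasDerivAt_ip (hd a b g t) (hasDerivAt_cm (Xa b) (hd a a g t))).const_mul 2
      refine (h2.sub h3).congr_deriv ?_
      have k1 : ip (η b (g * ba a t)) (cm (Xa a) (η' a b (g * ba a t))) =
          ip (η' a b (g * ba a t)) (cm (Xa a) (η b (g * ba a t))) := by
        rw [← ip_cm (Xa_herm a), ip_comm]
      have k2 : ip (η b (g * ba a t)) (cm (Xa b) (η' a a (g * ba a t))) =
          ip (η' a a (g * ba a t)) (cm (Xa b) (η b (g * ba a t))) := by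
        rw [← ip_cm (Xa_herm b), ip_comm]
      rw [k1, k2]
      ring
    have h4 := HasDerivAt.fun_sum (u := Finset.univ) fun b _ => h1 b
    rw [hZ, hZ']
    exact h4
  have hZ0 : ∀ a, II χ (Z' a) = 0 := fun a =>
    II_flow_int h (hba0 a) (hbac a) (hZc a) (hZ'c a) (hZd a) (hZinv a) (hZi a) (hZ'i a)
  -- the sum of squares
  obtain ⟨S, hS⟩ : ∃ S : SUGroup n → ℝ, S = fun g =>
    (∑ x, ∑ y, ip (η' x y g - η' y x g) (η' x y g - η' y x g)) / 2 +
      ip (∑ x, η' x x g) (∑ x, η' x x g) +
    ((∑ x, ∑ y, ip (cm (Xa x) (η y g) - cm (Xa y) (η x g))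
      (cm (Xa x) (η y g) - cm (Xa y) (η x g))) / 2 +
      ip (∑ x, cm (Xa x) (η x g)) (∑ x, cm (Xa x) (η x g))) := ⟨_, rfl⟩
  have hSZ : ∀ g, S g = -∑ a, Z' a g := by
    intro g
    have e := sq_ident (fun x y => η' x y g) (fun x y => cm (Xa x) (η y g))
    have e0 : ∀ x y, η' x y g + cm (Xa x) (η y g) - η' y x g - cm (Xa y) (η x g) = 0 := by
      intro x y
      rw [hcl x y g]
      abel
    simp only [e0, hco g] at e
    have e1 : ip (0 : Mat (n + 1)) 0 = 0 := by simp [ip]
    simp only [e1, Finset.sum_const_zero, zero_div, add_zero] at e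
    rw [hS, hZ']
    simp only
    linarith
  have hS0 : ∀ g, 0 ≤ S g := by
    intro g
    rw [hS]
    have h1 : ∀ A : Mat (n + 1), 0 ≤ ip A A := ip_self_nonneg
    have h2 : 0 ≤ ∑ x, ∑ y, ip (η' x y g - η' y x g) (η' x y g - η' y x g) :=
      Finset.sum_nonneg fun x _ => Finset.sum_nonneg fun y _ => h1 _
    have h3 : 0 ≤ ∑ x, ∑ y, ip (cm (Xa x) (η y g) - cm (Xa y) (η x g))
      (cm (Xa x) (η y g) - cm (Xa y) (η x g)) :=
      Finset.sum_nonneg fun x _ => Finset.sum_nonneg fun y _ => h1 _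
    have h4 := h1 (∑ x, η' x x g)
    have h5 := h1 (∑ x, cm (Xa x) (η x g))
    simp only
    linarith
  have hSe : S = fun g => -1 * ∑ a, Z' a g := by
    funext g
    rw [hSZ]
    ring
  have hSi : Integrable (fun g => χ g • S g) (mu n) := by
    rw [hSe]
    exact integrable_smul_mul _ (integrable_smul_sum _ fun a _ => hZ'i a)
  have hSc : Continuous S := by
    rw [hSe]
    exact continuous_const.mul (continuous_finsetSum _ fun a _ => hZ'c a)
  have hSII : II χ S = 0 := by
    rw [hSe]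
    have e : II χ (fun g => ∑ a, Z' a g) = 0 := by
      unfold II
      simp only [Finset.smul_sum]
      rw [integral_finsetSum _ fun a _ => hZ'i a]
      exact Finset.sum_eq_zero fun a _ => hZ0 a
    have e2 := II_const_smul (χ := χ) (-1) (fun g => ∑ a, Z' a g)
    rw [e, smul_zero] at e2
    exact e2
  intro b g
  have key := zero_of_II h hSc hS0 hSi hSII g
  have h1 : ∀ A : Mat (n + 1), 0 ≤ ip A A := ip_self_nonneg
  have h2 : 0 ≤ ∑ x, ∑ y, ip (η' x y g - η' y x g) (η' x y g - η' y x g) :=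
    Finset.sum_nonneg fun x _ => Finset.sum_nonneg fun y _ => h1 _
  have h3 : 0 ≤ ∑ x, ∑ y, ip (cm (Xa x) (η y g) - cm (Xa y) (η x g))
    (cm (Xa x) (η y g) - cm (Xa y) (η x g)) :=
    Finset.sum_nonneg fun x _ => Finset.sum_nonneg fun y _ => h1 _
  have h4 := h1 (∑ x, η' x x g)
  have h5 := h1 (∑ x, cm (Xa x) (η x g))
  rw [hS] at key
  simp only at key
  have k1 : ∑ x, ∑ y, ip (cm (Xa x) (η y g) - cm (Xa y) (η x g))
    (cm (Xa x) (η y g) - cm (Xa y) (η x g)) = 0 := by linarith
  have k2 : ip (∑ x, cm (Xa x) (η x g)) (∑ x, cm (Xa x) (η x g)) = 0 := by linarith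
  refine alg_zero hn (η := fun b => η b g) (fun a => htr a g) (fun x y => ?_)
    (ip_self_zero k2) b
  rw [Finset.sum_eq_zero_iff_of_nonneg fun x _ => Finset.sum_nonneg fun y _ => h1 _] at k1
  have k3 := k1 x (Finset.mem_univ x)
  rw [Finset.sum_eq_zero_iff_of_nonneg fun y _ => h1 _] at k3
  exact sub_eq_zero.1 (ip_self_zero (k3 y (Finset.mem_univ y)))

end Pool.Agent.Lib.MP_5d4057_al.WR
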