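import Pool.Agent.Lib.MP_5d4057_al.WR.Itr
import Pool.Agent.Lib.MP_5d4057_al.HM.SmoothB

/-! Bounds for the derivatives of `P s f` at the base point, up to any order. -/

set_option autoImplicit false

namespace Pool.Agent.Lib.MP_5d4057_al.WR

open Matrix MeasureTheory Filter Topology Pool.Agent.Lib.MP_5d4057_al
  Pool.Agent.Lib.MP_5d4057_al.Hyb Pool.Agent.Lib.MP_5d4057_al.HM

open scoped ComplexOrder MatrixOrder Matrix.Norms.L2Operator ENNReal

variable {n : ℕ}

/-- All derivatives of `P s f` at the base point are bounded by the growth constant of `f`: the kernel is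
smooth on the product of the cone and a compact set (`P_eq`, `contDiffOn_KPhi`); induction on the order
with `pd` (`hasFDerivAt_param`), `norm_iteratedFDeriv_fderiv`. Compare `P_base_bound`. -/
theorem P_iter (E : Type) [NormedAddCommGroup E] [NormedSpace ℝ E] {s N : ℕ} (h : n + N < s)
    (k : ℕ) : ∃ C' : ℝ, 0 ≤ C' ∧ ∀ (C : ℝ) (f : Vec n → E), Adm N C f →
      ‖iteratedFDeriv ℝ k (P s f) (base n)‖ ≤ C' * C :=
  iter_bound E (by omega) (integrable_inv (by omega)) k

end Pool.Agent.Lib.MP_5d4057_al.WR
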