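import Pool.Agent.Lib.MP_5d4057_al.HM.SmoothT

/-! All derivatives of the averages `P s φ` at the base point are bounded by the constant of growth
of `φ`. -/

set_option autoImplicit false

namespace Pool.Agent.Lib.MP_5d4057_al.WR

open Matrix MeasureTheory Filter Topology Pool.Agent.Lib.MP_5d4057_al
  Pool.Agent.Lib.MP_5d4057_al.Hyb Pool.Agent.Lib.MP_5d4057_al.HM

open scoped ComplexOrder MatrixOrder Matrix.Norms.L2Operator

section param

open Set Function

variable {α P X G : Type} [MeasurableSpace α] {ν : Measure α}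
  [NormedAddCommGroup P] [NormedSpace ℝ P] [NormedAddCommGroup X] [NormedSpace ℝ X]
  [MeasurableSpace X] [BorelSpace X] [SecondCountableTopology X]
  [NormedAddCommGroup G] [NormedSpace ℝ G]
  {Ω : Set (P × X)} {s : Set P} {k : Set X}

/-- The bound of the iterated derivatives of a parameter integral at one point, uniform in the
weight. -/
theorem bound_param_iter (hs : IsOpen s) (hΩ : IsOpen Ω) (hk : IsCompact k) (hsk : s ×ˢ k ⊆ Ω)
    {p : P} (hp : p ∈ s) (j : ℕ) : ∀ {F H : Type} [NormedAddCommGroup F] [NormedSpace ℝ F]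
    [NormedAddCommGroup H] [NormedSpace ℝ H] (B : F →L[ℝ] G →L[ℝ] H) {Φ : P → X → F},
    ContDiffOn ℝ (⊤ : ℕ∞) (uncurry Φ) Ω →
    ∃ K : ℝ, 0 ≤ K ∧ ∀ (u : α → X) (m : α → G), AEMeasurable u ν → (∀ a, u a ∈ k) →
      Integrable m ν →
      ‖iteratedFDeriv ℝ j (fun p => ∫ a, B (Φ p (u a)) (m a) ∂ν) p‖ ≤ K * ∫ a, ‖m a‖ ∂ν := by
  induction j with
  | zero =>
    intro F H _ _ _ _ B Φ hΦ
    obtain ⟨K, hK, h⟩ := bound_param_zero (ν := ν) B hs hΩ hk hsk hΦ.continuousOn hp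
    refine ⟨K, hK, fun u m _ huk hm => ?_⟩
    rw [norm_iteratedFDeriv_zero]
    exact h u m huk hm
  | succ j ih =>
    intro F H _ _ _ _ B Φ hΦ
    have hΦ1 : ContDiffOn ℝ 1 (uncurry Φ) Ω :=
      hΦ.of_le (by exact_mod_cast (le_top : ((1 : ℕ) : ℕ∞) ≤ ⊤))
    have hd : ContDiffOn ℝ (⊤ : ℕ∞) (uncurry (pd Φ)) Ω := by
      refine contDiffOn_pd (n := ⊤) hΩ ?_
      simpa using hΦ
    obtain ⟨K, hK, h⟩ := ih (preL B) hd
    refine ⟨K, hK, fun u m hu huk hm => ?_⟩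
    have h1 : fderiv ℝ (fun p => ∫ a, B (Φ p (u a)) (m a) ∂ν) =ᶠ[𝓝 p]
        fun p => ∫ a, (preL B) (pd Φ p (u a)) (m a) ∂ν := by
      filter_upwards [hs.mem_nhds hp] with p hp
      exact (hasFDerivAt_param B hs hΩ hk hsk hΦ1 hu huk hm hp).fderiv
    rw [← norm_iteratedFDeriv_fderiv, (h1.iteratedFDeriv ℝ j).eq_of_nhds]
    exact h u m hu huk hm

end param

variable {n : ℕ}

/-- All derivatives of `P s φ` at the base point. -/
theorem iter_bound (E : Type) [NormedAddCommGroup E] [NormedSpace ℝ E] {s N : ℕ} (hN : N ≤ s)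
    (hs : Integrable (fun x : SUGroup n => (ch x ^ (2 * (s - N)))⁻¹) (mu n)) (j : ℕ) :
    ∃ K : ℝ, 0 ≤ K ∧ ∀ (C : ℝ) (f : Vec n → E), Adm N C f →
      ‖iteratedFDeriv ℝ j (P s f) (base n)‖ ≤ K * C := by
  obtain ⟨K0, hK0, h0⟩ := bound_param_iter (ν := mu n) (isOpen_cone n) (isOpen_Om n)
    (isCompact_zball n) (cone_prod_subset n) (base_mem n) j
    (ContinuousLinearMap.lsmul ℝ ℝ (E := E)) (contDiffOn_KPhi s)
  have hcs : 0 ≤ cs n (s - N) := integral_nonneg fun x => by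
    have : 0 < ch x := lt_of_lt_of_le one_pos (one_le_ch x)
    positivity
  obtain ⟨M, hM⟩ : ∃ M : ℝ, M = |cs n s|⁻¹ * cs n (s - N) := ⟨_, rfl⟩
  have hM0 : 0 ≤ M := by
    rw [hM]
    positivity
  have hmu := (continuous_zcv (n := n)).aemeasurable (μ := mu n)
  refine ⟨K0 * M, by positivity, fun C f hf => ?_⟩
  have hi := integrable_wgt hf hN hs
  have hw := integral_norm_wgt_le hf hN hs
  rw [← hM] at hw
  have hP : P s f = fun v => ∫ y : SUGroup n,
      ContinuousLinearMap.lsmul ℝ ℝ (KPhi s v (zc y)) (wgt s f y) ∂(mu n) := funext (P_eq s f)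
  rw [hP]
  refine (h0 _ _ hmu (zc_mem (n := n)) hi).trans ?_
  calc K0 * ∫ y, ‖wgt s f y‖ ∂(mu n) ≤ K0 * (C * M) := mul_le_mul_of_nonneg_left hw hK0
    _ = K0 * M * C := by ring

end Pool.Agent.Lib.MP_5d4057_al.WR
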