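import Pool.Agent.Lib.MP_5d4057_al.WR.Eig
import Pool.Agent.Lib.MP_5d4057_al.WR.Iter
import Pool.Agent.Lib.MP_5d4057_al.HM.SmoothB

/-! Consequences of `Sol`: smoothness, the Laplacian, bounds of the derivatives (helper20). -/

set_option autoImplicit false

namespace Pool.Agent.Lib.MP_5d4057_al.WR

open Matrix MeasureTheory Filter Topology Pool.Agent.Lib.MP_5d4057_al
  Pool.Agent.Lib.MP_5d4057_al.Hyb Pool.Agent.Lib.MP_5d4057_al.HM Pool.Agent.Lib.MP_5d4057_al.NU
  Pool.Agent.Lib.MP_5d4057_al.IN.D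

open scoped ComplexOrder MatrixOrder Matrix.Norms.L2Operator ENNReal

variable {n : ℕ}

variable {Γ : Subgroup (SUGroup n)} {κ : Γ → Mat (n + 1)} {s N : ℕ} {C : ℝ} {W : Vec n → ℝ}
  {f : Vec n → ℂ}

private theorem sb_cE_pos {s : ℕ} (hs : n + 1 < s) : 0 < cE n s := by
  have h1 : (n : ℝ) + 1 < s := by exact_mod_cast hs
  have h2 : (0 : ℝ) ≤ n := Nat.cast_nonneg n
  rw [cE]
  apply div_pos <;> linarith

/-- growth: `bd` at `g = 1` and `adm_fB`. -/
theorem Sol.adm (h : Sol κ s N C W f) : ∃ C₁ : ℝ, Adm (N + 1) C₁ f := by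
  obtain ⟨B, -, hB⟩ := h.bd 1
  refine ⟨|C * W (act (1 : SUGroup n) (base n))| + 4 * ‖B‖, adm_of_continuousOn h.cont fun y => ?_⟩
  have h1 := hB y
  rw [one_mul] at h1
  have h2 := (adm_fB B).bound y
  have h3 := one_le_ch y
  have h4 : ch y ^ (2 * N) ≤ ch y ^ (2 * (N + 1)) := pow_le_pow_right₀ h3 (by omega)
  have h5 : ch y ^ (2 * 1) ≤ ch y ^ (2 * (N + 1)) := pow_le_pow_right₀ h3 (by omega)
  have h6 : ‖f (act y (base n))‖ ≤ ‖f (act y (base n)) - fB B (act y (base n))‖ +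
      ‖fB B (act y (base n))‖ := by
    have := norm_add_le (f (act y (base n)) - fB B (act y (base n))) (fB B (act y (base n)))
    rwa [sub_add_cancel] at this
  have h7 : C * ch y ^ (2 * N) * W (act (1 : SUGroup n) (base n)) ≤
      |C * W (act (1 : SUGroup n) (base n))| * ch y ^ (2 * (N + 1)) := by
    have h8 : 0 ≤ ch y ^ (2 * N) := by positivity
    calc C * ch y ^ (2 * N) * W (act (1 : SUGroup n) (base n)) =
          C * W (act (1 : SUGroup n) (base n)) * ch y ^ (2 * N) := by ring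
      _ ≤ |C * W (act (1 : SUGroup n) (base n))| * ch y ^ (2 * N) :=
          mul_le_mul_of_nonneg_right (le_abs_self _) h8
      _ ≤ _ := mul_le_mul_of_nonneg_left h4 (abs_nonneg _)
  have h9 : 4 * ‖B‖ * ch y ^ (2 * 1) ≤ 4 * ‖B‖ * ch y ^ (2 * (N + 1)) :=
    mul_le_mul_of_nonneg_left h5 (by positivity)
  linarith

private theorem Sol.eq_P (h : Sol κ s N C W f) (hs : n + N + 2 < s) {v : Vec n} (hv : v ∈ Cone n) :
    f v = P s (fun v => (cE n s)⁻¹ • f v) v := by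
  have hc := (sb_cE_pos (n := n) (s := s) (by omega)).ne'
  rw [P_smul, h.eig v hv, smul_smul, inv_mul_cancel₀ hc, one_smul]

/-- `f = (cE n s)⁻¹ • P s f` and `contDiffOn_P`. -/
theorem Sol.smooth (h : Sol κ s N C W f) (hs : n + N + 2 < s) :
    ContDiffOn ℝ (⊤ : ℕ∞) f (Cone n) := by
  obtain ⟨C₁, hC₁⟩ := h.adm
  exact (Sm.contDiffOn_P (hC₁.smul (cE n s)⁻¹) (by omega)).congr fun v hv => h.eq_P hs hv

/-- `lap_P`: `Lap (P s f) = lam n s (P s f - P (s+1) f)`, `lam n s (1 - cE n (s+1) / cE n s) = n + 1`. -/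
theorem Sol.lap (h : Sol κ s N C W f) (hs : n + N + 2 < s) {v : Vec n} (hv : v ∈ Cone n) :
    Lap f v = ((n : ℝ) + 1) • f v := by
  obtain ⟨C₁, hC₁⟩ := h.adm
  have h1 : f =ᶠ[𝓝 v] P s (fun v => (cE n s)⁻¹ • f v) := by
    filter_upwards [(isOpen_cone n).mem_nhds hv] with w hw
    exact h.eq_P hs hw
  have h2 : Lap f v = Lap (P s (fun v => (cE n s)⁻¹ • f v)) v := by
    unfold Lap
    rw [h1.fderiv.fderiv_eq]
  rw [h2, Sm.lap_P (hC₁.smul (cE n s)⁻¹) (by omega) hv, ← h.eq_P hs hv, P_smul, h.eig' v hv,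
    smul_smul, smul_sub, smul_smul, ← sub_smul]
  congr 1
  have hs' : (n : ℝ) + N + 2 < s := by exact_mod_cast hs
  have hn : (0 : ℝ) ≤ n := Nat.cast_nonneg n
  have hN : (0 : ℝ) ≤ N := Nat.cast_nonneg N
  have e1 : (s : ℝ) - n - 1 ≠ 0 := by linarith
  have e2 : (s : ℝ) - n ≠ 0 := by linarith
  have e3 : (s : ℝ) ≠ 0 := by linarith
  have e4 : (s : ℝ) + 1 - n - 1 ≠ 0 := by
    intro h0
    apply e2
    linarith
  rw [lam, cE, cE]
  push_cast
  field_simp
  ring

/-- The derivatives at `g e` in the frame of `g`, after subtraction of a flat function: apply `P_iter` to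
`w ↦ f (g w) - fB B (g w)`, which is again an eigenfunction of `P s` (`P_fB`, `fB_act`). -/
theorem Sol.der (h : Sol κ s N C W f) (hs : n + N + 2 < s) (hW : ∀ v ∈ Cone n, 0 ≤ W v) :
    ∃ C₂ : ℝ, 0 ≤ C₂ ∧ ∀ g : SUGroup n, ∃ B : Mat (n + 1), B.trace = 0 ∧ ∀ k ≤ 4,
      ‖iteratedFDeriv ℝ k (fun w => f (act g w) - fB B (act g w)) (base n)‖ ≤
        C₂ * W (act g (base n)) := by
  have hc := sb_cE_pos (n := n) (s := s) (by omega)
  obtain ⟨C₁, hC₁⟩ := h.adm
  have hit : ∀ k : ℕ, ∃ C' : ℝ, 0 ≤ C' ∧ ∀ (C : ℝ) (f : Vec n → ℂ), Adm N C f →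
      ‖iteratedFDeriv ℝ k (P s f) (base n)‖ ≤ C' * C := fun k => P_iter ℂ (by omega) k
  choose K hK0 hK using hit
  refine ⟨(∑ k ∈ Finset.range 5, K k) * ((cE n s)⁻¹ * |C|), ?_, fun g => ?_⟩
  · have : 0 ≤ ∑ k ∈ Finset.range 5, K k := Finset.sum_nonneg fun k _ => hK0 k
    positivity
  obtain ⟨B, hB0, hB⟩ := h.bd g
  refine ⟨B, hB0, fun k hk => ?_⟩
  set φ : Vec n → ℂ := fun w => f (act g w) - fB B (act g w) with hφ
  have hφc : ContinuousOn φ (Cone n) := by
    have h1 : ContinuousOn (fun w : Vec n => act g w) (Cone n) := by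
      have : Continuous fun w : Vec n => act g w := by
        unfold act
        fun_prop
      exact this.continuousOn
    have h2 : Set.MapsTo (fun w : Vec n => act g w) (Cone n) (Cone n) := fun w hw => act_mem g hw
    exact (h.cont.comp h1 h2).sub ((contDiffOn_fB B).continuousOn.comp h1 h2)
  have hφa : Adm N (C * W (act g (base n))) φ := by
    refine adm_of_continuousOn hφc fun y => ?_
    have h1 := hB y
    rw [hφ]
    simp only
    rw [← act_mul]
    calc _ ≤ _ := h1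
      _ = _ := by ring
  have hfa : Adm (N + 1) (C₁ * (2 * ch g) ^ (2 * (N + 1))) fun w => f (act g w) := hC₁.act g
  have hBa : Adm 1 (4 * ‖B‖ * (2 * ch g) ^ (2 * 1)) fun w => fB B (act g w) := (adm_fB B).act g
  have hφe : ∀ v ∈ Cone n, φ v = P s (fun v => (cE n s)⁻¹ • φ v) v := by
    intro v hv
    have h1 : P s φ v = P s (fun w => f (act g w)) v - P s (fun w => fB B (act g w)) v :=
      Sm.P_sub hfa hBa (by omega) (by omega) hv
    rw [P_smul, h1, Sm.P_act, Sm.P_act, h.eig _ (act_mem g hv), P_fB hB0 (by omega) (act_mem g hv),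
      ← smul_sub, smul_smul, inv_mul_cancel₀ hc.ne', one_smul]
  have h1 : φ =ᶠ[𝓝 (base n)] P s (fun v => (cE n s)⁻¹ • φ v) := by
    filter_upwards [(isOpen_cone n).mem_nhds (base_mem n)] with w hw
    exact hφe w hw
  rw [(h1.iteratedFDeriv ℝ k).eq_of_nhds]
  have h2 := hK k _ _ (hφa.smul (cE n s)⁻¹)
  refine h2.trans ?_
  have hw := hW _ (orbit_mem g)
  have h3 : K k ≤ ∑ k ∈ Finset.range 5, K k :=
    Finset.single_le_sum (f := K) (fun i _ => hK0 i) (Finset.mem_range.2 (by omega))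
  rw [abs_of_pos (inv_pos.2 hc)]
  calc K k * ((cE n s)⁻¹ * (C * W (act g (base n)))) ≤
        K k * ((cE n s)⁻¹ * (|C| * W (act g (base n)))) := by
        refine mul_le_mul_of_nonneg_left (mul_le_mul_of_nonneg_left ?_ (inv_pos.2 hc).le) (hK0 k)
        exact mul_le_mul_of_nonneg_right (le_abs_self C) hw
    _ ≤ (∑ k ∈ Finset.range 5, K k) * ((cE n s)⁻¹ * (|C| * W (act g (base n)))) :=
        mul_le_mul_of_nonneg_right h3 (by positivity)
    _ = _ := by ring

end Pool.Agent.Lib.MP_5d4057_al.WR
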