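import Pool.Agent.Lib.MP_5d4057_al.WR.Defs
import Pool.Agent.Lib.MP_5d4057_al.NU.Barr
import Pool.Agent.Lib.MP_5d4057_al.HM.Comm
import Pool.Agent.Lib.MP_5d4057_al.WR.HtyInt

/-! The weight `hty ^ 2 + b`. -/

set_option autoImplicit false

namespace Pool.Agent.Lib.MP_5d4057_al.WR

open Matrix MeasureTheory Filter Topology Pool.Agent.Lib.MP_5d4057_al
  Pool.Agent.Lib.MP_5d4057_al.Hyb Pool.Agent.Lib.MP_5d4057_al.HM Pool.Agent.Lib.MP_5d4057_al.NU
  Pool.Agent.Lib.MP_5d4057_al.IN.D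

open scoped ComplexOrder MatrixOrder Matrix.Norms.L2Operator ENNReal

variable {n : ℕ}

/-- Growth of powers of the height. -/
theorem hty_pow_le {Γ : Subgroup (SUGroup n)} {T : ℝ} {y : Vec n → ℝ} (h : Ht Γ T y) (a : ℕ)
    (g x : SUGroup n) : y (act (g * x) (base n)) ^ a ≤
      4 ^ a * ch x ^ (2 * a) * y (act g (base n)) ^ a := by
  have h1 := h.harn g x
  have h2 : 1 ≤ y (act (g * x) (base n)) := h.one_le _ (orbit_mem _)
  have h3 : 1 ≤ y (act g (base n)) := h.one_le _ (orbit_mem _)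
  have h4 := wt_le x
  have h5 := one_le_wt x
  have h6 : wt x ^ 2 ≤ 4 * ch x ^ 2 := by nlinarith
  calc y (act (g * x) (base n)) ^ a ≤ (4 * ch x ^ 2 * y (act g (base n))) ^ a := by
        refine pow_le_pow_left₀ (by linarith) (h1.trans ?_) a
        exact mul_le_mul_of_nonneg_right h6 (by linarith)
    _ = _ := by rw [mul_pow, mul_pow, ← pow_mul]

/-- Powers of the height are admissible. -/
theorem adm_hty_pow {Γ : Subgroup (SUGroup n)} {T : ℝ} {y : Vec n → ℝ} (h : Ht Γ T y) (a : ℕ) :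
    Adm a (4 ^ a * y (base n) ^ a) fun v => y v ^ a where
  meas := by
    have h1 : Continuous fun g : SUGroup n => y (act g (base n)) := by
      have h2 := h.cont
      exact h2.comp_continuous continuous_orbit orbit_mem
    exact (h1.pow a).aestronglyMeasurable
  bound := by
    intro g
    have h1 := hty_pow_le h a 1 g
    rw [one_mul, act_one] at h1
    have h2 : 1 ≤ y (act g (base n)) := h.one_le _ (orbit_mem _)
    rw [Real.norm_of_nonneg (by positivity)]
    linarith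

theorem integrable_of_LI {χ : SUGroup n → ℝ} {Γ : Subgroup (SUGroup n)} (hL : Lat Γ χ)
    {f : SUGroup n → ℝ} (hf : Continuous f) (h0 : ∀ g, 0 ≤ f g)
    (h : LI χ (fun g => ENNReal.ofReal (f g)) < ⊤) : Integrable (fun g => χ g * f g) (mu n) := by
  have h1 : Continuous fun g => χ g * f g := hL.cont.mul hf
  refine ⟨h1.aestronglyMeasurable, ?_⟩
  rw [hasFiniteIntegral_iff_ofReal (Filter.Eventually.of_forall fun g =>
    mul_nonneg (hL.pos g).le (h0 g))]
  refine lt_of_eq_of_lt ?_ h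
  rw [LI]
  refine lintegral_congr fun g => ?_
  rw [ENNReal.ofReal_mul (hL.pos g).le]

/-- The weight from the drift inequality and the integrability of the height. -/
theorem exists_wgt_of (hn : 5 ≤ n) {Γ : Subgroup (SUGroup n)} {χ : SUGroup n → ℝ} (hL : Lat Γ χ)
    {T : ℝ} {y : Vec n → ℝ} (hy : Ht Γ T y)
    (hdr : ∃ s₁ : ℕ, ∀ s, s₁ ≤ s → ∃ C : ℝ, ∀ v ∈ Cone n,
      P s (fun w => y w ^ 2) v ≤ y v ^ 2 + C)
    (hI : LI χ (fun g => ENNReal.ofReal (y (act g (base n)) ^ 4)) < ⊤) :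
    ∃ s₀ : ℕ, ∀ s, s₀ ≤ s → ∃ b : ℝ, 0 ≤ b ∧ Wgt Γ χ s fun v => y v ^ 2 + b := by
  obtain ⟨s₁, hs₁⟩ := hdr
  obtain ⟨s₂, hs₂⟩ := P_add (E := ℝ) n 2
  obtain ⟨s₃, hs₃⟩ := HM.P_const (E := ℝ) n
  refine ⟨s₁ + s₂ + s₃ + n + 2, fun s hs => ?_⟩
  obtain ⟨C, hC⟩ := hs₁ s (by omega)
  have hyc : Continuous fun g : SUGroup n => y (act g (base n)) :=
    hy.cont.comp_continuous continuous_orbit orbit_mem
  have hsn : (n : ℝ) + 2 ≤ s := by
    have : n + 2 ≤ s := by omega
    exact_mod_cast this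
  have hcE : 1 < cE n s := by
    rw [cE, lt_div_iff₀ (by linarith)]
    have : (0 : ℝ) ≤ n := Nat.cast_nonneg n
    linarith
  set e : ℝ := (cE n s - 1) / 2 with he
  have he0 : 0 < e := by rw [he]; linarith
  set b : ℝ := max C 0 / e + 1 with hb
  have hb1 : 1 ≤ b := by
    rw [hb]
    have : 0 ≤ max C 0 / e := div_nonneg (le_max_right _ _) he0.le
    linarith
  have hCb : C ≤ e * b := by
    rw [hb, mul_add, mul_one, mul_div_cancel₀ _ he0.ne']
    have := le_max_left C 0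
    linarith
  refine ⟨b, by linarith, ?_⟩
  have h1 : ∀ v ∈ Cone n, 1 ≤ y v := hy.one_le
  refine
    { hom := fun c hc v hv => by simp only [hy.hom c hc v hv]
      cont := (hy.cont.pow 2).add continuousOn_const
      inv := fun γ hγ v hv => by simp only [hy.inv γ hγ v hv]
      one_le := fun v hv => by
        have := sq_nonneg (y v)
        linarith
      grow := fun g x => ?_
      avg := ⟨(1 + e) / cE n s, ?_, ?_, fun v hv => ?_⟩
      int := ?_ }
  · have h2 := hty_pow_le hy 2 g x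
    have h3 := one_le_ch x
    have h4 : 1 ≤ ch x ^ 4 := one_le_pow₀ h3
    norm_num at h2
    nlinarith
  · positivity
  · rw [div_lt_one (by linarith)]
    rw [he]
    linarith
  · have hadd := hs₂ s (by omega) (4 ^ 2 * y (base n) ^ 2) b (fun w => y w ^ 2) (fun _ => b)
      (adm_hty_pow hy 2) ⟨aestronglyMeasurable_const, fun g => by
        rw [Real.norm_of_nonneg (by linarith)]
        have := one_le_pow₀ (one_le_ch g) (n := 2 * 2)
        nlinarith⟩ v hv
    rw [hadd, hs₃ s (by omega) b v hv]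
    have h5 := hC v hv
    have h6 : cE n s * ((1 + e) / cE n s) = 1 + e := by
      have : cE n s ≠ 0 := by linarith
      field_simp
    rw [h6]
    have h7 : 0 ≤ y v ^ 2 := sq_nonneg _
    nlinarith
  · have h2 : Integrable (fun g => χ g * y (act g (base n)) ^ 4) (mu n) :=
      integrable_of_LI hL (hyc.pow 4) (fun g => by positivity) hI
    have h3 : Integrable (fun g => 2 * (χ g * y (act g (base n)) ^ 4) + 2 * b ^ 2 * χ g) (mu n) :=
      (h2.const_mul 2).add (hL.int.const_mul _)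
    refine h3.mono' ?_ (Filter.Eventually.of_forall fun g => ?_)
    · exact (hL.cont.mul (((hyc.pow 2).add continuous_const).pow 2)).aestronglyMeasurable
    · have h4 := hL.pos g
      rw [Real.norm_of_nonneg (by positivity)]
      have h5 : (y (act g (base n)) ^ 2 + b) ^ 2 ≤ 2 * y (act g (base n)) ^ 4 + 2 * b ^ 2 := by
        nlinarith [sq_nonneg (y (act g (base n)) ^ 2 - b)]
      nlinarith

/-- The drift inequality `P s (hty ^ 2) ≤ hty ^ 2 + C` (helper51, HtyInt) and `hty_int` with exponent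
`4 < n`: `exists_wgt_of`. -/
theorem exists_wgt (hn : 5 ≤ n) {Γ : Subgroup (SUGroup n)} {χ : SUGroup n → ℝ} (hL : Lat Γ χ)
    (hT : TF Γ) (hTor : Tor Γ) : ∃ s₀ : ℕ, ∀ s, s₀ ≤ s → ∃ b : ℝ, 0 ≤ b ∧
      Wgt Γ χ s fun v => hty Γ v ^ 2 + b := by
  have hy := ht_hty (by omega : 2 ≤ n) hL hT hTor
  refine exists_wgt_of hn hL hy ?_
    (hty_int (by omega : 2 ≤ n) hL hT hTor (by norm_num : 1 ≤ 4) (by omega : 4 < n))
  obtain ⟨s₁, hs₁⟩ := drift_P hy (by norm_num : 1 ≤ 2) (by omega : 2 < n)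
  refine ⟨s₁, fun s hs => ?_⟩
  obtain ⟨l, C, -, -, hl1, -, h⟩ := hs₁ s hs
  refine ⟨C, fun v hv => (h v hv).trans ?_⟩
  have := sq_nonneg (hty Γ v)
  nlinarith

end Pool.Agent.Lib.MP_5d4057_al.WR
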