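import Pool.Agent.Lib.MP_5d4057_al.WR.Base
import Pool.Agent.Lib.MP_5d4057_al.WR.Wgt
import Pool.Agent.Lib.MP_5d4057_al.WR.Fix
import Pool.Agent.Lib.MP_5d4057_al.WR.Sol
import Pool.Agent.Lib.MP_5d4057_al.WR.Div
import Pool.Agent.Lib.MP_5d4057_al.WR.Cone

/-! The vanishing theorem for torsion free lattices. -/

set_option autoImplicit false

namespace Pool.Agent.Lib.MP_5d4057_al.WR

open Matrix MeasureTheory Filter Topology Pool.Agent.Lib.MP_5d4057_al
  Pool.Agent.Lib.MP_5d4057_al.Hyb Pool.Agent.Lib.MP_5d4057_al.HM Pool.Agent.Lib.MP_5d4057_al.NU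
  Pool.Agent.Lib.MP_5d4057_al.IN.D

open scoped ComplexOrder MatrixOrder Matrix.Norms.L2Operator ENNReal

variable {n : ℕ}

/-- `A ↦ g⁻¹ A g` as a linear map. -/
theorem exists_cjL (g : SUGroup n) : ∃ l : Mat (n + 1) →L[ℝ] Mat (n + 1), ∀ A,
    l A = (g⁻¹).toMatrix * A * g.toMatrix :=
  ⟨((LinearMap.mulLeft ℝ (g⁻¹).toMatrix).comp
    (LinearMap.mulRight ℝ g.toMatrix)).toContinuousLinearMap, fun A => by
    show (g⁻¹).toMatrix * (A * g.toMatrix) = _
    rw [Matrix.mul_assoc]⟩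

/-- The first derivatives of `Φ v = g⁻¹ G(g v) g - B'`. -/
theorem frame_one {G Φ : Vec n → Mat (n + 1)} (h2 : ContDiffOn ℝ 2 G (Cone n)) (g : SUGroup n)
    (B' : Mat (n + 1))
    (hΦ : ∀ v ∈ Cone n, Φ v = (g⁻¹).toMatrix * G (act g v) * g.toMatrix - B') {v : Vec n}
    (hv : v ∈ Cone n) (w : Vec n) :
    fderiv ℝ Φ v w = (g⁻¹).toMatrix * fderiv ℝ G (act g v) (act g w) * g.toMatrix := by
  obtain ⟨l, hl⟩ := exists_cjL g
  have hd : DifferentiableAt ℝ G (act g v) :=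
    (h2.contDiffAt ((isOpen_cone n).mem_nhds (act_mem g hv))).differentiableAt (by norm_num)
  have h0 : HasFDerivAt (fun u => G (actL g u)) ((fderiv ℝ G (act g v)).comp (actL g)) v :=
    HasFDerivAt.comp v (g := G) (f := fun u => actL g u) hd.hasFDerivAt (actL g).hasFDerivAt
  have h1 : HasFDerivAt (fun u => l (G (actL g u)) - B') (l.comp ((fderiv ℝ G (act g v)).comp
      (actL g))) v := (l.hasFDerivAt.comp v h0).sub_const B'
  have h3 : Φ =ᶠ[𝓝 v] fun u => l (G (actL g u)) - B' := by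
    filter_upwards [(isOpen_cone n).mem_nhds hv] with u hu
    rw [hΦ u hu, hl]
    rfl
  rw [(h1.congr_of_eventuallyEq h3).fderiv, ContinuousLinearMap.comp_apply,
    ContinuousLinearMap.comp_apply, hl]
  rfl

/-- The second derivatives of `Φ v = g⁻¹ G(g v) g - B'`. -/
theorem frame_two {G Φ : Vec n → Mat (n + 1)} (h2 : ContDiffOn ℝ 2 G (Cone n)) (g : SUGroup n)
    (B' : Mat (n + 1))
    (hΦ : ∀ v ∈ Cone n, Φ v = (g⁻¹).toMatrix * G (act g v) * g.toMatrix - B') {v : Vec n}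
    (hv : v ∈ Cone n) (w u : Vec n) :
    fderiv ℝ (fderiv ℝ Φ) v w u =
      (g⁻¹).toMatrix * fderiv ℝ (fderiv ℝ G) (act g v) (act g w) (act g u) * g.toMatrix := by
  obtain ⟨l, hl⟩ := exists_cjL g
  have hd : ContDiffAt ℝ 2 G (act g v) :=
    h2.contDiffAt ((isOpen_cone n).mem_nhds (act_mem g hv))
  have hD : DifferentiableAt ℝ (fderiv ℝ G) (act g v) :=
    (hd.fderiv_right (m := 1) (by norm_num)).differentiableAt (by norm_num)
  have h0 : HasFDerivAt (fun u => fderiv ℝ G (actL g u)) ((fderiv ℝ (fderiv ℝ G) (act g v)).comp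
      (actL g)) v :=
    HasFDerivAt.comp v (g := fderiv ℝ G) (f := fun u => actL g u) hD.hasFDerivAt
      (actL g).hasFDerivAt
  obtain ⟨K, hK⟩ : ∃ K : (Vec n →L[ℝ] Mat (n + 1)) →L[ℝ] (Vec n →L[ℝ] Mat (n + 1)), ∀ T,
      K T = l.comp (T.comp (actL g)) :=
    ⟨(ContinuousLinearMap.compL ℝ (Vec n) (Mat (n + 1)) (Mat (n + 1)) l).comp
      ((ContinuousLinearMap.compL ℝ (Vec n) (Vec n) (Mat (n + 1))).flip (actL g)), fun T => rfl⟩
  have h1 : HasFDerivAt (fun u => K (fderiv ℝ G (actL g u))) (K.comp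
      ((fderiv ℝ (fderiv ℝ G) (act g v)).comp (actL g))) v :=
    HasFDerivAt.comp v (g := fun T => K T) (f := fun u => fderiv ℝ G (actL g u)) K.hasFDerivAt h0
  have h3 : fderiv ℝ Φ =ᶠ[𝓝 v] fun u => K (fderiv ℝ G (actL g u)) := by
    filter_upwards [(isOpen_cone n).mem_nhds hv] with u hu
    ext1 w
    rw [frame_one h2 g B' hΦ hu, hK, ContinuousLinearMap.comp_apply,
      ContinuousLinearMap.comp_apply, hl]
    rfl
  rw [(h1.congr_of_eventuallyEq h3).fderiv, ContinuousLinearMap.comp_apply, hK,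
    ContinuousLinearMap.comp_apply, ContinuousLinearMap.comp_apply, hl]
  rfl

theorem ip_le_norm (A : Mat (n + 1)) : ip A A ≤ ((n : ℝ) + 1) ^ 2 * ‖A‖ ^ 2 := by
  have h0 : ∀ i j, ‖A i j‖ ≤ ‖A‖ := by
    intro i j
    have h := A.l2_opNorm_mulVec (WithLp.toLp 2 (Pi.single j (1 : ℂ)))
    have h3 := PiLp.norm_apply_le
      (WithLp.toLp 2 (A *ᵥ (Pi.single j (1 : ℂ)) : Fin (n + 1) → ℂ) : EuclideanSpace ℂ (Fin (n + 1))) i
    simp only [Matrix.mulVec_single_one, Matrix.col_apply] at h3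
    simp at h
    refine h3.trans ?_
    simpa using h
  rw [ip_self]
  calc ∑ i, ∑ j, ‖A i j‖ ^ 2 ≤ ∑ _i : Fin (n + 1), ∑ _j : Fin (n + 1), ‖A‖ ^ 2 :=
        Finset.sum_le_sum fun i _ => Finset.sum_le_sum fun j _ =>
          pow_le_pow_left₀ (norm_nonneg _) (h0 i j) 2
    _ = ((n : ℝ) + 1) ^ 2 * ‖A‖ ^ 2 := by
        simp only [Finset.sum_const, Finset.card_univ, Fintype.card_fin, nsmul_eq_mul]
        push_cast
        ring

theorem cont_sub {A B : SUGroup n → Mat (n + 1)} (hA : Continuous A) (hB : Continuous B) :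
    Continuous fun g => A g - B g := hA.sub hB

theorem cont_ip {A : SUGroup n → Mat (n + 1)} (hA : Continuous A) :
    Continuous fun g => ip (A g) (A g) := continuous_ip.comp (hA.prodMk hA)

theorem integrable_ip_sub {Γ : Subgroup (SUGroup n)} {χ : SUGroup n → ℝ} (h : Lat Γ χ)
    {A B : SUGroup n → Mat (n + 1)} (hA : Continuous A)
    (hB : Continuous B) (hiA : Integrable (fun g => χ g • ip (A g) (A g)) (mu n))
    (hiB : Integrable (fun g => χ g • ip (B g) (B g)) (mu n)) :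
    Integrable (fun g => χ g • ip (A g - B g) (A g - B g)) (mu n) := by
  have h1 := integrable_smul_mul (f := fun g => ip (A g) (A g)) 2 hiA
  have h2 := integrable_smul_mul (f := fun g => ip (B g) (B g)) 2 hiB
  have h3 := integrable_smul_add (f := fun g => 2 * ip (A g) (A g))
    (F := fun g => 2 * ip (B g) (B g)) h1 h2
  have h4 : Continuous fun g => ip (A g - B g) (A g - B g) := cont_ip (cont_sub hA hB)
  refine integrable_of_le h (f := fun g => ip (A g - B g) (A g - B g))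
    (F := fun g => 2 * ip (A g) (A g) + 2 * ip (B g) (B g)) h4 h3 fun g => ?_
  rw [abs_of_nonneg (ip_self_nonneg _)]
  exact ip_add_sq_le _ _

/-- Assembly. -/
theorem h1_tf (hn : 5 ≤ n) {Γ : Subgroup (SUGroup n)} {χ : SUGroup n → ℝ} (hL : Lat Γ χ)
    (hT : TF Γ) (hTor : Tor Γ) {κ : Γ → Mat (n + 1)} (hκ : Cocy Γ κ) :
    ∃ B : Mat (n + 1), B.trace = 0 ∧ ∀ x : Γ, κ x = B - cj (x : SUGroup n) B := by
  obtain ⟨N, C, F, hF⟩ := exists_bas (by omega) hL hT hTor hκ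
  obtain ⟨s₁, N', hs₁⟩ := exists_sol (by omega : 1 ≤ n) N
  obtain ⟨s₀, hs₀⟩ := exists_wgt hn hL hT hTor
  obtain ⟨s, hs⟩ : ∃ s, s = s₀ + s₁ + n + N' + 3 := ⟨_, rfl⟩
  obtain ⟨b, hb, hW⟩ := hs₀ s (by omega)
  obtain ⟨C', f, hS⟩ := hs₁ s (by omega) hκ hW (hF b hb)
  obtain ⟨W, hWd⟩ : ∃ W : Vec n → ℝ, W = fun v => hty Γ v ^ 2 + b := ⟨_, rfl⟩
  rw [← hWd] at hW hS
  have hss : n + N' + 2 < s := by omega
  have hsm := hS.smooth hss
  have hW0 : ∀ v ∈ Cone n, 0 ≤ W v := fun v hv => zero_le_one.trans (hW.one_le v hv)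
  obtain ⟨C₂, hC₂, hder⟩ := hS.der hss hW0
  obtain ⟨C₃, hC₃, hbd⟩ := Fm_bd n
  have hG : ContDiffOn ℝ (⊤ : ℕ∞) (Fm f) (Cone n) := contDiffOn_Fm hsm
  have hG2 : ContDiffOn ℝ 2 (Fm f) (Cone n) := hG.of_le (WithTop.coe_le_coe.2 (le_top : (2 : ℕ∞) ≤ ⊤))
  have hlap : ∀ v ∈ Cone n, Lap f v = ((n : ℝ) + 1) • f v := fun v hv => hS.lap hss hv
  have hact : ∀ g : SUGroup n, ContDiffOn ℝ (⊤ : ℕ∞) (fun w => f (act g w)) (Cone n) := fun g =>
    hsm.comp (actL g).contDiff.contDiffOn fun w hw => act_mem g hw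
  -- the values in the frame
  have hfr : ∀ (g : SUGroup n) (B : Mat (n + 1)), ∀ v ∈ Cone n,
      Fm (fun w => f (act g w) - fB B (act g w)) v =
        (g⁻¹).toMatrix * Fm f (act g v) * g.toMatrix - cj g⁻¹ B := by
    intro g B v hv
    have hB2 : ContDiffOn ℝ (⊤ : ℕ∞) (fun w => fB B (act g w)) (Cone n) :=
      (contDiffOn_fB B).comp (actL g).contDiff.contDiffOn fun w hw => act_mem g hw
    rw [Fm_sub (hact g) hB2 hv, Fm_act hsm g hv, Fm_act (contDiffOn_fB B) g hv,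
      Fm_fB B (act_mem g hv), cj, cj, inv_inv]
  have hbound : ∀ g : SUGroup n, ∀ a b : Ix n,
      ‖et (Fm f) b g‖ ≤ (C₃ * C₂ * ∑ c : Ix n, ‖HM.vec (xi c)‖) * W (act g (base n)) ∧
      ‖dd (Fm f) a b g‖ ≤
        (C₃ * C₂ * (∑ c : Ix n, ‖HM.vec (xi c)‖) ^ 2) * W (act g (base n)) := by
    intro g a b
    obtain ⟨B, -, hB⟩ := hder g
    have hcd : ContDiffOn ℝ (⊤ : ℕ∞) (fun w => f (act g w) - fB B (act g w)) (Cone n) :=
      (hact g).sub ((contDiffOn_fB B).comp (actL g).contDiff.contDiffOn fun w hw => act_mem g hw)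
    obtain ⟨h1, h2⟩ := hbd _ hcd _ hB
    have hx : ∀ c : Ix n, ‖HM.vec (xi c)‖ ≤ ∑ c : Ix n, ‖HM.vec (xi c)‖ := fun c =>
      Finset.single_le_sum (f := fun c : Ix n => ‖HM.vec (xi c)‖) (fun c _ => norm_nonneg _)
        (Finset.mem_univ c)
    have hM : 0 ≤ C₂ * W (act g (base n)) := mul_nonneg hC₂ (hW0 _ (orbit_mem g))
    have hX0 : 0 ≤ ∑ c : Ix n, ‖HM.vec (xi c)‖ := Finset.sum_nonneg fun c _ => norm_nonneg _
    constructor
    · rw [et, ← frame_one hG2 g _ (hfr g B) (base_mem n)]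
      calc ‖_‖ ≤ ‖fderiv ℝ (Fm fun w => f (act g w) - fB B (act g w)) (base n)‖ * ‖HM.vec (xi b)‖ :=
            ContinuousLinearMap.le_opNorm _ _
        _ ≤ (C₃ * (C₂ * W (act g (base n)))) * ∑ c : Ix n, ‖HM.vec (xi c)‖ :=
            mul_le_mul h1 (hx b) (norm_nonneg _) (mul_nonneg hC₃ hM)
        _ = _ := by ring
    · rw [dd, ← frame_two hG2 g _ (hfr g B) (base_mem n)]
      calc ‖_‖ ≤ ‖fderiv ℝ (fderiv ℝ (Fm fun w => f (act g w) - fB B (act g w))) (base n)‖ *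
              ‖HM.vec (xi a)‖ * ‖HM.vec (xi b)‖ := ContinuousLinearMap.le_opNorm₂ _ _ _
        _ ≤ (C₃ * (C₂ * W (act g (base n)))) * (∑ c : Ix n, ‖HM.vec (xi c)‖) *
              ∑ c : Ix n, ‖HM.vec (xi c)‖ :=
            mul_le_mul (mul_le_mul h2 (hx a) (norm_nonneg _) (mul_nonneg hC₃ hM)) (hx b)
              (norm_nonneg _) (mul_nonneg (mul_nonneg hC₃ hM) hX0)
        _ = _ := by ring
  -- integrability
  have hint : ∀ (A : SUGroup n → Mat (n + 1)) (K : ℝ), Continuous A →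
      (∀ g, ‖A g‖ ≤ K * W (act g (base n))) →
      Integrable (fun g => χ g • ip (A g) (A g)) (mu n) := by
    intro A K hA hK
    refine integrable_of_le hL (F := fun g => (((n : ℝ) + 1) ^ 2 * K ^ 2) *
      W (act g (base n)) ^ 2) (continuous_ip.comp (hA.prodMk hA))
      (integrable_smul_mul _ (by simpa only [smul_eq_mul] using hW.int)) fun g => ?_
    rw [abs_of_nonneg (ip_self_nonneg _)]
    refine (ip_le_norm _).trans ?_
    calc ((n : ℝ) + 1) ^ 2 * ‖A g‖ ^ 2 ≤ ((n : ℝ) + 1) ^ 2 * (K * W (act g (base n))) ^ 2 :=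
          mul_le_mul_of_nonneg_left (pow_le_pow_left₀ (norm_nonneg _) (hK g) 2) (sq_nonneg _)
      _ = _ := by ring
  have hi : ∀ b, Integrable (fun g => χ g • ip (et (Fm f) b g) (et (Fm f) b g)) (mu n) :=
    fun b => hint _ _ (continuous_et hG2 b) fun g => (hbound g b b).1
  have hi2 : ∀ a b, Integrable (fun g => χ g • ip (dd (Fm f) a b g) (dd (Fm f) a b g)) (mu n) :=
    fun a b => hint _ _ (continuous_dd hG2 a b) fun g => (hbound g a b).2
  have hi' : ∀ a b, Integrable (fun g => χ g • ip (ett (Fm f) a b g) (ett (Fm f) a b g))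
      (mu n) := by
    intro a b
    exact integrable_ip_sub hL (continuous_dd hG2 a b) ((continuous_cm _).comp
      (continuous_et hG2 b)) (hi2 a b) (integrable_cm hL (Xa a) (continuous_et hG2 b) (hi b))
  -- equivariance
  classical
  obtain ⟨κ', hκ'⟩ : ∃ κ' : SUGroup n → Mat (n + 1), ∀ γ : Γ, κ' γ = κ γ :=
    ⟨fun g => if h : g ∈ Γ then κ ⟨g, h⟩ else 0, fun γ => by simp⟩
  have hA : Aff Γ κ' (Fm f) := by
    intro γ hγ v hv
    have e1 : ∀ w ∈ Cone n, f (act γ w) = f w + fB (cj γ⁻¹ (κ ⟨γ, hγ⟩)) w := by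
      intro w hw
      rw [hS.eq ⟨γ, hγ⟩ w hw, fB_act]
    have e2 := Fm_congr e1 hv
    rw [Fm_act hsm γ hv, Fm_add hsm (contDiffOn_fB _) hv, Fm_fB _ hv] at e2
    have e3 : ∀ A : Mat (n + 1), cj γ (cj γ⁻¹ A) = A := fun A => by
      rw [cj_cj, mul_inv_cancel, cj_one]
    have e4 : Fm f (act γ v) = cj γ (Fm f v + cj γ⁻¹ (κ ⟨γ, hγ⟩)) := by
      rw [← e2, e3]
    rw [e4, hκ' ⟨γ, hγ⟩]
    rw [show cj γ (Fm f v + cj γ⁻¹ (κ ⟨γ, hγ⟩)) = cj γ (Fm f v) + cj γ (cj γ⁻¹ (κ ⟨γ, hγ⟩)) by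
      simp only [cj, Matrix.mul_add, Matrix.add_mul], e3, cj]
  have hcl : ∀ g, ∑ a, (cm (Xa a) (et (Fm f) a g) - ett (Fm f) a a g) = 0 := by
    intro g
    have hl2 : ∀ v ∈ Cone n, Lap (fun w => f (act g w)) v = ((n : ℝ) + 1) • f (act g v) := by
      intro v hv
      rw [← hlap _ (act_mem g hv)]
      exact lap_act f g hv ((hsm.of_le (WithTop.coe_le_coe.2 (le_top : (2 : ℕ∞) ≤ ⊤))).contDiffAt
        ((isOpen_cone n).mem_nhds (act_mem g hv)))
    have h5 := Fm_div (hact g) (fun c hc v hv => by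
      show f (act g (c • v)) = f (act g v)
      rw [act_smul]
      exact hS.hom c hc _ (act_mem g hv)) hl2
    have hfr' : ∀ v ∈ Cone n, Fm (fun w => f (act g w)) v =
        (g⁻¹).toMatrix * Fm f (act g v) * g.toMatrix - 0 := by
      intro v hv
      rw [Fm_act hsm g hv, cj, inv_inv, sub_zero]
    have h6 := Lg_eq (Fm f) g
    rw [Lg] at h6
    rw [h6, ← neg_eq_zero, ← Finset.sum_neg_distrib, ← h5]
    refine Finset.sum_congr rfl fun a _ => ?_
    rw [frame_two hG2 g 0 hfr' (base_mem n), frame_one hG2 g 0 hfr' (base_mem n), et, dd]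
    abel
  obtain ⟨B, hB0, hB⟩ := cob_of_aff (by omega : 2 ≤ n) hL (Fm_homog hsm hS.hom) hG2
    (fun v hv => Fm_trace hsm hS.hom hlap hv) hA hcl hi hi'
  exact ⟨B, hB0, fun x => by rw [← hκ' x, hB x x.2, cj]⟩

end Pool.Agent.Lib.MP_5d4057_al.WR
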